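import Pool.Agent.MP_76b292_lc.BVDefs

/-!
Names for the basic constructions: separation, pairs, graphs, natural numbers, points of a type,
normal forms, and comparison of sizes through Boolean-valued relations.
-/

set_option autoImplicit false

universe u v

namespace Pool.Agent.MP_76b292_lc

namespace BSet

variable {B : Type u} [CompleteBooleanAlgebra B] {b : B} {x y z a c p : BSet B}

lemma ext_of_bi {φ : BSet B → B} (h : ∀ x y b, b ≤ beq x y → b ≤ bi (φ x) (φ y)) : Ext φ :=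
  fun x y b h1 h2 => bi_mp (h x y b h1) h2

lemma sub_intro (h : ∀ z, ∀ c ≤ b, c ≤ bmem z x → c ≤ bmem z y) : b ≤ bsub x y :=
  le_iInf fun z => himp_intro (h z)

lemma sub_elim (h : b ≤ bsub x y) (h' : b ≤ bmem z x) : b ≤ bmem z y := mp (iInf_elim h z) h'

lemma sub_of_idx (h : ∀ i, ∀ c ≤ b, c ≤ x.β i → c ≤ bmem (x.A i) y) : b ≤ bsub x y :=
  sub_intro fun _ _ k1 k2 => mem_elim k2 fun i d l1 l2 l3 =>
    mem_congr_left (beq_symm l3) (h i d (l1.trans k1) l2)

lemma sub_refl : b ≤ bsub x x := sub_intro fun _ _ _ h => h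

lemma sub_trans (h1 : b ≤ bsub x y) (h2 : b ≤ bsub y z) : b ≤ bsub x z :=
  sub_intro fun _ _ k1 k2 => sub_elim (k1.trans h2) (sub_elim (k1.trans h1) k2)

lemma beq_of_sub (h1 : b ≤ bsub x y) (h2 : b ≤ bsub y x) : b ≤ beq x y :=
  beq_ext (fun _ _ k1 k2 => sub_elim (k1.trans h1) k2) (fun _ _ k1 k2 => sub_elim (k1.trans h2) k2)

/-- separation -/
def sep (x : BSet B) (φ : BSet B → B) : BSet B := ⟨x.ι, x.A, fun i => x.β i ⊓ φ (x.A i)⟩

lemma mem_sep {φ : BSet B → B} (hφ : Ext φ) : b ≤ bmem z (sep x φ) ↔ b ≤ bmem z x ∧ b ≤ φ z := by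
  constructor
  · intro h
    exact ⟨mem_elim h (fun i _ _ h2 h3 => mem_intro (x := x) i (inf_l h2) h3),
      mem_elim h (fun i c _ h2 h3 => hφ _ _ c (beq_symm h3) (inf_r h2))⟩
  · rintro ⟨h1, h2⟩
    exact mem_elim h1 (fun i c k1 k2 k3 =>
      mem_intro (x := sep x φ) i (le_inf k2 (hφ _ _ c k3 (k1.trans h2))) k3)

/-- unordered pair -/
def upair (a c : BSet B) : BSet B := ⟨ULift Bool, fun i => cond i.down a c, fun _ => ⊤⟩

lemma mem_upair : b ≤ bmem z (upair a c) ↔ b ≤ beq z a ⊔ beq z c := by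
  constructor
  · intro h
    refine mem_elim h ?_
    rintro ⟨_ | _⟩ d _ _ h3
    · exact sup_r h3
    · exact sup_l h3
  · intro h
    exact sup_elim h (fun d _ k => mem_intro (x := upair a c) ⟨true⟩ le_top k)
      (fun d _ k => mem_intro (x := upair a c) ⟨false⟩ le_top k)

lemma upair_spec : b ≤ ⨅ w, bi (bmem w (upair a c)) (beq w a ⊔ beq w c) :=
  le_iInf fun _ => bi_intro (fun _ _ h => mem_upair.1 h) (fun _ _ h => mem_upair.2 h)

lemma single_spec : b ≤ ⨅ w, bi (bmem w (upair a a)) (beq w a) := by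
  simpa only [sup_idem] using (upair_spec (b := b) (a := a) (c := a))

lemma eq_of_spec {φ : BSet B → B} (h1 : b ≤ ⨅ w, bi (bmem w x) (φ w))
    (h2 : b ≤ ⨅ w, bi (bmem w y) (φ w)) : b ≤ beq x y :=
  beq_ext (fun w _ k l => bi_mpr (k.trans (iInf_elim h2 w)) (bi_mp (k.trans (iInf_elim h1 w)) l))
    (fun w _ k l => bi_mpr (k.trans (iInf_elim h1 w)) (bi_mp (k.trans (iInf_elim h2 w)) l))

lemma spec_of_eq {φ : BSet B → B} (h1 : b ≤ beq x y) (h2 : b ≤ ⨅ w, bi (bmem w y) (φ w)) :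
    b ≤ ⨅ w, bi (bmem w x) (φ w) :=
  bi_mpr (bi_iInf fun _ => bi_bi (bi_mem (beq_refl _) h1) bi_refl) h2

/-- ordered pair -/
def op (a c : BSet B) : BSet B := upair (upair a a) (upair a c)

lemma pair_op : b ≤ bpair a c (op a c) :=
  le_iInf fun _ => bi_intro
    (fun _ _ h => sup_elim (mem_upair.1 h) (fun _ _ k => sup_l (spec_of_eq k single_spec))
      (fun _ _ k => sup_r (spec_of_eq k upair_spec)))
    (fun _ _ h => mem_upair.2 (sup_elim h (fun _ _ k => sup_l (eq_of_spec k single_spec))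
      (fun _ _ k => sup_r (eq_of_spec k upair_spec))))

lemma pair_aux {a' c' : BSet B} (h : b ≤ bpair a c p) (h' : b ≤ bpair a' c' p) :
    b ≤ beq a' a ∧ b ≤ beq c a' ⊔ beq c c' := by
  constructor
  · have h1 : b ≤ bmem (upair a a) p := bi_mpr (iInf_elim h _) (sup_l single_spec)
    have h2 : b ≤ bmem a' (upair a a) := sup_elim (bi_mp (iInf_elim h' _) h1)
      (fun _ _ k => bi_mpr (iInf_elim k a') (beq_refl _))
      (fun _ _ k => bi_mpr (iInf_elim k a') (sup_l (beq_refl _)))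
    simpa only [sup_idem] using mem_upair.1 h2
  · have h1 : b ≤ bmem (upair a c) p := bi_mpr (iInf_elim h _) (sup_r upair_spec)
    have h2 : b ≤ bmem c (upair a c) := mem_upair.2 (sup_r (beq_refl _))
    exact sup_elim (bi_mp (iInf_elim h' _) h1)
      (fun _ l k => sup_l (bi_mp (iInf_elim k c) (l.trans h2)))
      (fun _ l k => bi_mp (iInf_elim k c) (l.trans h2))

lemma pair_inj {a' c' : BSet B} (h : b ≤ bpair a c p) (h' : b ≤ bpair a' c' p) :
    b ≤ beq a a' ∧ b ≤ beq c c' := by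
  obtain ⟨h1, h2⟩ := pair_aux h h'
  obtain ⟨h3, h4⟩ := pair_aux h' h
  refine ⟨h3, sup_elim h2 (fun d k1 k2 => ?_) (fun _ _ k => k)⟩
  refine sup_elim (k1.trans h4) (fun e l1 l2 => ?_) (fun _ _ l => beq_symm l)
  exact beq_trans (l1.trans k2) (beq_trans ((l1.trans k1).trans h1) (beq_symm l2))

/-- the graph of a Boolean-valued relation between index types -/
def gr {ι κ : Type u} (A : ι → BSet B) (A' : κ → BSet B) (e : ι → κ → B) : BSet B :=
  ⟨ι × κ, fun p => op (A p.1) (A' p.2), fun p => e p.1 p.2⟩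

lemma app_congr {f f' a' c' : BSet B} (h1 : b ≤ beq f f') (h2 : b ≤ beq a a') (h3 : b ≤ beq c c')
    (h : b ≤ bapp f a c) : b ≤ bapp f' a' c' := bi_mp (bi_app h1 h2 h3) h

lemma app_gr_intro {ι κ : Type u} {A : ι → BSet B} {A' : κ → BSet B} {e : ι → κ → B} (i : ι)
    (j : κ) (h : b ≤ e i j) (h1 : b ≤ beq a (A i)) (h2 : b ≤ beq c (A' j)) :
    b ≤ bapp (gr A A' e) a c :=
  app_congr (beq_refl _) (beq_symm h1) (beq_symm h2)
    (iSup_intro (op (A i) (A' j)) (le_inf (mem_self (x := gr A A' e) (i, j) h) pair_op))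

lemma app_gr_elim {ι κ : Type u} {A : ι → BSet B} {A' : κ → BSet B} {e : ι → κ → B} {v : B}
    (h : b ≤ bapp (gr A A' e) a c)
    (h' : ∀ i j, ∀ d ≤ b, d ≤ e i j → d ≤ beq a (A i) → d ≤ beq c (A' j) → d ≤ v) : b ≤ v := by
  refine iSup_elim h (fun p d k1 k2 => mem_elim (inf_l k2) (fun q e' l1 l2 l3 => ?_))
  have := pair_inj (bi_mp (bi_pair (beq_refl _) (beq_refl _) l3) (l1.trans (inf_r k2)))
    (pair_op (a := A q.1) (c := A' q.2))
  exact h' q.1 q.2 e' (l1.trans k1) l2 this.1 this.2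

lemma fn_total {f : BSet B} (h : b ≤ bfn f x y) (h' : b ≤ bmem a x) :
    b ≤ ⨆ c, bmem c y ⊓ bapp f a c := mp (iInf_elim (inf_l h) a) h'

lemma fn_unique {f c' : BSet B} (h : b ≤ bfn f x y) (h1 : b ≤ bapp f a c) (h2 : b ≤ bapp f a c') :
    b ≤ beq c c' := mp (mp (iInf_elim (iInf_elim (iInf_elim (inf_r h) a) c) c') h1) h2

/-- extensional relations -/
def Ext₂ (R : BSet B → BSet B → B) : Prop :=
  ∀ x x' y y' b, b ≤ beq x x' → b ≤ beq y y' → b ≤ R x y → b ≤ R x' y'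

/-- uniformisation of a relation by a function -/
lemma exists_fn (x y : BSet B) {R : BSet B → BSet B → B} (hR : Ext₂ R) : ∃ f : BSet B,
    (∀ a c b, b ≤ bapp f a c → b ≤ bmem a x ∧ b ≤ bmem c y ∧ b ≤ R a c) ∧
    (∀ a c c' b, b ≤ bapp f a c → b ≤ bapp f a c' → b ≤ beq c c') ∧
    ∀ a c b, b ≤ bmem a x → b ≤ bmem c y → b ≤ R a c → b ≤ ⨆ c', bmem c' y ⊓ bapp f a c' := by
  refine ⟨gr x.A y.A (fun i j => x.β i ⊓ lst (fun j => y.β j ⊓ R (x.A i) (y.A j)) j),
    fun a c b h => ⟨?_, ?_, ?_⟩, fun a c c' b h h' => ?_, fun a c b h1 h2 h3 => ?_⟩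
  · exact app_gr_elim h (fun i j d _ k1 k2 _ => mem_intro i (inf_l k1) k2)
  · exact app_gr_elim h (fun i j d _ k1 _ k3 =>
      mem_intro j (inf_l ((inf_r k1).trans (lst_le _ _))) k3)
  · exact app_gr_elim h (fun i j d _ k1 k2 k3 =>
      hR _ _ _ _ d (beq_symm k2) (beq_symm k3) (inf_r ((inf_r k1).trans (lst_le _ _))))
  · refine app_gr_elim h (fun i j d k0 k1 k2 k3 => app_gr_elim (k0.trans h')
      (fun i' j' e l0 l1 l2 l3 => ?_))
    by_cases hj : j = j'
    · subst hj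
      exact beq_trans (l0.trans k3) (beq_symm l3)
    · have hii : e ≤ beq (x.A i) (x.A i') := beq_trans (beq_symm (l0.trans k2)) l2
      refine lst_unique (lst_congr (fun j g m1 m2 => ?_) (fun j g m1 m2 => ?_)
        (l0.trans (inf_r k1))) (inf_r l1) hj
      · exact le_inf (inf_l m2) (hR _ _ _ _ g (m1.trans hii) (beq_refl _) (inf_r m2))
      · exact le_inf (inf_l m2) (hR _ _ _ _ g (beq_symm (m1.trans hii)) (beq_refl _) (inf_r m2))
  · refine mem_elim h1 (fun i d k0 k1 k2 => mem_elim (k0.trans h2) (fun j e l0 l1 l2 => ?_))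
    have m1 : e ≤ y.β j ⊓ R (x.A i) (y.A j) :=
      le_inf l1 (hR _ _ _ _ e (l0.trans k2) l2 ((l0.trans k0).trans h3))
    refine iSup_elim (m1.trans (le_iSup_lst (fun j => y.β j ⊓ R (x.A i) (y.A j)) j))
      (fun j' g n0 n1 => iSup_intro (y.A j') (le_inf ?_ ?_))
    · exact mem_self j' (inf_l (n1.trans (lst_le _ _)))
    · exact app_gr_intro i j' (le_inf ((n0.trans l0).trans k1) n1) ((n0.trans l0).trans k2)
        (beq_refl _)

/-- a total injective relation compares sizes -/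
lemma le_of_rel {R : BSet B → BSet B → B} (hR : Ext₂ R)
    (h1 : ∀ a, ∀ d ≤ b, d ≤ bmem a x → d ≤ ⨆ c, bmem c y ⊓ R a c)
    (h2 : ∀ a a' c, ∀ d ≤ b, d ≤ bmem a x → d ≤ bmem a' x → d ≤ bmem c y → d ≤ R a c →
      d ≤ R a' c → d ≤ beq a a') : b ≤ ble x y := by
  obtain ⟨f, k1, k2, k3⟩ := exists_fn x y hR
  refine iSup_intro f (le_inf (le_inf (le_iInf fun a => himp_intro fun d l1 l2 => ?_)
    (le_iInf fun a => le_iInf fun c => le_iInf fun c' => himp_intro fun d _ l2 =>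
      himp_intro fun e m1 m2 => k2 a c c' e (m1.trans l2) m2))
    (le_iInf fun a => le_iInf fun a' => le_iInf fun c => himp_intro fun d l1 l2 =>
      himp_intro fun e m1 m2 => ?_))
  · exact iSup_elim (h1 a d l1 l2) (fun c e m1 m2 => k3 a c e (m1.trans l2) (inf_l m2) (inf_r m2))
  · obtain ⟨n1, n2, n3⟩ := k1 a c e (m1.trans l2)
    obtain ⟨n4, -, n5⟩ := k1 a' c e m2
    exact h2 a a' c e (m1.trans l1) n1 n4 n2 n3 n5

lemma exists_of_le (h : b ≤ ble x y) : ∃ f, b ≤ bfn f x y ∧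
    ∀ a a' c, ∀ d ≤ b, d ≤ bapp f a c → d ≤ bapp f a' c → d ≤ beq a a' := by
  obtain ⟨f, hf⟩ := exists_of_le_iSup (ext_of_bi (fun f f' d k => by
    with_reducible repeat' first
      | exact bi_refl | assumption | exact beq_refl _ | refine bi_iInf (fun _ => ?_)
      | apply bi_inf | apply bi_himp | apply bi_fn | apply bi_app)) h
  exact ⟨f, inf_l hf, fun a a' c d k1 k2 k3 =>
    mp (mp (k1.trans (iInf_elim (iInf_elim (iInf_elim (inf_r hf) a) a') c)) k2) k3⟩

lemma le_of_sub (h : b ≤ bsub x y) : b ≤ ble x y :=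
  le_of_rel (R := beq) (fun _ _ _ _ _ h1 h2 h3 => bi_mp (bi_eq h1 h2) h3)
    (fun a _ k1 k2 => iSup_intro a (le_inf (sub_elim (k1.trans h) k2) (beq_refl _)))
    (fun _ _ _ _ _ _ _ _ k1 k2 => beq_trans k1 (beq_symm k2))

lemma ble_refl : b ≤ ble x x := le_of_sub sub_refl

lemma ble_trans (h : b ≤ ble x y) (h' : b ≤ ble y z) : b ≤ ble x z := by
  obtain ⟨f, k1, k2⟩ := exists_of_le h
  obtain ⟨g, l1, l2⟩ := exists_of_le h'
  refine le_of_rel (R := fun a c => ⨆ w, bapp f a w ⊓ bapp g w c)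
    (fun _ _ _ _ _ h1 h2 h3 => bi_mp (bi_iSup fun _ => bi_inf (bi_app (beq_refl _) h1 (beq_refl _))
      (bi_app (beq_refl _) (beq_refl _) h2)) h3) (fun a d m1 m2 => ?_)
    (fun a a' c d m1 _ _ _ m2 m3 => ?_)
  · refine iSup_elim (fn_total (m1.trans k1) m2) (fun w e n1 n2 => ?_)
    refine iSup_elim (fn_total ((n1.trans m1).trans l1) (inf_l n2)) (fun c g' o1 o2 => ?_)
    exact iSup_intro c (le_inf (inf_l o2) (iSup_intro w (le_inf (o1.trans (inf_r n2)) (inf_r o2))))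
  · refine iSup_elim m2 (fun w e n1 n2 => iSup_elim (n1.trans m3) (fun w' g' o1 o2 => ?_))
    have q1 : g' ≤ b := (o1.trans n1).trans m1
    have q2 := l2 w w' c g' q1 (o1.trans (inf_r n2)) (inf_r o2)
    exact k2 a a' w' g' q1 (app_congr (beq_refl _) (beq_refl _) q2 (o1.trans (inf_l n2))) (inf_l o2)

/-! foundation -/

lemma found_aux (x a : BSet B) : bmem a x ≤ ⨆ y, bmem y x ⊓ ⨅ z, bmem z y ⇨ (bmem z x)ᶜ := by
  induction a with
  | mk ι A β ih =>
    refine bcases (⨅ z, bmem z (mk ι A β) ⇨ (bmem z x)ᶜ) (fun c h1 h2 => iSup_intro _ (le_inf h1 h2))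
      (fun c _ h2 => iSup_elim (compl_iInf_elim h2) (fun z d _ k => ?_))
    rw [compl_himp, sdiff_eq, compl_compl] at k
    exact mem_elim (inf_l k) (fun i e l1 _ l3 =>
      (mem_congr_left l3 (l1.trans (inf_r k))).trans (ih i))

lemma not_mem_self (h : b ≤ bmem x x) : b ≤ ⊥ := by
  have h1 : b ≤ bmem x (upair x x) := mem_upair.2 (sup_l (beq_refl _))
  refine iSup_elim (h1.trans (found_aux _ _)) (fun y c k1 k2 => ?_)
  have h2 : c ≤ beq y x := by simpa only [sup_idem] using mem_upair.1 (inf_l k2)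
  exact compl_elim (k1.trans h1)
    (mp (iInf_elim (inf_r k2) x) (mem_congr_right (beq_symm h2) (k1.trans h)))

/-! natural numbers and points -/

/-- successor -/
def bsucc (x : BSet B) : BSet B := ⟨Option x.ι, fun o => o.elim x x.A, fun o => o.elim ⊤ x.β⟩

lemma mem_bsucc : b ≤ bmem z (bsucc x) ↔ b ≤ bmem z x ⊔ beq z x := by
  constructor
  · intro h
    refine mem_elim h ?_
    rintro (_ | i) d _ h2 h3
    · exact sup_r h3
    · exact sup_l (mem_intro i h2 h3)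
  · intro h
    exact sup_elim h (fun d _ k => mem_elim k (fun i e _ l2 l3 =>
      mem_intro (x := bsucc x) (some i) l2 l3))
      (fun d _ k => mem_intro (x := bsucc x) none le_top k)

/-- the empty name -/
def bempty : BSet B := ⟨PEmpty, PEmpty.elim, PEmpty.elim⟩

lemma not_mem_empty (h : b ≤ bmem z bempty) : b ≤ ⊥ := mem_elim h (fun i => PEmpty.elim i)

/-- names of natural numbers -/
def nat : ℕ → BSet B
  | 0 => bempty
  | n + 1 => bsucc (nat n)

lemma nat_mem_nat {n m : ℕ} (h : n < m) : b ≤ bmem (nat n) (nat m) := by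
  induction m with
  | zero => omega
  | succ m ih =>
    rcases Nat.lt_succ_iff_lt_or_eq.1 h with h | rfl
    · exact mem_bsucc.2 (sup_l (ih h))
    · exact mem_bsucc.2 (sup_r (beq_refl _))

lemma nat_ne {n m : ℕ} (h : n ≠ m) (h' : b ≤ beq (nat n) (nat m)) : b ≤ ⊥ := by
  rcases lt_or_gt_of_ne h with h | h
  · exact not_mem_self (mem_congr_left h' (nat_mem_nat h))
  · exact not_mem_self (mem_congr_left (beq_symm h') (nat_mem_nat h))

/-- the name of `ω` -/
def om : BSet B := ⟨ULift ℕ, fun n => nat n.down, fun _ => ⊤⟩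

lemma ind_om : b ≤ bind om := by
  refine le_inf (iSup_intro bempty (le_inf (mem_self (x := om) ⟨0⟩ le_top)
    (le_iInf fun z => compl_intro fun _ _ h => not_mem_empty h)))
    (le_iInf fun n => himp_intro fun c _ h => mem_elim h (fun i d _ _ k => ?_))
  refine iSup_intro (nat (i.down + 1)) (le_inf (mem_self (x := om) ⟨i.down + 1⟩ le_top)
    (le_iInf fun z => bi_mpr (bi_bi bi_refl (bi_sup (bi_mem (beq_refl _) k) (bi_eq (beq_refl _) k)))
      (bi_intro (fun _ _ l => mem_bsucc.1 l) (fun _ _ l => mem_bsucc.2 l))))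

lemma om_sub_of_ind (h : b ≤ bind x) : b ≤ bsub om x := by
  have : ∀ n, b ≤ bmem (nat n) x := by
    intro n
    induction n with
    | zero =>
      refine iSup_elim (inf_l h) (fun e c _ k => mem_congr_left ?_ (inf_l k))
      exact beq_ext (fun z d l1 l2 => compl_elim l2 (l1.trans (iInf_elim (inf_r k) z)))
        (fun z d _ l2 => (not_mem_empty l2).trans bot_le)
    | succ n ih =>
      refine iSup_elim (mp (iInf_elim (inf_r h) (nat n)) ih) (fun m c _ k =>
        mem_congr_left ?_ (inf_l k))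
      exact eq_of_spec (inf_r k)
        (le_iInf fun _ => bi_intro (fun _ _ l => mem_bsucc.1 l) (fun _ _ l => mem_bsucc.2 l))
  exact sub_of_idx (fun i c k _ => k.trans (this i.down))

lemma omega_om : b ≤ bomega om :=
  le_inf ind_om (le_iInf fun _ => himp_intro fun _ _ h => om_sub_of_ind h)

lemma eq_om (h : b ≤ bomega x) : b ≤ beq x om :=
  beq_of_sub (mp (iInf_elim (inf_r h) om) ind_om) (om_sub_of_ind (inf_l h))

/-- names of the points of a type -/
noncomputable def pt {T : Type u} : T → BSet B :=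
  (IsWellFounded.wf (r := (WellOrderingRel : T → T → Prop))).fix
    (fun t r => ⟨{s // WellOrderingRel s t}, fun s => r s.1 s.2, fun _ => ⊤⟩)

lemma pt_eq {T : Type u} (t : T) :
    (pt t : BSet B) = ⟨{s // WellOrderingRel s t}, fun s => pt s.1, fun _ => ⊤⟩ := by
  rw [pt, WellFounded.fix_eq]

lemma pt_ne {T : Type u} {s t : T} (h : s ≠ t) (h' : b ≤ beq (pt s) (pt t)) : b ≤ ⊥ := by
  have key : ∀ s t : T, WellOrderingRel s t → b ≤ bmem (pt s) (pt t) := by
    intro s t hst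
    rw [pt_eq t]
    exact mem_self (x := ⟨{s // WellOrderingRel s t}, fun s => pt s.1, fun _ => ⊤⟩) ⟨s, hst⟩ le_top
  rcases trichotomous_of WellOrderingRel s t with k | k | k
  · exact not_mem_self (mem_congr_left h' (key _ _ k))
  · exact (h k).elim
  · exact not_mem_self (mem_congr_left (beq_symm h') (key _ _ k))

/-- distinct indices name distinct elements -/
def Dist {ι : Type u} (A : ι → BSet B) (β : ι → B) : Prop :=
  ∀ i j b, i ≠ j → b ≤ β i → b ≤ β j → b ≤ beq (A i) (A j) → b ≤ ⊥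

lemma dist_pt {T : Type u} (β : T → B) : Dist pt β := fun _ _ _ h _ _ h' => pt_ne h h'

lemma dist_nat (β : ULift.{u} ℕ → B) : Dist (fun n => nat n.down) β :=
  fun _ _ _ h _ _ h' => nat_ne (fun e => h (ULift.ext _ _ e)) h'

lemma Dist.mono {ι : Type u} {A : ι → BSet B} {β β' : ι → B} (h : Dist A β) (h' : ∀ i, β' i ≤ β i) :
    Dist A β' := fun i j b h1 h2 h3 h4 => h i j b h1 (h2.trans (h' i)) (h3.trans (h' j)) h4

/-- normal form of a name -/
lemma exists_nf (x : BSet B) : ∃ (ι : Type u) (A : ι → BSet B) (β : ι → B), Dist A β ∧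
    ∀ b, b ≤ beq x ⟨ι, A, β⟩ := by
  refine ⟨x.ι, x.A, fun i => lst (fun j => x.β j ⊓ beq (x.A i) (x.A j)) i,
    fun i j b h1 h2 h3 h4 => ?_, fun b => beq_of_idx (fun i c _ k => ?_) (fun i c _ k => ?_)⟩
  · refine lst_unique (lst_congr (fun k c l1 l2 => ?_) (fun k c l1 l2 => ?_) h2) h3 h1
    · exact le_inf (inf_l l2) (beq_trans (beq_symm (l1.trans h4)) (inf_r l2))
    · exact le_inf (inf_l l2) (beq_trans (l1.trans h4) (inf_r l2))
  · refine iSup_elim ((le_inf k (beq_refl _)).trans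
      (le_iSup_lst (fun j => x.β j ⊓ beq (x.A i) (x.A j)) i)) (fun j d _ l => ?_)
    have l2 : d ≤ beq (x.A i) (x.A j) := inf_r (l.trans (lst_le _ _))
    refine mem_intro (x := ⟨x.ι, x.A, fun i => lst (fun j => x.β j ⊓ beq (x.A i) (x.A j)) i⟩) j
      (lst_congr (g := fun k => x.β k ⊓ beq (x.A j) (x.A k))
        (fun k c l1 l3 => ?_) (fun k c l1 l3 => ?_) l) l2
    · exact le_inf (inf_l l3) (beq_trans (beq_symm (l1.trans l2)) (inf_r l3))
    · exact le_inf (inf_l l3) (beq_trans (l1.trans l2) (inf_r l3))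
  · exact mem_self (x := x) i
      (inf_l (k.trans (lst_le (fun j => x.β j ⊓ beq (x.A i) (x.A j)) i)))

lemma mem_nf {ι : Type u} {A : ι → BSet B} {β φ : ι → B} (hA : Dist A β) (hφ : ∀ i, φ i ≤ β i)
    {i : ι} (h1 : b ≤ β i) (h2 : b ≤ bmem (A i) ⟨ι, A, φ⟩) : b ≤ φ i := by
  refine mem_elim h2 (fun j c k1 k2 k3 => ?_)
  by_cases e : i = j
  · subst e
    exact k2
  · exact (hA i j c e (k1.trans h1) (k2.trans (hφ j)) k3).trans bot_le

/-- comparison of sizes from a relation between indices -/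
lemma le_of_idx {ι κ : Type u} {A : ι → BSet B} {β : ι → B} {A' : κ → BSet B} {β' : κ → B}
    (hA' : Dist A' β') (e : ι → κ → B) (h1 : ∀ i, ∀ c ≤ b, c ≤ β i → c ≤ ⨆ j, β' j ⊓ e i j)
    (h2 : ∀ i i' j, ∀ c ≤ b, c ≤ β i → c ≤ β i' → c ≤ β' j → c ≤ e i j → c ≤ e i' j →
      c ≤ beq (A i) (A i')) :
    b ≤ ble ⟨ι, A, β⟩ ⟨κ, A', β'⟩ := by
  refine le_of_rel
    (R := fun a c => ⨆ i, ⨆ j, β i ⊓ (β' j ⊓ (e i j ⊓ (beq a (A i) ⊓ beq c (A' j)))))
    (fun _ _ _ _ _ k1 k2 k3 => bi_mp (bi_iSup fun _ => bi_iSup fun _ => bi_inf bi_refl (bi_inf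
      bi_refl (bi_inf bi_refl (bi_inf (bi_eq k1 (beq_refl _)) (bi_eq k2 (beq_refl _)))))) k3)
    (fun a d k1 k2 => mem_elim k2 (fun i c l1 l2 l3 => ?_)) (fun a a' c d k1 _ _ _ k2 k3 => ?_)
  · refine iSup_elim (h1 i c (l1.trans k1) l2) (fun j g m1 m2 => iSup_intro (A' j) (le_inf ?_ ?_))
    · exact mem_self (x := ⟨κ, A', β'⟩) j (inf_l m2)
    · exact iSup_intro i (iSup_intro j (le_inf (m1.trans l2) (le_inf (inf_l m2) (le_inf (inf_r m2)
        (le_inf (m1.trans l3) (beq_refl _))))))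
  · refine iSup_elim k2 (fun i g l1 l2 => iSup_elim l2 (fun j g' m1 m2 =>
      iSup_elim ((m1.trans l1).trans k3) (fun i' h n1 n2 => iSup_elim n2 (fun j' h' o1 o2 => ?_))))
    have q0 : h' ≤ g' := o1.trans n1
    have q := q0.trans m2
    by_cases ej : j = j'
    · subst ej
      exact beq_trans (inf_l (inf_r (inf_r (inf_r q)))) (beq_trans
        (h2 i i' j h' ((q0.trans m1).trans (l1.trans k1)) (inf_l q) (inf_l o2) (inf_l (inf_r q))
          (inf_l (inf_r (inf_r q))) (inf_l (inf_r (inf_r o2))))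
        (beq_symm (inf_l (inf_r (inf_r (inf_r o2))))))
    · exact (hA' j j' h' ej (inf_l (inf_r q)) (inf_l (inf_r o2)) (beq_trans
        (beq_symm (inf_r (inf_r (inf_r (inf_r q))))) (inf_r (inf_r (inf_r (inf_r o2)))))).trans
        bot_le

/-- a relation between indices from a comparison of sizes -/
lemma idx_of_le {ι κ : Type u} {A : ι → BSet B} {β : ι → B} {A' : κ → BSet B} {β' : κ → B}
    (hA : Dist A β) (hA' : Dist A' β') (h : b ≤ ble ⟨ι, A, β⟩ ⟨κ, A', β'⟩) :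
    ∃ e : ι → κ → B, (∀ i, ∀ c ≤ b, c ≤ β i → c ≤ ⨆ j, β' j ⊓ e i j) ∧
      (∀ i i' j, ∀ c ≤ b, i ≠ i' → c ≤ e i j → c ≤ e i' j → c ≤ ⊥) ∧
      (∀ i j j', ∀ c ≤ b, j ≠ j' → c ≤ e i j → c ≤ e i j' → c ≤ ⊥) := by
  obtain ⟨f, h1, h2⟩ := exists_of_le h
  refine ⟨fun i j => β i ⊓ (β' j ⊓ bapp f (A i) (A' j)), fun i c k1 k2 => ?_,
    fun i i' j c k1 k2 k3 k4 => ?_, fun i j j' c k1 k2 k3 k4 => ?_⟩
  · refine iSup_elim (fn_total (k1.trans h1) (mem_self (x := ⟨ι, A, β⟩) i k2))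
      (fun w d l1 l2 => mem_elim (inf_l l2) (fun j g m1 m2 m3 => iSup_intro j ?_))
    exact le_inf m2 (le_inf ((m1.trans l1).trans k2) (le_inf m2
      (app_congr (beq_refl _) (beq_refl _) m3 (m1.trans (inf_r l2)))))
  · exact hA i i' c k2 (inf_l k3) (inf_l k4) (h2 _ _ _ c k1 (inf_r (inf_r k3)) (inf_r (inf_r k4)))
  · exact hA' j j' c k2 (inf_l (inf_r k3)) (inf_l (inf_r k4))
      (fn_unique (k1.trans h1) (inf_r (inf_r k3)) (inf_r (inf_r k4)))

end BSet

end Pool.Agent.MP_76b292_lc
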