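import Mathlib.ModelTheory.Graph
import Mathlib.Order.Filter.CardinalInter
import Mathlib.SetTheory.ZFC.Ordinal

/-!
Definitions for the problem on forcing axioms and indecomposable ultrafilters:
`H θ`, clubs of countable sets, the mapping reflection principle, indecomposable ultrafilters,
measurable cardinals and the statement (*).
-/

set_option autoImplicit false

universe u

open Cardinal FirstOrder

namespace Pool.Agent.MP_76b292_lc

/-- `H θ`: the sets whose transitive closure has size less than `θ`. -/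
def H (θ : Cardinal.{u}) : Set ZFSet.{u} :=
  {x | ∃ y : ZFSet.{u}, y.IsTransitive ∧ x ⊆ y ∧ y.card < θ}

/-- A class of sets as a structure for the language with one binary relation, read as `∈`. -/
@[reducible] def memStructure (A : Set ZFSet.{u}) : Language.graph.Structure A where
  RelMap | .adj => fun v => (v 0).1 ∈ (v 1).1

/-- `M` is (the universe of) an elementary substructure of `(A, ∈)`. -/
def Elem (A : Set ZFSet.{u}) (M : ZFSet.{u}) : Prop :=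
  letI := memStructure A
  ∃ S : Language.graph.ElementarySubstructure A, ∀ x : A, x ∈ S ↔ x.1 ∈ M

/-- `[A]^ω`: the countably infinite subsets of `A`. -/
def Ctbl (A : Set ZFSet.{u}) : Set ZFSet.{u} :=
  {N | (N : Set ZFSet.{u}) ⊆ A ∧ N.card = ℵ₀}

/-- `C` is a club in `[A]^ω`: cofinal and closed under unions of increasing `ω`-chains. -/
def Club (A C : Set ZFSet.{u}) : Prop :=
  C ⊆ Ctbl A ∧ (∀ Y ∈ Ctbl A, ∃ Z ∈ C, Y ⊆ Z) ∧
    ∀ f : ℕ → ZFSet.{u}, (∀ n, f n ∈ C) → (∀ n, f n ⊆ f (n + 1)) → ZFSet.iUnion f ∈ C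

/-- `S ⊆ [X]^ω` is open: a union of basic sets `{Y : x ⊆ Y ⊆ N}`, `x` finite. -/
def EOpen (X : ZFSet.{u}) (S : Set ZFSet.{u}) : Prop :=
  S ⊆ Ctbl X ∧ ∀ N ∈ S, ∃ x : ZFSet.{u}, x.card < ℵ₀ ∧ x ⊆ N ∧
    ∀ Y ∈ Ctbl X, x ⊆ Y → Y ⊆ N → Y ∈ S

/-- `S` is `M`-stationary: it meets inside `M` every club of `[X]^ω` that belongs to `M`. -/
def MStat (X M : ZFSet.{u}) (S : Set ZFSet.{u}) : Prop :=
  ∀ E ∈ M, Club X (E : Set ZFSet.{u}) → ∃ N ∈ E, N ∈ S ∧ N ∈ M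

/-- `F` with domain `D` is an open stationary set mapping for `X` and `θ`. -/
def OSM (X : ZFSet.{u}) (θ : Cardinal.{u}) (D : Set ZFSet.{u}) (F : ZFSet.{u} → Set ZFSet.{u}) :
    Prop :=
  ℵ₀ < X.card ∧ θ.IsRegular ∧ (∃ P ∈ H θ, (P : Set ZFSet.{u}) = Ctbl X) ∧ Club (H θ) D ∧
    ∀ M ∈ D, Elem (H θ) M ∧ X ∈ M ∧ EOpen X (F M) ∧ MStat X M (F M)

/-- `N` is a continuous `∈`-chain of length `ω₁` in `D` that reflects `F`. -/
def Reflects (X : ZFSet.{u}) (D : Set ZFSet.{u}) (F : ZFSet.{u} → Set ZFSet.{u})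
    (N : Ordinal.{0} → ZFSet.{u}) : Prop :=
  ∀ ν < Ordinal.omega 1, N ν ∈ D ∧ (∀ ξ < ν, N ξ ∈ N ν) ∧
    (Order.IsSuccLimit ν → (∀ x, x ∈ N ν ↔ ∃ ξ < ν, x ∈ N ξ) ∧
      ∃ ν₀ < ν, ∀ ξ, ν₀ < ξ → ξ < ν → N ξ ∩ X ∈ F (N ν))

/-- The mapping reflection principle. -/
def MRP : Prop :=
  ∀ (X : ZFSet.{u}) (θ : Cardinal.{u}) (D : Set ZFSet.{u}) (F : ZFSet.{u} → Set ZFSet.{u}),
    OSM X θ D F → ∃ N, Reflects X D F N

/-- `U` is uniform. -/
def Uniform {α : Type u} (U : Ultrafilter α) : Prop := ∀ A ∈ U, #A = #α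

/-- `U` is `#β`-decomposable. -/
def Decomposable {α : Type u} (U : Ultrafilter α) (β : Type u) : Prop :=
  ∃ f : α → β, ∀ A : Set β, #A < #β → f ⁻¹' A ∉ U

/-- `κ` carries a uniform indecomposable ultrafilter. -/
def CarriesIndec (κ : Cardinal.{u}) : Prop :=
  ∃ (α : Type u) (U : Ultrafilter α), #α = κ ∧ Uniform U ∧
    ∀ β : Type u, ℵ₀ < #β → #β < κ → ¬ Decomposable U β

/-- `μ` is measurable: uncountable with a nonprincipal `μ`-complete ultrafilter. -/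
def IsMeasurable (μ : Cardinal.{u}) : Prop :=
  ℵ₀ < μ ∧ ∃ (α : Type u) (U : Ultrafilter α), #α = μ ∧ (∀ x, {x} ∉ U) ∧
    CardinalInterFilter (U : Filter α) μ

/-- The statement (*). -/
def Star : Prop :=
  ∀ κ : Cardinal.{u}, ℵ₀ < κ → κ.IsStrongLimit → CarriesIndec κ →
    IsMeasurable κ ∨ ∃ s : Set Cardinal.{u}, s.Countable ∧ (∀ μ ∈ s, IsMeasurable μ) ∧ IsLUB s κ

end Pool.Agent.MP_76b292_lc
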