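import Mathlib.Order.BourbakiWitt
import Mathlib.Order.CompletePartialOrder
import Pool.Agent.MP_76b292_lc.Defs

/-!
Definitions for the consistency half: PFA, models of ZFC, and the
statements PID and (*) read inside a structure `(M, E)`, where `E a b` means `a ∈ b`.
-/

set_option autoImplicit false

universe u v

open Cardinal FirstOrder

namespace Pool.Agent.MP_76b292_lc

/-- `D` is dense in the forcing `P`. -/
def IsDense {P : Type u} [Preorder P] (D : Set P) : Prop := ∀ p, ∃ q ∈ D, q ≤ p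

/-- `C` is a club of countable subsets of `X`. -/
def TClub {X : Type u} (C : Set (Set X)) : Prop :=
  (∀ N ∈ C, N.Countable) ∧ (∀ Y : Set X, Y.Countable → ∃ N ∈ C, Y ⊆ N) ∧
    ∀ f : ℕ → Set X, (∀ n, f n ∈ C) → Monotone f → (⋃ n, f n) ∈ C

/-- `P` is proper: for club many countable sets `N` of conditions and of subsets of `P`, every
condition in `N` has an `(N, P)`-generic extension. -/
def Proper (P : Type u) [Preorder P] : Prop :=
  ∃ C : Set (Set (P ⊕ Set P)), TClub C ∧ ∀ N ∈ C, ∀ p, Sum.inl p ∈ N → ∃ q ≤ p,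
    ∀ D, Sum.inr D ∈ N → IsDense D → ∀ r ≤ q, ∃ d ∈ D, Sum.inl d ∈ N ∧ ∃ t, t ≤ r ∧ t ≤ d

/-- PFA -/
def PFA : Prop :=
  ∀ (P : Type u) [Preorder P], Proper P → ∀ 𝒟 : Set (Set P), #𝒟 ≤ ℵ₁ → (∀ D ∈ 𝒟, IsDense D) →
    Nonempty P → ∃ G : Set P, (∀ p ∈ G, ∀ q, p ≤ q → q ∈ G) ∧
      (∀ p ∈ G, ∀ q ∈ G, ∃ r ∈ G, r ≤ p ∧ r ≤ q) ∧ ∀ D ∈ 𝒟, (G ∩ D).Nonempty

section Inner

variable {M : Type v} (E : M → M → Prop)

/-- `x ⊆ y` -/
def ISub (x y : M) : Prop := ∀ z, E z x → E z y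

/-- `p` is the ordered pair `{{a}, {a, b}}` -/
def IPair (a b p : M) : Prop :=
  ∀ z, E z p ↔ (∀ w, E w z ↔ w = a) ∨ (∀ w, E w z ↔ w = a ∨ w = b)

/-- `(a, b) ∈ f` -/
def IApp (f a b : M) : Prop := ∃ p, E p f ∧ IPair E a b p

/-- `f` is a function that maps `x` into `y` -/
def IFn (f x y : M) : Prop :=
  (∀ a, E a x → ∃ b, E b y ∧ IApp E f a b) ∧ ∀ a b c, IApp E f a b → IApp E f a c → b = c

/-- `|x| ≤ |y|` -/
def ILe (x y : M) : Prop := ∃ f, IFn E f x y ∧ ∀ a b c, IApp E f a c → IApp E f b c → a = b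

/-- `|x| < |y|` -/
def ILt (x y : M) : Prop := ILe E x y ∧ ¬ ILe E y x

/-- `w` is inductive -/
def IInd (w : M) : Prop :=
  (∃ e, E e w ∧ ∀ z, ¬ E z e) ∧ ∀ n, E n w → ∃ m, E m w ∧ ∀ z, E z m ↔ E z n ∨ z = n

/-- `w = ω` -/
def IOmega (w : M) : Prop := IInd E w ∧ ∀ v, IInd E v → ISub E w v

/-- `(M, E)` as a first-order structure -/
@[reducible] def relStructure : Language.graph.Structure M where
  RelMap | .adj => fun v => E (v 0) (v 1)

/-- truth of a formula in `(M, E)` -/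
def Sat {α : Type v} (φ : Language.graph.Formula α) (v : α → M) : Prop :=
  @Language.Formula.Realize _ _ (relStructure E) _ φ v

/-- `(M, E)` is a model of ZFC (with the separation and collection schemes). -/
structure ZFC : Prop where
  ext : ∀ x y, ISub E x y → ISub E y x → x = y
  found : ∀ x a, E a x → ∃ y, E y x ∧ ∀ z, E z y → ¬ E z x
  pair : ∀ a b, ∃ p, E a p ∧ E b p
  union : ∀ x, ∃ y, ∀ a b, E a b → E b x → E a y
  power : ∀ x, ∃ y, ∀ z, ISub E z x → E z y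
  inf : ∃ w, IInd E w
  sep : ∀ (φ : Language.graph.Formula (Option M)) (x : M), ∃ y, ∀ z,
    E z y ↔ E z x ∧ Sat E φ (fun o => o.elim z id)
  coll : ∀ (φ : Language.graph.Formula (Option (Option M))) (x : M),
    (∀ a, E a x → ∃ b, Sat E φ (fun o => o.elim a (fun o' => o'.elim b id))) →
      ∃ y, ∀ a, E a x → ∃ b, E b y ∧ Sat E φ (fun o => o.elim a (fun o' => o'.elim b id))
  choice : ∀ x, ∃ f, (∀ y a, E y x → E a y → ∃ b, E b y ∧ IApp E f y b) ∧
    ∀ a b c, IApp E f a b → IApp E f a c → b = c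

/-- `I` is a P-ideal of countable subsets of `S` containing the finite subsets (`w` is `ω`). -/
def IPIdeal (w S I : M) : Prop :=
  (∀ A, E A I → ISub E A S ∧ ILe E A w) ∧ (∀ A, ISub E A S → ILt E A w → E A I) ∧
    (∀ A B C, E A I → E B I → (∀ z, E z C → E z A ∨ E z B) → E C I) ∧
    ∀ F, ISub E F I → ILe E F w → ∃ B, E B I ∧
      ∀ A d, E A F → (∀ z, E z d → E z A ∧ ¬ E z B) → ILt E d w

/-- alternative (i) of the P-ideal dichotomy -/
def IAlt1 (w S I : M) : Prop :=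
  ∃ A, ISub E A S ∧ ¬ ILe E A w ∧ ∀ c, ISub E c A → ILe E c w → E c I

/-- alternative (ii) of the P-ideal dichotomy -/
def IAlt2 (w S I : M) : Prop :=
  ∃ F, ILe E F w ∧ (∀ z, E z S ↔ ∃ T, E T F ∧ E z T) ∧
    ∀ T A d, E T F → E A I → ISub E d T → ISub E d A → ILt E d w

/-- the P-ideal dichotomy holds in `(M, E)` -/
def IPID : Prop := ∀ w S I, IOmega E w → IPIdeal E w S I → IAlt1 E w S I ∨ IAlt2 E w S I

/-- `U` is an ultrafilter on `X` -/
def IUltra (U X : M) : Prop :=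
  (∀ A, E A U → ISub E A X ∧ ∃ z, E z A) ∧
    (∀ A B C, E A U → E B U → ISub E C X → (∀ z, E z A → E z B → E z C) → E C U) ∧
    ∀ A B, ISub E A X → ISub E B X → (∀ z, E z X → E z A ∨ E z B) → E A U ∨ E B U

/-- `U` on `X` is `|L|`-decomposable -/
def IDec (U X L : M) : Prop :=
  ∃ f, IFn E f X L ∧ ∀ A Z, ISub E A L → ILt E A L →
    (∀ z, E z Z ↔ E z X ∧ ∃ b, E b A ∧ IApp E f z b) → ¬ E Z U

/-- `X` carries a uniform indecomposable ultrafilter -/
def ICarries (w X : M) : Prop :=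
  ∃ U, IUltra E U X ∧ (∀ A, E A U → ILe E X A) ∧ ∀ L, ILt E w L → ILt E L X → ¬ IDec E U X L

/-- `|Y|` is measurable -/
def IMeas (w Y : M) : Prop :=
  ILt E w Y ∧ ∃ U, IUltra E U Y ∧ (∀ A a, E A U → ∃ z, E z A ∧ ¬ z = a) ∧
    ∀ F Z, ISub E F U → ILt E F Y → (∀ z, E z Z ↔ E z Y ∧ ∀ A, E A F → E z A) → E Z U

/-- `|X|` is a strong limit -/
def IStrong (X : M) : Prop := ∀ Y Q, ILt E Y X → (∀ z, E z Q ↔ ISub E z Y) → ILt E Q X

/-- `|X|` is the supremum of a countable set of measurable cardinals -/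
def ISup (w X : M) : Prop :=
  ∃ F, ILe E F w ∧ (∀ Y, E Y F → IMeas E w Y ∧ ILe E Y X) ∧
    ∀ Z, (∀ Y, E Y F → ILe E Y Z) → ILe E X Z

/-- (*) holds in `(M, E)` -/
def IStar : Prop :=
  ∀ w X, IOmega E w → ILt E w X → IStrong E X → ICarries E w X → IMeas E w X ∨ ISup E w X

end Inner

end Pool.Agent.MP_76b292_lc
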