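import Mathlib.Order.PrimeIdeal
import Pool.Agent.MP_76b292_lc.BVZF
import Pool.Agent.MP_76b292_lc.Defs2

/-!
The quotient of the Boolean-valued universe by an ultrafilter is a model of ZFC, and truth in it
is computed by Boolean values.
-/

set_option autoImplicit false

universe u v

open FirstOrder

namespace Pool.Agent.MP_76b292_lc

open BSet

variable {B : Type u} [CompleteBooleanAlgebra B]

/-- ultrafilters on a Boolean algebra -/
structure BU (B : Type u) [CompleteBooleanAlgebra B] where
  mem : B → Prop
  mono : ∀ {u v}, u ≤ v → mem u → mem v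
  inf : ∀ {u v}, mem u → mem v → mem (u ⊓ v)
  not_bot : ¬ mem ⊥
  compl : ∀ u, mem u ∨ mem uᶜ

lemma exists_bu [Nontrivial B] : Nonempty (BU B) := by
  obtain ⟨I, hI⟩ := Order.Ideal.exists_maximal (P := B)
  have hp : I.IsPrime := inferInstance
  refine ⟨⟨fun u => uᶜ ∈ I, fun h1 h2 => I.lower (compl_le_compl h1) h2, fun h1 h2 => ?_, ?_,
    fun u => (hp.mem_or_compl_mem (x := uᶜ))⟩⟩
  · rw [compl_inf]
    exact Order.Ideal.sup_mem h1 h2
  · rw [compl_bot]
    exact hp.toIsProper.top_notMem

namespace BU

variable (U : BU B)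

lemma top : U.mem ⊤ := (U.compl ⊤).elim id (U.mono le_top)

lemma of_top {u : B} (h : ⊤ ≤ u) : U.mem u := U.mono h U.top

lemma compl_iff {u : B} : U.mem uᶜ ↔ ¬ U.mem u :=
  ⟨fun h1 h2 => U.not_bot (by simpa using U.inf h2 h1), fun h => (U.compl u).resolve_left h⟩

lemma inf_iff {u v : B} : U.mem (u ⊓ v) ↔ U.mem u ∧ U.mem v :=
  ⟨fun h => ⟨U.mono inf_le_left h, U.mono inf_le_right h⟩, fun h => U.inf h.1 h.2⟩

lemma sup_iff {u v : B} : U.mem (u ⊔ v) ↔ U.mem u ∨ U.mem v := by
  rw [← compl_compl (u ⊔ v), compl_iff, compl_sup, inf_iff, compl_iff, compl_iff]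
  tauto

lemma himp_iff {u v : B} : U.mem (u ⇨ v) ↔ (U.mem u → U.mem v) := by
  rw [himp_eq, sup_iff, compl_iff]
  tauto

lemma bi_iff {u v : B} : U.mem (bi u v) ↔ (U.mem u ↔ U.mem v) := by
  rw [bi, inf_iff, himp_iff, himp_iff]
  exact iff_def.symm

/-- equality modulo the ultrafilter -/
def setoid : Setoid (BSet B) where
  r x y := U.mem (beq x y)
  iseqv := ⟨fun x => U.of_top (beq_refl x), fun h => U.mono (beq_symm le_rfl) h,
    fun h1 h2 => U.mono (beq_trans inf_le_left inf_le_right) (U.inf h1 h2)⟩

/-- the quotient model -/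
def N : Type (u + 1) := Quotient U.setoid

/-- the class of a name -/
def cl (x : BSet B) : U.N := Quotient.mk U.setoid x

lemma cl_surj (w : U.N) : ∃ x, U.cl x = w := Quotient.exists_rep w

/-- membership in the quotient model -/
def E : U.N → U.N → Prop :=
  Quotient.lift₂ (fun x y => U.mem (bmem x y)) (fun _ _ _ _ h1 h2 =>
    propext (U.bi_iff.1 (U.mono (bi_mem inf_le_left inf_le_right) (U.inf h1 h2))))

/-- the Boolean value `u` computes the truth value `p` -/
def L (u : B) (p : Prop) : Prop := U.mem u ↔ p

variable {U} {u v : B} {p q : Prop} {x y z : BSet B}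

lemma L_mem : U.L (bmem x y) (U.E (U.cl x) (U.cl y)) := Iff.rfl

lemma L_eq : U.L (beq x y) (U.cl x = U.cl y) := (Quotient.eq (r := U.setoid)).symm

lemma L_inf (h1 : U.L u p) (h2 : U.L v q) : U.L (u ⊓ v) (p ∧ q) :=
  U.inf_iff.trans (and_congr h1 h2)

lemma L_sup (h1 : U.L u p) (h2 : U.L v q) : U.L (u ⊔ v) (p ∨ q) :=
  U.sup_iff.trans (or_congr h1 h2)

lemma L_himp (h1 : U.L u p) (h2 : U.L v q) : U.L (u ⇨ v) (p → q) :=
  U.himp_iff.trans (imp_congr h1 h2)

lemma L_compl (h1 : U.L u p) : U.L uᶜ (¬ p) := U.compl_iff.trans (not_congr h1)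

lemma L_bi (h1 : U.L u p) (h2 : U.L v q) : U.L (bi u v) (p ↔ q) :=
  U.bi_iff.trans (iff_congr h1 h2)

lemma L_iSup {F : BSet B → B} {G : U.N → Prop}
    (hF : ∀ x y b, b ≤ beq x y → b ≤ bi (F x) (F y)) (h : ∀ z, U.L (F z) (G (U.cl z))) :
    U.L (⨆ z, F z) (∃ w, G w) := by
  constructor
  · intro k
    obtain ⟨x, hx⟩ := max_principle (ext_of_bi hF)
    exact ⟨_, (h x).1 (U.mono hx k)⟩
  · rintro ⟨w, hw⟩
    obtain ⟨x, rfl⟩ := U.cl_surj w
    exact U.mono (le_iSup F x) ((h x).2 hw)

lemma L_iInf {F : BSet B → B} {G : U.N → Prop}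
    (hF : ∀ x y b, b ≤ beq x y → b ≤ bi (F x) (F y)) (h : ∀ z, U.L (F z) (G (U.cl z))) :
    U.L (⨅ z, F z) (∀ w, G w) := by
  have := L_compl (L_iSup (F := fun z => (F z)ᶜ) (G := fun w => ¬ G w)
    (fun x y b k => bi_compl (hF x y b k)) (fun z => L_compl (h z)))
  simpa only [compl_iSup, compl_compl, not_exists, not_not] using this

lemma L_sub : U.L (bsub x y) (ISub U.E (U.cl x) (U.cl y)) :=
  L_iInf (fun _ _ _ h => bi_himp (bi_mem h (beq_refl _)) (bi_mem h (beq_refl _)))
    (fun _ => L_himp L_mem L_mem)

lemma L_pair : U.L (bpair x y z) (IPair U.E (U.cl x) (U.cl y) (U.cl z)) := by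
  unfold bpair IPair
  with_reducible repeat' first
    | exact bi_refl | assumption | exact beq_refl _ | exact L_mem | exact L_eq | exact L_sub
    | refine L_iInf (fun _ _ _ _ => ?_) (fun _ => ?_)
    | refine L_iSup (fun _ _ _ _ => ?_) (fun _ => ?_)
    | apply L_inf | apply L_sup | apply L_himp | apply L_compl | apply L_bi
    | refine bi_iInf (fun _ => ?_) | refine bi_iSup (fun _ => ?_)
    | apply bi_inf | apply bi_sup | apply bi_himp | apply bi_compl
    | apply bi_bi | apply bi_mem | apply bi_eq | apply bi_sub | apply bi_app | apply bi_le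
    | apply bi_lt | apply bi_fn | apply bi_pair | apply bi_ind | apply bi_omega | apply bi_pideal
    | apply bi_alt1 | apply bi_alt2 | apply bi_ultra | apply bi_dec | apply bi_carries
    | apply bi_meas | apply bi_strong | apply bi_supm

lemma L_app : U.L (bapp x y z) (IApp U.E (U.cl x) (U.cl y) (U.cl z)) := by
  unfold bapp IApp
  with_reducible repeat' first
    | exact bi_refl | assumption | exact beq_refl _ | exact L_mem | exact L_eq | exact L_sub
    | exact L_pair
    | refine L_iInf (fun _ _ _ _ => ?_) (fun _ => ?_)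
    | refine L_iSup (fun _ _ _ _ => ?_) (fun _ => ?_)
    | apply L_inf | apply L_sup | apply L_himp | apply L_compl | apply L_bi
    | refine bi_iInf (fun _ => ?_) | refine bi_iSup (fun _ => ?_)
    | apply bi_inf | apply bi_sup | apply bi_himp | apply bi_compl
    | apply bi_bi | apply bi_mem | apply bi_eq | apply bi_sub | apply bi_app | apply bi_le
    | apply bi_lt | apply bi_fn | apply bi_pair | apply bi_ind | apply bi_omega | apply bi_pideal
    | apply bi_alt1 | apply bi_alt2 | apply bi_ultra | apply bi_dec | apply bi_carries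
    | apply bi_meas | apply bi_strong | apply bi_supm

lemma L_fn : U.L (bfn x y z) (IFn U.E (U.cl x) (U.cl y) (U.cl z)) := by
  unfold bfn IFn
  with_reducible repeat' first
    | exact bi_refl | assumption | exact beq_refl _ | exact L_mem | exact L_eq | exact L_sub
    | exact L_pair | exact L_app
    | refine L_iInf (fun _ _ _ _ => ?_) (fun _ => ?_)
    | refine L_iSup (fun _ _ _ _ => ?_) (fun _ => ?_)
    | apply L_inf | apply L_sup | apply L_himp | apply L_compl | apply L_bi
    | refine bi_iInf (fun _ => ?_) | refine bi_iSup (fun _ => ?_)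
    | apply bi_inf | apply bi_sup | apply bi_himp | apply bi_compl
    | apply bi_bi | apply bi_mem | apply bi_eq | apply bi_sub | apply bi_app | apply bi_le
    | apply bi_lt | apply bi_fn | apply bi_pair | apply bi_ind | apply bi_omega | apply bi_pideal
    | apply bi_alt1 | apply bi_alt2 | apply bi_ultra | apply bi_dec | apply bi_carries
    | apply bi_meas | apply bi_strong | apply bi_supm

lemma L_le : U.L (ble x y) (ILe U.E (U.cl x) (U.cl y)) := by
  unfold ble ILe
  with_reducible repeat' first
    | exact bi_refl | assumption | exact beq_refl _ | exact L_mem | exact L_eq | exact L_sub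
    | exact L_pair | exact L_app | exact L_fn
    | refine L_iInf (fun _ _ _ _ => ?_) (fun _ => ?_)
    | refine L_iSup (fun _ _ _ _ => ?_) (fun _ => ?_)
    | apply L_inf | apply L_sup | apply L_himp | apply L_compl | apply L_bi
    | refine bi_iInf (fun _ => ?_) | refine bi_iSup (fun _ => ?_)
    | apply bi_inf | apply bi_sup | apply bi_himp | apply bi_compl
    | apply bi_bi | apply bi_mem | apply bi_eq | apply bi_sub | apply bi_app | apply bi_le
    | apply bi_lt | apply bi_fn | apply bi_pair | apply bi_ind | apply bi_omega | apply bi_pideal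
    | apply bi_alt1 | apply bi_alt2 | apply bi_ultra | apply bi_dec | apply bi_carries
    | apply bi_meas | apply bi_strong | apply bi_supm

lemma L_lt : U.L (blt x y) (ILt U.E (U.cl x) (U.cl y)) := by
  unfold blt ILt
  with_reducible repeat' first
    | exact bi_refl | assumption | exact beq_refl _ | exact L_mem | exact L_eq | exact L_sub
    | exact L_pair | exact L_app | exact L_fn | exact L_le
    | refine L_iInf (fun _ _ _ _ => ?_) (fun _ => ?_)
    | refine L_iSup (fun _ _ _ _ => ?_) (fun _ => ?_)
    | apply L_inf | apply L_sup | apply L_himp | apply L_compl | apply L_bi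
    | refine bi_iInf (fun _ => ?_) | refine bi_iSup (fun _ => ?_)
    | apply bi_inf | apply bi_sup | apply bi_himp | apply bi_compl
    | apply bi_bi | apply bi_mem | apply bi_eq | apply bi_sub | apply bi_app | apply bi_le
    | apply bi_lt | apply bi_fn | apply bi_pair | apply bi_ind | apply bi_omega | apply bi_pideal
    | apply bi_alt1 | apply bi_alt2 | apply bi_ultra | apply bi_dec | apply bi_carries
    | apply bi_meas | apply bi_strong | apply bi_supm

lemma L_ind : U.L (BSet.bind x) (IInd U.E (U.cl x)) := by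
  unfold BSet.bind IInd
  with_reducible repeat' first
    | exact bi_refl | assumption | exact beq_refl _ | exact L_mem | exact L_eq | exact L_sub
    | exact L_pair | exact L_app | exact L_fn | exact L_le | exact L_lt
    | refine L_iInf (fun _ _ _ _ => ?_) (fun _ => ?_)
    | refine L_iSup (fun _ _ _ _ => ?_) (fun _ => ?_)
    | apply L_inf | apply L_sup | apply L_himp | apply L_compl | apply L_bi
    | refine bi_iInf (fun _ => ?_) | refine bi_iSup (fun _ => ?_)
    | apply bi_inf | apply bi_sup | apply bi_himp | apply bi_compl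
    | apply bi_bi | apply bi_mem | apply bi_eq | apply bi_sub | apply bi_app | apply bi_le
    | apply bi_lt | apply bi_fn | apply bi_pair | apply bi_ind | apply bi_omega | apply bi_pideal
    | apply bi_alt1 | apply bi_alt2 | apply bi_ultra | apply bi_dec | apply bi_carries
    | apply bi_meas | apply bi_strong | apply bi_supm

lemma L_omega : U.L (bomega x) (IOmega U.E (U.cl x)) := by
  unfold bomega IOmega
  with_reducible repeat' first
    | exact bi_refl | assumption | exact beq_refl _ | exact L_mem | exact L_eq | exact L_sub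
    | exact L_pair | exact L_app | exact L_fn | exact L_le | exact L_lt
    | exact L_ind
    | refine L_iInf (fun _ _ _ _ => ?_) (fun _ => ?_)
    | refine L_iSup (fun _ _ _ _ => ?_) (fun _ => ?_)
    | apply L_inf | apply L_sup | apply L_himp | apply L_compl | apply L_bi
    | refine bi_iInf (fun _ => ?_) | refine bi_iSup (fun _ => ?_)
    | apply bi_inf | apply bi_sup | apply bi_himp | apply bi_compl
    | apply bi_bi | apply bi_mem | apply bi_eq | apply bi_sub | apply bi_app | apply bi_le
    | apply bi_lt | apply bi_fn | apply bi_pair | apply bi_ind | apply bi_omega | apply bi_pideal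
    | apply bi_alt1 | apply bi_alt2 | apply bi_ultra | apply bi_dec | apply bi_carries
    | apply bi_meas | apply bi_strong | apply bi_supm

lemma L_pideal : U.L (bpideal x y z) (IPIdeal U.E (U.cl x) (U.cl y) (U.cl z)) := by
  unfold bpideal IPIdeal
  with_reducible repeat' first
    | exact bi_refl | assumption | exact beq_refl _ | exact L_mem | exact L_eq | exact L_sub
    | exact L_pair | exact L_app | exact L_fn | exact L_le | exact L_lt
    | exact L_ind | exact L_omega
    | refine L_iInf (fun _ _ _ _ => ?_) (fun _ => ?_)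
    | refine L_iSup (fun _ _ _ _ => ?_) (fun _ => ?_)
    | apply L_inf | apply L_sup | apply L_himp | apply L_compl | apply L_bi
    | refine bi_iInf (fun _ => ?_) | refine bi_iSup (fun _ => ?_)
    | apply bi_inf | apply bi_sup | apply bi_himp | apply bi_compl
    | apply bi_bi | apply bi_mem | apply bi_eq | apply bi_sub | apply bi_app | apply bi_le
    | apply bi_lt | apply bi_fn | apply bi_pair | apply bi_ind | apply bi_omega | apply bi_pideal
    | apply bi_alt1 | apply bi_alt2 | apply bi_ultra | apply bi_dec | apply bi_carries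
    | apply bi_meas | apply bi_strong | apply bi_supm

lemma L_alt1 : U.L (balt1 x y z) (IAlt1 U.E (U.cl x) (U.cl y) (U.cl z)) := by
  unfold balt1 IAlt1
  with_reducible repeat' first
    | exact bi_refl | assumption | exact beq_refl _ | exact L_mem | exact L_eq | exact L_sub
    | exact L_pair | exact L_app | exact L_fn | exact L_le | exact L_lt
    | exact L_ind | exact L_omega | exact L_pideal
    | refine L_iInf (fun _ _ _ _ => ?_) (fun _ => ?_)
    | refine L_iSup (fun _ _ _ _ => ?_) (fun _ => ?_)
    | apply L_inf | apply L_sup | apply L_himp | apply L_compl | apply L_bi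
    | refine bi_iInf (fun _ => ?_) | refine bi_iSup (fun _ => ?_)
    | apply bi_inf | apply bi_sup | apply bi_himp | apply bi_compl
    | apply bi_bi | apply bi_mem | apply bi_eq | apply bi_sub | apply bi_app | apply bi_le
    | apply bi_lt | apply bi_fn | apply bi_pair | apply bi_ind | apply bi_omega | apply bi_pideal
    | apply bi_alt1 | apply bi_alt2 | apply bi_ultra | apply bi_dec | apply bi_carries
    | apply bi_meas | apply bi_strong | apply bi_supm

lemma L_alt2 : U.L (balt2 x y z) (IAlt2 U.E (U.cl x) (U.cl y) (U.cl z)) := by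
  unfold balt2 IAlt2
  with_reducible repeat' first
    | exact bi_refl | assumption | exact beq_refl _ | exact L_mem | exact L_eq | exact L_sub
    | exact L_pair | exact L_app | exact L_fn | exact L_le | exact L_lt
    | exact L_ind | exact L_omega | exact L_pideal | exact L_alt1
    | refine L_iInf (fun _ _ _ _ => ?_) (fun _ => ?_)
    | refine L_iSup (fun _ _ _ _ => ?_) (fun _ => ?_)
    | apply L_inf | apply L_sup | apply L_himp | apply L_compl | apply L_bi
    | refine bi_iInf (fun _ => ?_) | refine bi_iSup (fun _ => ?_)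
    | apply bi_inf | apply bi_sup | apply bi_himp | apply bi_compl
    | apply bi_bi | apply bi_mem | apply bi_eq | apply bi_sub | apply bi_app | apply bi_le
    | apply bi_lt | apply bi_fn | apply bi_pair | apply bi_ind | apply bi_omega | apply bi_pideal
    | apply bi_alt1 | apply bi_alt2 | apply bi_ultra | apply bi_dec | apply bi_carries
    | apply bi_meas | apply bi_strong | apply bi_supm

lemma L_pid : U.L (bpid B) (IPID U.E) := by
  unfold bpid IPID
  with_reducible repeat' first
    | exact bi_refl | assumption | exact beq_refl _ | exact L_mem | exact L_eq | exact L_sub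
    | exact L_pair | exact L_app | exact L_fn | exact L_le | exact L_lt
    | exact L_ind | exact L_omega | exact L_pideal | exact L_alt1 | exact L_alt2
    | refine L_iInf (fun _ _ _ _ => ?_) (fun _ => ?_)
    | refine L_iSup (fun _ _ _ _ => ?_) (fun _ => ?_)
    | apply L_inf | apply L_sup | apply L_himp | apply L_compl | apply L_bi
    | refine bi_iInf (fun _ => ?_) | refine bi_iSup (fun _ => ?_)
    | apply bi_inf | apply bi_sup | apply bi_himp | apply bi_compl
    | apply bi_bi | apply bi_mem | apply bi_eq | apply bi_sub | apply bi_app | apply bi_le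
    | apply bi_lt | apply bi_fn | apply bi_pair | apply bi_ind | apply bi_omega | apply bi_pideal
    | apply bi_alt1 | apply bi_alt2 | apply bi_ultra | apply bi_dec | apply bi_carries
    | apply bi_meas | apply bi_strong | apply bi_supm

lemma L_ultra : U.L (bultra x y) (IUltra U.E (U.cl x) (U.cl y)) := by
  unfold bultra IUltra
  with_reducible repeat' first
    | exact bi_refl | assumption | exact beq_refl _ | exact L_mem | exact L_eq | exact L_sub
    | exact L_pair | exact L_app | exact L_fn | exact L_le | exact L_lt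
    | exact L_ind | exact L_omega | exact L_pideal | exact L_alt1 | exact L_alt2
    | exact L_pid
    | refine L_iInf (fun _ _ _ _ => ?_) (fun _ => ?_)
    | refine L_iSup (fun _ _ _ _ => ?_) (fun _ => ?_)
    | apply L_inf | apply L_sup | apply L_himp | apply L_compl | apply L_bi
    | refine bi_iInf (fun _ => ?_) | refine bi_iSup (fun _ => ?_)
    | apply bi_inf | apply bi_sup | apply bi_himp | apply bi_compl
    | apply bi_bi | apply bi_mem | apply bi_eq | apply bi_sub | apply bi_app | apply bi_le
    | apply bi_lt | apply bi_fn | apply bi_pair | apply bi_ind | apply bi_omega | apply bi_pideal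
    | apply bi_alt1 | apply bi_alt2 | apply bi_ultra | apply bi_dec | apply bi_carries
    | apply bi_meas | apply bi_strong | apply bi_supm

lemma L_dec : U.L (bdec x y z) (IDec U.E (U.cl x) (U.cl y) (U.cl z)) := by
  unfold bdec IDec
  with_reducible repeat' first
    | exact bi_refl | assumption | exact beq_refl _ | exact L_mem | exact L_eq | exact L_sub
    | exact L_pair | exact L_app | exact L_fn | exact L_le | exact L_lt
    | exact L_ind | exact L_omega | exact L_pideal | exact L_alt1 | exact L_alt2
    | exact L_pid | exact L_ultra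
    | refine L_iInf (fun _ _ _ _ => ?_) (fun _ => ?_)
    | refine L_iSup (fun _ _ _ _ => ?_) (fun _ => ?_)
    | apply L_inf | apply L_sup | apply L_himp | apply L_compl | apply L_bi
    | refine bi_iInf (fun _ => ?_) | refine bi_iSup (fun _ => ?_)
    | apply bi_inf | apply bi_sup | apply bi_himp | apply bi_compl
    | apply bi_bi | apply bi_mem | apply bi_eq | apply bi_sub | apply bi_app | apply bi_le
    | apply bi_lt | apply bi_fn | apply bi_pair | apply bi_ind | apply bi_omega | apply bi_pideal
    | apply bi_alt1 | apply bi_alt2 | apply bi_ultra | apply bi_dec | apply bi_carries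
    | apply bi_meas | apply bi_strong | apply bi_supm

lemma L_carries : U.L (bcarries x y) (ICarries U.E (U.cl x) (U.cl y)) := by
  unfold bcarries ICarries
  with_reducible repeat' first
    | exact bi_refl | assumption | exact beq_refl _ | exact L_mem | exact L_eq | exact L_sub
    | exact L_pair | exact L_app | exact L_fn | exact L_le | exact L_lt
    | exact L_ind | exact L_omega | exact L_pideal | exact L_alt1 | exact L_alt2
    | exact L_pid | exact L_ultra | exact L_dec
    | refine L_iInf (fun _ _ _ _ => ?_) (fun _ => ?_)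
    | refine L_iSup (fun _ _ _ _ => ?_) (fun _ => ?_)
    | apply L_inf | apply L_sup | apply L_himp | apply L_compl | apply L_bi
    | refine bi_iInf (fun _ => ?_) | refine bi_iSup (fun _ => ?_)
    | apply bi_inf | apply bi_sup | apply bi_himp | apply bi_compl
    | apply bi_bi | apply bi_mem | apply bi_eq | apply bi_sub | apply bi_app | apply bi_le
    | apply bi_lt | apply bi_fn | apply bi_pair | apply bi_ind | apply bi_omega | apply bi_pideal
    | apply bi_alt1 | apply bi_alt2 | apply bi_ultra | apply bi_dec | apply bi_carries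
    | apply bi_meas | apply bi_strong | apply bi_supm

lemma L_meas : U.L (bmeas x y) (IMeas U.E (U.cl x) (U.cl y)) := by
  unfold bmeas IMeas
  with_reducible repeat' first
    | exact bi_refl | assumption | exact beq_refl _ | exact L_mem | exact L_eq | exact L_sub
    | exact L_pair | exact L_app | exact L_fn | exact L_le | exact L_lt
    | exact L_ind | exact L_omega | exact L_pideal | exact L_alt1 | exact L_alt2
    | exact L_pid | exact L_ultra | exact L_dec | exact L_carries
    | refine L_iInf (fun _ _ _ _ => ?_) (fun _ => ?_)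
    | refine L_iSup (fun _ _ _ _ => ?_) (fun _ => ?_)
    | apply L_inf | apply L_sup | apply L_himp | apply L_compl | apply L_bi
    | refine bi_iInf (fun _ => ?_) | refine bi_iSup (fun _ => ?_)
    | apply bi_inf | apply bi_sup | apply bi_himp | apply bi_compl
    | apply bi_bi | apply bi_mem | apply bi_eq | apply bi_sub | apply bi_app | apply bi_le
    | apply bi_lt | apply bi_fn | apply bi_pair | apply bi_ind | apply bi_omega | apply bi_pideal
    | apply bi_alt1 | apply bi_alt2 | apply bi_ultra | apply bi_dec | apply bi_carries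
    | apply bi_meas | apply bi_strong | apply bi_supm

lemma L_strong : U.L (bstrong x) (IStrong U.E (U.cl x)) := by
  unfold bstrong IStrong
  with_reducible repeat' first
    | exact bi_refl | assumption | exact beq_refl _ | exact L_mem | exact L_eq | exact L_sub
    | exact L_pair | exact L_app | exact L_fn | exact L_le | exact L_lt
    | exact L_ind | exact L_omega | exact L_pideal | exact L_alt1 | exact L_alt2
    | exact L_pid | exact L_ultra | exact L_dec | exact L_carries | exact L_meas
    | refine L_iInf (fun _ _ _ _ => ?_) (fun _ => ?_)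
    | refine L_iSup (fun _ _ _ _ => ?_) (fun _ => ?_)
    | apply L_inf | apply L_sup | apply L_himp | apply L_compl | apply L_bi
    | refine bi_iInf (fun _ => ?_) | refine bi_iSup (fun _ => ?_)
    | apply bi_inf | apply bi_sup | apply bi_himp | apply bi_compl
    | apply bi_bi | apply bi_mem | apply bi_eq | apply bi_sub | apply bi_app | apply bi_le
    | apply bi_lt | apply bi_fn | apply bi_pair | apply bi_ind | apply bi_omega | apply bi_pideal
    | apply bi_alt1 | apply bi_alt2 | apply bi_ultra | apply bi_dec | apply bi_carries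
    | apply bi_meas | apply bi_strong | apply bi_supm

lemma L_supm : U.L (bsupm x y) (ISup U.E (U.cl x) (U.cl y)) := by
  unfold bsupm ISup
  with_reducible repeat' first
    | exact bi_refl | assumption | exact beq_refl _ | exact L_mem | exact L_eq | exact L_sub
    | exact L_pair | exact L_app | exact L_fn | exact L_le | exact L_lt
    | exact L_ind | exact L_omega | exact L_pideal | exact L_alt1 | exact L_alt2
    | exact L_pid | exact L_ultra | exact L_dec | exact L_carries | exact L_meas
    | exact L_strong
    | refine L_iInf (fun _ _ _ _ => ?_) (fun _ => ?_)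
    | refine L_iSup (fun _ _ _ _ => ?_) (fun _ => ?_)
    | apply L_inf | apply L_sup | apply L_himp | apply L_compl | apply L_bi
    | refine bi_iInf (fun _ => ?_) | refine bi_iSup (fun _ => ?_)
    | apply bi_inf | apply bi_sup | apply bi_himp | apply bi_compl
    | apply bi_bi | apply bi_mem | apply bi_eq | apply bi_sub | apply bi_app | apply bi_le
    | apply bi_lt | apply bi_fn | apply bi_pair | apply bi_ind | apply bi_omega | apply bi_pideal
    | apply bi_alt1 | apply bi_alt2 | apply bi_ultra | apply bi_dec | apply bi_carries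
    | apply bi_meas | apply bi_strong | apply bi_supm

lemma L_star : U.L (bstar B) (IStar U.E) := by
  unfold bstar IStar
  with_reducible repeat' first
    | exact bi_refl | assumption | exact beq_refl _ | exact L_mem | exact L_eq | exact L_sub
    | exact L_pair | exact L_app | exact L_fn | exact L_le | exact L_lt
    | exact L_ind | exact L_omega | exact L_pideal | exact L_alt1 | exact L_alt2
    | exact L_pid | exact L_ultra | exact L_dec | exact L_carries | exact L_meas
    | exact L_strong | exact L_supm
    | refine L_iInf (fun _ _ _ _ => ?_) (fun _ => ?_)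
    | refine L_iSup (fun _ _ _ _ => ?_) (fun _ => ?_)
    | apply L_inf | apply L_sup | apply L_himp | apply L_compl | apply L_bi
    | refine bi_iInf (fun _ => ?_) | refine bi_iSup (fun _ => ?_)
    | apply bi_inf | apply bi_sup | apply bi_himp | apply bi_compl
    | apply bi_bi | apply bi_mem | apply bi_eq | apply bi_sub | apply bi_app | apply bi_le
    | apply bi_lt | apply bi_fn | apply bi_pair | apply bi_ind | apply bi_omega | apply bi_pideal
    | apply bi_alt1 | apply bi_alt2 | apply bi_ultra | apply bi_dec | apply bi_carries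
    | apply bi_meas | apply bi_strong | apply bi_supm

/-- value of a term -/
def tv {α : Type v} (w : α → BSet B) : Language.graph.Term α → BSet B
  | .var k => w k
  | .func f _ => Empty.elim f

/-- value of a relation symbol -/
noncomputable def relv : ∀ {l : ℕ}, Language.graph.Relations l → (Fin l → BSet B) → B
  | _, .adj, w => bmem (w 0) (w 1)

/-- value of a formula -/
noncomputable def val {α : Type v} :
    ∀ {l : ℕ}, Language.graph.BoundedFormula α l → (α → BSet B) → (Fin l → BSet B) → B
  | _, .falsum, _, _ => ⊥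
  | _, .equal t₁ t₂, w, xs => beq (tv (Sum.elim w xs) t₁) (tv (Sum.elim w xs) t₂)
  | _, .rel R ts, w, xs => relv R (fun i => tv (Sum.elim w xs) (ts i))
  | _, .imp f₁ f₂, w, xs => val f₁ w xs ⇨ val f₂ w xs
  | _, .all f, w, xs => ⨅ x, val f w (Fin.snoc xs x)

lemma tv_congr {α : Type v} {w w' : α → BSet B} {b : B} (h : ∀ a, b ≤ beq (w a) (w' a))
    (t : Language.graph.Term α) : b ≤ beq (tv w t) (tv w' t) := by
  cases t with
  | var k => exact h k
  | func f _ => exact Empty.elim f

lemma val_congr {α : Type v} {l : ℕ} (φ : Language.graph.BoundedFormula α l)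
    {w w' : α → BSet B} {xs xs' : Fin l → BSet B} {b : B} (h : ∀ a, b ≤ beq (w a) (w' a))
    (h' : ∀ i, b ≤ beq (xs i) (xs' i)) : b ≤ bi (val φ w xs) (val φ w' xs') := by
  induction φ with
  | falsum => exact bi_refl
  | equal t₁ t₂ =>
    exact bi_eq (tv_congr (by rintro (a | i); exacts [h a, h' i]) _)
      (tv_congr (by rintro (a | i); exacts [h a, h' i]) _)
  | rel R ts =>
    cases R
    exact bi_mem (tv_congr (by rintro (a | i); exacts [h a, h' i]) _)
      (tv_congr (by rintro (a | i); exacts [h a, h' i]) _)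
  | imp f₁ f₂ ih₁ ih₂ => exact bi_himp (ih₁ h') (ih₂ h')
  | all f ih =>
    refine bi_iInf (fun x => ih (fun i => ?_))
    induction i using Fin.lastCases with
    | last => simpa using beq_refl _
    | cast i => simpa using h' i

lemma tv_los {α : Type v} (w : α → BSet B) (t : Language.graph.Term α) :
    U.cl (tv w t) = @Language.Term.realize _ _ (relStructure U.E) _ (U.cl ∘ w) t := by
  cases t with
  | var k => rfl
  | func f _ => exact Empty.elim f

lemma val_los {α : Type v} {l : ℕ} (φ : Language.graph.BoundedFormula α l) (w : α → BSet B)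
    (xs : Fin l → BSet B) : U.L (val φ w xs)
      (@Language.BoundedFormula.Realize _ _ (relStructure U.E) _ _ φ (U.cl ∘ w) (U.cl ∘ xs)) := by
  induction φ with
  | falsum => exact iff_of_false U.not_bot id
  | equal t₁ t₂ =>
    have := L_eq (U := U) (x := tv (Sum.elim w xs) t₁) (y := tv (Sum.elim w xs) t₂)
    rwa [tv_los, tv_los, Sum.comp_elim] at this
  | rel R ts =>
    cases R
    have := L_mem (U := U) (x := tv (Sum.elim w xs) (ts 0)) (y := tv (Sum.elim w xs) (ts 1))
    rwa [tv_los, tv_los, Sum.comp_elim] at this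
  | imp f₁ f₂ ih₁ ih₂ => exact L_himp (ih₁ xs) (ih₂ xs)
  | all f ih =>
    refine L_iInf (fun x y b h => val_congr f (fun _ => beq_refl _) (fun i => ?_)) (fun z => ?_)
    · induction i using Fin.lastCases with
      | last => simpa using h
      | cast i => simpa using beq_refl _
    · have := ih (Fin.snoc xs z)
      rwa [Fin.comp_snoc] at this

lemma L_sat {α : Type (u + 1)} (φ : Language.graph.Formula α) (w : α → BSet B) (w' : α → U.N)
    (h : ∀ a, U.cl (w a) = w' a) : U.L (val φ w default) (Sat U.E φ w') := by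
  have := val_los (U := U) φ w default
  rwa [show U.cl ∘ w = w' from funext h, Subsingleton.elim (U.cl ∘ default) default] at this

theorem zfc (U : BU B) : ZFC U.E where
  ext x y h1 h2 := by
    obtain ⟨x, rfl⟩ := U.cl_surj x
    obtain ⟨y, rfl⟩ := U.cl_surj y
    exact L_eq.1 (U.mono (beq_of_sub inf_le_left inf_le_right) (U.inf (L_sub.2 h1) (L_sub.2 h2)))
  found x a h := by
    obtain ⟨x, rfl⟩ := U.cl_surj x
    obtain ⟨a, rfl⟩ := U.cl_surj a
    refine (L_iSup (F := fun y => bmem y x ⊓ ⨅ z, bmem z y ⇨ (bmem z x)ᶜ)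
      (fun _ _ _ k => bi_inf (bi_mem k (beq_refl _))
      (bi_iInf fun _ => bi_himp (bi_mem (beq_refl _) k) bi_refl)) (fun y => L_inf L_mem
      (L_iInf (fun _ _ _ k => bi_himp (bi_mem k (beq_refl _)) (bi_compl (bi_mem k (beq_refl _))))
        (fun _ => L_himp L_mem (L_compl L_mem))))).1 (U.mono (found_aux x a) h)
  pair a b := by
    obtain ⟨a, rfl⟩ := U.cl_surj a
    obtain ⟨b, rfl⟩ := U.cl_surj b
    exact ⟨U.cl (upair a b), U.of_top (mem_upair.2 (sup_l (beq_refl _))),
      U.of_top (mem_upair.2 (sup_r (beq_refl _)))⟩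
  union x := by
    obtain ⟨x, rfl⟩ := U.cl_surj x
    refine ⟨U.cl (mix (fun _ => ⊤) x.A), fun a b h1 h2 => ?_⟩
    obtain ⟨a, rfl⟩ := U.cl_surj a
    obtain ⟨b, rfl⟩ := U.cl_surj b
    refine U.mono ?_ (U.inf h1 h2)
    refine mem_elim inf_le_right (fun i c k1 _ k3 => ?_)
    exact mem_elim (mem_congr_right k3 (inf_l k1)) (fun j d _ l2 l3 =>
      mem_intro (x := mix (fun _ => ⊤) x.A) ⟨i, j⟩ (le_inf le_top l2) l3)
  power x := by
    obtain ⟨x, rfl⟩ := U.cl_surj x
    refine ⟨U.cl ⟨x.ι → B, fun φ => ⟨x.ι, x.A, φ⟩, fun _ => ⊤⟩, fun z h => ?_⟩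
    obtain ⟨z, rfl⟩ := U.cl_surj z
    refine U.mono ?_ (L_sub.2 h)
    refine mem_intro (x := ⟨x.ι → B, fun φ => ⟨x.ι, x.A, φ⟩, fun _ => ⊤⟩)
      (fun i => bmem (x.A i) z) le_top (beq_of_sub (sub_intro fun a c k1 k2 => ?_)
      (sub_of_idx fun i c _ k => k))
    exact mem_elim (sub_elim k1 k2) (fun i d l1 _ l3 => mem_intro
      (x := ⟨x.ι, x.A, fun i => bmem (x.A i) z⟩) i (mem_congr_left l3 (l1.trans k2)) l3)
  inf := ⟨U.cl om, L_ind.1 (U.of_top ind_om)⟩
  sep φ x := by
    obtain ⟨x, rfl⟩ := U.cl_surj x
    choose r hr using U.cl_surj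
    have hφ : Ext (fun z => val φ (fun o => o.elim z r) default) := ext_of_bi
      (fun _ _ _ k => val_congr φ (by rintro (_ | a); exacts [k, beq_refl _]) (fun _ => beq_refl _))
    refine ⟨U.cl (sep x (fun z => val φ (fun o => o.elim z r) default)), fun z => ?_⟩
    obtain ⟨z, rfl⟩ := U.cl_surj z
    refine (L_bi L_mem (L_inf L_mem (L_sat φ (fun o => o.elim z r) _
      (by rintro (_ | a); exacts [rfl, hr a])))).1 (U.of_top ?_)
    exact bi_intro (fun c _ k => le_inf ((mem_sep hφ).1 k).1 ((mem_sep hφ).1 k).2)
      (fun c _ k => (mem_sep hφ).2 ⟨inf_l k, inf_r k⟩)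
  coll φ x h := by
    obtain ⟨x, rfl⟩ := U.cl_surj x
    choose r hr using U.cl_surj
    let F : BSet B → BSet B → B := fun a c =>
      val φ (fun o => o.elim a (fun o' => o'.elim c r)) default
    have hF : ∀ a a' c c' b, b ≤ beq a a' → b ≤ beq c c' → b ≤ bi (F a c) (F a' c') :=
      fun _ _ _ _ _ k k' => val_congr φ (by rintro (_ | _ | a); exacts [k, k', beq_refl _])
        (fun _ => beq_refl _)
    have hL : ∀ a c, U.L (F a c)
        (Sat U.E φ (fun o => o.elim (U.cl a) (fun o' => o'.elim (U.cl c) id))) :=
      fun a c => L_sat φ _ _ (by rintro (_ | _ | a); exacts [rfl, rfl, hr a])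
    choose y hy using fun i : x.ι => max_principle (φ := F (x.A i))
      (ext_of_bi fun _ _ _ k => hF _ _ _ _ _ (beq_refl _) k)
    refine ⟨U.cl ⟨x.ι, y, fun _ => ⊤⟩, fun a ha => ?_⟩
    obtain ⟨c, hc⟩ := h a ha
    obtain ⟨a, rfl⟩ := U.cl_surj a
    obtain ⟨c, rfl⟩ := U.cl_surj c
    refine (L_iSup (fun _ _ _ k => bi_inf (bi_mem k (beq_refl _)) (hF _ _ _ _ _ (beq_refl _) k))
      (fun c => L_inf L_mem (hL a c))).1 (U.mono ?_ (U.inf ha ((hL a c).2 hc)))
    refine mem_elim inf_le_left (fun i d k1 _ k3 => iSup_intro (y i) (le_inf ?_ ?_))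
    · exact mem_self (x := ⟨x.ι, y, fun _ => ⊤⟩) i le_top
    · exact bi_mpr (hF _ _ _ _ _ k3 (beq_refl _))
        ((iSup_intro c (bi_mp (hF _ _ _ _ _ k3 (beq_refl _)) (inf_r k1))).trans (hy i))
  choice x := by
    obtain ⟨x, rfl⟩ := U.cl_surj x
    obtain ⟨f, h1, h2, h3⟩ := exists_fn x (mix (fun _ => ⊤) x.A) (R := fun y a => bmem a y)
      (fun _ _ _ _ _ k1 k2 k3 => bi_mp (bi_mem k2 k1) k3)
    refine ⟨U.cl f, fun y a k1 k2 => ?_, fun a b c k1 k2 => ?_⟩
    · obtain ⟨y, rfl⟩ := U.cl_surj y
      obtain ⟨a, rfl⟩ := U.cl_surj a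
      refine (L_iSup (fun _ _ _ k => bi_inf (bi_mem k (beq_refl _))
        (bi_app (beq_refl _) (beq_refl _) k)) (fun c => L_inf L_mem L_app)).1
        (U.mono ?_ (U.inf k1 k2))
      refine iSup_elim (h3 y a _ inf_le_left ?_ inf_le_right)
        (fun c d _ l => iSup_intro c (le_inf (h1 y c d (inf_r l)).2.2 (inf_r l)))
      refine mem_elim inf_le_left (fun i c k1 _ k3 => ?_)
      exact mem_elim (mem_congr_right k3 (inf_r k1)) (fun j d _ l2 l3 =>
        mem_intro (x := mix (fun _ => ⊤) x.A) ⟨i, j⟩ (le_inf le_top l2) l3)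
    · obtain ⟨a, rfl⟩ := U.cl_surj a
      obtain ⟨b, rfl⟩ := U.cl_surj b
      obtain ⟨c, rfl⟩ := U.cl_surj c
      exact L_eq.1 (U.mono (h2 a b c _ inf_le_left inf_le_right)
        (U.inf (L_app.2 k1) (L_app.2 k2)))

end BU

theorem exists_model [Nontrivial B] (h1 : ⊤ ≤ bpid B) (h2 : bstar B ≤ ⊥) :
    ∃ (M : Type (u + 1)) (E : M → M → Prop), ZFC E ∧ IPID E ∧ ¬ IStar E := by
  obtain ⟨U⟩ := exists_bu (B := B)
  exact ⟨U.N, U.E, U.zfc, BU.L_pid.1 (U.of_top h1),
    fun h => U.not_bot (U.mono h2 (BU.L_star.2 h))⟩

end Pool.Agent.MP_76b292_lc
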