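import Mathlib.SetTheory.Cardinal.Order
import Mathlib.Order.CompletePartialOrder

/-!
Boolean-valued sets: equality, membership, mixing and the maximum principle.
-/

set_option autoImplicit false

universe u v

namespace Pool.Agent.MP_76b292_lc

section ND

variable {B : Type u} [CompleteBooleanAlgebra B] {b u v w : B}

lemma himp_intro (h : ∀ c ≤ b, c ≤ u → c ≤ v) : b ≤ u ⇨ v :=
  le_himp_iff.2 (h _ inf_le_left inf_le_right)

lemma mp (h1 : b ≤ u ⇨ v) (h2 : b ≤ u) : b ≤ v := (le_inf h1 h2).trans himp_inf_le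

lemma iSup_elim {ι : Sort v} {f : ι → B} (h1 : b ≤ ⨆ i, f i)
    (h2 : ∀ i, ∀ c ≤ b, c ≤ f i → c ≤ v) : b ≤ v := by
  rw [← inf_eq_left.2 h1, inf_iSup_eq]
  exact iSup_le (fun i => h2 i _ inf_le_left inf_le_right)

lemma sup_elim (h1 : b ≤ u ⊔ v) (h2 : ∀ c ≤ b, c ≤ u → c ≤ w) (h3 : ∀ c ≤ b, c ≤ v → c ≤ w) :
    b ≤ w := by
  rw [← inf_eq_left.2 h1, inf_sup_left]
  exact sup_le (h2 _ inf_le_left inf_le_right) (h3 _ inf_le_left inf_le_right)

lemma compl_intro (h : ∀ c ≤ b, c ≤ u → c ≤ ⊥) : b ≤ uᶜ := by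
  rw [← himp_bot]
  exact himp_intro h

lemma compl_elim (h1 : b ≤ u) (h2 : b ≤ uᶜ) : b ≤ v :=
  (le_inf h1 h2).trans (by simp)

lemma contra (h : ∀ c ≤ b, c ≤ uᶜ → c ≤ ⊥) : b ≤ u := by
  rw [← compl_compl u]
  exact compl_intro h

lemma bcases (u : B) (h1 : ∀ c ≤ b, c ≤ u → c ≤ v) (h2 : ∀ c ≤ b, c ≤ uᶜ → c ≤ v) : b ≤ v :=
  sup_elim (u := u) (v := uᶜ) (by simp) h1 h2

lemma iInf_elim {ι : Sort v} {f : ι → B} (h : b ≤ ⨅ i, f i) (i : ι) : b ≤ f i :=
  h.trans (iInf_le f i)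

lemma iSup_intro {ι : Sort v} {f : ι → B} (i : ι) (h : b ≤ f i) : b ≤ ⨆ i, f i :=
  h.trans (le_iSup f i)

lemma inf_l (h : b ≤ u ⊓ v) : b ≤ u := h.trans inf_le_left

lemma inf_r (h : b ≤ u ⊓ v) : b ≤ v := h.trans inf_le_right

lemma sup_l (h : b ≤ u) : b ≤ u ⊔ v := h.trans le_sup_left

lemma sup_r (h : b ≤ v) : b ≤ u ⊔ v := h.trans le_sup_right

lemma compl_iInf_elim {ι : Sort v} {f : ι → B} (h : b ≤ (⨅ i, f i)ᶜ) : b ≤ ⨆ i, (f i)ᶜ := by
  rwa [compl_iInf] at h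

lemma compl_iSup_elim {ι : Sort v} {f : ι → B} (h : b ≤ (⨆ i, f i)ᶜ) (i : ι) : b ≤ (f i)ᶜ := by
  rw [compl_iSup] at h
  exact iInf_elim h i

/-- Boolean-valued equivalence -/
def bi (u v : B) : B := (u ⇨ v) ⊓ (v ⇨ u)

lemma bi_intro (h1 : ∀ c ≤ b, c ≤ u → c ≤ v) (h2 : ∀ c ≤ b, c ≤ v → c ≤ u) : b ≤ bi u v :=
  le_inf (himp_intro h1) (himp_intro h2)

lemma bi_mp (h1 : b ≤ bi u v) (h2 : b ≤ u) : b ≤ v := mp (inf_l h1) h2

lemma bi_mpr (h1 : b ≤ bi u v) (h2 : b ≤ v) : b ≤ u := mp (inf_r h1) h2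

/-- the value of `j` being the least index with `f j` -/
noncomputable def lst {ι : Type v} (f : ι → B) (j : ι) : B :=
  f j ⊓ ⨅ i : {i // WellOrderingRel i j}, (f i.1)ᶜ

lemma lst_le {ι : Type v} (f : ι → B) (j : ι) : lst f j ≤ f j := inf_le_left

lemma lst_unique {ι : Type v} {f : ι → B} {i j : ι} (hi : b ≤ lst f i) (hj : b ≤ lst f j)
    (hij : i ≠ j) : b ≤ v := by
  rcases trichotomous_of WellOrderingRel i j with h | h | h
  · exact compl_elim (inf_l hi) (iInf_elim (inf_r hj) ⟨i, h⟩)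
  · exact (hij h).elim
  · exact compl_elim (inf_l hj) (iInf_elim (inf_r hi) ⟨j, h⟩)

lemma le_iSup_lst {ι : Type v} (f : ι → B) (j : ι) : f j ≤ ⨆ i, lst f i := by
  induction j using (IsWellFounded.wf (r := (WellOrderingRel : ι → ι → Prop))).induction with
  | h j ih =>
    refine bcases (⨅ i : {i // WellOrderingRel i j}, (f i.1)ᶜ) (fun c h1 h2 => ?_)
      (fun c _ h2 => ?_)
    · exact iSup_intro j (le_inf h1 h2)
    · refine iSup_elim (compl_iInf_elim h2) (fun i d _ h4 => ?_)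
      rw [compl_compl] at h4
      exact h4.trans (ih i.1 i.2)

lemma lst_congr {ι : Type v} {f g : ι → B} {j : ι} (h1 : ∀ i, ∀ c ≤ b, c ≤ f i → c ≤ g i)
    (h2 : ∀ i, ∀ c ≤ b, c ≤ g i → c ≤ f i) (h : b ≤ lst f j) : b ≤ lst g j :=
  le_inf (h1 j b le_rfl (inf_l h)) (le_iInf (fun i => compl_intro (fun c k1 k2 =>
    compl_elim (h2 i.1 c k1 k2) (k1.trans (iInf_elim (inf_r h) i)))))

end ND

/-- Boolean-valued sets -/
inductive BSet (B : Type u) : Type (u + 1)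
  | mk (ι : Type u) (A : ι → BSet B) (β : ι → B) : BSet B

namespace BSet

variable {B : Type u}

/-- the index type -/
def ι : BSet B → Type u
  | ⟨ι, _, _⟩ => ι

/-- the potential elements -/
def A : (x : BSet B) → x.ι → BSet B
  | ⟨_, A, _⟩ => A

/-- the weights -/
def β : (x : BSet B) → x.ι → B
  | ⟨_, _, β⟩ => β

variable [CompleteBooleanAlgebra B]

/-- the value of `x = y` -/
noncomputable def beq : BSet B → BSet B → B
  | ⟨_, A, β⟩, ⟨_, A', β'⟩ => (⨅ i, β i ⇨ ⨆ j, β' j ⊓ beq (A i) (A' j)) ⊓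
      (⨅ j, β' j ⇨ ⨆ i, β i ⊓ beq (A i) (A' j))

/-- the value of `z ∈ x` -/
noncomputable def bmem (z x : BSet B) : B := ⨆ i, x.β i ⊓ beq z (x.A i)

variable {b : B} {x y z x' y' z' : BSet B}

lemma beq_refl (x : BSet B) : b ≤ beq x x := by
  induction x generalizing b with
  | mk ι A β ih =>
    exact le_inf (le_iInf fun i => himp_intro fun c _ h => iSup_intro i (le_inf h (ih i)))
      (le_iInf fun i => himp_intro fun c _ h => iSup_intro i (le_inf h (ih i)))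

lemma beq_symm (h : b ≤ beq x y) : b ≤ beq y x := by
  induction x generalizing b y with
  | mk ι A β ih =>
    obtain ⟨ι', A', β'⟩ := y
    refine le_inf (le_iInf fun j => himp_intro fun c h1 h2 => ?_)
      (le_iInf fun i => himp_intro fun c h1 h2 => ?_)
    · refine iSup_elim (mp (h1.trans (iInf_elim (inf_r h) j)) h2) (fun i d _ k => ?_)
      exact iSup_intro i (le_inf (inf_l k) (ih i (inf_r k)))
    · refine iSup_elim (mp (h1.trans (iInf_elim (inf_l h) i)) h2) (fun j d _ k => ?_)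
      exact iSup_intro j (le_inf (inf_l k) (ih i (inf_r k)))

lemma beq_trans (h : b ≤ beq x y) (h' : b ≤ beq y z) : b ≤ beq x z := by
  induction x generalizing b y z with
  | mk ι A β ih =>
    obtain ⟨ι', A', β'⟩ := y
    obtain ⟨ι'', A'', β''⟩ := z
    refine le_inf (le_iInf fun i => himp_intro fun c h1 h2 => ?_)
      (le_iInf fun k => himp_intro fun c h1 h2 => ?_)
    · refine iSup_elim (mp (h1.trans (iInf_elim (inf_l h) i)) h2) (fun j d k1 k2 => ?_)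
      refine iSup_elim (mp ((k1.trans h1).trans (iInf_elim (inf_l h') j)) (inf_l k2))
        (fun k e l1 l2 => ?_)
      exact iSup_intro k (le_inf (inf_l l2) (ih i (l1.trans (inf_r k2)) (inf_r l2)))
    · refine iSup_elim (mp (h1.trans (iInf_elim (inf_r h') k)) h2) (fun j d k1 k2 => ?_)
      refine iSup_elim (mp ((k1.trans h1).trans (iInf_elim (inf_r h) j)) (inf_l k2))
        (fun i e l1 l2 => ?_)
      exact iSup_intro i (le_inf (inf_l l2) (ih i (inf_r l2) (l1.trans (inf_r k2))))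

lemma mem_intro (i : x.ι) (h1 : b ≤ x.β i) (h2 : b ≤ beq z (x.A i)) : b ≤ bmem z x :=
  iSup_intro i (le_inf h1 h2)

lemma mem_self (i : x.ι) (h1 : b ≤ x.β i) : b ≤ bmem (x.A i) x := mem_intro i h1 (beq_refl _)

lemma mem_elim {v : B} (h : b ≤ bmem z x)
    (h' : ∀ i, ∀ c ≤ b, c ≤ x.β i → c ≤ beq z (x.A i) → c ≤ v) : b ≤ v :=
  iSup_elim h (fun i c h1 h2 => h' i c h1 (inf_l h2) (inf_r h2))

lemma mem_congr_left (h : b ≤ beq z z') (h' : b ≤ bmem z x) : b ≤ bmem z' x :=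
  mem_elim h' (fun i _ h1 h2 h3 => mem_intro i h2 (beq_trans (beq_symm (h1.trans h)) h3))

lemma mem_congr_right (h : b ≤ beq x x') (h' : b ≤ bmem z x) : b ≤ bmem z x' := by
  obtain ⟨ι, A, β⟩ := x
  obtain ⟨ι', A', β'⟩ := x'
  refine mem_elim h' (fun i c h1 h2 h3 => ?_)
  refine iSup_elim (mp (h1.trans (iInf_elim (inf_l h) i)) h2) (fun j d k1 k2 => ?_)
  exact mem_intro (x := ⟨ι', A', β'⟩) j (inf_l k2) (beq_trans (k1.trans h3) (inf_r k2))

lemma beq_of_idx (h1 : ∀ i, ∀ c ≤ b, c ≤ x.β i → c ≤ bmem (x.A i) y)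
    (h2 : ∀ j, ∀ c ≤ b, c ≤ y.β j → c ≤ bmem (y.A j) x) : b ≤ beq x y := by
  obtain ⟨ι, A, β⟩ := x
  obtain ⟨ι', A', β'⟩ := y
  refine le_inf (le_iInf fun i => himp_intro (h1 i)) (le_iInf fun j => himp_intro fun c k1 k2 => ?_)
  exact mem_elim (h2 j c k1 k2) (fun i d _ l2 l3 => iSup_intro i (le_inf l2 (beq_symm l3)))

lemma beq_ext (h1 : ∀ z, ∀ c ≤ b, c ≤ bmem z x → c ≤ bmem z y)
    (h2 : ∀ z, ∀ c ≤ b, c ≤ bmem z y → c ≤ bmem z x) : b ≤ beq x y :=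
  beq_of_idx (fun i c k1 k2 => h1 _ c k1 (mem_self i k2))
    (fun j c k1 k2 => h2 _ c k1 (mem_self j k2))

/-- extensional predicates -/
def Ext (φ : BSet B → B) : Prop := ∀ x y b, b ≤ beq x y → b ≤ φ x → b ≤ φ y

/-- the mixture of names along an antichain -/
def mix {ι : Type u} (τ : ι → B) (a : ι → BSet B) : BSet B :=
  ⟨Σ i, (a i).ι, fun p => (a p.1).A p.2, fun p => τ p.1 ⊓ (a p.1).β p.2⟩

lemma mix_eq {ι : Type u} {τ : ι → B} (hτ : ∀ i j, i ≠ j → τ i ⊓ τ j ≤ ⊥) (a : ι → BSet B)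
    (i : ι) : τ i ≤ beq (mix τ a) (a i) := by
  refine beq_of_idx (fun p c h1 h2 => ?_) (fun j c h1 h2 => ?_)
  · obtain ⟨k, j⟩ := p
    by_cases e : i = k
    · subst e
      exact mem_self j (inf_r h2)
    · exact ((le_inf h1 (inf_l h2)).trans (hτ i k e)).trans bot_le
  · exact mem_self (x := mix τ a) ⟨i, j⟩ (le_inf h1 h2)

/-- the maximum principle -/
lemma max_principle {φ : BSet B → B} (hφ : Ext φ) : ∃ x, ⨆ y, φ y ≤ φ x := by
  choose y hy using fun c : Set.range φ => c.2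
  refine ⟨mix (lst (fun c : Set.range φ => c.1)) y, iSup_le (fun z => ?_)⟩
  refine iSup_elim (le_iSup_lst (fun c : Set.range φ => c.1) ⟨_, z, rfl⟩) (fun c d _ h2 => ?_)
  refine hφ _ _ d (beq_symm (h2.trans (mix_eq (fun i j hij => ?_) y c))) ?_
  · exact lst_unique inf_le_left inf_le_right hij
  · rw [hy]
    exact h2.trans (lst_le _ _)

lemma exists_of_le_iSup {φ : BSet B → B} (hφ : Ext φ) (h : b ≤ ⨆ y, φ y) : ∃ x, b ≤ φ x :=
  let ⟨x, hx⟩ := max_principle hφ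
  ⟨x, h.trans hx⟩

end BSet

end Pool.Agent.MP_76b292_lc
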