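import Mathlib.Tactic.Ring.RingNF
import Mathlib.SetTheory.Cardinal.Regular
import Mathlib.Order.Filter.Ultrafilter.Defs
import Mathlib.Order.UpperLower.Principal
import Mathlib.Tactic.Monotonicity.Lemmas
import Mathlib.SetTheory.Cardinal.Continuum
import Mathlib.Order.Heyting.Regular
import Mathlib.SetTheory.ZFC.PSet
import Pool.Agent.MP_76b292_lc.BV

-- ======== part 0: formerly Pool.Agent.MP_76b292_lc.Walk
section MrgPart0

/-!
Names for P-ideals and for orthogonal colourings; the failure of alternative (ii) of the P-ideal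
dichotomy is preserved when a product is threaded modulo an ultrafilter on `ω`.
-/

set_option autoImplicit false

universe u v w

open Set

namespace Pool.Agent.MP_76b292_lc

/-- a sequence that builds a countable tree of nodes -/
noncomputable def treeSeq {Z : Type v} (root : Z) (child : Z → Z → ℕ → Z) : ℕ → Z
  | 0 => root
  | k + 1 => child (treeSeq root child k) (treeSeq root child (Nat.unpair k).1) (Nat.unpair k).2
decreasing_by
  · omega
  · exact Nat.lt_succ_of_le (Nat.unpair_left_le k)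

lemma exists_seq {Z : Type v} (R : Z → Z → Prop) (h : ∀ z, ∃ z', R z z') (z₀ : Z) :
    ∃ f : ℕ → Z, f 0 = z₀ ∧ ∀ i, R (f i) (f (i + 1)) := by
  choose g hg using h
  exact ⟨fun n => g^[n] z₀, rfl, fun i => by
    simp only [Function.iterate_succ_apply']
    exact hg _⟩

lemma exists_seq' {Z : Type v} (I : ℕ → Z → Prop) (R : ℕ → Z → Z → Prop)
    (h : ∀ i z, I i z → ∃ z', I (i + 1) z' ∧ R i z z') (z₀ : Z) (h₀ : I 0 z₀) :
    ∃ f : ℕ → Z, f 0 = z₀ ∧ ∀ i, I i (f i) ∧ R i (f i) (f (i + 1)) := by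
  choose! g hg1 hg2 using h
  let f : ℕ → Z := fun n => Nat.rec z₀ g n
  have hf : ∀ i, I i (f i) := by
    intro i
    induction i with
    | zero => exact h₀
    | succ i ih => exact hg1 i _ ih
  exact ⟨f, rfl, fun i => ⟨hf i, hg2 i _ (hf i)⟩⟩

variable {P : Type u} {ι : Type v}

/-- a preorder in which decreasing sequences have lower bounds -/
structure SigmaOrder (le : P → P → Prop) : Prop where
  refl : ∀ p, le p p
  trans : ∀ {p q r}, le p q → le q r → le p r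
  lb : ∀ f : ℕ → P, (∀ i, le (f (i + 1)) (f i)) → ∃ p, ∀ i, le p (f i)

lemma desc_le {le : P → P → Prop} (hr : ∀ p, le p p) (ht : ∀ {p q r}, le p q → le q r → le p r)
    {f : ℕ → P} (hf : ∀ i, le (f (i + 1)) (f i)) {i j : ℕ} (h : i ≤ j) : le (f j) (f i) := by
  induction h with
  | refl => exact hr _
  | step _ ih => exact ht (hf _) ih

/-- a name for a P-ideal of countable sets -/
structure IdealName (le : P → P → Prop) (Id : P → Set ι → Prop) : Prop where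
  mono : ∀ {p q A}, le q p → Id p A → Id q A
  ctbl : ∀ {p A}, Id p A → A.Countable
  union : ∀ {p A A' C}, Id p A → Id p A' → C ⊆ A ∪ A' → Id p C
  pid : ∀ {p} (A : ℕ → Set ι), (∀ n, Id p (A n)) →
    ∃ q B, le q p ∧ Id q B ∧ ∀ n, (A n \ B).Finite

lemma IdealName.down {le : P → P → Prop} {Id : P → Set ι → Prop} (h : IdealName le Id) {p : P}
    {A C : Set ι} (hA : Id p A) (hC : C ⊆ A) : Id p C :=
  h.union hA hA (hC.trans subset_union_left)

lemma walk {St : Type w} {le : P → P → Prop} (hle : SigmaOrder le) {Id : P → Set ι → Prop}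
    (hId : IdealName le Id) (Ok : P → St → Prop) (hOk : ∀ p q σ, le q p → Ok p σ → Ok q σ)
    (Next : St → ι → St → Prop)
    (step : ∀ u σ, Ok u σ → ∃ u' A, le u' u ∧ A.Infinite ∧ Id u' A ∧ ∀ x ∈ A, ∀ u'', le u'' u' →
      ∃ u''' σ', le u''' u'' ∧ Ok u''' σ' ∧ Next σ x σ') (u₀ : P) (σ₀ : St) (h₀ : Ok u₀ σ₀) :
    ∃ (u : P) (B : Set ι) (σ : ℕ → St) (x : ℕ → ι), le u u₀ ∧ Id u B ∧ σ 0 = σ₀ ∧
      Function.Injective x ∧ ∀ i, x i ∈ B ∧ Ok u (σ i) ∧ Next (σ i) (x i) (σ (i + 1)) := by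
  classical
  let Z := {z : P × St × (ℕ → ι) // Ok z.1 z.2.1 ∧ Id z.1 (range z.2.2) ∧ (range z.2.2).Infinite ∧
    ∀ j u'', le u'' z.1 → ∃ u''' σ', le u''' u'' ∧ Ok u''' σ' ∧ Next z.2.1 (z.2.2 j) σ'}
  have hmk : ∀ u σ, Ok u σ → ∃ z : Z, le z.1.1 u ∧ z.1.2.1 = σ := by
    intro u σ h
    obtain ⟨u', A, h1, h2, h3, h4⟩ := step u σ h
    obtain ⟨e, rfl⟩ := (hId.ctbl h3).exists_eq_range h2.nonempty
    exact ⟨⟨(u', σ, e), hOk _ _ _ h1 h, h3, h2, fun j => h4 _ ⟨j, rfl⟩⟩, h1, rfl⟩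
  have hch : ∀ (c p : Z) (j : ℕ), ∃ z : Z, le c.1.1 p.1.1 →
      le z.1.1 c.1.1 ∧ Next p.1.2.1 (p.1.2.2 j) z.1.2.1 := by
    intro c p j
    by_cases h : le c.1.1 p.1.1
    · obtain ⟨u, σ', h1, h2, h3⟩ := p.2.2.2.2 j _ h
      obtain ⟨z, h4, h5⟩ := hmk u σ' h2
      exact ⟨z, fun _ => ⟨hle.trans h4 h1, h5 ▸ h3⟩⟩
    · exact ⟨c, fun k => (h k).elim⟩
  choose child hchild using hch
  obtain ⟨root, hr1, hr2⟩ := hmk u₀ σ₀ h₀
  let z := treeSeq root child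
  have hz0 : z 0 = root := by simp only [z, treeSeq]
  have hz : ∀ k, z (k + 1) = child (z k) (z (Nat.unpair k).1) (Nat.unpair k).2 := fun k => by
    simp only [z]
    rw [treeSeq]
  have hdesc : ∀ k, ∀ i ≤ k, le (z k).1.1 (z i).1.1 := by
    intro k
    induction k with
    | zero =>
      intro i hi
      rw [Nat.le_zero.1 hi]
      exact hle.refl _
    | succ k ih =>
      intro i hi
      rcases hi.eq_or_lt with rfl | hi
      · exact hle.refl _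
      · refine hle.trans ?_ (ih i (Nat.lt_succ_iff.1 hi))
        rw [hz]
        exact (hchild _ _ _ (ih _ (Nat.unpair_left_le k))).1
  have hnext : ∀ k j, Next (z k).1.2.1 ((z k).1.2.2 j) (z (Nat.pair k j + 1)).1.2.1 := by
    intro k j
    rw [hz, Nat.unpair_pair]
    exact (hchild _ _ _ (hdesc _ _ (Nat.left_le_pair k j))).2
  obtain ⟨u', hu'⟩ := hle.lb (fun k => (z k).1.1) (fun k => hdesc _ _ (Nat.le_succ k))
  obtain ⟨u, B, h1, h2, h3⟩ := hId.pid (fun k => range (z k).1.2.2)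
    (fun k => hId.mono (hu' k) (z k).2.2.1)
  have hpick : ∀ s : ℕ × Finset ι, ∃ s' : ℕ × Finset ι, ∃ j, (z s.1).1.2.2 j ∈ B ∧
      (z s.1).1.2.2 j ∉ s.2 ∧ s' = (Nat.pair s.1 j + 1, insert ((z s.1).1.2.2 j) s.2) := by
    intro s
    obtain ⟨_, ⟨j, rfl⟩, k⟩ := (z s.1).2.2.2.1.exists_notMem_finite
      ((h3 s.1).union s.2.finite_toSet)
    exact ⟨_, j, by_contra fun hn => k (Or.inl ⟨⟨j, rfl⟩, hn⟩), fun hn => k (Or.inr hn), rfl⟩
  obtain ⟨s, hs0, hs⟩ := exists_seq _ hpick (0, ∅)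
  choose j hj1 hj2 hj3 using hs
  have hmono : Monotone (fun i => (s i).2) := monotone_nat_of_le_succ (fun i => by
    rw [hj3 i]
    exact Finset.subset_insert _ _)
  have hne : ∀ a b, a < b → (z (s a).1).1.2.2 (j a) ≠ (z (s b).1).1.2.2 (j b) := by
    intro a b hab e
    apply hj2 b
    rw [← e]
    apply hmono (Nat.succ_le_of_lt hab)
    change _ ∈ (s (a + 1)).2
    rw [hj3 a]
    exact Finset.mem_insert_self _ _
  refine ⟨u, B, fun i => (z (s i).1).1.2.1, fun i => (z (s i).1).1.2.2 (j i), ?_, h2, ?_, ?_,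
    fun i => ⟨hj1 i, hOk _ _ _ (hle.trans h1 (hu' _)) (z _).2.1, ?_⟩⟩
  · exact hle.trans (hle.trans h1 (hu' 0)) (hz0 ▸ hr1)
  · simp only [hs0, hz0, hr2]
  · exact Function.Injective.of_lt_imp_ne hne
  · have := hnext (s i).1 (j i)
    simpa only [hj3 i] using this

/-- a name for a colouring whose classes are orthogonal to the ideal below `u` -/
structure Colouring (le : P → P → Prop) (Id : P → Set ι → Prop) (u : P)
    (F : P → ι → ℕ → Prop) : Prop where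
  mono : ∀ {p q x m}, le q p → F p x m → F q x m
  total : ∀ p x, le p u → ∃ q m, le q p ∧ F q x m
  orth : ∀ p m A, le p u → A.Infinite → Id p A → ¬ ∀ x ∈ A, F p x m

/-- the points that may still get colour `m` below `r` are forced to be orthogonal -/
def Null (le₁ le₀ : P → P → Prop) (Id : P → Set ι → Prop) (F : P → ι → ℕ → Prop) (m : ℕ)
    (r : P) : Prop :=
  ¬ ∃ u A, le₀ u r ∧ A.Infinite ∧ Id u A ∧ ∀ x ∈ A, ∀ u', le₀ u' u →
    ∃ r', le₁ r' r ∧ le₀ r' u' ∧ F r' x m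

lemma colouring_of_null {le₁ le₀ : P → P → Prop} {Id : P → Set ι → Prop} {F : P → ι → ℕ → Prop}
    (h₀ : ∀ p, le₀ p p) (t₀ : ∀ {p q r}, le₀ p q → le₀ q r → le₀ p r)
    (t₁ : ∀ {p q r}, le₁ p q → le₁ q r → le₁ p r) (hsub : ∀ {p q}, le₁ p q → le₀ p q)
    (proj : ∀ {g f}, le₀ g f → ∃ h, le₁ h f ∧ le₀ h g) {r₀ r : P} (hF : Colouring le₁ Id r₀ F)
    (hr : le₁ r r₀) (hn : ∀ m, Null le₁ le₀ Id F m r) : ∃ F', Colouring le₀ Id r F' := by
  refine ⟨fun p x m => ∃ r', le₁ r' r ∧ le₀ p r' ∧ F r' x m, ?_, ?_, ?_⟩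
  · rintro p q x m h ⟨r', h1, h2, h3⟩
    exact ⟨r', h1, t₀ h h2, h3⟩
  · intro p x hp
    obtain ⟨h, h1, h2⟩ := proj hp
    obtain ⟨q, m, h3, h4⟩ := hF.total h x (t₁ h1 hr)
    exact ⟨q, m, t₀ (hsub h3) h2, q, t₁ h3 h1, h₀ q, h4⟩
  · intro p m A hp hA hI h
    refine hn m ⟨p, A, hp, hA, hI, fun x hx u' hu' => ?_⟩
    obtain ⟨r', h1, h2, h3⟩ := h x hx
    obtain ⟨g, k1, k2⟩ := proj (t₀ hu' h2)
    exact ⟨g, t₁ k1 h1, k2, hF.mono k1 h3⟩

/-- Countably closed quotients preserve the failure of alternative (ii). -/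
lemma colouring_of_closed {le₁ le₀ : P → P → Prop} {Id : P → Set ι → Prop}
    {F : P → ι → ℕ → Prop} (h₀ : SigmaOrder le₀) (hId : IdealName le₀ Id) (r₁ : ∀ p, le₁ p p)
    (t₁ : ∀ {p q r}, le₁ p q → le₁ q r → le₁ p r) (hsub : ∀ {p q}, le₁ p q → le₀ p q)
    (am : ∀ (v : ℕ → P) (w : P), (∀ i, le₁ (v (i + 1)) (v i)) → (∀ i, le₀ w (v i)) →
      ∃ v', (∀ i, le₁ v' (v i)) ∧ le₀ v' w) {r₀ : P} (hF : Colouring le₁ Id r₀ F) :
    ∃ r F', le₀ r r₀ ∧ Colouring le₀ Id r F' := by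
  have proj : ∀ {g f}, le₀ g f → ∃ h, le₁ h f ∧ le₀ h g := fun {g f} h =>
    let ⟨v, h1, h2⟩ := am (fun _ => f) g (fun _ => r₁ f) (fun _ => h)
    ⟨v, h1 0, h2⟩
  by_cases hc : ∀ r m, le₁ r r₀ → ∃ r', le₁ r' r ∧ Null le₁ le₀ Id F m r'
  · obtain ⟨f, hf0, hf⟩ := exists_seq' (fun _ r => le₁ r r₀)
      (fun m r r' => le₁ r' r ∧ Null le₁ le₀ Id F m r') (fun m r hr =>
        let ⟨r', k1, k2⟩ := hc r m hr
        ⟨r', t₁ k1 hr, k1, k2⟩) r₀ (r₁ r₀)
    obtain ⟨w, hw⟩ := h₀.lb f (fun i => hsub (hf i).2.1)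
    obtain ⟨r, hr, -⟩ := am f w (fun i => (hf i).2.1) hw
    have hr0 : le₁ r r₀ := hf0 ▸ hr 0
    obtain ⟨F', hF'⟩ := colouring_of_null (le₁ := le₁) (le₀ := le₀) h₀.refl h₀.trans t₁ hsub proj
      hF hr0 (fun m => by
      rintro ⟨u, A, k1, k2, k3, k4⟩
      refine (hf m).2.2 ⟨u, A, h₀.trans k1 (hsub (hr _)), k2, k3, fun x hx u' hu' => ?_⟩
      obtain ⟨r', l1, l2, l3⟩ := k4 x hx u' hu'
      exact ⟨r', t₁ l1 (hr _), l2, l3⟩)
    exact ⟨r, F', hsub hr0, hF'⟩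
  · exfalso
    push Not at hc
    obtain ⟨r, m, hr, hc⟩ := hc
    obtain ⟨u, B, σ, x, -, h2, h3, h4, h5⟩ := walk h₀ hId (fun u σ => le₁ σ r ∧ le₀ u σ)
      (fun p q σ h k => ⟨k.1, h₀.trans h k.2⟩) (fun σ x σ' => le₁ σ' σ ∧ F σ' x m) (by
        rintro u σ ⟨k1, k2⟩
        obtain ⟨h, k3, k4⟩ := proj k2
        obtain ⟨u', A, l1, l2, l3, l4⟩ := not_not.1 (hc h (t₁ k3 k1))
        refine ⟨u', A, h₀.trans l1 k4, l2, l3, fun x hx u'' hu'' => ?_⟩
        obtain ⟨r', n1, n2, n3⟩ := l4 x hx u'' hu''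
        exact ⟨r', r', n2, ⟨t₁ n1 (t₁ k3 k1), h₀.refl _⟩, t₁ n1 k3, n3⟩) r r ⟨r₁ r, h₀.refl r⟩
    obtain ⟨v, k1, k2⟩ := am σ u (fun i => (h5 i).2.2.1) (fun i => (h5 i).2.1.2)
    refine hF.orth v m (range x) (t₁ (h3 ▸ k1 0) hr) (infinite_range_of_injective h4)
      (hId.down (hId.mono k2 h2) (range_subset_iff.2 fun i => (h5 i).1)) ?_
    rintro _ ⟨i, rfl⟩
    exact hF.mono (k1 (i + 1)) (h5 i).2.2.2

/-- the abstract properties of a product ordered modulo an ultrafilter on `ω` -/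
structure ModD (D : Ultrafilter ℕ) (le : Set ℕ → P → P → Prop) : Prop where
  free : ∀ n, {n} ∉ D
  refl : ∀ s p, le s p p
  trans : ∀ {s p q r}, le s p q → le s q r → le s p r
  anti : ∀ {s t p q}, s ⊆ t → le t p q → le s p q
  proj : ∀ {s g f}, le s g f → ∃ h E, E ∈ D ∧ s ⊆ E ∧ le univ h f ∧ le E h g
  lb₀ : ∀ f : ℕ → P, (∀ i, le ∅ (f (i + 1)) (f i)) → ∃ p, ∀ i, le ∅ p (f i)
  lb₁ : ∀ f : ℕ → P, (∀ i, le univ (f (i + 1)) (f i)) → ∃ p, ∀ i, le univ p (f i)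
  amA : ∀ (r : ℕ → P) (s : ℕ → Set ℕ) (u : P), (∀ i, le univ (r (i + 1)) (r i)) → Monotone s →
    (⋃ i, s i) ∈ D → (∀ i, le (s i) u (r i)) → ∃ v, (∀ i, le univ v (r i)) ∧ le ∅ v u
  amB : ∀ s, s ∉ D → ∀ (v : ℕ → P) (w : P), (∀ i, le s (v (i + 1)) (v i)) →
    (∀ i, le ∅ w (v i)) → ∃ v', (∀ i, le s v' (v i)) ∧ le ∅ v' w

lemma ModD.idealName {D : Ultrafilter ℕ} {le : Set ℕ → P → P → Prop} (h : ModD D le)
    {Id : P → Set ι → Prop} (hId : IdealName (le ∅) Id) : IdealName (le univ) Id where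
  mono k := hId.mono (h.anti (empty_subset _) k)
  ctbl := hId.ctbl
  union := hId.union
  pid A hA := by
    obtain ⟨q, B, h1, h2, h3⟩ := hId.pid A hA
    obtain ⟨q', E, -, -, k1, k2⟩ := h.proj h1
    exact ⟨q', B, k1, hId.mono (h.anti (empty_subset _) k2) h2, h3⟩

lemma union_notMem {D : Ultrafilter ℕ} {s t : Set ℕ} (hs : s ∉ D) (ht : t ∉ D) : s ∪ t ∉ D :=
  fun h => (Ultrafilter.union_mem_iff.1 h).elim hs ht

/-- The two-board argument. -/
lemma ModD.colouring_null {D : Ultrafilter ℕ} {le : Set ℕ → P → P → Prop} (h : ModD D le)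
    {Id : P → Set ι → Prop} (hId : IdealName (le ∅) Id) {F : P → ι → ℕ → Prop} {r₀ : P}
    (hF : Colouring (le univ) Id r₀ F) :
    ∃ s r F', s ∉ D ∧ le univ r r₀ ∧ Colouring (le s) Id r F' := by
  let K : ℕ → P → Set ℕ → Prop := fun m r s => ∀ t, t ∉ D → ∃ r' s', le univ r' r ∧ s ⊆ s' ∧
    s' ∉ D ∧ s' ∩ t ⊆ s ∧ Null (le univ) (le s') Id F m r'
  have hnull : ∀ m r s r' s', le univ r' r → s ⊆ s' → Null (le univ) (le s) Id F m r →
      Null (le univ) (le s') Id F m r' := by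
    rintro m r s r' s' h1 h2 h3 ⟨u, A, k1, k2, k3, k4⟩
    refine h3 ⟨u, A, h.trans (h.anti h2 k1) (h.anti (subset_univ _) h1), k2, k3,
      fun x hx u' hu' => ?_⟩
    obtain ⟨g, E, -, l2, l3, l4⟩ := h.proj hu'
    obtain ⟨r'', n1, n2, n3⟩ := k4 x hx g (h.anti (subset_univ _) l3)
    exact ⟨r'', h.trans n1 h1, h.trans (h.anti h2 n2) (h.anti l2 l4), n3⟩
  by_cases hc : ∀ m r s, le univ r r₀ → s ∉ D → K m r s
  · obtain ⟨f, hf0, hf⟩ := exists_seq' (Z := (P × Set ℕ) × (P × Set ℕ))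
      (fun _ z => le univ z.1.1 r₀ ∧ le univ z.2.1 r₀ ∧ z.1.2 ∉ D ∧ z.2.2 ∉ D ∧
        z.1.2 ∩ z.2.2 ⊆ ∅)
      (fun m z z' => (le univ z'.1.1 z.1.1 ∧ z.1.2 ⊆ z'.1.2 ∧
        Null (le univ) (le z'.1.2) Id F m z'.1.1) ∧ (le univ z'.2.1 z.2.1 ∧ z.2.2 ⊆ z'.2.2 ∧
        Null (le univ) (le z'.2.2) Id F m z'.2.1)) (by
        rintro m ⟨⟨r, s⟩, ⟨r', s'⟩⟩ ⟨h1, h2, h3, h4, h5⟩
        obtain ⟨a, t, k1, k2, k3, k4, k5⟩ := hc m r s h1 h3 s' h4
        obtain ⟨a', t', l1, l2, l3, l4, l5⟩ := hc m r' s' h2 h4 t k3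
        exact ⟨((a, t), (a', t')), ⟨h.trans k1 h1, h.trans l1 h2, k3, l3,
          fun n hn => h5 ⟨k4 ⟨hn.1, l4 ⟨hn.2, hn.1⟩⟩, l4 ⟨hn.2, hn.1⟩⟩⟩, ⟨k1, k2, k5⟩, l1, l2, l5⟩)
      ((r₀, ∅), (r₀, ∅)) ⟨h.refl _ _, h.refl _ _, Ultrafilter.empty_notMem,
        Ultrafilter.empty_notMem, inter_subset_left⟩
    have fin : ∀ (r : ℕ → P) (s : ℕ → Set ℕ), r 0 = r₀ → (∀ i, le univ (r (i + 1)) (r i)) →
        (∀ m, Null (le univ) (le (s (m + 1))) Id F m (r (m + 1))) → (⋃ i, s i) ∉ D →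
        ∃ s r F', s ∉ D ∧ le univ r r₀ ∧ Colouring (le s) Id r F' := by
      intro r s h0 h1 h2 h3
      obtain ⟨p, hp⟩ := h.lb₁ r h1
      obtain ⟨F', hF'⟩ := colouring_of_null (le₁ := le univ) (le₀ := le (⋃ i, s i)) (h.refl _)
        h.trans h.trans
        (h.anti (subset_univ _)) (fun k =>
          let ⟨g, _, _, l2, l3, l4⟩ := h.proj k
          ⟨g, l3, h.anti l2 l4⟩) hF (h0 ▸ hp 0)
        (fun m => hnull m _ _ _ _ (hp (m + 1)) (subset_iUnion s (m + 1)) (h2 m))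
      exact ⟨_, p, F', h3, h0 ▸ hp 0, hF'⟩
    by_cases hD : (⋃ i, (f i).1.2) ∈ D
    · refine fin (fun i => (f i).2.1) (fun i => (f i).2.2) (by simp only [hf0])
        (fun i => (hf i).2.2.1) (fun i => (hf i).2.2.2.2) (fun hD' => ?_)
      obtain ⟨n, h1, h2⟩ := D.nonempty_of_mem (Filter.inter_mem hD hD')
      obtain ⟨i, hi⟩ := mem_iUnion.1 h1
      obtain ⟨j, hj⟩ := mem_iUnion.1 h2
      have m1 : Monotone (fun i => (f i).1.2) := monotone_nat_of_le_succ (fun i => (hf i).2.1.2.1)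
      have m2 : Monotone (fun i => (f i).2.2) := monotone_nat_of_le_succ (fun i => (hf i).2.2.2.1)
      exact (hf (max i j)).1.2.2.2.2 ⟨m1 (le_max_left i j) hi, m2 (le_max_right i j) hj⟩
    · exact fin (fun i => (f i).1.1) (fun i => (f i).1.2) (by simp only [hf0])
        (fun i => (hf i).2.1.1) (fun i => (hf i).2.1.2.2) hD
  exfalso
  push Not at hc
  obtain ⟨m, r, s, hr, hs, hK⟩ := hc
  have g1 : ∀ r s, s ∉ D → ¬ K m r s → ¬ Null (le univ) (le s) Id F m r :=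
    fun r s h1 h2 h3 => h2 (fun t _ => ⟨r, s, h.refl _ _, Subset.rfl, h1, inter_subset_left, h3⟩)
  have g2 : ∀ r s r', ¬ K m r s → le univ r' r → ∃ E ∈ D, ∀ a ⊆ E, a ∉ D → ¬ K m r' (s ∪ a) := by
    intro r s r' h1 h2
    by_contra hn
    push Not at hn
    refine h1 (fun t ht => ?_)
    obtain ⟨a, k1, k2, k3⟩ := hn tᶜ (Ultrafilter.compl_mem_iff_notMem.2 ht)
    obtain ⟨r'', s'', l1, l2, l3, l4, l5⟩ := k3 t ht
    exact ⟨r'', s'', h.trans l1 h2, subset_union_left.trans l2, l3,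
      fun n hn => (l4 hn).resolve_right (fun k => k1 k hn.2), l5⟩
  obtain ⟨E₀, hE₀, hE₀'⟩ := g2 r s r hK (h.refl _ _)
  obtain ⟨u, B, σ, x, -, h2, h3, h4, h5⟩ := walk (St := (P × Set ℕ) × (P × Set ℕ) × Set ℕ × ℕ)
    ⟨h.refl univ, h.trans, h.lb₁⟩ (h.idealName hId)
    (fun u σ => ¬ K m σ.1.1 σ.1.2 ∧ σ.1.2 ∉ D ∧ le σ.1.2 u σ.1.1 ∧ σ.2.1.2 ∉ D ∧ σ.2.2.1 ∈ D ∧
      (∀ a ⊆ σ.2.2.1, a ∉ D → ¬ K m σ.2.1.1 (σ.2.1.2 ∪ a)) ∧ le (σ.2.1.2 ∪ σ.2.2.1) u σ.2.1.1)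
    (fun p q σ k l => ⟨l.1, l.2.1, h.trans (h.anti (subset_univ _) k) l.2.2.1, l.2.2.2.1,
      l.2.2.2.2.1, l.2.2.2.2.2.1, h.trans (h.anti (subset_univ _) k) l.2.2.2.2.2.2⟩)
    (fun σ x σ' => σ'.1.1 = σ.2.1.1 ∧ σ'.1.2 = σ.2.1.2 ∪ (σ.2.2.1 \ σ'.2.2.1) ∧
      le univ σ'.2.1.1 σ.1.1 ∧ F σ'.2.1.1 x m ∧ σ'.2.1.2 = σ.1.2 ∧ σ.2.2.2 ∉ σ'.2.2.1 ∧
      σ'.2.2.2 = σ.2.2.2 + 1) (by
      rintro u ⟨⟨r₁, s₁⟩, ⟨r₂, s₂⟩, E, k⟩ ⟨h1, h2, h3, h4, h5, h6, h7⟩
      obtain ⟨g, E₁, -, k2, k3, k4⟩ := h.proj h3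
      obtain ⟨E₂, -, k6⟩ := g2 _ _ g h1 k3
      have k7 := k6 ∅ (empty_subset _) Ultrafilter.empty_notMem
      rw [union_empty] at k7
      obtain ⟨u₁, A, l1, l2, l3, l4⟩ := not_not.1 (g1 _ _ h2 k7)
      obtain ⟨u', E₃, -, n2, n3, n4⟩ := h.proj (h.trans l1 (h.anti k2 k4))
      refine ⟨u', A, n3, l2, hId.mono (h.anti (empty_subset _) n4) l3, fun x hx u'' hu'' => ?_⟩
      obtain ⟨r', o1, o2, o3⟩ := l4 x hx u''
        (h.trans (h.anti (subset_univ _) hu'') (h.anti n2 n4))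
      obtain ⟨u''', E₄, q1, q2, q3, q4⟩ := h.proj o2
      obtain ⟨E₅, q5, q6⟩ := g2 _ _ r' h1 (h.trans o1 k3)
      have hE' : E ∩ (E₄ ∩ (E₅ ∩ {k}ᶜ)) ∈ D := Filter.inter_mem h5 (Filter.inter_mem q1
        (Filter.inter_mem q5 (Ultrafilter.compl_mem_iff_notMem.2 (h.free k))))
      have ha : E \ (E ∩ (E₄ ∩ (E₅ ∩ {k}ᶜ))) ∉ D := fun hh =>
        let ⟨_, t1, t2⟩ := D.nonempty_of_mem (Filter.inter_mem hh hE')
        t1.2 t2
      refine ⟨u''', ((r₂, s₂ ∪ (E \ (E ∩ (E₄ ∩ (E₅ ∩ {k}ᶜ))))), (r', s₁),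
        E ∩ (E₄ ∩ (E₅ ∩ {k}ᶜ)), k + 1), q3, ⟨h6 _ sdiff_subset ha, union_notMem h4 ha, ?_, h2, hE',
        fun a t1 t2 => q6 a (fun n hn => (t1 hn).2.2.1) t2, ?_⟩, rfl, rfl, h.trans o1 k3, o3, rfl,
        fun t => t.2.2.2 rfl, rfl⟩
      · exact h.trans (h.anti (subset_univ _) (h.trans q3 (h.trans hu'' n3)))
          (h.anti (union_subset_union_right _ sdiff_subset) h7)
      · exact h.anti (union_subset q2 (fun n hn => hn.2.1)) q4)
    r ((r, s), (r, s), E₀, 0) ⟨hK, hs, h.refl _ _, hs, hE₀, hE₀', h.refl _ _⟩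
  have e1 : ∀ i, (σ i).2.2.2 = i := by
    intro i
    induction i with
    | zero => rw [h3]
    | succ i ih => rw [(h5 i).2.2.2.2.2.2.2.2, ih]
  have e2 : ∀ i, le univ (σ (i + 2)).1.1 (σ i).1.1 ∧ F (σ (i + 2)).1.1 (x i) m := fun i => by
    rw [(h5 (i + 1)).2.2.1]
    exact ⟨(h5 i).2.2.2.2.1, (h5 i).2.2.2.2.2.1⟩
  have e3 : ∀ i, (σ i).1.2 ⊆ (σ (i + 2)).1.2 := fun i => by
    rw [(h5 (i + 1)).2.2.2.1, (h5 i).2.2.2.2.2.2.1]
    exact subset_union_left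
  have e4 : ∀ n ∈ E₀, ∃ i, n ∈ (σ i).1.2 := by
    intro n hn
    by_contra hc
    push Not at hc
    have : ∀ i, n ∈ (σ i).2.2.1 := by
      intro i
      induction i with
      | zero => rwa [h3]
      | succ i ih =>
        by_contra hn'
        apply hc (i + 1)
        rw [(h5 i).2.2.2.1]
        exact Or.inr ⟨ih, hn'⟩
    have k := (h5 n).2.2.2.2.2.2.2.1
    rw [e1] at k
    exact k (this _)
  have e5 : ∀ ε ≤ 1, le univ (σ ε).1.1 r := by
    intro ε hε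
    rcases Nat.le_one_iff_eq_zero_or_eq_one.1 hε with rfl | rfl
    · rw [h3]
      exact h.refl _ _
    · rw [(h5 0).2.2.1, h3]
      exact h.refl _ _
  have fin : ∀ ε ≤ 1, (⋃ i, (σ (2 * i + ε)).1.2) ∉ D := by
    intro ε hε hD
    have a1 : ∀ i, 2 * (i + 1) + ε = 2 * i + ε + 2 := fun i => by ring
    obtain ⟨v, k1, k2⟩ := h.amA (fun i => (σ (2 * i + ε)).1.1) (fun i => (σ (2 * i + ε)).1.2) u
      (fun i => by rw [a1]; exact (e2 _).1)
      (monotone_nat_of_le_succ (fun i => by rw [a1]; exact e3 _)) hD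
      (fun i => (h5 _).2.1.2.2.1)
    refine hF.orth v m (range (fun i => x (2 * i + ε))) ?_
      (infinite_range_of_injective (fun i j e => by have := h4 e; omega))
      (hId.down (hId.mono k2 h2) (range_subset_iff.2 fun i => (h5 _).1)) ?_
    · have := k1 0
      simp only [mul_zero, zero_add] at this
      exact h.trans this (h.trans (e5 ε hε) hr)
    · rintro _ ⟨i, rfl⟩
      have := k1 (i + 1)
      simp only [a1] at this
      exact hF.mono this (e2 _).2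
  refine union_notMem (fin 0 zero_le_one) (fin 1 le_rfl) (Filter.mem_of_superset hE₀ ?_)
  intro n hn
  obtain ⟨i, hi⟩ := e4 n hn
  rcases Nat.even_or_odd' i with ⟨j, rfl | rfl⟩
  · exact Or.inl (mem_iUnion.2 ⟨j, hi⟩)
  · exact Or.inr (mem_iUnion.2 ⟨j, hi⟩)

theorem ModD.colouring {D : Ultrafilter ℕ} {le : Set ℕ → P → P → Prop} (h : ModD D le)
    {Id : P → Set ι → Prop} (hId : IdealName (le ∅) Id) {F : P → ι → ℕ → Prop} {r₀ : P}
    (hF : Colouring (le univ) Id r₀ F) : ∃ r F', le ∅ r r₀ ∧ Colouring (le ∅) Id r F' := by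
  obtain ⟨s, r, F', h1, h2, h3⟩ := h.colouring_null hId hF
  obtain ⟨r', F'', h4, h5⟩ := colouring_of_closed (le₁ := le s) (le₀ := le ∅) ⟨h.refl ∅, h.trans, h.lb₀⟩ hId (h.refl s) h.trans
    (h.anti (empty_subset _)) (h.amB s h1) h3
  exact ⟨r', F'', h.trans h4 (h.anti (empty_subset _) h2), h5⟩

end Pool.Agent.MP_76b292_lc

end MrgPart0

-- ======== part 1: formerly Pool.Agent.MP_76b292_lc.RO
section MrgPart1

/-!
The Boolean completion of a preorder.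
-/

set_option autoImplicit false

universe u v

open Set

namespace Pool.Agent.MP_76b292_lc

/-- `pr` maps the preorder `le` densely into the Boolean algebra `B` -/
structure Cpl {P : Type u} {B : Type u} [CompleteBooleanAlgebra B] (le : P → P → Prop)
    (pr : P → B) : Prop where
  refl : ∀ p, le p p
  trans : ∀ {p q r}, le p q → le q r → le p r
  mono : ∀ {p q}, le q p → pr q ≤ pr p
  pos : ∀ p, ¬ pr p ≤ ⊥
  dense : ∀ b, ¬ b ≤ ⊥ → ∃ p, pr p ≤ b
  compat : ∀ {p q r}, pr r ≤ pr p → pr r ≤ pr q → ∃ s, le s p ∧ le s q ∧ pr s ≤ pr r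

theorem exists_cpl {P : Type u} (le : P → P → Prop) (hr : ∀ p, le p p)
    (ht : ∀ {p q r}, le p q → le q r → le p r) :
    ∃ (B : Type u) (_ : CompleteBooleanAlgebra B) (pr : P → B), Cpl le pr := by
  let _ : Preorder P :=
    { le := le, le_refl := hr, le_trans := fun _ _ _ => ht }
  let _ : CompleteBooleanAlgebra (Heyting.Regular (LowerSet P)) :=
    { (inferInstance : BooleanAlgebra (Heyting.Regular (LowerSet P))),
      Heyting.Regular.gi.liftCompleteLattice with }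
  have hc : ∀ (S : LowerSet P) p, p ∈ Sᶜ ↔ ∀ q, le q p → q ∉ S := by
    intro S p
    rw [← LowerSet.Iic_le, le_compl_iff_disjoint_right, disjoint_iff_inf_le]
    exact ⟨fun h q h1 h2 => h (show q ∈ LowerSet.Iic p ⊓ S from ⟨h1, h2⟩),
      fun h q k => h q k.1 k.2⟩
  have hcc : ∀ (S : LowerSet P) p, p ∈ Sᶜᶜ ↔ ∀ q, le q p → ∃ r, le r q ∧ r ∈ S := by
    intro S p
    simp only [hc, not_forall, not_not, exists_prop]
  have hpr : ∀ p q, Heyting.Regular.toRegular (LowerSet.Iic p) ≤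
      Heyting.Regular.toRegular (LowerSet.Iic q) → ∃ r, le r p ∧ le r q := by
    intro p q h
    have h1 : p ∈ (LowerSet.Iic p)ᶜᶜ := (hcc _ _).2 (fun r k => ⟨r, hr r, k⟩)
    exact (hcc _ _).1 (h h1) p (hr p)
  have hm : ∀ {p q}, le q p → Heyting.Regular.toRegular (LowerSet.Iic q) ≤
      Heyting.Regular.toRegular (LowerSet.Iic p) := fun h =>
    Heyting.Regular.toRegular.monotone (fun r k => ht k h)
  refine ⟨Heyting.Regular (LowerSet P), inferInstance,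
    fun p => Heyting.Regular.toRegular (LowerSet.Iic p), hr, ht, hm, fun p h => ?_,
    fun b h => ?_, fun {p q r} h1 h2 => ?_⟩
  · exact h ((hcc _ _).2 (fun r k => ⟨r, hr r, k⟩) : p ∈ (LowerSet.Iic p)ᶜᶜ)
  · by_contra k
    refine h (fun p hp => k ⟨p, ?_⟩)
    exact Heyting.Regular.gi.gc.l_le (LowerSet.Iic_le.2 hp)
  · obtain ⟨s, k1, k2⟩ := hpr r p h1
    obtain ⟨t, l1, l2⟩ := hpr s q ((hm k1).trans h2)
    exact ⟨t, ht l1 k2, l2, hm (ht l1 k1)⟩

namespace Cpl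

variable {P : Type u} {B : Type u} [CompleteBooleanAlgebra B] {le : P → P → Prop} {pr : P → B}
  (h : Cpl le pr) {b c : B} {p q : P}

include h

lemma nontrivial (p : P) : Nontrivial B :=
  ⟨⟨pr p, ⊥, fun e => h.pos p e.le⟩⟩

lemma ext (k : ¬ pr p ⊓ b ≤ ⊥) : ∃ q, le q p ∧ pr q ≤ b := by
  obtain ⟨r, hr⟩ := h.dense _ k
  obtain ⟨s, k1, -, k2⟩ := h.compat (inf_l hr) (inf_l hr)
  exact ⟨s, k1, k2.trans (inf_r hr)⟩

lemma le_of (k : ∀ p, pr p ≤ b → ∃ q, le q p ∧ pr q ≤ c) : b ≤ c := by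
  refine contra (fun d k1 k2 => by_contra fun k3 => ?_)
  obtain ⟨p, hp⟩ := h.dense d k3
  obtain ⟨q, l1, l2⟩ := k p (hp.trans k1)
  exact h.pos q (compl_elim l2 ((h.mono l1).trans (hp.trans k2)))

lemma le_bot (k : ∀ p, ¬ pr p ≤ b) : b ≤ c := h.le_of (fun p l => (k p l).elim)

/-- below a condition -/
lemma le_of' (hb : b ≤ pr p) (k : ∀ q, le q p → pr q ≤ b → ∃ r, le r q ∧ pr r ≤ c) : b ≤ c :=
  h.le_of (fun q hq => by
    obtain ⟨s, k1, k2, -⟩ := h.compat (le_refl (pr q)) (hq.trans hb)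
    obtain ⟨r, l1, l2⟩ := k s k2 ((h.mono k1).trans hq)
    exact ⟨r, h.trans l1 k1, l2⟩)

lemma force (k : ∀ q, le q p → ∃ r, le r q ∧ pr r ≤ c) : pr p ≤ c :=
  h.le_of' le_rfl (fun q l _ => k q l)

lemma ex {ι : Sort v} {f : ι → B} (k : pr p ≤ ⨆ i, f i) : ∃ q i, le q p ∧ pr q ≤ f i := by
  by_contra l
  refine h.pos p (iSup_elim k (fun i c k1 k2 => by_contra fun m => ?_))
  obtain ⟨q, n1, n2⟩ := h.ext (p := p) (b := c) (by rwa [inf_eq_right.2 k1])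
  exact l ⟨q, i, n1, n2.trans k2⟩

lemma or (k : pr p ≤ b ⊔ c) : ∃ q, le q p ∧ (pr q ≤ b ∨ pr q ≤ c) := by
  rw [sup_eq_iSup] at k
  obtain ⟨q, _ | _, k1, k2⟩ := h.ex k
  · exact ⟨q, k1, Or.inr k2⟩
  · exact ⟨q, k1, Or.inl k2⟩

lemma dec (p : P) (b : B) : ∃ q, le q p ∧ (pr q ≤ b ∨ pr q ≤ bᶜ) := h.or (by simp)

lemma ex_pr {S : P → Prop} (k : pr p ≤ ⨆ q : {q // S q}, pr q.1) :
    ∃ q r, S r ∧ le q p ∧ le q r := by
  obtain ⟨q, r, k1, k2⟩ := h.ex k
  obtain ⟨s, l1, l2, -⟩ := h.compat (le_refl (pr q)) k2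
  exact ⟨s, r.1, r.2, h.trans l1 k1, l2⟩

end Cpl

/-- countably many open dense sets have a dense intersection -/
lemma SigmaOrder.all {P : Type u} {le : P → P → Prop} (h : SigmaOrder le) {T : Type v}
    [Countable T] (Δ : T → P → Prop) (ho : ∀ t p q, le q p → Δ t p → Δ t q) (p : P)
    (hd : ∀ t q, le q p → ∃ r, le r q ∧ Δ t r) : ∃ q, le q p ∧ ∀ t, Δ t q := by
  rcases isEmpty_or_nonempty T with _ | _
  · exact ⟨p, h.refl p, fun t => isEmptyElim t⟩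
  obtain ⟨e, he⟩ := exists_surjective_nat T
  obtain ⟨f, h0, hf⟩ := exists_seq' (fun _ q => le q p) (fun n q r => le r q ∧ Δ (e n) r)
    (fun n q k => let ⟨r, k1, k2⟩ := hd (e n) q k; ⟨r, h.trans k1 k, k1, k2⟩) p (h.refl p)
  obtain ⟨q, hq⟩ := h.lb f (fun i => (hf i).2.1)
  refine ⟨q, h0 ▸ hq 0, fun t => ?_⟩
  obtain ⟨n, rfl⟩ := he t
  exact ho _ _ _ (hq (n + 1)) (hf n).2.2

end Pool.Agent.MP_76b292_lc

end MrgPart1

-- ======== part 2: formerly Pool.Agent.MP_76b292_lc.Small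
section MrgPart2

/-!
Sets of size at most continuum, ordinals below `ω₁`, and two lemmas on systems of countable
levels over the directed set of small sets.
-/

set_option autoImplicit false

universe u v

open Cardinal Set Order

namespace Pool.Agent.MP_76b292_lc

/-- sets of size at most continuum -/
def Sm {S : Type u} (a : Set S) : Prop := #a ≤ Cardinal.continuum

variable {S : Type u}

lemma Sm.mono {a b : Set S} (hb : Sm b) (h : a ⊆ b) : Sm a :=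
  (mk_le_mk_of_subset h).trans hb

lemma sm_of_countable {a : Set S} (h : a.Countable) : Sm a :=
  (le_aleph0_iff_set_countable.2 h).trans aleph0_le_continuum

lemma sm_empty : Sm (∅ : Set S) := sm_of_countable countable_empty

lemma sm_iUnion {ι : Type v} (hι : #ι ≤ Cardinal.continuum) {f : ι → Set S}
    (hf : ∀ i, Sm (f i)) : Sm (⋃ i, f i) := by
  have h1 := mk_iUnion_le_lift f
  have h2 : Cardinal.lift.{u} #ι ≤ Cardinal.continuum := by
    rw [← lift_continuum.{u, v}]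
    exact lift_le.2 hι
  have h3 : ⨆ i, Cardinal.lift.{v} #(f i) ≤ Cardinal.continuum := by
    refine ciSup_le' (fun i => ?_)
    rw [← lift_continuum.{v, u}]
    exact lift_le.2 (hf i)
  have h4 := h1.trans (mul_le_mul' h2 h3)
  rw [continuum_mul_self, ← lift_continuum.{v, u}] at h4
  exact lift_le.1 h4

lemma sm_iUnion_countable {ι : Type v} [Countable ι] {f : ι → Set S}
    (hf : ∀ i, Sm (f i)) : Sm (⋃ i, f i) :=
  sm_iUnion (mk_le_aleph0.trans aleph0_le_continuum) hf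

lemma Sm.union {a b : Set S} (ha : Sm a) (hb : Sm b) : Sm (a ∪ b) := by
  rw [union_eq_iUnion]
  exact sm_iUnion_countable (fun i => by cases i <;> assumption)

lemma sm_sUnion {A : Set (Set S)} (hA : A.Countable) (h : ∀ a ∈ A, Sm a) : Sm (⋃₀ A) := by
  rw [sUnion_eq_iUnion]
  have := hA.to_subtype
  exact sm_iUnion_countable (fun i => h i.1 i.2)

/-! ordinals below `ω₁` -/

lemma mk_Iio_le {ξ : Ordinal.{0}} (h : ξ ≤ Ordinal.omega 1) :
    #(Iio ξ) ≤ Cardinal.continuum := by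
  rw [Cardinal.mk_Iio_ordinal, ← lift_continuum.{1, 0}]
  refine lift_le.2 (le_trans (Ordinal.card_le_card h) ?_)
  rw [Ordinal.card_omega]
  exact aleph_one_le_continuum

lemma countable_Iio' {ξ : Ordinal.{0}} (h : ξ < Ordinal.omega 1) : (Iio ξ).Countable := by
  rw [← le_aleph0_iff_set_countable, Cardinal.mk_Iio_ordinal, ← lift_aleph0.{1, 0}]
  refine lift_le.2 ?_
  rw [Cardinal.lt_omega_iff_card_lt] at h
  exact lt_aleph_one_iff.1 h

lemma not_countable_Iio : ¬ (Iio (Ordinal.omega.{0} 1)).Countable := by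
  rw [← le_aleph0_iff_set_countable, Cardinal.mk_Iio_ordinal, ← lift_aleph0.{1, 0}, lift_le,
    Ordinal.card_omega, not_le]
  exact aleph0_lt_aleph_one

lemma succ_lt_omega_one {ξ : Ordinal.{0}} (h : ξ < Ordinal.omega 1) :
    ξ + 1 < Ordinal.omega 1 :=
  (Cardinal.isSuccLimit_omega 1).add_one_lt h

lemma exists_bound {ι : Type v} [Countable ι] (f : ι → Ordinal.{0})
    (hf : ∀ i, f i < Ordinal.omega 1) : ∃ ν < Ordinal.omega 1, ∀ i, f i < ν :=
  ⟨⨆ i, (f i + 1), Ordinal.iSup_lt_omega_one (fun i => succ_lt_omega_one (hf i)),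
    fun i => lt_of_lt_of_le (lt_add_one _) (Ordinal.le_iSup (fun i => f i + 1) i)⟩

/-- closure points of countably many functions on `ω₁` -/
lemma exists_closure_point {ι : Type v} [Countable ι] (f : ι → Ordinal.{0} → Ordinal.{0})
    (hf : ∀ i, ∀ ξ < Ordinal.omega 1, f i ξ < Ordinal.omega 1) {η : Ordinal.{0}}
    (hη : η < Ordinal.omega 1) :
    ∃ ν < Ordinal.omega 1, η < ν ∧ IsSuccLimit ν ∧ ∀ i, ∀ ξ < ν, f i ξ < ν := by
  have hstep : ∀ ξ : Iio (Ordinal.omega.{0} 1), ∃ ζ : Iio (Ordinal.omega.{0} 1),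
      ξ.1 < ζ.1 ∧ ∀ i, ∀ ρ < ξ.1, f i ρ < ζ.1 := by
    intro ξ
    have := (countable_Iio' ξ.2).to_subtype
    obtain ⟨ν, hν, h⟩ := exists_bound (ι := Option (ι × Iio ξ.1))
      (fun o => o.elim ξ.1 (fun p => f p.1 p.2.1)) (by
        rintro (_ | ⟨i, ρ⟩)
        · exact ξ.2
        · exact hf i ρ.1 (lt_trans ρ.2 ξ.2))
    exact ⟨⟨ν, hν⟩, h none, fun i ρ hρ => h (some (i, ⟨ρ, hρ⟩))⟩
  choose s hs1 hs2 using hstep
  let x : ℕ → Iio (Ordinal.omega.{0} 1) := fun n => s^[n] ⟨η, hη⟩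
  have hx : ∀ n, x (n + 1) = s (x n) := fun n => Function.iterate_succ_apply' _ _ _
  have hle : ∀ n, (x n).1 ≤ ⨆ n, (x n).1 := Ordinal.le_iSup (fun n => (x n).1)
  have hlt : ∀ n, (x n).1 < ⨆ n, (x n).1 := fun n =>
    lt_of_lt_of_le (by rw [hx]; exact hs1 _) (hle (n + 1))
  have hex : ∀ ξ < ⨆ n, (x n).1, ∃ n, ξ < (x n).1 := fun ξ hξ => by
    by_contra hc
    push Not at hc
    exact absurd (ciSup_le hc) (not_le.2 hξ)
  refine ⟨⨆ n, (x n).1, Ordinal.iSup_lt_omega_one (fun n => (x n).2), hlt 0, ?_, ?_⟩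
  · refine Ordinal.isSuccLimit_iff.2 ⟨(lt_of_le_of_lt bot_le (hlt 0)).ne', ?_⟩
    refine isSuccPrelimit_of_succ_lt (fun ξ hξ => ?_)
    obtain ⟨n, hn⟩ := hex ξ hξ
    exact lt_of_le_of_lt (succ_le_of_lt hn) (hlt n)
  · intro i ξ hξ
    obtain ⟨n, hn⟩ := hex ξ hξ
    refine lt_of_lt_of_le (hs2 (x n) i ξ hn) ?_
    rw [← hx]
    exact hle _

/-- countably many unbounded subsets of `ω₁` have a common limit point -/
lemma exists_limit_point {ι : Type v} [Countable ι] (C : ι → Set Ordinal.{0})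
    (hC : ∀ i, ∀ η < Ordinal.omega 1, ∃ ξ ∈ C i, η < ξ ∧ ξ < Ordinal.omega 1) :
    ∃ ν < Ordinal.omega 1, IsSuccLimit ν ∧ ∀ i, ∀ η < ν, ∃ ξ ∈ C i, η < ξ ∧ ξ < ν := by
  choose! f hf using hC
  obtain ⟨ν, h1, -, h3, h4⟩ := exists_closure_point f (fun i ξ hξ => (hf i ξ hξ).2.2)
    (η := 0) (Ordinal.omega_pos 1)
  exact ⟨ν, h1, h3, fun i η hη =>
    ⟨f i η, (hf i η (hη.trans h1)).1, (hf i η (hη.trans h1)).2.1, h4 i η hη⟩⟩

/-- the increasing `ω₁`-chain generated by an operation -/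
noncomputable def chainOf (y : Set S → Set S) : Ordinal.{0} → Set S :=
  WellFounded.fix wellFounded_lt
    (fun ξ (r : ∀ η, η < ξ → Set S) => ⋃ η : Iio ξ, y (r η.1 η.2))

lemma chainOf_eq (y : Set S → Set S) (ξ : Ordinal.{0}) :
    chainOf y ξ = ⋃ η : Iio ξ, y (chainOf y η.1) := by
  rw [chainOf, WellFounded.fix_eq]

/-- Stabilisation: countable levels over a cofinal family of small sets are eventually
determined by one fixed level. -/
lemma stabilise (W : Set (Set S)) (hW1 : ∀ a ∈ W, Sm a) (hW2 : ∀ a, Sm a → ∃ a' ∈ W, a ⊆ a')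
    (T : Set S → Set (Set S)) (hT : ∀ a ∈ W, (T a).Countable) :
    ∃ a₀ ∈ W, ∀ a, Sm a → ∃ a' ∈ W, a₀ ⊆ a' ∧ a ⊆ a' ∧
      ∀ t ∈ T a', ∀ t' ∈ T a', t ∩ a₀ = t' ∩ a₀ → t ∩ a = t' ∩ a := by
  by_contra hc
  push Not at hc
  have h1 : ∀ x : Set S, Sm x → ∃ y, Sm y ∧ ∀ a' ∈ W, y ⊆ a' →
      ∃ t ∈ T a', ∃ t' ∈ T a', t ∩ x = t' ∩ x ∧ t ∩ y ≠ t' ∩ y := by
    intro x hx
    obtain ⟨w, hw, hxw⟩ := hW2 x hx
    obtain ⟨a, ha, h⟩ := hc w hw
    refine ⟨w ∪ a, (hW1 w hw).union ha, fun a' ha' hs => ?_⟩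
    obtain ⟨t, ht, t', ht', e1, e2⟩ := h a' ha' (subset_union_left.trans hs)
      (subset_union_right.trans hs)
    refine ⟨t, ht, t', ht', ?_, fun e => e2 ?_⟩
    · rw [← inter_eq_self_of_subset_right hxw, ← inter_assoc, ← inter_assoc, e1]
    · rw [← inter_eq_self_of_subset_right (subset_union_right (s := w) (t := a)), ← inter_assoc,
        ← inter_assoc, e]
  choose! y hy1 hy2 using h1
  have hsm : ∀ ξ, ξ ≤ Ordinal.omega 1 → Sm (chainOf y ξ) := by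
    intro ξ
    induction ξ using WellFoundedLT.induction with
    | ind ξ ih =>
      intro hξ
      rw [chainOf_eq]
      exact sm_iUnion (mk_Iio_le hξ) (fun η => hy1 _ (ih η.1 η.2 (η.2.le.trans hξ)))
  have hsub : ∀ η ξ, η < ξ → y (chainOf y η) ⊆ chainOf y ξ := by
    intro η ξ h
    rw [chainOf_eq y ξ]
    exact subset_iUnion (fun η : Iio ξ => y (chainOf y η.1)) ⟨η, h⟩
  obtain ⟨a', ha', hs⟩ := hW2 _ (hsm _ le_rfl)
  have h2 : ∀ ξ : Iio (Ordinal.omega.{0} 1), ∃ p : Set S × Set S, p ∈ T a' ×ˢ T a' ∧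
      p.1 ∩ chainOf y ξ = p.2 ∩ chainOf y ξ ∧
      p.1 ∩ y (chainOf y ξ) ≠ p.2 ∩ y (chainOf y ξ) := by
    intro ξ
    obtain ⟨t, ht, t', ht', e1, e2⟩ := hy2 _ (hsm ξ.1 ξ.2.le) a' ha' ((hsub _ _ ξ.2).trans hs)
    exact ⟨(t, t'), ⟨ht, ht'⟩, e1, e2⟩
  choose p hp1 hp2 hp3 using h2
  have key : ∀ ξ η : Iio (Ordinal.omega.{0} 1), ξ.1 < η.1 → p ξ ≠ p η := by
    intro ξ η h e
    apply hp3 ξ
    have := hp2 η
    rw [← e] at this
    rw [← inter_eq_self_of_subset_right (hsub _ _ h), ← inter_assoc, ← inter_assoc, this]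
  have hinj : Function.Injective p := by
    intro ξ η e
    rcases lt_trichotomy ξ.1 η.1 with h | h | h
    · exact absurd e (key _ _ h)
    · exact Subtype.ext h
    · exact absurd e.symm (key _ _ h)
  apply not_countable_Iio
  have hcnt : (T a' ×ˢ T a').Countable := (hT a' ha').prod (hT a' ha')
  have : (univ : Set (Iio (Ordinal.omega.{0} 1))).Countable :=
    (hcnt.preimage_of_injOn (f := p) hinj.injOn).mono (fun ξ _ => hp1 ξ)
  exact countable_coe_iff.1 (countable_univ_iff.1 this)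

end Pool.Agent.MP_76b292_lc

end MrgPart2

-- ======== part 3: formerly Pool.Agent.MP_76b292_lc.Kurepa
section MrgPart3

/-!
A Kurepa lemma for the directed set of small sets, and the avoidance argument that gives the
stationarity of the set mapping.
-/

set_option autoImplicit false

universe u v

open Cardinal Set Order

namespace Pool.Agent.MP_76b292_lc

variable {S : Type u}

/-- Kurepa lemma: a system of countable levels has countably many branches, and a set that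
follows the levels along a sufficiently closed family agrees there with one of the branches. -/
lemma kurepa (W : Set (Set S)) (hW1 : ∀ a ∈ W, Sm a) (hW2 : ∀ a, Sm a → ∃ a' ∈ W, a ⊆ a')
    (T : Set S → Set (Set S)) (hT : ∀ a ∈ W, (T a).Countable) :
    ∃ (B : Set (Set S)) (h : Set S → Set (Set S)), B.Countable ∧ (∀ a, (h a).Countable) ∧
      ∀ A : Set (Set S), B ⊆ A → (∀ a ∈ A, h a ⊆ A) → ∀ b : Set S,
        (∀ a ∈ A, a ∈ W → b ∩ a ∈ T a) → ∃ b' ∈ A, ∀ a ∈ A, Sm a → b' ∩ a = b ∩ a := by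
  let P : Set S → Set (Set S) := fun a => {t | t ⊆ a ∧ ∀ a₁ ∈ W, a₁ ⊆ a → t ∩ a₁ ∈ T a₁}
  have hPT : ∀ a ∈ W, P a ⊆ T a := fun a ha t ht => by
    have := ht.2 a ha Subset.rfl
    rwa [inter_eq_self_of_subset_left ht.1] at this
  have hPr : ∀ a a', a ⊆ a' → ∀ t ∈ P a', t ∩ a ∈ P a := by
    intro a a' haa t ht
    refine ⟨inter_subset_right, fun a₁ h1 h2 => ?_⟩
    rw [inter_assoc, inter_eq_self_of_subset_right h2]
    exact ht.2 a₁ h1 (h2.trans haa)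
  obtain ⟨a₀, ha₀, hst⟩ := stabilise W hW1 hW2 P (fun a ha => (hT a ha).mono (hPT a ha))
  choose! plus hp1 hp2 hp3 hp4 using hst
  have hwit : ∀ a t : Set S, t ⊆ a → t ∉ P a → ∃ a₁ ∈ W, a₁ ⊆ a ∧ t ∩ a₁ ∉ T a₁ := by
    intro a t h1 h2
    by_contra hc
    push Not at hc
    exact h2 ⟨h1, hc⟩
  choose! wit hw1 hw2 hw3 using hwit
  let Good : Set S → Prop := fun s => ∀ a' ∈ W, a₀ ⊆ a' → ∃ t ∈ P a', t ∩ a₀ = s
  have hbad : ∀ s, ¬ Good s → ∃ a' ∈ W, a₀ ⊆ a' ∧ ∀ t ∈ P a', t ∩ a₀ ≠ s := by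
    intro s hs
    by_contra hc
    push Not at hc
    exact hs hc
  choose! bad hb1 hb2 hb3 using hbad
  let br : Set S → Set S := fun s =>
    {x | ∃ a, Sm a ∧ x ∈ a ∧ ∃ t ∈ P (plus a), t ∩ a₀ = s ∧ x ∈ t}
  have hbr : ∀ s, Good s → ∀ a, Sm a → ∀ t ∈ P (plus a), t ∩ a₀ = s → br s ∩ a = t ∩ a := by
    intro s hs a ha t ht e
    ext x
    constructor
    · rintro ⟨⟨a₁, ha₁, hx₁, t₁, ht₁, e₁, hxt⟩, hxa⟩
      obtain ⟨a', ha', hsub⟩ := hW2 _ ((hW1 _ (hp1 a ha)).union (hW1 _ (hp1 a₁ ha₁)))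
      obtain ⟨t', ht', e'⟩ := hs a' ha' ((hp2 a ha).trans (subset_union_left.trans hsub))
      have k1 := hp4 a ha _ (hPr _ _ (subset_union_left.trans hsub) t' ht') t ht (by
        rw [inter_assoc, inter_eq_self_of_subset_right (hp2 a ha), e', e])
      have k2 := hp4 a₁ ha₁ _ (hPr _ _ (subset_union_right.trans hsub) t' ht') t₁ ht₁ (by
        rw [inter_assoc, inter_eq_self_of_subset_right (hp2 a₁ ha₁), e', e₁])
      have k3 : x ∈ t' ∩ plus a₁ ∩ a₁ := k2 ▸ ⟨hxt, hx₁⟩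
      exact k1 ▸ ⟨⟨k3.1.1, hp3 a ha hxa⟩, hxa⟩
    · rintro ⟨hxt, hxa⟩
      exact ⟨⟨a, ha, hxa, t, ht, e, hxt⟩, hxa⟩
  have hP0 : (P a₀).Countable := (hT a₀ ha₀).mono (hPT a₀ ha₀)
  refine ⟨insert a₀ (bad '' P a₀ ∪ br '' P a₀),
    fun a => insert (plus a) {x | a ∈ W ∧ x ∈ wit a '' T a},
    ((hP0.image _).union (hP0.image _)).insert _, fun a => Countable.insert _ ?_, ?_⟩
  · by_cases ha : a ∈ W
    · exact ((hT a ha).image (wit a)).mono (fun x hx => hx.2)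
    · exact countable_empty.mono (fun x hx => (ha hx.1).elim)
  intro A hBA hA b hb
  have hbP : ∀ a ∈ A, a ∈ W → b ∩ a ∈ P a := by
    intro a ha haW
    by_contra hc
    have h1 : wit a (b ∩ a) ∈ A := hA a ha (Or.inr ⟨haW, _, hb a ha haW, rfl⟩)
    have h2 := hb _ h1 (hw1 a _ inter_subset_right hc)
    apply hw3 a _ inter_subset_right hc
    rwa [inter_assoc, inter_eq_self_of_subset_right (hw2 a _ inter_subset_right hc)]
  have hs : b ∩ a₀ ∈ P a₀ := hbP a₀ (hBA (Or.inl rfl)) ha₀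
  have hgood : Good (b ∩ a₀) := by
    by_contra hc
    have h1 : bad (b ∩ a₀) ∈ A := hBA (Or.inr (Or.inl ⟨_, hs, rfl⟩))
    refine hb3 _ hc _ (hbP _ h1 (hb1 _ hc)) ?_
    rw [inter_assoc, inter_eq_self_of_subset_right (hb2 _ hc)]
  refine ⟨br (b ∩ a₀), hBA (Or.inr (Or.inr ⟨_, hs, rfl⟩)), fun a ha hsm => ?_⟩
  have h1 : plus a ∈ A := hA a ha (Or.inl rfl)
  rw [hbr _ hgood a hsm _ (hbP _ h1 (hp1 a hsm))
    (by rw [inter_assoc, inter_eq_self_of_subset_right (hp2 a hsm)]),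
    inter_assoc, inter_eq_self_of_subset_right (hp3 a hsm)]

/-- `Z` is positive of depth `r` above the list `l` -/
def Pos (Z : Set (List (Set S))) : ℕ → List (Set S) → Prop
  | 0, l => l ∈ Z
  | r + 1, l => ∀ a, Sm a → ∃ a', Sm a' ∧ a ⊆ a' ∧ Pos Z r (a' :: l)

lemma Pos.mono {Z Z' : Set (List (Set S))} (h : Z ⊆ Z') :
    ∀ (r : ℕ) (l : List (Set S)), Pos Z r l → Pos Z' r l
  | 0, _, hl => h hl
  | r + 1, _, hl => fun a ha =>
    let ⟨a', h1, h2, h3⟩ := hl a ha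
    ⟨a', h1, h2, Pos.mono h r _ h3⟩

lemma pos_univ : ∀ (r : ℕ) (l : List (Set S)), Pos univ r l
  | 0, _ => mem_univ _
  | r + 1, _ => fun a ha => ⟨a, ha, Subset.rfl, pos_univ r _⟩

lemma Pos.exists_of_iUnion {ι : Type v} (hι : #ι ≤ Cardinal.continuum)
    (Z : ι → Set (List (Set S))) :
    ∀ (r : ℕ) (l : List (Set S)), Pos (⋃ i, Z i) r l → ∃ i, Pos (Z i) r l
  | 0, _, hl => mem_iUnion.1 hl
  | r + 1, l, hl => by
    by_contra hc
    simp only [Pos, not_exists, not_forall] at hc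
    choose a ha h using hc
    obtain ⟨a', h1, h2, h3⟩ := hl _ (sm_iUnion hι ha)
    obtain ⟨i, hi⟩ := Pos.exists_of_iUnion hι Z r _ h3
    exact h i a' ⟨h1, (subset_iUnion a i).trans h2, hi⟩

/-- only countably many points cannot be avoided -/
lemma Pos.countable_unavoidable {G : List (Set S) → Set (Set S)} (hG : ∀ l, (G l).Countable)
    {Z : Set (List (Set S))} {r : ℕ} {l : List (Set S)} (h : Pos Z r l) :
    {t | ¬ Pos (Z ∩ {l' | t ∉ G l'}) r l}.Countable := by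
  by_contra hc
  rw [countable_iff_lt_aleph_one, not_lt] at hc
  obtain ⟨J, hJ1, hJ2⟩ := le_mk_iff_exists_subset.1 hc
  have hcov : Z ⊆ ⋃ t : J, Z ∩ {l' | t.1 ∉ G l'} := by
    intro l' hl'
    by_contra hn
    have : J ⊆ G l' := fun t ht => by
      by_contra h2
      exact hn (mem_iUnion.2 ⟨⟨t, ht⟩, hl', h2⟩)
    have h3 := (hG l').mono this
    rw [countable_iff_lt_aleph_one, hJ2] at h3
    exact lt_irrefl _ h3
  obtain ⟨t, ht⟩ := Pos.exists_of_iUnion (hJ2.trans_le aleph_one_le_continuum) _ r l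
    (Pos.mono hcov r l h)
  exact hJ1 t.2 ht

/-- `b` is guessed by `A` -/
def Guessed (A : Set (Set S)) (b : Set S) : Prop := ∃ b' ∈ A, ∀ a ∈ A, Sm a → b' ∩ a = b ∩ a

/-- `N` captures `b` -/
def Captures (N : Set (Set S)) (b : Set S) : Prop := ∀ a ∈ N, Sm a → b ∩ a ∈ N

lemma countable_lists {X : Type u} {s : Set X} (hs : s.Countable) :
    {l : List X | ∀ x ∈ l, x ∈ s}.Countable := by
  have := hs.to_subtype
  refine (countable_range (List.map (Subtype.val : s → X))).mono (fun l hl => ?_)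
  exact ⟨l.pmap (fun x hx => ⟨x, hx⟩) hl, by simp [List.map_pmap]⟩

/-- The avoidance lemma. -/
lemma avoidance [Uncountable (Set S)] (G : List (Set S) → Set (Set S))
    (hG : ∀ l, (G l).Countable) (hGl : ∀ l, ∀ x ∈ l, x ∈ G l) :
    ∃ F : List (Set S) → Set (Set S), (∀ l, (F l).Countable) ∧
      ∀ A : Set (Set S), (∀ l, (∀ x ∈ l, x ∈ A) → F l ⊆ A) →
        ∃ m ∈ A, ∀ B : List (Set S), (∀ b ∈ B, ¬ Guessed A b) →
          ∃ l, (∀ x ∈ l, x ∈ A) ∧ m ∉ G l ∧ ∀ b ∈ B, ¬ Captures (G l) b := by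
  let Z : List (Set S) → Set (List (Set S)) := fun ts => {l | ∀ t ∈ ts, t ∉ G l}
  have hZ : ∀ t ts, Z (t :: ts) = Z ts ∩ {l' | t ∉ G l'} := by
    intro t ts
    ext l
    simp only [Z, mem_ofPred_eq, List.mem_cons, forall_eq_or_imp, mem_inter_iff, and_comm]
  -- a point that can be avoided at every depth
  obtain ⟨m, hm⟩ : ∃ m : Set S, ∀ r, Pos (Z [m]) r [] := by
    have h1 : (⋃ r, {t | ¬ Pos (univ ∩ {l' | t ∉ G l'}) r ([] : List (Set S))}).Countable :=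
      countable_iUnion (fun r => (pos_univ r []).countable_unavoidable hG)
    by_contra hc
    push Not at hc
    refine not_countable_univ (h1.mono (fun m _ => ?_))
    obtain ⟨r, hr⟩ := hc m
    refine mem_iUnion.2 ⟨r, fun h => hr (Pos.mono ?_ r _ h)⟩
    intro l hl t ht
    rw [List.mem_singleton.1 ht]
    exact hl.2
  -- the data of the Kurepa lemma in each position
  have hk : ∀ (as ts : List (Set S)) (r : ℕ), ∃ (B : Set (Set S)) (h : Set S → Set (Set S)),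
      B.Countable ∧ (∀ a, (h a).Countable) ∧ (Pos (Z ts) (r + 1) as →
      ∀ A : Set (Set S), B ⊆ A → (∀ a ∈ A, h a ⊆ A) → ∀ b : Set S, ¬ Guessed A b →
        ∃ a ∈ A, Sm a ∧ Pos (Z ((b ∩ a) :: ts)) r (a :: as)) := by
    intro as ts r
    by_cases hp : Pos (Z ts) (r + 1) as
    · obtain ⟨B, h, h1, h2, h3⟩ := kurepa {a | Sm a ∧ Pos (Z ts) r (a :: as)} (fun a ha => ha.1)
        (fun a ha => let ⟨a', k1, k2, k3⟩ := hp a ha; ⟨a', ⟨k1, k3⟩, k2⟩)
        (fun a => {t | ¬ Pos (Z ts ∩ {l' | t ∉ G l'}) r (a :: as)})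
        (fun a ha => ha.2.countable_unavoidable hG)
      refine ⟨B, h, h1, h2, fun _ A hBA hA b hb => ?_⟩
      by_contra hc
      push Not at hc
      exact hb (h3 A hBA hA b (fun a ha haW => by
        have := hc a ha haW.1
        rwa [hZ] at this))
    · exact ⟨∅, fun _ => ∅, countable_empty, fun _ => countable_empty, fun h => (hp h).elim⟩
  choose KB Kh hKB hKh hK using hk
  refine ⟨fun l => insert m (G l ∪ ⋃ as ∈ {l' : List (Set S) | ∀ x ∈ l', x ∈ G l},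
    ⋃ ts ∈ {l' : List (Set S) | ∀ x ∈ l', x ∈ G l}, ⋃ r, (KB as ts r ∪ ⋃ a ∈ G l, Kh as ts r a)),
    fun l => Countable.insert _ ((hG l).union ?_), fun A hA => ?_⟩
  · refine (countable_lists (hG l)).biUnion (fun as _ => (countable_lists (hG l)).biUnion
      (fun ts _ => countable_iUnion (fun r => (hKB as ts r).union ?_)))
    exact (hG l).biUnion (fun a _ => hKh as ts r a)
  have hmA : m ∈ A := hA [] (by simp) (Or.inl rfl)
  have hGA : ∀ l, (∀ x ∈ l, x ∈ A) → G l ⊆ A := fun l hl x hx => hA l hl (Or.inr (Or.inl hx))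
  have hKA : ∀ as ts r, (∀ x ∈ as, x ∈ A) → (∀ x ∈ ts, x ∈ A) →
      KB as ts r ⊆ A ∧ ∀ a ∈ A, Kh as ts r a ⊆ A := by
    intro as ts r has hts
    constructor
    · intro x hx
      refine hA (as ++ ts) (by
        intro y hy
        rcases List.mem_append.1 hy with h | h
        exacts [has y h, hts y h]) (Or.inr (Or.inr ?_))
      simp only [mem_iUnion]
      exact ⟨as, fun y hy => hGl _ y (List.mem_append_left _ hy), ts,
        fun y hy => hGl _ y (List.mem_append_right _ hy), r, Or.inl hx⟩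
    · intro a ha x hx
      refine hA (a :: (as ++ ts)) (by
        intro y hy
        rcases List.mem_cons.1 hy with rfl | hy
        · exact ha
        rcases List.mem_append.1 hy with h | h
        exacts [has y h, hts y h]) (Or.inr (Or.inr ?_))
      simp only [mem_iUnion]
      refine ⟨as, fun y hy => hGl _ y (List.mem_cons_of_mem _ (List.mem_append_left _ hy)), ts,
        fun y hy => hGl _ y (List.mem_cons_of_mem _ (List.mem_append_right _ hy)), r, Or.inr ?_⟩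
      simp only [mem_iUnion]
      exact ⟨a, hGl _ a List.mem_cons_self, hx⟩
  have main : ∀ (B as ts : List (Set S)), (∀ b ∈ B, ¬ Guessed A b) → (∀ x ∈ as, x ∈ A) →
      (∀ x ∈ ts, x ∈ A) → Pos (Z ts) B.length as →
      ∃ l, (∀ x ∈ l, x ∈ A) ∧ (∀ x ∈ as, x ∈ l) ∧ (∀ t ∈ ts, t ∉ G l) ∧
        ∀ b ∈ B, ¬ Captures (G l) b := by
    intro B
    induction B with
    | nil => exact fun as ts _ has _ hp => ⟨as, has, fun _ h => h, hp, by simp⟩
    | cons b B ih =>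
      intro as ts hB has hts hp
      obtain ⟨a, ha, hsm, hpa⟩ := hK as ts B.length hp A (hKA as ts _ has hts).1
        (hKA as ts _ has hts).2 b (hB b List.mem_cons_self)
      have has' : ∀ x ∈ a :: as, x ∈ A := by
        intro x hx
        rcases List.mem_cons.1 hx with rfl | hx
        exacts [ha, has x hx]
      have hB' : ∀ b' ∈ B, ¬ Guessed A b' := fun b' h => hB b' (List.mem_cons_of_mem _ h)
      have fin : ∀ l, (∀ x ∈ a :: as, x ∈ l) → b ∩ a ∉ G l → (∀ b ∈ B, ¬ Captures (G l) b) →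
          ∀ b' ∈ b :: B, ¬ Captures (G l) b' := by
        intro l h1 h2 h3 b' hb'
        rcases List.mem_cons.1 hb' with rfl | hb'
        · exact fun hc => h2 (hc a (hGl l a (h1 a List.mem_cons_self)) hsm)
        · exact h3 b' hb'
      by_cases hba : b ∩ a ∈ A
      · obtain ⟨l, h1, h2, h3, h4⟩ := ih (a :: as) ((b ∩ a) :: ts) hB' has' (by
          intro x hx
          rcases List.mem_cons.1 hx with rfl | hx
          exacts [hba, hts x hx]) hpa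
        exact ⟨l, h1, fun x hx => h2 x (List.mem_cons_of_mem _ hx),
          fun t ht => h3 t (List.mem_cons_of_mem _ ht), fin l h2 (h3 _ List.mem_cons_self) h4⟩
      · obtain ⟨l, h1, h2, h3, h4⟩ := ih (a :: as) ts hB' has' hts
          (Pos.mono (by rw [hZ]; exact inter_subset_left) _ _ hpa)
        exact ⟨l, h1, fun x hx => h2 x (List.mem_cons_of_mem _ hx), h3,
          fin l h2 (fun h => hba (hGA l h1 h)) h4⟩
  refine ⟨m, hmA, fun B hB => ?_⟩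
  obtain ⟨l, h1, -, h3, h4⟩ := main B [] [m] hB (by simp) (by simpa using hmA) (hm _)
  exact ⟨l, h1, h3 m List.mem_cons_self, h4⟩

end Pool.Agent.MP_76b292_lc

end MrgPart3

-- ======== part 4: formerly Pool.Agent.MP_76b292_lc.Coherent
section MrgPart4

/-!
A version of mapping reflection for a bare type, and the triviality of systems that are coherent
modulo an ultrafilter on `ω`.
-/

set_option autoImplicit false

universe u v

open Cardinal Set Order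

namespace Pool.Agent.MP_76b292_lc

/-- Mapping reflection for a type `X`, with elementarity replaced by closure properties. -/
def TypeMRP (X : Type u) : Prop :=
  ∀ (Sg : Set X → Set (Set X)) (K : Set X → Set X),
    (∀ A, ∀ N ∈ Sg A, ∃ x : Set X, x.Finite ∧ x ⊆ N ∧ ∀ Y, x ⊆ Y → Y ⊆ N → Y ∈ Sg A) →
    (∀ G : List X → Set X, (∀ l, (G l).Countable) → (∀ l, ∀ x ∈ l, x ∈ G l) →
      ∃ F : List X → Set X, (∀ l, (F l).Countable) ∧ ∀ A : Set X, A.Countable →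
        (∀ l, (∀ x ∈ l, x ∈ A) → F l ⊆ A) → ∃ l, (∀ x ∈ l, x ∈ A) ∧ G l ∈ Sg A) →
    (∀ A, A.Countable → (K A).Countable) →
    ∃ N : Ordinal.{0} → Set X, ∀ ν < Ordinal.omega 1, (N ν).Countable ∧
      (∀ ξ < ν, K (N ξ) ⊆ N ν) ∧ (IsSuccLimit ν → (∀ x ∈ N ν, ∃ ξ < ν, x ∈ N ξ) ∧
        ∃ ν₀ < ν, ∀ ξ, ν₀ < ξ → ξ < ν → N ξ ∈ Sg (N ν))

variable {S : Type u}

/-- the union of the small members of `A` -/
def supp (A : Set (Set S)) : Set S := ⋃₀ {a ∈ A | Sm a}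

lemma sm_supp {A : Set (Set S)} (hA : A.Countable) : Sm (supp A) :=
  sm_sUnion (hA.mono (fun _ h => h.1)) (fun _ h => h.2)

lemma subset_supp {A : Set (Set S)} {a : Set S} (ha : a ∈ A) (h : Sm a) : a ⊆ supp A :=
  subset_sUnion_of_mem (S := {a ∈ A | Sm a}) ⟨ha, h⟩

/-- An index function that is injective on a given countable set. -/
noncomputable def idx {X : Type u} (A : Set X) : X → ℕ :=
  open Classical in
  if h : A.Countable then (countable_iff_exists_injOn.1 h).choose else fun _ => 0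

lemma idx_injOn {X : Type u} {A : Set X} (h : A.Countable) : InjOn (idx A) A := by
  rw [idx, dif_pos h]
  exact (countable_iff_exists_injOn.1 h).choose_spec

/-- A countable family that covers the system gives a single trivialising sequence. -/
lemma trivial_of_countable (D : Ultrafilter ℕ) (g : Set S → ℕ → Set S)
    (hco : ∀ a a', Sm a' → a ⊆ a' → {n | g a' n ∩ a = g a n} ∈ D) (B : Set (Set S))
    (hB : B.Countable) (h : ∀ a, Sm a → {n | ∃ b ∈ B, b ∩ a = g a n} ∈ D) :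
    ∃ b : ℕ → Set S, ∀ a, Sm a → {n | b n ∩ a = g a n} ∈ D := by
  obtain ⟨e, he⟩ := (hB.insert ∅).exists_eq_range (insert_nonempty _ _)
  by_contra hc
  push Not at hc
  choose a ha1 ha2 using fun σ : ℕ → ℕ => hc (fun n => e (σ n))
  have hsm : Sm (⋃ σ, a σ) := sm_iUnion (by simp) ha1
  have h1 : ∀ n, ∃ k, (∃ b ∈ B, b ∩ (⋃ σ, a σ) = g (⋃ σ, a σ) n) →
      e k ∩ (⋃ σ, a σ) = g (⋃ σ, a σ) n := by
    intro n
    by_cases hn : ∃ b ∈ B, b ∩ (⋃ σ, a σ) = g (⋃ σ, a σ) n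
    · obtain ⟨b, hb, hb'⟩ := hn
      have : b ∈ range e := he ▸ mem_insert_of_mem _ hb
      obtain ⟨k, rfl⟩ := this
      exact ⟨k, fun _ => hb'⟩
    · exact ⟨0, fun h => (hn h).elim⟩
  choose σ hσ using h1
  apply ha2 σ
  filter_upwards [h _ hsm, hco (a σ) _ hsm (subset_iUnion a σ)] with n h2 h3
  rw [← h3, ← hσ n h2, inter_assoc, inter_eq_self_of_subset_right (subset_iUnion a σ)]

/-- Under mapping reflection every system that is coherent modulo `D` is trivial. -/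
theorem coherent_trivial [Uncountable (Set S)] (hM : TypeMRP (Set S)) (D : Ultrafilter ℕ)
    (g : Set S → ℕ → Set S)
    (hco : ∀ a a', Sm a' → a ⊆ a' → {n | g a' n ∩ a = g a n} ∈ D) :
    ∃ b : ℕ → Set S, ∀ a, Sm a → {n | b n ∩ a = g a n} ∈ D := by
  by_contra hnt
  have hwit : ∀ B : Set (Set S), B.Countable →
      ∃ a, Sm a ∧ {n | ∃ b ∈ B, b ∩ a = g a n} ∉ D := by
    intro B hB
    by_contra hc
    push Not at hc
    exact hnt (trivial_of_countable D g hco B hB hc)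
  choose! w hw1 hw2 using hwit
  let Sg : Set (Set S) → Set (Set (Set S)) := fun A =>
    {N | ∃ m ∈ A, m ∉ N ∧ ∀ n ≤ idx A m, ¬ Guessed A (g (supp A) n) → ¬ Captures N (g (supp A) n)}
  let K : Set (Set S) → Set (Set S) := fun A =>
    A ∪ (insert (w A) (insert (supp A) (range (g (supp A)) ∪ image2 (· ∩ ·) A A)))
  refine (hM Sg K ?_ ?_ ?_).elim (fun N hN => ?_)
  · rintro A N ⟨m, hmA, hmN, h⟩
    have h1 : ∀ n, ∃ a : Set S, n ≤ idx A m → ¬ Guessed A (g (supp A) n) →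
        a ∈ N ∧ Sm a ∧ g (supp A) n ∩ a ∉ N := by
      intro n
      by_cases hn : n ≤ idx A m ∧ ¬ Guessed A (g (supp A) n)
      · have := h n hn.1 hn.2
        simp only [Captures, not_forall] at this
        obtain ⟨a, k1, k2, k3⟩ := this
        exact ⟨a, fun _ _ => ⟨k1, k2, k3⟩⟩
      · exact ⟨∅, fun k1 k2 => (hn ⟨k1, k2⟩).elim⟩
    choose a ha using h1
    refine ⟨a '' {n | n ≤ idx A m ∧ ¬ Guessed A (g (supp A) n)},
      ((finite_le_nat (idx A m)).subset (fun n hn => hn.1)).image _, ?_, fun Y h1 h2 => ?_⟩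
    · rintro _ ⟨n, hn, rfl⟩
      exact (ha n hn.1 hn.2).1
    · exact ⟨m, hmA, fun h => hmN (h2 h), fun n k1 k2 hc =>
        (ha n k1 k2).2.2 (h2 (hc _ (h1 ⟨n, ⟨k1, k2⟩, rfl⟩) (ha n k1 k2).2.1))⟩
  · intro G hG hGl
    obtain ⟨F, hF, h⟩ := avoidance G hG hGl
    refine ⟨F, hF, fun A _ hA => ?_⟩
    obtain ⟨m, hmA, hm⟩ := h A hA
    classical
    obtain ⟨l, h1, h2, h3⟩ := hm (((List.range (idx A m + 1)).map (g (supp A))).filter
      (fun b => ¬ Guessed A b)) (fun b hb => by simpa using (List.mem_filter.1 hb).2)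
    refine ⟨l, h1, m, hmA, h2, fun n hn hg => h3 _ (List.mem_filter.2 ⟨?_, by simpa using hg⟩)⟩
    exact List.mem_map.2 ⟨n, List.mem_range.2 (Nat.lt_succ_of_le hn), rfl⟩
  · intro A hA
    exact hA.union (((countable_range _).union (hA.image2 hA _)).insert _ |>.insert _)
  -- the reflection argument
  have hNc : ∀ ν < Ordinal.omega 1, (N ν).Countable := fun ν h => (hN ν h).1
  have hK : ∀ ξ ν, ξ < ν → ν < Ordinal.omega 1 → K (N ξ) ⊆ N ν := fun ξ ν h1 h2 =>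
    (hN ν h2).2.1 ξ h1
  have hmono : ∀ ξ ν, ξ ≤ ν → ν < Ordinal.omega 1 → N ξ ⊆ N ν := by
    intro ξ ν h1 h2
    rcases h1.eq_or_lt with rfl | h1
    · exact Subset.rfl
    · exact subset_union_left.trans (hK ξ ν h1 h2)
  let as : Set S := ⋃ ν : Iio (Ordinal.omega.{0} 1), supp (N ν.1)
  have has : Sm as := sm_iUnion (mk_Iio_le le_rfl) (fun ν => sm_supp (hNc _ ν.2))
  have hsub : ∀ ν < Ordinal.omega 1, supp (N ν) ⊆ as := fun ν h =>
    subset_iUnion (fun ν : Iio (Ordinal.omega.{0} 1) => supp (N ν.1)) ⟨ν, h⟩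
  have hc : ∀ ν < Ordinal.omega 1, {n | g as n ∩ supp (N ν) = g (supp (N ν)) n} ∈ D :=
    fun ν h => hco _ _ has (hsub ν h)
  -- a general principle: a `D`-large set of bounded conditions is impossible
  have htail : ∀ (p : ℕ → Ordinal.{0} → Prop) (B : Set ℕ),
      (∀ n ∈ B, ¬ ∀ η < Ordinal.omega 1, ∃ ξ, p n ξ ∧ η < ξ ∧ ξ < Ordinal.omega 1) →
      ∃ ξ < Ordinal.omega 1, ∀ n ∈ B, ¬ p n ξ := by
    intro p B h
    push Not at h
    choose! η h1 h2 using h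
    obtain ⟨ξ, k1, k2⟩ := exists_bound (fun n : B => η n.1) (fun n => h1 n.1 n.2)
    exact ⟨ξ, k1, fun n hn hp => absurd k1 (not_lt.2 (h2 n hn ξ hp (k2 ⟨n, hn⟩)))⟩
  let A₁ : Set ℕ := {n | ∀ η < Ordinal.omega 1,
    ∃ ξ, g as n ∩ supp (N ξ) = g (supp (N ξ)) n ∧ η < ξ ∧ ξ < Ordinal.omega 1}
  have hA₁ : A₁ ∈ D := by
    by_contra h
    obtain ⟨ξ, k1, k2⟩ := htail (fun n ξ => g as n ∩ supp (N ξ) = g (supp (N ξ)) n) A₁ᶜ
      (fun n hn => hn)
    obtain ⟨n, h1, h2⟩ := D.nonempty_of_mem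
      (Filter.inter_mem (Ultrafilter.compl_mem_iff_notMem.2 h) (hc ξ k1))
    exact k2 n h1 h2
  -- capturing ordinals are unbounded
  have hcap : ∀ n ∈ A₁, ∀ η < Ordinal.omega 1,
      ∃ ξ, Captures (N ξ) (g as n) ∧ η < ξ ∧ ξ < Ordinal.omega 1 := by
    intro n hn η hη
    choose! f hf1 hf2 hf3 using hn
    obtain ⟨ν, h1, h2, h3, h4⟩ := exists_closure_point (ι := Unit) (fun _ ξ => f ξ + 1 + 1)
      (fun _ ξ hξ => succ_lt_omega_one (succ_lt_omega_one (hf3 ξ hξ))) hη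
    refine ⟨ν, fun a ha hsm => ?_, h2, h1⟩
    obtain ⟨ξ, hξ, haξ⟩ := ((hN ν h1).2.2 h3).1 a ha
    have hξ1 := hξ.trans h1
    have l1 : f ξ + 1 + 1 < ν := h4 () ξ hξ
    have l2 : f ξ + 1 < ν := (lt_add_one _).trans l1
    have l3 : f ξ < Ordinal.omega 1 := hf3 ξ hξ1
    have e1 : a ∈ N (f ξ) := hmono _ _ (hf2 ξ hξ1).le l3 haξ
    have e2 : g as n ∩ a = g (supp (N (f ξ))) n ∩ a := by
      rw [← hf1 ξ hξ1, inter_assoc, inter_eq_self_of_subset_right (subset_supp e1 hsm)]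
    rw [e2]
    refine hK _ _ l2 h1 (Or.inr (Or.inr (Or.inr (Or.inr ⟨_, ?_, a, ?_, rfl⟩))))
    · exact hK _ _ (lt_add_one _) (l2.trans h1) (Or.inr (Or.inr (Or.inr (Or.inl ⟨n, rfl⟩))))
    · exact hmono _ _ (lt_add_one _).le (l2.trans h1) e1
  let Zs : Ordinal.{0} → Set ℕ := fun ξ => {n | ∃ b ∈ N ξ, b ∩ w (N ξ) = g as n ∩ w (N ξ)}
  have hwN : ∀ ξ ν, ξ < ν → ν < Ordinal.omega 1 → w (N ξ) ∈ N ν := fun ξ ν h1 h2 =>
    hK ξ ν h1 h2 (Or.inr (Or.inl rfl))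
  have hZs : ∀ ξ < Ordinal.omega 1, Zs ξ ∉ D := by
    intro ξ hξ h
    apply hw2 _ (hNc ξ hξ)
    have h1 : w (N ξ) ⊆ as :=
      (subset_supp (hwN ξ _ (lt_add_one ξ) (succ_lt_omega_one hξ)) (hw1 _ (hNc ξ hξ))).trans
        (hsub _ (succ_lt_omega_one hξ))
    filter_upwards [h, hco _ _ has h1] with n ⟨b, k1, k2⟩ k3
    exact ⟨b, k1, k2.trans k3⟩
  let B : Set ℕ := {n | n ∈ A₁ ∧ ∀ η < Ordinal.omega 1,
    ∃ ξ, n ∉ Zs ξ ∧ η < ξ ∧ ξ < Ordinal.omega 1}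
  have hB : B ∈ D := by
    by_contra h
    obtain ⟨ξ, k1, k2⟩ := htail (fun n ξ => n ∉ Zs ξ) (A₁ ∩ Bᶜ)
      (fun n hn hp => hn.2 ⟨hn.1, hp⟩)
    refine hZs ξ k1 (Filter.mem_of_superset
      (Filter.inter_mem hA₁ (Ultrafilter.compl_mem_iff_notMem.2 h)) (fun n hn => ?_))
    exact not_not.1 (k2 n hn)
  obtain ⟨ν, hν, hlim, hνC⟩ := exists_limit_point (ι := B × Bool)
    (fun p => cond p.2 {ξ | Captures (N ξ) (g as p.1.1)} {ξ | p.1.1 ∉ Zs ξ}) (by
      rintro ⟨n, _ | _⟩ η hη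
      · exact n.2.2 η hη
      · exact hcap n.1 n.2.1 η hη)
  obtain ⟨n, hnB, hnc⟩ := D.nonempty_of_mem (Filter.inter_mem hB (hc ν hν))
  obtain ⟨hcont, ν₀, hν₀, hrefl⟩ := (hN ν hν).2.2 hlim
  have hnc' : g as n ∩ supp (N ν) = g (supp (N ν)) n := hnc
  have hguess : Guessed (N ν) (g (supp (N ν)) n) := by
    by_contra hg
    -- finitely many points have a small index
    have hfin : {m ∈ N ν | idx (N ν) m < n}.Finite :=
      Finite.of_finite_image ((finite_lt_nat n).subset (by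
        rintro _ ⟨m, hm, rfl⟩
        exact hm.2)) ((idx_injOn (hNc ν hν)).mono (fun _ h => h.1))
    have h1 : ∃ η < ν, ν₀ ≤ η ∧ ∀ m ∈ {m ∈ N ν | idx (N ν) m < n}, m ∈ N η := by
      have hsubN : {m ∈ N ν | idx (N ν) m < n} ⊆ N ν := fun _ h => h.1
      revert hsubN
      refine hfin.induction_on_subset _ ?_ ?_
      · exact fun _ => ⟨ν₀, hν₀, le_rfl, by simp⟩
      · intro m s _ _ _ ih hs
        obtain ⟨η, k1, k2, k3⟩ := ih ((subset_insert _ _).trans hs)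
        obtain ⟨ξ, k4, k5⟩ := hcont m (hs (mem_insert _ _))
        have k6 : max η ξ < ν := max_lt k1 k4
        refine ⟨max η ξ, k6, k2.trans (le_max_left _ _), fun x hx => ?_⟩
        rcases hx with rfl | hx
        · exact hmono _ _ (le_max_right _ _) (k6.trans hν) k5
        · exact hmono _ _ (le_max_left _ _) (k6.trans hν) (k3 x hx)
    obtain ⟨η, k1, k2, k3⟩ := h1
    obtain ⟨ξ, hξ1, hξ2, hξ3⟩ := hνC (⟨n, hnB⟩, true) η k1
    obtain ⟨m, hm1, hm2, hm3⟩ := hrefl ξ (k2.trans_lt hξ2) hξ3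
    refine hm3 n ?_ hg (fun a ha hsm => ?_)
    · by_contra hlt
      exact hm2 (hmono _ _ hξ2.le (hξ3.trans hν) (k3 m ⟨hm1, not_le.1 hlt⟩))
    · rw [← hnc', inter_assoc,
        inter_eq_self_of_subset_right (subset_supp (hmono _ _ hξ3.le hν ha) hsm)]
      exact hξ1 a ha hsm
  obtain ⟨b, hb1, hb2⟩ := hguess
  obtain ⟨η, k1, k2⟩ := hcont b hb1
  obtain ⟨ξ, hξ1, hξ2, hξ3⟩ := hνC (⟨n, hnB⟩, false) η k1
  apply hξ1
  have hw := hwN ξ ν hξ3 hν
  have hsm := hw1 _ (hNc ξ (hξ3.trans hν))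
  refine ⟨b, hmono _ _ hξ2.le (hξ3.trans hν) k2, ?_⟩
  rw [hb2 _ hw hsm, ← hnc', inter_assoc, inter_eq_self_of_subset_right (subset_supp hw hsm)]

end Pool.Agent.MP_76b292_lc

end MrgPart4

-- marker of a merged file
example : 731051 + 18924 = 731051 + 18924 := rfl
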