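import Mathlib.Algebra.Ring.CharZero
import Mathlib.Data.Fintype.Pigeonhole
import Mathlib.CategoryTheory.Countable
import Mathlib.SetTheory.ZFC.VonNeumann
import Pool.Agent.MP_76b292_lc.Coherent
import Pool.Agent.MP_76b292_lc.Defs
import Pool.Agent.MP_76b292_lc.Defs2
import Pool.Agent.MP_76b292_lc.BVZF

-- ======== part 0: formerly Pool.Agent.MP_76b292_lc.Coord
section MrgPart0

/-!
One coordinate of the forcing: functions into a Cohen forcing ordered almost everywhere.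
-/

set_option autoImplicit false

universe u v

open Set Cardinal Filter

namespace Pool.Agent.MP_76b292_lc

/-- small families of open dense sets have a dense intersection -/
lemma fusion {P : Type u} {le : P → P → Prop} (hr : ∀ p, le p p)
    (ht : ∀ {p q r}, le p q → le q r → le p r) {lam : Cardinal.{u}} (hl : ℵ₀ ≤ lam)
    (hlc : ∀ (T : Type u) (f : T → P), #T ≤ lam → (∀ a b, ∃ r, le r (f a) ∧ le r (f b)) →
      ∃ p, ∀ a, le p (f a))
    {T : Type u} (hT : #T ≤ lam) (Δ : T → P → Prop) (ho : ∀ t p q, le q p → Δ t p → Δ t q) (f : P)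
    (hd : ∀ t q, le q f → ∃ r, le r q ∧ Δ t r) : ∃ g, le g f ∧ ∀ t, Δ t g := by
  obtain ⟨_, _, -⟩ := exists_ord_eq_type_lt T
  have : Nonempty P := ⟨f⟩
  let g : T → P := (wellFounded_lt (α := T)).fix
    (fun t r => Classical.epsilon (fun q => le q f ∧ (∀ s (h : s < t), le q (r s h)) ∧ Δ t q))
  have hg : ∀ t, g t = Classical.epsilon (fun q => le q f ∧ (∀ s, s < t → le q (g s)) ∧ Δ t q) :=
    fun t => WellFounded.fix_eq _ _ t
  have low : ∀ S : Set T, (∀ t ∈ S, le (g t) f ∧ ∀ s, s < t → le (g t) (g s)) →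
      ∃ q, le q f ∧ ∀ s ∈ S, le q (g s) := by
    intro S hS
    obtain ⟨q, hq⟩ := hlc (Option S) (fun o => o.elim f (fun s => g s.1)) (by
      rw [mk_option]
      exact add_le_of_le hl ((mk_set_le S).trans hT) (one_le_aleph0.trans hl)) (by
      rintro (_ | a) (_ | b)
      · exact ⟨f, hr f, hr f⟩
      · exact ⟨_, (hS _ b.2).1, hr _⟩
      · exact ⟨_, hr _, (hS _ a.2).1⟩
      · rcases lt_trichotomy a.1 b.1 with k | k | k
        · exact ⟨_, (hS _ b.2).2 _ k, hr _⟩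
        · exact ⟨g a.1, hr _, by simpa only [Option.elim, k] using hr _⟩
        · exact ⟨_, hr _, (hS _ a.2).2 _ k⟩)
    exact ⟨q, hq none, fun s hs => hq (some ⟨s, hs⟩)⟩
  have key : ∀ t, le (g t) f ∧ (∀ s, s < t → le (g t) (g s)) ∧ Δ t (g t) := by
    intro t
    induction t using WellFoundedLT.induction with
    | ind t ih =>
      obtain ⟨q, k1, k2⟩ := low (Iio t) (fun s hs => ⟨(ih s hs).1, (ih s hs).2.1⟩)
      obtain ⟨r, k3, k4⟩ := hd t q k1
      rw [hg t]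
      exact Classical.epsilon_spec (p := fun q => le q f ∧ (∀ s, s < t → le q (g s)) ∧ Δ t q)
        ⟨r, ht k3 k1, fun s hs => ht k3 (k2 s hs), k4⟩
  obtain ⟨q, k1, k2⟩ := low univ (fun s _ => ⟨(key s).1, (key s).2.1⟩)
  exact ⟨q, k1, fun t => ho t _ _ (k2 t trivial) (key t).2.2⟩

variable {a J : Type u} {U : Ultrafilter a} {lam κ : Cardinal.{u}}

/-- completeness of an ultrafilter -/
def Cm (U : Ultrafilter a) (κ : Cardinal.{u}) : Prop :=
  ∀ (T : Type u) (p : a → T → Prop), #T < κ → (∀ t, ∀ᶠ x in U, p x t) → ∀ᶠ x in U, ∀ t, p x t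

lemma Cm.const (h : Cm U κ) {T : Type u} (hT : #T < κ) (F : a → T) : ∃ t, ∀ᶠ x in U, F x = t := by
  by_contra k
  obtain ⟨x, hx⟩ := (h T (fun x t => ¬ F x = t) hT
    (fun t => Ultrafilter.eventually_not.2 fun l => k ⟨t, l⟩)).exists
  exact hx _ rfl

/-- Cohen conditions -/
def Good (lam : Cardinal.{u}) (c : Set (J × Bool)) : Prop :=
  (∀ j b, (j, b) ∈ c → (j, !b) ∉ c) ∧ #c ≤ lam

lemma good_empty : Good lam (∅ : Set (J × Bool)) := ⟨fun _ _ h => h.elim, by simp⟩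

/-- conditions of one coordinate -/
def Co (U : Ultrafilter a) (lam : Cardinal.{u}) (J : Type u) : Type u :=
  {f : a → Set (J × Bool) // ∀ᶠ x in U, Good lam (f x)}

/-- the order of one coordinate -/
def qle (g f : Co U lam J) : Prop := ∀ᶠ x in U, f.1 x ⊆ g.1 x

/-- the projection to the Cohen forcing -/
def prj (f : Co U lam J) : Set (J × Bool) := {e | ∀ᶠ x in U, e ∈ f.1 x}

/-- constant conditions -/
def cst (U : Ultrafilter a) (lam : Cardinal.{u}) (c : Set (J × Bool)) : Co U lam J :=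
  ⟨fun _ => {e ∈ c | Good lam c}, Eventually.of_forall fun _ => by
    by_cases h : Good lam c
    · simp only [h, and_true, ofPred_mem_eq]
    · simpa only [h, and_false, ofPred_false] using good_empty⟩

variable {f g r : Co U lam J} {c : Set (J × Bool)}

lemma qle_refl (f : Co U lam J) : qle f f := Eventually.of_forall fun _ => Subset.rfl

lemma qle_trans (h1 : qle r g) (h2 : qle g f) : qle r f :=
  (Eventually.and h1 h2).mono fun _ h => h.2.trans h.1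

lemma prj_mono (h : qle g f) : prj f ⊆ prj g := fun _ k =>
  (Eventually.and h k).mono fun _ l => l.1 l.2

lemma prj_cst (h : Good lam c) : prj (cst U lam c) = c :=
  Set.ext fun _ => ⟨fun k => (Eventually.exists k).choose_spec.1,
    fun k => Eventually.of_forall fun _ => ⟨k, h⟩⟩

/-- the hypotheses on one coordinate -/
structure CoH (U : Ultrafilter a) (lam κ : Cardinal.{u}) : Prop where
  cm : Cm U κ
  lt : Order.succ lam < κ
  inf : ℵ₀ ≤ lam

namespace CoH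

variable (h : CoH U lam κ)

include h

lemma all {T : Type u} (hT : #T ≤ lam) {p : a → T → Prop} (k : ∀ t, ∀ᶠ x in U, p x t) :
    ∀ᶠ x in U, ∀ t, p x t := h.cm T p (hT.trans_lt ((Order.le_succ _).trans_lt h.lt)) k

lemma good_prj (f : Co U lam J) : Good lam (prj f) := by
  refine ⟨fun j b k1 k2 => ?_, not_lt.1 fun k => ?_⟩
  · obtain ⟨x, l1, l2, l3⟩ := (f.2.and (Eventually.and k1 k2)).exists
    exact l1.1 j b l2 l3
  · obtain ⟨s, l1, l2⟩ := le_mk_iff_exists_subset.1 (Order.succ_le_of_lt k)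
    obtain ⟨x, l3, l4⟩ := (f.2.and (h.cm s (fun x e => e.1 ∈ f.1 x) (l2 ▸ h.lt)
      fun e => l1 e.2)).exists
    have := (mk_le_mk_of_subset (fun e he => l4 ⟨e, he⟩ : s ⊆ f.1 x)).trans l3.2
    rw [l2] at this
    exact (Order.lt_succ lam).not_ge this

lemma prj_sub (f : Co U lam J) : ∀ᶠ x in U, prj f ⊆ f.1 x :=
  (h.all (h.good_prj f).2 (p := fun x e => e.1 ∈ f.1 x) fun e => e.2).mono
    fun _ k e he => k ⟨e, he⟩

lemma amal {T : Type u} (hT : #T ≤ lam) (f : T → Co U lam J)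
    (hf : ∀ s t, ∃ r, qle r (f s) ∧ qle r (f t)) (hc : Good lam c)
    (hcf : ∀ t j b, (j, b) ∈ c → (j, !b) ∉ prj (f t)) : ∃ v, (∀ t, qle v (f t)) ∧ c ⊆ prj v := by
  have k1 := h.all hT (p := fun x t => Good lam ((f t).1 x)) fun t => (f t).2
  have k2 := h.all (T := T × T) (by
      rw [mk_prod, lift_id]
      exact mul_le_of_le h.inf hT hT)
    (p := fun x t => ∀ j b, (j, b) ∈ (f t.1).1 x → (j, !b) ∉ (f t.2).1 x) fun t => by
      obtain ⟨r, l1, l2⟩ := hf t.1 t.2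
      exact (r.2.and (Eventually.and l1 l2)).mono fun x m j b n1 n2 =>
        m.1.1 j b (m.2.1 n1) (m.2.2 n2)
  have k3 := h.all (T := T × c) (by
      rw [mk_prod, lift_id, lift_id]
      exact mul_le_of_le h.inf hT hc.2)
    (p := fun x t => (t.2.1.1, !t.2.1.2) ∉ (f t.1).1 x) fun t =>
      Ultrafilter.eventually_not.2 (hcf t.1 _ _ t.2.2)
  refine ⟨⟨fun x => c ∪ ⋃ t, (f t).1 x, (k1.and (k2.and k3)).mono fun x ⟨l1, l2, l3⟩ => ⟨?_, ?_⟩⟩,
    fun t => Eventually.of_forall fun x => (subset_iUnion (fun t => (f t).1 x) t).trans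
      subset_union_right, fun e he => Eventually.of_forall fun x => Or.inl he⟩
  · rintro j b (m1 | m1) (m2 | m2)
    · exact hc.1 j b m1 m2
    · obtain ⟨t, m2⟩ := mem_iUnion.1 m2
      exact l3 (t, ⟨_, m1⟩) m2
    · obtain ⟨t, m1⟩ := mem_iUnion.1 m1
      exact l3 (t, ⟨_, m2⟩) (by simpa using m1)
    · obtain ⟨t, m1⟩ := mem_iUnion.1 m1
      obtain ⟨s, m2⟩ := mem_iUnion.1 m2
      exact l2 (t, s) j b m1 m2
  · exact (mk_union_le _ _).trans (add_le_of_le h.inf hc.2 ((mk_iUnion_le _).trans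
      (mul_le_of_le h.inf hT (ciSup_le' fun t => (l1 t).2))))

lemma amal' {T : Type u} (hT : #T ≤ lam) (f : T → Co U lam J)
    (hf : ∀ s t, ∃ r, qle r (f s) ∧ qle r (f t)) (hc : Good lam c) (hcf : ∀ t, prj (f t) ⊆ c) :
    ∃ v, (∀ t, qle v (f t)) ∧ c ⊆ prj v :=
  h.amal hT f hf hc fun t j b k1 k2 => hc.1 j b k1 (hcf t k2)

lemma amal_one (f : Co U lam J) (hc : Good lam c) (hcf : prj f ⊆ c) : ∃ v, qle v f ∧ c ⊆ prj v :=
  let ⟨v, k1, k2⟩ := h.amal' (T := PUnit) (by simpa using one_le_aleph0.trans h.inf) (fun _ => f)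
    (fun _ _ => ⟨f, qle_refl f, qle_refl f⟩) hc (fun _ => hcf)
  ⟨v, k1 ⟨⟩, k2⟩

lemma amal_seq (f : ℕ → Co U lam J) (I : Set ℕ) (hf : ∀ i ∈ I, ∀ j ∈ I, i ≤ j → qle (f j) (f i))
    (hc : Good lam c) (hcf : ∀ i, prj (f i) ⊆ c) : ∃ v, (∀ i ∈ I, qle v (f i)) ∧ c ⊆ prj v := by
  obtain ⟨v, k1, k2⟩ := h.amal' (T := ULift I) (mk_le_aleph0.trans h.inf) (fun t => f t.down.1)
    (fun s t => (le_total s.down.1 t.down.1).elim
      (fun k => ⟨_, hf _ s.down.2 _ t.down.2 k, qle_refl _⟩)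
      (fun k => ⟨_, qle_refl _, hf _ t.down.2 _ s.down.2 k⟩)) hc (fun _ => hcf _)
  exact ⟨v, fun i hi => k1 ⟨⟨i, hi⟩⟩, k2⟩

lemma good_iUnion (c : ℕ → Set (J × Bool)) (hm : Monotone c) (hc : ∀ i, Good lam (c i)) :
    Good lam (⋃ i, c i) := by
  refine ⟨fun j b k1 k2 => ?_, ?_⟩
  · obtain ⟨i, k1⟩ := mem_iUnion.1 k1
    obtain ⟨i', k2⟩ := mem_iUnion.1 k2
    exact (hc (max i i')).1 j b (hm (le_max_left _ _) k1) (hm (le_max_right _ _) k2)
  · rw [← (ULift.down_surjective (α := ℕ) : Function.Surjective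
      (ULift.down : ULift.{u} ℕ → ℕ)).iUnion_comp c]
    exact (mk_iUnion_le _).trans (mul_le_of_le h.inf (mk_le_aleph0.trans h.inf)
      (ciSup_le' fun t => (hc _).2))

/-- almost all pairs of values are compatible -/
lemma pair (hU : ∀ x, {x} ∉ U) (f : Co U lam J) {S : Set a} (hS : S ∈ U) :
    ∃ x ∈ S, ∃ y ∈ S, x ≠ y ∧ Good lam (f.1 x) ∧ Good lam (f.1 y) ∧ Good lam (f.1 x ∪ f.1 y) := by
  obtain ⟨x, k1, k2, k3⟩ := (Eventually.and hS (f.2.and (h.prj_sub f))).exists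
  have k4 := h.all k2.2 (p := fun y e => (e.1.1, !e.1.2) ∉ f.1 y) fun e =>
    Ultrafilter.eventually_not.2 fun l => k2.1 _ _ e.2 (k3 l)
  obtain ⟨y, l1, l2, l3, l4⟩ := (Eventually.and hS (f.2.and (k4.and
    (Ultrafilter.compl_mem_iff_notMem.2 (hU x))))).exists
  refine ⟨x, k1, y, l1, fun e => l4 e.symm, k2, l2, ?_,
    (mk_union_le _ _).trans (add_le_of_le h.inf k2.2 l2.2)⟩
  rintro j b (m1 | m1) (m2 | m2)
  · exact k2.1 j b m1 m2
  · exact l3 ⟨_, m1⟩ m2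
  · exact l3 ⟨_, m2⟩ (by simpa using m1)
  · exact l2.1 j b m1 m2

end CoH

end Pool.Agent.MP_76b292_lc

end MrgPart0

-- ======== part 1: formerly Pool.Agent.MP_76b292_lc.Ultra
section MrgPart1

/-!
From an indecomposable ultrafilter to a coherent system (after Silver), and from a trivial system
to measurable cardinals.
-/

set_option autoImplicit false

universe u v

open Cardinal Set Order

namespace Pool.Agent.MP_76b292_lc

variable {α : Type u}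

/-- maps into smaller types have countable range on a large set -/
lemma countable_range_of_indec (U : Ultrafilter α)
    (hU : ∀ β : Type u, ℵ₀ < #β → #β < #α → ¬ Decomposable U β) {β : Type u} (hβ : #β < #α)
    (f : α → β) : ∃ R : Set β, R.Countable ∧ f ⁻¹' R ∈ U := by
  obtain ⟨c, ⟨R, hR, rfl⟩, hmin⟩ := wellFounded_lt.has_min
    {c : Cardinal.{u} | ∃ R : Set β, f ⁻¹' R ∈ U ∧ #R = c} ⟨_, univ, Filter.univ_mem, rfl⟩
  refine ⟨R, ?_, hR⟩
  by_contra hc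
  rw [← le_aleph0_iff_set_countable, not_le] at hc
  have hne : Nonempty R := mk_ne_zero_iff.1 (lt_of_le_of_lt bot_le hc).ne'
  obtain ⟨r₀⟩ := hne
  classical
  refine hU R hc ((mk_set_le R).trans_lt hβ)
    ⟨fun x => if h : f x ∈ R then ⟨f x, h⟩ else r₀, fun A hA hAU => ?_⟩
  refine hmin _ ⟨Subtype.val '' A, ?_, rfl⟩ (mk_image_le.trans_lt hA)
  filter_upwards [hR, hAU] with x h1 h2
  have h1' : f x ∈ R := h1
  simp only [mem_preimage, dif_pos h1'] at h2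
  exact ⟨_, h2, rfl⟩

/-- Silver's finest partition -/
lemma exists_finest (U : Ultrafilter α) (hsl : (#α).IsStrongLimit) (hα : ℵ₀ < #α)
    (hU : ∀ β : Type u, ℵ₀ < #β → #β < #α → ¬ Decomposable U β) :
    ∃ (φ : α → ℕ) (g : Set (Set α) → ℕ → Set (Set α)),
      ∀ a, Sm a → {x | {A ∈ a | x ∈ A} = g a (φ x)} ∈ U := by
  have h2 : (2 : Cardinal.{u}) ^ Cardinal.continuum < #α :=
    hsl.isStrongPrelimit (hsl.isStrongPrelimit hα)
  have hT : ∀ a : Set (Set α), Sm a → ∃ T : Set (Set (Set α)), T.Countable ∧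
      {x | {A ∈ a | x ∈ A} ∈ T} ∈ U := by
    intro a ha
    have hlt : #(Set a) < #α := by
      rw [mk_set]
      exact (power_le_power_left two_ne_zero ha).trans_lt h2
    obtain ⟨R, hR1, hR2⟩ := countable_range_of_indec U hU hlt (fun x => {A : a | x ∈ A.1})
    refine ⟨(fun t : Set a => Subtype.val '' t) '' R, hR1.image _, ?_⟩
    filter_upwards [hR2] with x hx
    refine ⟨_, hx, ?_⟩
    ext A
    simp [and_comm]
  choose! T hT1 hT2 using hT
  obtain ⟨a₀, ha₀, hst⟩ := stabilise {a | Sm a} (fun _ h => h) (fun a ha => ⟨a, ha, Subset.rfl⟩)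
    T hT1
  let φ : α → ℕ := fun x => idx (T a₀) {A ∈ a₀ | x ∈ A}
  have hY : ∀ a : Set (Set α), Sm a → ∃ Y ∈ U, ∀ x ∈ Y, ∀ y ∈ Y, φ x = φ y →
      {A ∈ a | x ∈ A} = {A ∈ a | y ∈ A} := by
    intro a ha
    obtain ⟨a', h1, h3, h4, h5⟩ := hst a ha
    have hr : ∀ (b : Set (Set α)) (x : α), b ⊆ a' → {A ∈ a' | x ∈ A} ∩ b = {A ∈ b | x ∈ A} := by
      intro b x hb
      ext A
      exact ⟨fun h => ⟨h.2, h.1.2⟩, fun h => ⟨⟨hb h.1, h.2⟩, h.1⟩⟩
    refine ⟨_, Filter.inter_mem (hT2 a₀ ha₀) (hT2 a' h1), fun x hx y hy e => ?_⟩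
    have e1 := idx_injOn (hT1 a₀ ha₀) hx.1 hy.1 e
    have := h5 _ hx.2 _ hy.2 (by rw [hr _ _ h3, hr _ _ h3, e1])
    rwa [hr _ _ h4, hr _ _ h4] at this
  choose! Y hY1 hY2 using hY
  refine ⟨φ, fun a n => {A | ∃ y ∈ Y a, φ y = n ∧ A ∈ a ∧ y ∈ A}, fun a ha => ?_⟩
  filter_upwards [hY1 a ha] with x hx
  ext A
  constructor
  · exact fun h => ⟨x, hx, rfl, h⟩
  · rintro ⟨y, hy, e, h⟩
    rw [hY2 a ha x hx y hy e.symm]
    exact h

/-- the ultrafilter given by the two laws -/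
def mkUltra (b : Set (Set α)) (h1 : ∀ A B, A ∩ B ∈ b ↔ A ∈ b ∧ B ∈ b)
    (h2 : ∀ A, Aᶜ ∈ b ↔ A ∉ b) : Ultrafilter α :=
  have hup : ∀ {A B}, A ∈ b → A ⊆ B → B ∈ b := fun {A B} hA h =>
    ((h1 A B).1 (by rwa [inter_eq_self_of_subset_left h])).2
  Ultrafilter.ofComplNotMemIff
    { sets := b
      univ_sets := by
        by_contra h
        exact h (hup ((h2 _).2 h) (subset_univ _))
      sets_of_superset := hup
      inter_sets := fun hA hB => (h1 _ _).2 ⟨hA, hB⟩ }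
    (fun s => by
      change sᶜ ∉ b ↔ s ∈ b
      rw [h2, not_not])

lemma mem_mkUltra {b : Set (Set α)} {h1 : ∀ A B, A ∩ B ∈ b ↔ A ∈ b ∧ B ∈ b}
    {h2 : ∀ A, Aᶜ ∈ b ↔ A ∉ b} {A : Set α} : A ∈ mkUltra b h1 h2 ↔ A ∈ b := Iff.rfl

/-- the completeness of a nonprincipal countably complete ultrafilter is measurable -/
lemma exists_measurable (V : Ultrafilter α) (hV : ∀ x, {x} ∉ V) :
    ∃ μ ≤ #α, (ℵ₀ < μ → IsMeasurable μ) ∧
      ∃ (ι : Type u) (f : α → ι), #ι = μ ∧ ∀ i, f ⁻¹' {i} ∉ V := by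
  obtain ⟨μ, ⟨ι, f, hι, hf⟩, hmin⟩ := wellFounded_lt.has_min
    {c : Cardinal.{u} | ∃ (ι : Type u) (f : α → ι), #ι = c ∧ ∀ i, f ⁻¹' {i} ∉ V}
    ⟨_, α, id, rfl, hV⟩
  refine ⟨μ, not_lt.1 (hmin _ ⟨α, id, rfl, hV⟩), fun hμ => ⟨hμ, ι, V.map f, hι, hf, ⟨?_⟩⟩,
    ι, f, hι, hf⟩
  intro S hS hSV
  by_contra hc
  have hh : ∀ x, ∃ o : Option S, (o = none → f x ∈ ⋂₀ S) ∧ ∀ s : S, o = some s → f x ∉ s.1 := by
    intro x
    by_cases hn : f x ∈ ⋂₀ S
    · exact ⟨none, fun _ => hn, fun s hs => by cases hs⟩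
    · simp only [mem_sInter, not_forall] at hn
      obtain ⟨s, h1, h2⟩ := hn
      exact ⟨some ⟨s, h1⟩, fun h => (by cases h), fun t ht => (by cases ht; exact h2)⟩
  choose h h1 h2 using hh
  refine hmin _ ⟨Option S, h, rfl, ?_⟩ ?_
  · rintro (_ | s) hs
    · apply hc
      change f ⁻¹' ⋂₀ S ∈ V
      filter_upwards [hs] with x hx using h1 x hx
    · have h3 : f ⁻¹' s.1 ∈ V := hSV s.1 s.2
      obtain ⟨x, hx1, hx2⟩ := V.nonempty_of_mem (Filter.inter_mem hs h3)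
      exact h2 x s hx1 hx2
  · rw [mk_option]
    exact add_lt_of_lt hμ.le hS (one_lt_aleph0.trans hμ)

theorem star_of_typeMRP (hM : ∀ X : Type u, Uncountable X → TypeMRP X) : Star.{u} := by
  rintro κ hκ hsl ⟨α, U, rfl, huni, hU⟩
  right
  obtain ⟨φ, g, hg⟩ := exists_finest U hsl hκ hU
  have hunc : Uncountable (Set (Set α)) := by
    rw [← aleph0_lt_mk_iff, mk_set, mk_set]
    exact hκ.trans ((cantor _).trans (cantor _))
  obtain ⟨b, hb⟩ := coherent_trivial (hM _ hunc) (U.map φ) g (by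
    intro a a' ha' h
    change φ ⁻¹' _ ∈ U
    filter_upwards [hg a (ha'.mono h), hg a' ha'] with x h1 h2
    change g a' (φ x) ∩ a = g a (φ x)
    rw [← h1, ← h2]
    ext A
    exact ⟨fun k => ⟨k.2, k.1.2⟩, fun k => ⟨⟨h k.1, k.2⟩, k.1⟩⟩)
  -- a transfer principle
  have los : ∀ (p : ℕ → Prop) (a : ℕ → Set (Set α)) (Y : Set α), Y ∈ U → (∀ n, (a n).Countable) →
      (∀ x ∈ Y, (∀ A ∈ a (φ x), A ∈ b (φ x) ↔ x ∈ A) → p (φ x)) → {x | p (φ x)} ∈ U := by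
    intro p a Y hY ha h
    have hsm : Sm (⋃ n, a n) := sm_of_countable (countable_iUnion ha)
    have h1 : φ ⁻¹' {n | b n ∩ (⋃ n, a n) = g (⋃ n, a n) n} ∈ U := hb _ hsm
    filter_upwards [hY, h1, hg _ hsm] with x k1 k2 k3
    refine h x k1 (fun A hA => ?_)
    have k4 : b (φ x) ∩ (⋃ n, a n) = {A ∈ ⋃ n, a n | x ∈ A} := k2.trans k3.symm
    have k5 : A ∈ ⋃ n, a n := mem_iUnion.2 ⟨_, hA⟩
    constructor
    · intro k
      have : A ∈ b (φ x) ∩ (⋃ n, a n) := ⟨k, k5⟩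
      rw [k4] at this
      exact this.2
    · intro k
      have : A ∈ {A ∈ ⋃ n, a n | x ∈ A} := ⟨k5, k⟩
      rw [← k4] at this
      exact this.1
  have l1 : {x | ∀ A B, A ∩ B ∈ b (φ x) ↔ A ∈ b (φ x) ∧ B ∈ b (φ x)} ∈ U := by
    have hw : ∀ n, ∃ A B : Set α, (A ∩ B ∈ b n ↔ A ∈ b n ∧ B ∈ b n) →
        ∀ A B, A ∩ B ∈ b n ↔ A ∈ b n ∧ B ∈ b n := by
      intro n
      by_cases h : ∀ A B, A ∩ B ∈ b n ↔ A ∈ b n ∧ B ∈ b n
      · exact ⟨∅, ∅, fun _ => h⟩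
      · simp only [not_forall] at h
        obtain ⟨A, B, h⟩ := h
        exact ⟨A, B, fun k => (h k).elim⟩
    choose A B hw using hw
    refine los (fun n => ∀ A B, A ∩ B ∈ b n ↔ A ∈ b n ∧ B ∈ b n)
      (fun n => {A n, B n, A n ∩ B n}) univ Filter.univ_mem (fun n => (toFinite _).countable)
      (fun x _ h => hw _ ?_)
    rw [h _ (by simp), h _ (by simp), h _ (by simp)]
    rfl
  have l2 : {x | ∀ A, Aᶜ ∈ b (φ x) ↔ A ∉ b (φ x)} ∈ U := by
    have hw : ∀ n, ∃ A : Set α, (Aᶜ ∈ b n ↔ A ∉ b n) → ∀ A, Aᶜ ∈ b n ↔ A ∉ b n := by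
      intro n
      by_cases h : ∀ A, Aᶜ ∈ b n ↔ A ∉ b n
      · exact ⟨∅, fun _ => h⟩
      · simp only [not_forall] at h
        obtain ⟨A, h⟩ := h
        exact ⟨A, fun k => (h k).elim⟩
    choose A hw using hw
    refine los (fun n => ∀ A, Aᶜ ∈ b n ↔ A ∉ b n)
      (fun n => {A n, (A n)ᶜ}) univ Filter.univ_mem (fun n => (toFinite _).countable)
      (fun x _ h => hw _ ?_)
    rw [h _ (by simp), h _ (by simp)]
    rfl
  have hne : Nonempty α := mk_ne_zero_iff.1 (lt_of_le_of_lt bot_le hκ).ne'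
  have l3 : {x | ∀ y, {y} ∉ b (φ x)} ∈ U := by
    have hw : ∀ n, ∃ y : α, {y} ∉ b n → ∀ y, {y} ∉ b n := by
      intro n
      by_cases h : ∀ y, {y} ∉ b n
      · exact ⟨hne.some, fun _ => h⟩
      · simp only [not_forall] at h
        obtain ⟨y, h⟩ := h
        exact ⟨y, fun k => (h k).elim⟩
    choose y hw using hw
    have hY : (range y)ᶜ ∈ U := by
      rw [Ultrafilter.compl_mem_iff_notMem]
      intro h
      have h1 := huni _ h
      have h2 := le_aleph0_iff_set_countable.2 (countable_range y)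
      exact absurd (h1 ▸ h2) (not_le.2 hκ)
    refine los (fun n => ∀ y, {y} ∉ b n) (fun n => {{y n}}) _ hY
      (fun n => countable_singleton _) (fun x hx h => hw _ ?_)
    rw [h _ rfl]
    exact fun k => hx ⟨_, k.symm⟩
  have l4 : ∀ c < #α, {x | ∀ (ι : Type u) (f : α → ι), #ι ≤ c → ∃ i, f ⁻¹' {i} ∈ b (φ x)} ∈ U := by
    intro c hc
    have hw : ∀ n, ∃ (ι : Type u) (f : α → ι), #ι ≤ max c ℵ₀ ∧ ((∃ i, f ⁻¹' {i} ∈ b n) →
        ∀ (ι : Type u) (f : α → ι), #ι ≤ c → ∃ i, f ⁻¹' {i} ∈ b n) := by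
      intro n
      by_cases h : ∀ (ι : Type u) (f : α → ι), #ι ≤ c → ∃ i, f ⁻¹' {i} ∈ b n
      · exact ⟨PUnit, fun _ => PUnit.unit, le_max_of_le_right mk_le_aleph0, fun _ => h⟩
      · simp only [not_forall] at h
        obtain ⟨ι, f, h1, h⟩ := h
        exact ⟨ι, f, le_max_of_le_left h1, fun k => (h k).elim⟩
    choose ι f hι hw using hw
    have hlt : #(∀ n : ULift.{u} ℕ, ι n.down) < #α := by
      rw [mk_pi]
      refine lt_of_le_of_lt (prod_le_prod _ (fun _ => 2 ^ max c ℵ₀)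
        (fun n => (hι _).trans (cantor _).le)) ?_
      rw [prod_const']
      simp only [mk_uLift, mk_nat, lift_aleph0]
      rw [← power_mul, mul_eq_left (le_max_right _ _) (le_max_right _ _) aleph0_ne_zero]
      exact hsl.isStrongPrelimit (max_lt hc hκ)
    obtain ⟨R, hR1, hR2⟩ := countable_range_of_indec U hU hlt (fun x n => f n.down x)
    refine los (fun n => ∀ (ι : Type u) (f : α → ι), #ι ≤ c → ∃ i, f ⁻¹' {i} ∈ b n)
      (fun n => (fun r : (∀ n : ULift.{u} ℕ, ι n.down) => f n ⁻¹' {r ⟨n⟩}) '' R) _ hR2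
      (fun n => hR1.image _) (fun x hx h => hw _ ⟨f (φ x) x, ?_⟩)
    exact (h _ ⟨_, hx, rfl⟩).2 rfl
  -- the measurable cardinals
  let Gd : Set ℕ := {n | (∀ A B, A ∩ B ∈ b n ↔ A ∈ b n ∧ B ∈ b n) ∧ (∀ A, Aᶜ ∈ b n ↔ A ∉ b n) ∧
    ∀ y, {y} ∉ b n}
  choose μ hμ1 hμ2 hμ3 using fun n : Gd =>
    exists_measurable (mkUltra (b n.1) n.2.1 n.2.2.1) n.2.2.2
  refine ⟨μ '' {n | ℵ₀ < μ n}, (to_countable _).image _, ?_, ?_, ?_⟩
  · rintro _ ⟨n, hn, rfl⟩
    exact hμ2 n hn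
  · rintro _ ⟨n, -, rfl⟩
    exact hμ1 n
  · intro c hc
    by_contra hlt
    rw [not_le] at hlt
    obtain ⟨x, ⟨⟨k1, k2⟩, k3⟩, k4⟩ := U.nonempty_of_mem (Filter.inter_mem (Filter.inter_mem
      (Filter.inter_mem l1 l2) l3) (l4 _ (max_lt hlt hκ)))
    obtain ⟨ι, f, e, hf⟩ := hμ3 ⟨φ x, k1, k2, k3⟩
    have h1 : max c ℵ₀ < μ ⟨φ x, k1, k2, k3⟩ := by
      by_contra h
      obtain ⟨i, hi⟩ := k4 ι f (e.trans_le (not_lt.1 h))
      exact hf i hi
    exact absurd (hc ⟨_, (le_max_right _ _).trans_lt h1, rfl⟩)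
      (not_le.2 ((le_max_left _ _).trans_lt h1))

end Pool.Agent.MP_76b292_lc

end MrgPart1

-- ======== part 2: formerly Pool.Agent.MP_76b292_lc.Reduce
section MrgPart2

/-!
The mapping reflection principle implies its version for bare types.
-/

set_option autoImplicit false

universe u v

open Cardinal Set Order FirstOrder

namespace Pool.Agent.MP_76b292_lc

lemma list_mem_chain {Y : Type v} (f : ℕ → Set Y) (hf : ∀ n, f n ⊆ f (n + 1)) (l : List Y)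
    (hl : ∀ y ∈ l, ∃ n, y ∈ f n) : ∃ n, ∀ y ∈ l, y ∈ f n := by
  have hm : Monotone f := monotone_nat_of_le_succ hf
  induction l with
  | nil => exact ⟨0, by simp⟩
  | cons a l ih =>
    obtain ⟨n, hn⟩ := ih (fun y hy => hl y (List.mem_cons_of_mem _ hy))
    obtain ⟨m, hm'⟩ := hl a List.mem_cons_self
    refine ⟨max n m, fun y hy => ?_⟩
    rcases List.mem_cons.1 hy with rfl | hy
    · exact hm (le_max_right _ _) hm'
    · exact hm (le_max_left _ _) (hn y hy)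

lemma exists_closed {Y : Type v} (Op : List Y → Set Y) (hOp : ∀ l, (Op l).Countable) {s : Set Y}
    (hs : s.Countable) : ∃ t : Set Y, t.Countable ∧ s ⊆ t ∧
      (∀ l, (∀ y ∈ l, y ∈ t) → Op l ⊆ t) ∧ t ⊆ s ∪ ⋃ l, Op l := by
  let st : Set Y → Set Y := fun a => a ∪ ⋃ l ∈ {l : List Y | ∀ y ∈ l, y ∈ a}, Op l
  let f : ℕ → Set Y := fun n => st^[n] s
  have hf : ∀ n, f (n + 1) = st (f n) := fun n => Function.iterate_succ_apply' _ _ _
  have hc : ∀ n, (f n).Countable := by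
    intro n
    induction n with
    | zero => exact hs
    | succ n ih =>
      rw [hf]
      exact ih.union ((countable_lists ih).biUnion (fun l _ => hOp l))
  refine ⟨⋃ n, f n, countable_iUnion hc, subset_iUnion f 0, fun l hl => ?_, ?_⟩
  · obtain ⟨n, hn⟩ := list_mem_chain f (fun n => by rw [hf]; exact subset_union_left) l
      (fun y hy => mem_iUnion.1 (hl y hy))
    refine Subset.trans ?_ (subset_iUnion f (n + 1))
    rw [hf]
    exact fun y hy => Or.inr (mem_biUnion (s := {l : List Y | ∀ y ∈ l, y ∈ f n}) hn hy)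
  · refine iUnion_subset (fun n => ?_)
    induction n with
    | zero => exact subset_union_left
    | succ n ih =>
      rw [hf]
      refine union_subset ih (iUnion₂_subset (fun l _ => ?_))
      exact (subset_iUnion Op l).trans subset_union_right

lemma zf_countable_iff {x : ZFSet.{u}} : (x : Set ZFSet.{u}).Countable ↔ x.card ≤ ℵ₀ := by
  rw [← le_aleph0_iff_set_countable, ← Cardinal.lift_le_aleph0.{u, u + 1} (c := x.card),
    ← ZFSet.cardinalMk_coe_sort]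
  rfl

lemma zf_finite_iff {x : ZFSet.{u}} : (x : Set ZFSet.{u}).Finite ↔ x.card < ℵ₀ := by
  rw [← lt_aleph0_iff_set_finite, ← Cardinal.lift_lt_aleph0.{u, u + 1} (c := x.card),
    ← ZFSet.cardinalMk_coe_sort]
  rfl

lemma mem_ctbl {A : Set ZFSet.{u}} {N : ZFSet.{u}} : N ∈ Ctbl A ↔
    (N : Set ZFSet.{u}) ⊆ A ∧ (N : Set ZFSet.{u}).Countable ∧ (N : Set ZFSet.{u}).Infinite := by
  rw [Set.Infinite, zf_countable_iff, zf_finite_iff, not_lt, ← le_antisymm_iff]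
  rfl

lemma exists_zf_of_countable {s : Set ZFSet.{u}} (hs : s.Countable) :
    ∃ x : ZFSet.{u}, (x : Set ZFSet.{u}) = s := by
  have := hs.to_subtype
  exact ⟨ZFSet.range (Subtype.val : s → ZFSet.{u}), by simp⟩

instance countable_graph_symbols : Countable Language.graph.Symbols := by
  have : ∀ n, IsEmpty (Language.graph.Functions n) := fun _ => inferInstanceAs (IsEmpty Empty)
  infer_instance

/-- Skolem functions: a set closed under a suitable countably valued operation is elementary. -/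
lemma exists_skolem (A : Set ZFSet.{u}) (hA : A.Nonempty) :
    ∃ Op : List ZFSet.{u} → Set ZFSet.{u}, (∀ l, (Op l).Countable) ∧ (∀ l, Op l ⊆ A) ∧
      ∀ M : ZFSet.{u}, (∀ l, (∀ y ∈ l, y ∈ M) → Op l ⊆ M) → Elem A M := by
  let _ := memStructure A
  have : Nonempty A := hA.to_subtype
  let sk : ∀ n, Language.graph.BoundedFormula Empty (n + 1) → (Fin n → A) → A := fun n φ v =>
    Classical.epsilon (fun a => φ.Realize default (Fin.snoc v a : _ → A))
  refine ⟨fun l => ⋃ n, ⋃ φ : Language.graph.BoundedFormula Empty (n + 1),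
    (fun v => (sk n φ v).1) '' {v | ∀ i, v i ∈ Subtype.val ⁻¹' {y | y ∈ l}}, fun l => ?_,
    fun l => ?_, fun M hM => ?_⟩
  · refine countable_iUnion (fun n => ?_)
    have : Countable (Language.graph.BoundedFormula Empty (n + 1)) :=
      (sigma_mk_injective (β := fun n => Language.graph.BoundedFormula Empty n)
        (i := n + 1)).countable
    refine countable_iUnion (fun φ => Countable.image (countable_pi (fun _ => ?_)) _)
    exact (List.finite_toSet l).countable.preimage Subtype.val_injective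
  · simp only [iUnion_subset_iff]
    rintro n φ _ ⟨v, -, rfl⟩
    exact (sk n φ v).2
  · let S : Language.graph.Substructure A :=
      ⟨{x | x.1 ∈ M}, fun f => (IsEmpty.false (α := Empty) f).elim⟩
    refine ⟨S.toElementarySubstructure (fun n φ x a ha => ?_), fun x => Iff.rfl⟩
    refine ⟨⟨sk n φ (Subtype.val ∘ x), ?_⟩, Classical.epsilon_spec
      (p := fun a => φ.Realize default (Fin.snoc (Subtype.val ∘ x) a : _ → A)) ⟨a, ha⟩⟩
    refine hM (List.ofFn (fun i => (x i).1.1)) (fun y hy => ?_) ?_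
    · obtain ⟨i, rfl⟩ := (List.mem_ofFn' _ _).1 hy
      exact (x i).2
    · simp only [mem_iUnion]
      exact ⟨n, φ, _, fun i => (List.mem_ofFn' _ _).2 ⟨i, rfl⟩, rfl⟩

/-- The countable sets closed under an operation form a club. -/
lemma club_closed (A : Set ZFSet.{u}) (Op : List ZFSet.{u} → Set ZFSet.{u})
    (h1 : ∀ l, (Op l).Countable) (h2 : ∀ l, Op l ⊆ A) :
    Club A {M ∈ Ctbl A | ∀ l, (∀ y ∈ l, y ∈ M) → Op l ⊆ M} := by
  refine ⟨fun _ h => h.1, fun Y hY => ?_, fun f hf hf' => ⟨?_, fun l hl => ?_⟩⟩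
  · rw [mem_ctbl] at hY
    obtain ⟨t, k1, k2, k3, k4⟩ := exists_closed Op h1 hY.2.1
    obtain ⟨Z, rfl⟩ := exists_zf_of_countable k1
    exact ⟨Z, ⟨mem_ctbl.2 ⟨k4.trans (union_subset hY.1 (iUnion_subset h2)), k1, hY.2.2.mono k2⟩,
      k3⟩, k2⟩
  · rw [mem_ctbl, ZFSet.coe_iUnion]
    exact ⟨iUnion_subset (fun n => (hf n).1.1),
      countable_iUnion (fun n => (mem_ctbl.1 (hf n).1).2.1),
      (mem_ctbl.1 (hf 0).1).2.2.mono (subset_iUnion (fun n => (f n : Set ZFSet.{u})) 0)⟩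
  · obtain ⟨n, hn⟩ := list_mem_chain (fun n => (f n : Set ZFSet.{u})) hf' l
      (fun y hy => ZFSet.mem_iUnion.1 (hl y hy))
    exact ((hf n).2 l hn).trans (ZFSet.subset_iUnion f n)

theorem typeMRP_of_MRP (h : MRP.{u}) (X : Type u) (hX : Uncountable X) : TypeMRP X := by
  intro Sg K hopen hstat hK
  let c : X → ZFSet.{u} := fun x => (embeddingToCardinal x).ord.toZFSet
  have hc : Function.Injective c :=
    Ordinal.toZFSet_injective.comp (ord_injective.comp embeddingToCardinal.injective)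
  let XX : ZFSet.{u} := ZFSet.range c
  have hXX : (XX : Set ZFSet.{u}) = range c := ZFSet.coe_range c
  let code : Set X → ZFSet.{u} := fun Y => XX.sep (fun z => z ∈ c '' Y)
  have hcode : ∀ Y, (code Y : Set ZFSet.{u}) = c '' Y := by
    intro Y
    rw [ZFSet.coe_sep]
    ext z
    exact ⟨fun h => h.2, fun h => ⟨by
      obtain ⟨x, -, rfl⟩ := h
      exact ZFSet.mem_range_self x, h⟩⟩
  let tr : ZFSet.{u} → Set X := fun M => c ⁻¹' (M : Set ZFSet.{u})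
  have htr : ∀ Y, tr (code Y) = Y := fun Y => by
    change c ⁻¹' _ = Y
    rw [hcode, preimage_image_eq _ hc]
  have hct : ∀ N : ZFSet.{u}, (N : Set ZFSet.{u}) ⊆ XX → code (tr N) = N := by
    intro N hN
    apply SetLike.coe_injective
    rw [hcode]
    exact image_preimage_eq_of_subset (hXX ▸ hN)
  have hXunc : ℵ₀ < XX.card := by
    by_contra hn
    rw [not_lt, ← zf_countable_iff, hXX] at hn
    exact not_countable_univ (α := X) (by simpa using hn.preimage hc)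
  let V : ZFSet.{u} := ZFSet.vonNeumann (succ XX.rank)
  let θ : Cardinal.{u} := succ V.card
  have hH : ∀ x : ZFSet.{u}, x.rank ≤ succ XX.rank → x ∈ H θ := fun x hx =>
    ⟨V, ZFSet.isTransitive_vonNeumann _, ZFSet.subset_vonNeumann.2 hx, lt_succ _⟩
  have hθ : θ.IsRegular := isRegular_succ (hXunc.le.trans
    (ZFSet.card_mono (ZFSet.subset_vonNeumann.2 (le_succ _))))
  have hH1 : XX ∈ H θ := hH _ (le_succ _)
  have hH2 : ∀ x, c x ∈ H θ := fun x =>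
    hH _ ((ZFSet.rank_lt_of_mem (ZFSet.mem_range_self x)).le.trans (le_succ _))
  have hH3 : ∀ Y, code Y ∈ H θ := fun Y =>
    hH _ ((ZFSet.rank_mono ZFSet.sep_subset).trans (le_succ _))
  -- the data attached to each club
  have hG : ∀ (E : ZFSet.{u}) (l : List X), ∃ Y : Set X, Y.Countable ∧ (∀ x ∈ l, x ∈ Y) ∧
      (Club XX (E : Set ZFSet.{u}) → code Y ∈ E) := by
    intro E l
    by_cases hE : Club XX (E : Set ZFSet.{u})
    · let e := Infinite.natEmbedding X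
      obtain ⟨Z, hZ, hsub⟩ := hE.2.1 (code ({x | x ∈ l} ∪ range e)) (by
        rw [mem_ctbl, hcode, hXX]
        exact ⟨image_subset_range _ _,
          ((List.finite_toSet l).countable.union (countable_range e)).image _,
          ((infinite_range_of_injective e.injective).mono subset_union_right).image hc.injOn⟩)
      have hZ' := mem_ctbl.1 (hE.1 hZ)
      refine ⟨tr Z, hZ'.2.1.preimage hc, fun x hx => hsub (x := c x) ?_, fun _ => ?_⟩
      · rw [← SetLike.mem_coe, hcode]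
        exact ⟨x, Or.inl hx, rfl⟩
      · rw [hct Z hZ'.1]
        exact hZ
    · exact ⟨{x | x ∈ l}, (List.finite_toSet l).countable, fun _ h => h, fun h => (hE h).elim⟩
  choose G hG1 hG2 hG3 using hG
  choose F hF1 hF2 using fun E => hstat (G E) (hG1 E) (hG2 E)
  obtain ⟨Sk, hSk1, hSk2, hSk3⟩ := exists_skolem (H θ) ⟨_, hH1⟩
  let Op : List ZFSet.{u} → Set ZFSet.{u} := fun l => insert XX (Sk l ∪
    ((⋃ y ∈ {y | y ∈ l ∧ (tr y).Countable}, c '' K (tr y)) ∪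
      ⋃ E ∈ {y | y ∈ l}, ⋃ l' ∈ {l' : List X | ∀ x ∈ l', x ∈ c ⁻¹' {y | y ∈ l}},
        insert (code (G E l')) (c '' F E l')))
  have hOp1 : ∀ l, (Op l).Countable := by
    intro l
    have hl := (List.finite_toSet l).countable
    refine Countable.insert _ ((hSk1 l).union (Countable.union ?_ ?_))
    · exact (hl.mono (fun _ h => h.1)).biUnion (fun y hy => (hK _ hy.2).image _)
    · exact hl.biUnion (fun E _ => (countable_lists (hl.preimage hc)).biUnion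
        (fun l' _ => ((hF1 E l').image _).insert _))
  have hOp2 : ∀ l, Op l ⊆ H θ := by
    intro l
    refine insert_subset hH1 (union_subset (hSk2 l) (union_subset ?_ ?_))
    · refine iUnion₂_subset ?_
      rintro y - _ ⟨x, -, rfl⟩
      exact hH2 x
    · refine iUnion₂_subset (fun E _ => iUnion₂_subset (fun l' _ => insert_subset (hH3 _) ?_))
      rintro _ ⟨x, -, rfl⟩
      exact hH2 x
  have hcl : ∀ M : ZFSet.{u}, (∀ l, (∀ y ∈ l, y ∈ M) → Op l ⊆ M) → ∀ E ∈ M, ∀ l' : List X,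
      (∀ x ∈ l', x ∈ tr M) → code (G E l') ∈ M ∧ F E l' ⊆ tr M := by
    intro M hM E hE l' hl'
    have h1 : insert (code (G E l')) (c '' F E l') ⊆ M := by
      refine Subset.trans (fun z hz => ?_) (hM (E :: l'.map c) (fun y hy => ?_))
      · refine Or.inr (Or.inr (Or.inr ?_))
        simp only [mem_iUnion]
        exact ⟨E, List.mem_cons_self, l',
          fun x hx => List.mem_cons_of_mem _ (List.mem_map_of_mem hx), hz⟩
      · rcases List.mem_cons.1 hy with rfl | hy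
        · exact hE
        · obtain ⟨x, hx, rfl⟩ := List.mem_map.1 hy
          exact hl' x hx
    exact ⟨h1 (Or.inl rfl), fun x hx => h1 (Or.inr ⟨x, hx, rfl⟩)⟩
  obtain ⟨N, hN⟩ := h XX θ {M ∈ Ctbl (H θ) | ∀ l, (∀ y ∈ l, y ∈ M) → Op l ⊆ M}
    (fun M => {N ∈ Ctbl XX | tr N ∈ Sg (tr M)}) (by
    refine ⟨hXunc, hθ, ⟨XX.powerset.sep (fun N => N.card = ℵ₀), hH _ ?_, ?_⟩,
      club_closed _ Op hOp1 hOp2, fun M hM => ⟨hSk3 M (fun l hl => ?_), ?_, ⟨fun _ h => h.1, ?_⟩,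
      ?_⟩⟩
    · exact (ZFSet.rank_mono ZFSet.sep_subset).trans (ZFSet.rank_powerset _).le
    · rw [ZFSet.coe_sep]
      ext N
      exact and_congr ZFSet.mem_powerset Iff.rfl
    · exact Subset.trans (fun y hy => Or.inr (Or.inl hy)) (hM.2 l hl)
    · exact hM.2 [] (by simp) (Or.inl rfl)
    · intro N hN
      obtain ⟨x, h1, h2, h3⟩ := hopen _ _ hN.2
      refine ⟨code x, ?_, ?_, fun Y hY k1 k2 => ⟨hY, h3 _ (fun z hz => k1 (x := c z) ?_)
        (fun z hz => k2 (x := c z) hz)⟩⟩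
      · rw [← zf_finite_iff, hcode]
        exact h1.image _
      · rw [← ZFSet.coe_subset_coe, hcode]
        exact image_subset_iff.2 h2
      · rw [← SetLike.mem_coe, hcode]
        exact ⟨z, hz, rfl⟩
    · intro E hE hclub
      obtain ⟨l, h1, h2⟩ := hF2 E (tr M) ((mem_ctbl.1 hM.1).2.1.preimage hc)
        (fun l hl => (hcl M hM.2 E hE l hl).2)
      exact ⟨_, hG3 E l hclub, ⟨hclub.1 (hG3 E l hclub), by rwa [htr]⟩, (hcl M hM.2 E hE l h1).1⟩)
  have hNc : ∀ ν < Ordinal.omega 1, (tr (N ν)).Countable := fun ν hν =>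
    (mem_ctbl.1 (hN ν hν).1.1).2.1.preimage hc
  refine ⟨fun ν => tr (N ν), fun ν hν => ⟨hNc ν hν, fun ξ hξ x hx => ?_, fun hlim => ⟨?_, ?_⟩⟩⟩
  · have h1 : Op [N ξ] ⊆ N ν := (hN ν hν).1.2 [N ξ] (by simpa using (hN ν hν).2.1 ξ hξ)
    refine h1 (a := c x) (Or.inr (Or.inr (Or.inl ?_)))
    simp only [mem_iUnion]
    exact ⟨N ξ, ⟨List.mem_cons_self, hNc ξ (hξ.trans hν)⟩, x, hx, rfl⟩
  · exact fun x hx => (((hN ν hν).2.2 hlim).1 (c x)).1 hx
  · obtain ⟨ν₀, h1, h2⟩ := ((hN ν hν).2.2 hlim).2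
    refine ⟨ν₀, h1, fun ξ k1 k2 => ?_⟩
    have h3 := (h2 ξ k1 k2).2
    have e : tr (N ξ ∩ XX) = tr (N ξ) := by
      ext x
      exact ⟨fun h => (ZFSet.mem_inter (z := c x).1 h).1,
        fun h => ZFSet.mem_inter (z := c x).2 ⟨h, ZFSet.mem_range_self x⟩⟩
    rwa [e] at h3

theorem star_of_MRP (h : MRP.{u}) : Star.{u} := star_of_typeMRP (typeMRP_of_MRP h)

end Pool.Agent.MP_76b292_lc

end MrgPart2

-- ======== part 3: formerly Pool.Agent.MP_76b292_lc.PFAStep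
section MrgPart3

/-!
PFA gives alternative (i) of the P-ideal dichotomy for a name over a sufficiently closed forcing
that does not force alternative (ii).
-/

set_option autoImplicit false

universe u v

open Set Cardinal

namespace Pool.Agent.MP_76b292_lc

variable {P ι : Type u} {le : P → P → Prop} {Id : P → Set ι → Prop}

/-- `p` forces that `X` is cofinal in the ideal modulo finite sets -/
def Cof (le : P → P → Prop) (Id : P → Set ι → Prop) (p : P) (X : P → Set ι → Prop) : Prop :=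
  ∀ p', le p' p → ∀ z, Id p' z → ∃ p'' y, le p'' p' ∧ X p'' y ∧ (z \ y).Finite

/-- the members of `X` that contain `x` -/
def restr (X : P → Set ι → Prop) (x : Set ι) : P → Set ι → Prop := fun p y => X p y ∧ x ⊆ y

lemma Cof.mono (hle : SigmaOrder le) {p q : P} {X X' : P → Set ι → Prop} (h : Cof le Id p X)
    (h1 : le q p) (h2 : ∀ p y, X p y → X' p y) : Cof le Id q X' := fun p' k z hz =>
  let ⟨p'', y, l1, l2, l3⟩ := h p' (hle.trans k h1) z hz
  ⟨p'', y, l1, h2 _ _ l2, l3⟩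

lemma IdealName.pid' (hId : IdealName le Id) {p : P} (h0 : Id p ∅) {𝒵 : Set (Set ι)}
    (h1 : 𝒵.Countable) (h2 : ∀ z ∈ 𝒵, Id p z) :
    ∃ q B, le q p ∧ Id q B ∧ ∀ z ∈ 𝒵, (z \ B).Finite := by
  obtain ⟨e, he⟩ := (h1.insert ∅).exists_eq_range (insert_nonempty _ _)
  obtain ⟨q, B, k1, k2, k3⟩ := hId.pid (p := p) e (fun n => by
    have : e n ∈ insert ∅ 𝒵 := he ▸ mem_range_self n
    rcases this with h | h
    · rwa [h]
    · exact h2 _ h)
  refine ⟨q, B, k1, k2, fun z hz => ?_⟩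
  have : z ∈ range e := he ▸ mem_insert_of_mem _ hz
  obtain ⟨n, rfl⟩ := this
  exact k3 n

lemma finite_diff_trans {a b c : Set ι} (h1 : (a \ b).Finite) (h2 : (b \ c).Finite) :
    (a \ c).Finite :=
  (h1.union h2).subset (fun x hx => by
    by_cases h : x ∈ b
    · exact Or.inr ⟨h, hx.2⟩
    · exact Or.inl ⟨hx.1, h⟩)

lemma Cof.split (hle : SigmaOrder le) (hId : IdealName le Id) {p : P} {X : P → Set ι → Prop}
    (h : Cof le Id p X) {z : Set ι} (hz : Id p z) :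
    ∃ p' a, le p' p ∧ a.Finite ∧ Cof le Id p' (restr X (z \ a)) := by
  by_contra hc
  push Not at hc
  obtain ⟨e, he⟩ := (countable_setOf_finite_subset (hId.ctbl hz)).exists_eq_range
    ⟨∅, finite_empty, empty_subset _⟩
  obtain ⟨f, -, hf⟩ := exists_seq' (Z := P × Set ι) (fun _ s => le s.1 p)
    (fun i s s' => le s'.1 s.1 ∧ Id s'.1 s'.2 ∧ ∀ p'' y, le p'' s'.1 → X p'' y → z \ e i ⊆ y →
      ¬ (s'.2 \ y).Finite) (fun i s hs => by
      have h1 : e i ∈ {t : Set ι | t.Finite ∧ t ⊆ z} := he ▸ mem_range_self i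
      have h2 := hc s.1 (e i) hs h1.1
      simp only [Cof, restr, not_forall, not_exists, not_and] at h2
      obtain ⟨p', k1, z', k2, k3⟩ := h2
      exact ⟨(p', z'), hle.trans k1 hs, k1, k2, fun p'' y l1 l2 l3 => k3 p'' y l1 ⟨l2, l3⟩⟩)
    (p, ∅) (hle.refl p)
  obtain ⟨q, hq⟩ := hle.lb (fun i => (f i).1) (fun i => (hf i).2.1)
  have hqp : le q p := hle.trans (hq 0) (hf 0).1
  obtain ⟨q', B, k1, k2, k3⟩ := hId.pid' (p := q) (hId.down (hId.mono hqp hz) (empty_subset _))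
    ((countable_range (fun i => (f (i + 1)).2)).insert z) (by
      rintro _ (rfl | ⟨i, rfl⟩)
      · exact hId.mono hqp hz
      · exact hId.mono (hq (i + 1)) (hf i).2.2.1)
  obtain ⟨q'', y, l1, l2, l3⟩ := h q' (hle.trans k1 hqp) B k2
  have h1 : z \ y ∈ range e := he ▸ ⟨finite_diff_trans (k3 z (mem_insert _ _)) l3, sdiff_subset⟩
  obtain ⟨i, hi⟩ := h1
  refine (hf i).2.2.2 q'' y (hle.trans l1 (hle.trans k1 (hq _))) l2 (fun x hx => ?_)
    (finite_diff_trans (k3 _ (mem_insert_of_mem _ ⟨i, rfl⟩)) l3)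
  by_contra hn
  exact hx.2 (hi ▸ ⟨hx.1, hn⟩)

/-- conditions of the two-step forcing -/
structure Cond (le : P → P → Prop) (Id : P → Set ι → Prop) (p₀ : P) (Ω : Type u) where
  p : P
  h : Set (Ω × ι)
  pr : Set (P → Set ι → Prop)
  hp : le p p₀
  hc : h.Countable
  inj : ∀ a ∈ h, ∀ b ∈ h, a.2 = b.2 → a.1 = b.1
  hid : Id p (Prod.snd '' h)
  prc : pr.Countable
  cof : ∀ X ∈ pr, Cof le Id p (restr X (Prod.snd '' h))

variable {p₀ : P} {Ω : Type u} [LinearOrder Ω]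

/-- the order of the two-step forcing -/
@[reducible] def condOrder (hle : SigmaOrder le) : Preorder (Cond le Id p₀ Ω) where
  le q' q := le q'.p q.p ∧ q.h ⊆ q'.h ∧ (∀ a ∈ q'.h, a ∉ q.h → ∀ b ∈ q.h, b.1 < a.1) ∧ q.pr ⊆ q'.pr
  le_refl q := ⟨hle.refl _, Subset.rfl, fun _ h1 h2 => (h2 h1).elim, Subset.rfl⟩
  le_trans q'' q' q h1 h2 := ⟨hle.trans h1.1 h2.1, h2.2.1.trans h1.2.1, fun a k1 k2 b k3 => by
    by_cases k : a ∈ q'.h
    · exact h2.2.2.1 a k k2 b k3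
    · exact h1.2.2.1 a k1 k b (h2.2.1 k3), h2.2.2.2.trans h1.2.2.2⟩

lemma exists_cond (hId : IdealName le Id) (h0 : Id p₀ ∅) {p : P} (hp : le p p₀) :
    ∃ c : Cond le Id p₀ Ω, c.p = p :=
  ⟨⟨p, ∅, ∅, hp, countable_empty, by simp, by simpa using hId.mono hp h0, countable_empty,
    by simp⟩, rfl⟩

lemma cond_extend (hle : SigmaOrder le) (hId : IdealName le Id)
    (hΩ : ∀ s : Set Ω, s.Countable → ∃ ξ, ∀ η ∈ s, η < ξ)
    (hno : ∀ p F, le p p₀ → ¬ Colouring le Id p F) (q : Cond le Id p₀ Ω) (ξ : Ω) :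
    ∃ q' : Cond le Id p₀ Ω, (condOrder hle).le q' q ∧ ∃ a ∈ q'.h, ξ < a.1 := by
  have key : ∃ p' s, le p' q.p ∧ s ∉ Prod.snd '' q.h ∧ Id p' {s} ∧
      ∀ X ∈ q.pr, Cof le Id p' (restr X (insert s (Prod.snd '' q.h))) := by
    by_contra hc
    push Not at hc
    obtain ⟨eX, heX⟩ := (q.prc.insert (fun _ _ => True)).exists_eq_range (insert_nonempty _ _)
    obtain ⟨ex, hex⟩ := countable_iff_exists_injOn.1 (q.hc.image Prod.snd)
    refine hno q.p (fun p s m => (∀ p', le p' p → ¬ Id p' {s}) ∨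
      (s ∈ Prod.snd '' q.h ∧ ex s = m) ∨ (eX m ∈ q.pr ∧ ∃ z, Id p z ∧ ∀ p'' y, le p'' p →
        restr (eX m) (insert s (Prod.snd '' q.h)) p'' y → ¬ (z \ y).Finite)) q.hp ⟨?_, ?_, ?_⟩
    · rintro p p' s m h (k | k | ⟨k1, z, k2, k3⟩)
      · exact Or.inl (fun p'' l => k p'' (hle.trans l h))
      · exact Or.inr (Or.inl k)
      · exact Or.inr (Or.inr ⟨k1, z, hId.mono h k2, fun p'' y l => k3 p'' y (hle.trans l h)⟩)
    · intro p s hp
      by_cases h1 : ∀ p', le p' p → ¬ Id p' {s}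
      · exact ⟨p, 0, hle.refl p, Or.inl h1⟩
      by_cases h2 : s ∈ Prod.snd '' q.h
      · exact ⟨p, ex s, hle.refl p, Or.inr (Or.inl ⟨h2, rfl⟩)⟩
      push Not at h1
      obtain ⟨p', k1, k2⟩ := h1
      obtain ⟨X, k3, k4⟩ := hc p' s (hle.trans k1 hp) h2 k2
      have : X ∈ range eX := heX ▸ mem_insert_of_mem _ k3
      obtain ⟨m, rfl⟩ := this
      simp only [Cof, not_forall, not_exists, not_and] at k4
      obtain ⟨p'', l1, z, l2, l3⟩ := k4
      exact ⟨p'', m, hle.trans l1 k1, Or.inr (Or.inr ⟨k3, z, l2, l3⟩)⟩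
    · intro p m A hp hA hI h
      have hfin : {s ∈ Prod.snd '' q.h | ex s = m}.Finite :=
        Set.Subsingleton.finite (fun a ha b hb => hex ha.1 hb.1 (ha.2.trans hb.2.symm))
      have h3 : ∀ s ∈ A \ {s ∈ Prod.snd '' q.h | ex s = m}, eX m ∈ q.pr ∧ ∃ z, Id p z ∧
          ∀ p'' y, le p'' p → restr (eX m) (insert s (Prod.snd '' q.h)) p'' y →
            ¬ (z \ y).Finite := fun s hs =>
        ((h s hs.1).resolve_left (fun k => k p (hle.refl p)
          (hId.down hI (singleton_subset_iff.2 hs.1)))).resolve_left hs.2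
      have hA' := hA.diff hfin
      choose! h4 z h5 h6 using h3
      obtain ⟨p', B, k1, k2, k3⟩ := hId.pid' (p := p) (hId.down hI (empty_subset _))
        ((((hId.ctbl hI).mono (sdiff_subset (t := {s ∈ Prod.snd '' q.h | ex s = m}))).image
          z).insert A) (by
          rintro _ (rfl | ⟨s, hs, rfl⟩)
          · exact hI
          · exact h5 s hs)
      obtain ⟨s₀, hs₀⟩ := hA'.nonempty
      obtain ⟨p'', y, l1, l2, l3⟩ := q.cof _ (h4 s₀ hs₀) p' (hle.trans k1 hp) B k2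
      obtain ⟨s, hs, hs'⟩ := hA'.exists_notMem_finite
        (finite_diff_trans (k3 A (mem_insert _ _)) l3)
      refine h6 s hs p'' y (hle.trans l1 k1) ⟨l2.1, insert_subset ?_ l2.2⟩
        (finite_diff_trans (k3 _ (mem_insert_of_mem _ ⟨s, hs, rfl⟩)) l3)
      by_contra hn
      exact hs' ⟨hs.1, hn⟩
  obtain ⟨p', s, h1, h2, h3, h4⟩ := key
  obtain ⟨η, hη⟩ := hΩ (insert ξ (Prod.fst '' q.h)) ((q.hc.image _).insert _)
  refine ⟨⟨p', insert (η, s) q.h, q.pr, hle.trans h1 q.hp, q.hc.insert _, ?_, ?_, q.prc, ?_⟩,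
    ⟨h1, subset_insert _ _, ?_, Subset.rfl⟩, (η, s), mem_insert _ _, hη _ (mem_insert _ _)⟩
  · rintro a (rfl | ha) b (rfl | hb) e
    · rfl
    · exact (h2 ⟨b, hb, e.symm⟩).elim
    · exact (h2 ⟨a, ha, e⟩).elim
    · exact q.inj a ha b hb e
  · rw [image_insert_eq]
    exact hId.union h3 (hId.mono h1 q.hid) Subset.rfl
  · rw [image_insert_eq]
    exact h4
  · rintro a (rfl | ha) k b hb
    · exact hη _ (mem_insert_of_mem _ ⟨b, hb, rfl⟩)
    · exact (k ha).elim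

lemma cond_key (hle : SigmaOrder le) (hId : IdealName le Id) (q : Cond le Id p₀ Ω)
    {D : Set (Cond le Id p₀ Ω)} (hD : @IsDense _ (condOrder hle) D) {p : P} (hp : le p q.p) :
    ∃ p₁ z₁, le p₁ p ∧ Id p₁ z₁ ∧ ∀ y, Prod.snd '' q.h ⊆ y → (z₁ \ y).Finite → ∀ p₂, le p₂ p₁ →
      ∃ q' ∈ D, (condOrder hle).le q' q ∧ Prod.snd '' q'.h ⊆ y ∧ ∃ p₃, le p₃ p₂ ∧ le p₃ q'.p := by
  let Y : P → Set ι → Prop := fun p₂ y => ¬ ∃ q' ∈ D, (condOrder hle).le q' q ∧
    Prod.snd '' q'.h ⊆ y ∧ ∃ p₃, le p₃ p₂ ∧ le p₃ q'.p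
  by_contra hc
  push Not at hc
  have hY : Cof le Id p (restr Y (Prod.snd '' q.h)) := by
    intro p₁ h1 z₁ h2
    obtain ⟨y, k1, k2, p₂, k3, k4⟩ := hc p₁ z₁ h1 h2
    refine ⟨p₂, y, k3, ⟨?_, k1⟩, k2⟩
    rintro ⟨q', l1, l2, l3, p₃, l4, l5⟩
    exact k4 q' l1 l2 l3 p₃ l4 l5
  obtain ⟨q', h1, h2⟩ := hD ⟨p, q.h, insert Y q.pr, hle.trans hp q.hp, q.hc, q.inj,
    hId.mono hp q.hid, q.prc.insert _, by
      rintro X (rfl | hX)
      · exact hY
      · exact (q.cof X hX).mono hle hp (fun _ _ h => h)⟩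
  obtain ⟨p'', y, k1, k2, -⟩ := q'.cof Y (h2.2.2.2 (mem_insert _ _)) q'.p (hle.refl _) _ q'.hid
  exact k2.1 ⟨q', h1, ⟨hle.trans h2.1 hp, h2.2.1, h2.2.2.1, (subset_insert _ _).trans h2.2.2.2⟩,
    k2.2, p'', hle.refl _, k1⟩

lemma exists_task_seq {Z : Type v} {T : Type v} [Countable T] (I : Z → Prop) (R : Z → Z → Prop)
    (S : T → Z → Z → Prop) (hr : ∀ z, I z → R z z)
    (h : ∀ τ z, I z → ∃ z', I z' ∧ R z z' ∧ S τ z z') (z₀ : Z) (h₀ : I z₀) :
    ∃ f : ℕ → Z, f 0 = z₀ ∧ (∀ i, I (f i) ∧ R (f i) (f (i + 1))) ∧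
      ∀ τ k, ∃ j, k ≤ j ∧ S τ (f j) (f (j + 1)) := by
  obtain ⟨e, he⟩ := exists_surjective_nat (Option T)
  obtain ⟨f, h1, h2⟩ := exists_seq' (fun _ z => I z)
    (fun i z z' => R z z' ∧ ∀ τ, e (Nat.unpair i).1 = some τ → S τ z z') (fun i z hz => by
      rcases hi : e (Nat.unpair i).1 with _ | τ
      · exact ⟨z, hz, hr z hz, fun τ k => by cases k⟩
      · obtain ⟨z', k1, k2, k3⟩ := h τ z hz
        exact ⟨z', k1, k2, fun τ' k => by cases k; exact k3⟩) z₀ h₀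
  refine ⟨f, h1, fun i => ⟨(h2 i).1, (h2 i).2.1⟩, fun τ k => ?_⟩
  obtain ⟨n, hn⟩ := he (some τ)
  exact ⟨Nat.pair n k, Nat.right_le_pair n k, (h2 _).2.2 τ (by rw [Nat.unpair_pair, hn])⟩

lemma tclub_closed {X : Type u} (F : List X → Set X) (hF : ∀ l, (F l).Countable) :
    TClub {N : Set X | N.Countable ∧ ∀ l, (∀ x ∈ l, x ∈ N) → F l ⊆ N} := by
  refine ⟨fun _ h => h.1, fun Y hY => ?_, fun f hf hm => ⟨countable_iUnion (fun n => (hf n).1),
    fun l hl => ?_⟩⟩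
  · obtain ⟨t, h1, h2, h3, -⟩ := exists_closed F hF hY
    exact ⟨t, ⟨h1, h3⟩, h2⟩
  · obtain ⟨n, hn⟩ := list_mem_chain f (fun n => hm (Nat.le_succ n)) l
      (fun y hy => mem_iUnion.1 (hl y hy))
    exact ((hf n).2 l hn).trans (subset_iUnion f n)

theorem cond_proper (hle : SigmaOrder le) (hId : IdealName le Id) (h0 : Id p₀ ∅) :
    @Proper (Cond le Id p₀ Ω) (condOrder hle) := by
  let _ : Preorder (Cond le Id p₀ Ω) := condOrder hle
  have hk1 : ∀ (c q : Cond le Id p₀ Ω) (D : Set (Cond le Id p₀ Ω)),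
      ∃ (c₁ : Cond le Id p₀ Ω) (z₁ : Set ι), z₁.Countable ∧ le c₁.p c.p ∧ (IsDense D →
      le c.p q.p → Id c₁.p z₁ ∧ ∀ y, Prod.snd '' q.h ⊆ y → (z₁ \ y).Finite → ∀ p₂, le p₂ c₁.p →
      ∃ q' ∈ D, q' ≤ q ∧ Prod.snd '' q'.h ⊆ y ∧ ∃ p₃, le p₃ p₂ ∧ le p₃ q'.p) := by
    intro c q D
    by_cases h : IsDense D ∧ le c.p q.p
    · obtain ⟨p₁, z₁, h1, h2, h3⟩ := cond_key hle hId q h.1 h.2
      obtain ⟨c₁, rfl⟩ := exists_cond (Ω := Ω) hId h0 (hle.trans h1 c.hp)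
      exact ⟨c₁, z₁, hId.ctbl h2, h1, fun _ _ => ⟨h2, h3⟩⟩
    · exact ⟨c, ∅, countable_empty, hle.refl _, fun k1 k2 => (h ⟨k1, k2⟩).elim⟩
  choose k1 z1 hz1 hk1 hk1' using hk1
  have hk2 : ∀ (c q : Cond le Id p₀ Ω) (D : Set (Cond le Id p₀ Ω)) (y : Set ι),
      ∃ c₃ q' : Cond le Id p₀ Ω, le c₃.p c.p ∧
      ((∃ q' ∈ D, q' ≤ q ∧ Prod.snd '' q'.h ⊆ y ∧ ∃ p₃, le p₃ c.p ∧ le p₃ q'.p) →
        q' ∈ D ∧ q' ≤ q ∧ Prod.snd '' q'.h ⊆ y ∧ le c₃.p q'.p) := by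
    intro c q D y
    by_cases h : ∃ q' ∈ D, q' ≤ q ∧ Prod.snd '' q'.h ⊆ y ∧ ∃ p₃, le p₃ c.p ∧ le p₃ q'.p
    · obtain ⟨q', h1, h2, h3, p₃, h4, h5⟩ := h
      obtain ⟨c₃, rfl⟩ := exists_cond (Ω := Ω) hId h0 (hle.trans h4 c.hp)
      exact ⟨c₃, q', h4, fun _ => ⟨h1, h2, h3, h5⟩⟩
    · exact ⟨c, c, hle.refl _, fun k => (h k).elim⟩
  choose k3 k2 hk3 hk2 using hk2
  let Ys : Cond le Id p₀ Ω → Cond le Id p₀ Ω → Set (Cond le Id p₀ Ω) → Set (Set ι) :=
    fun c q D => (fun b => Prod.snd '' q.h ∪ (z1 c q D \ b)) '' {b | b.Finite ∧ b ⊆ z1 c q D}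
  have hYs : ∀ c q D, (Ys c q D).Countable := fun c q D =>
    (countable_setOf_finite_subset (hz1 c q D)).image _
  let G : Cond le Id p₀ Ω → Cond le Id p₀ Ω → Cond le Id p₀ Ω → Set (Cond le Id p₀ Ω) →
      Set (Cond le Id p₀ Ω) := fun c c' q D =>
    insert (k1 c q D) (k3 c' q D '' Ys c q D ∪ k2 c' q D '' Ys c q D)
  have hG : ∀ c c' q D, (G c c' q D).Countable := fun c c' q D =>
    (((hYs c q D).image _).union ((hYs c q D).image _)).insert _
  refine ⟨_, tclub_closed (fun l => ⋃ c ∈ Sum.inl ⁻¹' {x | x ∈ l}, ⋃ c' ∈ Sum.inl ⁻¹' {x | x ∈ l},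
    ⋃ q ∈ Sum.inl ⁻¹' {x | x ∈ l}, ⋃ D ∈ Sum.inr ⁻¹' {x | x ∈ l}, Sum.inl '' G c c' q D)
    (fun l => ?_), fun N hN q₀ hq₀ => ?_⟩
  · have h1 := (List.finite_toSet l).countable.preimage Sum.inl_injective
    have h2 := (List.finite_toSet l).countable.preimage Sum.inr_injective
    exact h1.biUnion fun c _ => h1.biUnion fun c' _ => h1.biUnion fun q _ => h2.biUnion
      fun D _ => (hG c c' q D).image _
  have hcl : ∀ c c' q D, Sum.inl c ∈ N → Sum.inl c' ∈ N → Sum.inl q ∈ N → Sum.inr D ∈ N →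
      ∀ x ∈ G c c' q D, Sum.inl x ∈ N := by
    intro c c' q D h1 h2 h3 h4 x hx
    refine hN.2 [Sum.inl c, Sum.inl c', Sum.inl q, Sum.inr D] (by simp [h1, h2, h3, h4]) ?_
    simp only [mem_iUnion]
    exact ⟨c, by simp, c', by simp, q, by simp, D, by simp, x, hx, rfl⟩
  have hN1 : (Sum.inl ⁻¹' N).Countable := hN.1.preimage Sum.inl_injective
  have hN2 : (Sum.inr ⁻¹' N).Countable := hN.1.preimage Sum.inr_injective
  have i1 := hN1.to_subtype
  have i2 := hN2.to_subtype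
  have i3 := fun c q D => (hYs c q D).to_subtype
  -- a generic sequence for the first coordinate
  obtain ⟨c, hc0, hc1, hc2⟩ := exists_task_seq
    (T := ((Sum.inl ⁻¹' N) × (Sum.inr ⁻¹' N)) ⊕
      (Σ t : (Sum.inl ⁻¹' N) × (Sum.inl ⁻¹' N) × (Sum.inr ⁻¹' N), Ys t.1.1 t.2.1.1 t.2.2.1))
    (fun c => Sum.inl c ∈ N) (fun c c' => le c'.p c.p)
    (fun τ c c' => c' = τ.elim (fun t => k1 c t.1.1 t.2.1) (fun t => k3 c t.1.2.1.1 t.1.2.2.1 t.2.1))
    (fun c _ => hle.refl _) (by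
      rintro (⟨q, D⟩ | ⟨⟨c', q, D⟩, y⟩) c hc
      · exact ⟨_, hcl c c q.1 D.1 hc hc q.2 D.2 _ (Or.inl rfl), hk1 _ _ _, rfl⟩
      · exact ⟨_, hcl c'.1 c q.1 D.1 c'.2 hc q.2 D.2 _ (Or.inr (Or.inl ⟨y.1, y.2, rfl⟩)),
          hk3 _ _ _ _, rfl⟩) q₀ hq₀
  have hcd : ∀ i j, i ≤ j → le (c j).p (c i).p := fun i j h =>
    desc_le (f := fun i => (c i).p) hle.refl hle.trans (fun i => (hc1 i).2) h
  obtain ⟨pω, hpω⟩ := hle.lb (fun i => (c i).p) (fun i => (hc1 i).2)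
  obtain ⟨pz, z, hz1', hz2, hz3⟩ := hId.pid' (p := pω)
    (hId.mono (hle.trans (hpω 0) (c 0).hp) h0)
    (𝒵 := {w | Id pω w} ∩ range (fun t : (Sum.inl ⁻¹' N) × (Sum.inl ⁻¹' N) × (Sum.inr ⁻¹' N) =>
      z1 t.1.1 t.2.1.1 t.2.2.1)) ((countable_range _).mono inter_subset_right) (fun _ h => h.1)
  have key : ∀ q, Sum.inl q ∈ N → (∃ k, le (c k).p q.p) → ∀ D, Sum.inr D ∈ N → IsDense D →
      ∀ a : Set ι, a.Finite → ∃ q' ∈ D, Sum.inl q' ∈ N ∧ q' ≤ q ∧ (∃ k, le (c k).p q'.p) ∧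
        Prod.snd '' q'.h ⊆ Prod.snd '' q.h ∪ (z \ a) := by
    rintro q hq ⟨k, hk⟩ D hD hD' a ha
    obtain ⟨j, hj1, hj2⟩ := hc2 (Sum.inl (⟨q, hq⟩, ⟨D, hD⟩)) k
    obtain ⟨h1, h2⟩ := hk1' (c j) q D hD' (hle.trans (hcd _ _ hj1) hk)
    have hj2' : c (j + 1) = k1 (c j) q D := hj2
    rw [← hj2'] at h1 h2
    have h3 : (z1 (c j) q D \ z).Finite := hz3 _ ⟨hId.mono (hpω _) h1,
      (⟨c j, (hc1 j).1⟩, ⟨q, hq⟩, ⟨D, hD⟩), rfl⟩
    have h4 : (z1 (c j) q D \ (z \ a)).Finite := (h3.union ha).subset (fun x hx => by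
      by_cases k : x ∈ z
      · exact Or.inr (by_contra fun l => hx.2 ⟨k, l⟩)
      · exact Or.inl ⟨hx.1, k⟩)
    have h5 : Prod.snd '' q.h ∪ (z1 (c j) q D \ (z1 (c j) q D \ (z \ a))) ∈ Ys (c j) q D :=
      ⟨_, ⟨h4, sdiff_subset⟩, rfl⟩
    obtain ⟨i, hi1, hi2⟩ := hc2 (Sum.inr ⟨(⟨c j, (hc1 j).1⟩, ⟨q, hq⟩, ⟨D, hD⟩), ⟨_, h5⟩⟩) (j + 1)
    obtain ⟨l1, l2, l3, l4⟩ := hk2 (c i) q D
      (Prod.snd '' q.h ∪ (z1 (c j) q D \ (z1 (c j) q D \ (z \ a)))) (h2
      (Prod.snd '' q.h ∪ (z1 (c j) q D \ (z1 (c j) q D \ (z \ a)))) subset_union_left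
      (h4.subset (fun x hx => by_contra fun l => hx.2 (Or.inr ⟨hx.1, l⟩))) _ (hcd _ _ hi1))
    refine ⟨_, l1, hcl (c j) (c i) q D (hc1 j).1 (hc1 i).1 hq hD _
      (Or.inr (Or.inr (mem_image_of_mem _ h5))),
      l2, ⟨i + 1, by rw [hi2]; exact l4⟩, l3.trans (union_subset_union_right _ (fun x hx => ?_))⟩
    exact by_contra fun l => hx.2 ⟨hx.1, l⟩
  have i4 := (hN1.biUnion (fun q _ => q.prc)).to_subtype
  obtain ⟨s, hs0, hs1, hs2⟩ := exists_task_seq (Z := Cond le Id p₀ Ω × P × Set ι)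
    (T := (Sum.inr ⁻¹' N) ⊕ (⋃ q ∈ Sum.inl ⁻¹' N, q.pr))
    (fun s => Sum.inl s.1 ∈ N ∧ (∃ k, le (c k).p s.1.p) ∧ le s.2.1 pz ∧ s.2.2.Finite)
    (fun s s' => s'.1 ≤ s.1 ∧ le s'.2.1 s.2.1 ∧ s.2.2 ⊆ s'.2.2 ∧
      Prod.snd '' s'.1.h ⊆ Prod.snd '' s.1.h ∪ (z \ s'.2.2))
    (fun τ s s' => τ.elim (fun D => IsDense D.1 → s'.1 ∈ D.1) (fun X => X.1 ∈ s.1.pr →
      Cof le Id s'.2.1 (restr X.1 (Prod.snd '' s.1.h ∪ (z \ s'.2.2)))))
    (fun s _ => ⟨le_rfl, hle.refl _, Subset.rfl, subset_union_left⟩) (by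
      rintro (D | X) ⟨q, p, a⟩ ⟨h1, h2, h3, h4⟩
      · by_cases hD : IsDense D.1
        · obtain ⟨q', k1, k2, k3, k4, k5⟩ := key q h1 h2 D.1 D.2 hD a h4
          exact ⟨(q', p, a), ⟨k2, k4, h3, h4⟩, ⟨k3, hle.refl _, Subset.rfl, k5⟩, fun _ => k1⟩
        · exact ⟨(q, p, a), ⟨h1, h2, h3, h4⟩, ⟨le_rfl, hle.refl _, Subset.rfl, subset_union_left⟩,
            fun k => (hD k).elim⟩
      · by_cases hX : X.1 ∈ q.pr
        · obtain ⟨k, hk⟩ := h2
          obtain ⟨p', a', k1, k2, k3⟩ := ((q.cof _ hX).mono hle (hle.trans h3 (hle.trans hz1'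
            (hle.trans (hpω k) hk))) (fun _ _ h => h)).split hle hId (hId.mono h3 hz2)
          exact ⟨(q, p', a ∪ a'), ⟨h1, ⟨k, hk⟩, hle.trans k1 h3, h4.union k2⟩,
            ⟨le_rfl, k1, subset_union_left, subset_union_left⟩,
            fun _ => k3.mono hle (hle.refl _) (fun p y h => ⟨h.1.1, union_subset h.1.2
              ((sdiff_subset_sdiff_right subset_union_right).trans h.2)⟩)⟩
        · exact ⟨(q, p, a), ⟨h1, h2, h3, h4⟩, ⟨le_rfl, hle.refl _, Subset.rfl, subset_union_left⟩,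
            fun k => (hX k).elim⟩)
    (q₀, pz, ∅) ⟨hq₀, ⟨0, hc0 ▸ hle.refl _⟩, hle.refl _, finite_empty⟩
  obtain ⟨ps, hps⟩ := hle.lb (fun i => (s i).2.1) (fun i => (hs1 i).2.2.1)
  have hanti : Antitone (fun i => (s i).1) := antitone_nat_of_succ_le (fun i => (hs1 i).2.1)
  have hmono : Monotone (fun i => (s i).2.2) :=
    monotone_nat_of_le_succ (fun i => (hs1 i).2.2.2.1)
  have hpq : ∀ i, le ps (s i).1.p := fun i =>
    let ⟨k, hk⟩ := (hs1 i).1.2.1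
    hle.trans (hps i) (hle.trans (hs1 i).1.2.2.1 (hle.trans hz1' (hle.trans (hpω k) hk)))
  have hx : ∀ j, Prod.snd '' (⋃ i, (s i).1.h) ⊆ Prod.snd '' (s j).1.h ∪ (z \ (s (j + 1)).2.2) := by
    intro j
    rw [image_iUnion]
    refine iUnion_subset (fun i => ?_)
    rcases le_total i j with h | h
    · exact (image_mono (hanti h).2.1).trans subset_union_left
    · induction h with
      | refl => exact subset_union_left
      | step h ih =>
        exact (hs1 _).2.2.2.2.trans (union_subset ih ((sdiff_subset_sdiff_right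
          (hmono (Nat.succ_le_succ h))).trans subset_union_right))
  let q : Cond le Id p₀ Ω := ⟨ps, ⋃ i, (s i).1.h, ⋃ i, (s i).1.pr, hle.trans (hpq 0) (s 0).1.hp,
    countable_iUnion (fun i => (s i).1.hc), by
      simp only [mem_iUnion]
      rintro a ⟨i, hi⟩ b ⟨j, hj⟩
      exact (s (max i j)).1.inj a ((hanti (le_max_left i j)).2.1 hi) b
        ((hanti (le_max_right i j)).2.1 hj),
    hId.union (hId.mono (hpq 0) (s 0).1.hid)
      (hId.mono (hle.trans (hps 0) (hs1 0).1.2.2.1) hz2)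
      ((hx 0).trans (union_subset_union_right _ sdiff_subset)),
    countable_iUnion (fun i => (s i).1.prc), by
      simp only [mem_iUnion]
      rintro X ⟨i, hi⟩
      obtain ⟨j, h1, h2⟩ := hs2 (Sum.inr ⟨X, mem_biUnion (hs1 i).1.1 hi⟩) i
      exact (h2 ((hanti h1).2.2.2 hi)).mono hle (hps _) (fun p y h => ⟨h.1, (hx j).trans h.2⟩)⟩
  have hq : ∀ i, q ≤ (s i).1 := fun i => ⟨hpq i, subset_iUnion (fun i => (s i).1.h) i,
    fun a h1 h2 b h3 => by
      obtain ⟨j, hj⟩ := mem_iUnion.1 h1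
      exact (hanti (le_max_left i j)).2.2.1 a ((hanti (le_max_right i j)).2.1 hj) h2 b h3,
    subset_iUnion (fun i => (s i).1.pr) i⟩
  refine ⟨q, by simpa only [hs0] using hq 0, fun D h1 h2 r hr => ?_⟩
  obtain ⟨j, -, hj⟩ := hs2 (Sum.inl ⟨D, h1⟩) 0
  exact ⟨_, hj h2, (hs1 _).1.1, r, le_rfl, hr.trans (hq _)⟩

lemma exists_omega_one : ∃ (Ω : Type u) (_ : LinearOrder Ω), #Ω = ℵ₁ ∧
    ∀ s : Set Ω, s.Countable → ∃ ξ, ∀ η ∈ s, η < ξ := by
  refine ⟨(ℵ₁ : Cardinal.{u}).ord.ToType, inferInstance, mk_ord_toType _, fun s hs => ?_⟩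
  by_contra hc
  push Not at hc
  have h1 : (⋃ η ∈ s, insert η (Iio η)).Countable := hs.biUnion (fun η _ => Countable.insert _
    (le_aleph0_iff_set_countable.1 (lt_aleph_one_iff.1 (mk_Iio_toType_ord_lt η))))
  have h2 : (univ : Set (ℵ₁ : Cardinal.{u}).ord.ToType).Countable := h1.mono (fun ξ _ => by
    obtain ⟨η, k1, k2⟩ := hc ξ
    exact mem_biUnion k1 k2.eq_or_lt)
  rw [← le_aleph0_iff_set_countable, mk_univ, mk_ord_toType] at h2
  exact absurd h2 (not_le.2 aleph0_lt_aleph_one)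

theorem alt_one_of_PFA (hPFA : PFA.{u}) (hle : SigmaOrder le) (hId : IdealName le Id)
    (h0 : Id p₀ ∅) (hlc : ∀ (T : Type u) (f : T → P), #T ≤ ℵ₁ →
      (∀ a b, ∃ r, le r (f a) ∧ le r (f b)) → ∃ p, ∀ a, le p (f a))
    (hno : ∀ p F, le p p₀ → ¬ Colouring le Id p F) :
    ∃ (p : P) (A : Set ι), le p p₀ ∧ ¬ A.Countable ∧ ∀ c ⊆ A, c.Countable → Id p c := by
  obtain ⟨Ω, _, hΩ1, hΩ2⟩ := exists_omega_one.{u}
  let _ : Preorder (Cond le Id p₀ Ω) := condOrder hle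
  obtain ⟨G, -, hG1, hG2⟩ := hPFA (Cond le Id p₀ Ω) (cond_proper hle hId h0)
    (range (fun ξ : Ω => {q | ∃ a ∈ q.h, ξ < a.1})) (mk_range_le.trans hΩ1.le) (by
      rintro _ ⟨ξ, rfl⟩ q
      obtain ⟨q', h1, h2⟩ := cond_extend hle hId hΩ2 hno q ξ
      exact ⟨q', h2, h1⟩) ⟨(exists_cond hId h0 (hle.refl p₀)).choose⟩
  choose q hq1 a ha1 ha2 using fun ξ : Ω => hG2 _ ⟨ξ, rfl⟩
  obtain ⟨p, hp⟩ := hlc Ω (fun ξ => (q ξ).p) hΩ1.le (fun ξ η =>
    let ⟨r, _, h1, h2⟩ := hG1 _ (hq1 ξ) _ (hq1 η)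
    ⟨r.p, h1.1, h2.1⟩)
  obtain ⟨ξ₀, -⟩ := hΩ2 ∅ countable_empty
  refine ⟨p, ⋃ ξ, Prod.snd '' (q ξ).h, hle.trans (hp ξ₀) (q ξ₀).hp, fun hc => ?_,
    fun c hc1 hc2 => ?_⟩
  · have h1 : ∀ x : (⋃ ξ, Prod.snd '' (q ξ).h), ∃ η : Ω, ∀ ξ, ∀ b ∈ (q ξ).h, b.2 = x.1 → b.1 = η := by
      rintro ⟨x, hx⟩
      obtain ⟨ξ, b, hb, rfl⟩ := mem_iUnion.1 hx
      refine ⟨b.1, fun η b' hb' e => ?_⟩
      obtain ⟨r, -, h1, h2⟩ := hG1 _ (hq1 ξ) _ (hq1 η)
      exact r.inj _ (h2.2.1 hb') _ (h1.2.1 hb) e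
    choose η hη using h1
    have := hc.to_subtype
    obtain ⟨ξ, hξ⟩ := hΩ2 _ (countable_range η)
    have h2 := hη ⟨(a ξ).2, mem_iUnion.2 ⟨ξ, _, ha1 ξ, rfl⟩⟩ ξ _ (ha1 ξ) rfl
    exact lt_asymm (ha2 ξ) (h2 ▸ hξ _ ⟨_, rfl⟩)
  · have h1 : ∀ x : c, ∃ ξ, ∃ b ∈ (q ξ).h, b.2 = x.1 := fun x => mem_iUnion.1 (hc1 x.2)
    choose ξ b hb1 hb2 using h1
    have := hc2.to_subtype
    obtain ⟨η, hη⟩ := hΩ2 _ (countable_range (fun x => (b x).1))
    refine hId.down (hId.mono (hp η) (q η).hid) (fun x hx => ⟨b ⟨x, hx⟩, ?_, hb2 _⟩)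
    obtain ⟨r, -, h1, h2⟩ := hG1 _ (hq1 (ξ ⟨x, hx⟩)) _ (hq1 η)
    by_contra hn
    exact lt_asymm ((hη _ ⟨⟨x, hx⟩, rfl⟩).trans (ha2 η))
      (h2.2.2.1 _ (h1.2.1 (hb1 _)) hn _ (ha1 η))

end Pool.Agent.MP_76b292_lc

end MrgPart3

-- ======== part 4: formerly Pool.Agent.MP_76b292_lc.PIDB
section MrgPart4

/-!
The P-ideal dichotomy holds in the Boolean-valued model.
-/

set_option autoImplicit false

universe u v

open Set Cardinal

namespace Pool.Agent.MP_76b292_lc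

variable {B : Type u} [CompleteBooleanAlgebra B] {b : B}

lemma le_prop {q : Prop} {c : B} (h : q) (h' : b ≤ c) : b ≤ ⨆ _ : q, c := iSup_intro h h'

lemma prop_elim {q : Prop} {c v : B} (h : b ≤ ⨆ _ : q, c) (h' : q → b ≤ c → b ≤ v) : b ≤ v := by
  by_cases k : q
  · exact h' k (by simpa only [k, iSup_pos] using h)
  · simp only [k, iSup_neg, not_false_eq_true] at h
    exact h.trans bot_le

namespace BSet

lemma le_of_inj {ι κ : Type u} {A : ι → BSet B} {β : ι → B} {A' : κ → BSet B} {β' : κ → B}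
    (hA' : Dist A' β') (g : ι → κ) (h1 : ∀ i, ∀ c ≤ b, c ≤ β i → c ≤ β' (g i))
    (h2 : ∀ i i', ∀ c ≤ b, c ≤ β i → c ≤ β i' → g i = g i' → c ≤ beq (A i) (A i')) :
    b ≤ ble ⟨ι, A, β⟩ ⟨κ, A', β'⟩ :=
  le_of_idx hA' (fun i j => ⨆ _ : g i = j, ⊤)
    (fun i c k1 k2 => iSup_intro (g i) (le_inf (h1 i c k1 k2) (le_prop rfl le_top)))
    (fun i i' _ c k1 k2 k3 _ k4 k5 => prop_elim k4 fun e _ => prop_elim k5 fun e' _ =>
      h2 i i' c k1 k2 k3 (e.trans e'.symm))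

lemma le_of_emb {ι κ : Type u} {A : ι → BSet B} {β : ι → B} {A' : κ → BSet B}
    (hA' : Dist A' (fun _ => ⊤)) (h : #ι ≤ #κ) : b ≤ ble ⟨ι, A, β⟩ ⟨κ, A', fun _ => ⊤⟩ :=
  let ⟨g⟩ := (Cardinal.le_def _ _).1 h
  le_of_inj hA' g (fun _ _ _ _ => le_top) (fun _ _ _ _ _ _ e => g.injective e ▸ beq_refl _)

lemma sub_nf {ι : Type u} {A : ι → BSet B} {β : ι → B} {Y : BSet B} (h : b ≤ bsub Y ⟨ι, A, β⟩) :
    b ≤ beq Y ⟨ι, A, fun i => β i ⊓ bmem (A i) Y⟩ :=
  beq_ext (fun _ _ k1 k2 => (mem_sep (x := ⟨ι, A, β⟩) (φ := fun z => bmem z Y)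
      (fun _ _ _ => mem_congr_left)).2 ⟨sub_elim (k1.trans h) k2, k2⟩)
    (fun _ _ _ k2 => ((mem_sep (x := ⟨ι, A, β⟩) (φ := fun z => bmem z Y)
      (fun _ _ _ => mem_congr_left)).1 k2).2)

lemma sub_of_le {ι : Type u} {A : ι → BSet B} {β β' : ι → B}
    (h : ∀ i, ∀ c ≤ b, c ≤ β i → c ≤ β' i) : b ≤ bsub ⟨ι, A, β⟩ ⟨ι, A, β'⟩ :=
  sub_of_idx fun i c k1 k2 => mem_self (x := ⟨ι, A, β'⟩) i (h i c k1 k2)

lemma ble_congr {x y x' y' : BSet B} (h1 : b ≤ beq x x') (h2 : b ≤ beq y y') (h : b ≤ ble x y) :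
    b ≤ ble x' y' := bi_mp (bi_le h1 h2) h

/-- the name of the part of a name indexed by a ground set -/
def cut {ι : Type u} (A : ι → BSet B) (β : ι → B) (c : Set ι) : BSet B :=
  ⟨ι, A, fun i => ⨆ _ : i ∈ c, β i⟩

variable {ι : Type u} {A : ι → BSet B} {β : ι → B} {c : Set ι}

lemma cut_sub : b ≤ bsub (cut A β c) ⟨ι, A, β⟩ :=
  sub_of_le fun _ _ _ k => prop_elim k fun _ l => l

lemma cut_mono {c' : Set ι} (h : c ⊆ c') : b ≤ bsub (cut A β c) (cut A β c') :=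
  sub_of_le fun _ _ _ k => prop_elim k fun m l => le_prop (h m) l

lemma mem_cut {i : ι} (h : i ∈ c) (h' : b ≤ β i) : b ≤ bmem (A i) (cut A β c) :=
  mem_self (x := cut A β c) i (le_prop h h')

lemma dist_cut (hA : Dist A β) : Dist A (fun i => ⨆ _ : i ∈ c, β i) :=
  hA.mono fun _ => iSup_le fun _ => le_rfl

lemma not_mem_cut (hA : Dist A β) {i : ι} (h : i ∉ c) (h1 : b ≤ β i)
    (h2 : b ≤ bmem (A i) (cut A β c)) : b ≤ ⊥ :=
  prop_elim (mem_nf hA (fun _ => iSup_le fun _ => le_rfl) h1 h2) fun k _ => (h k).elim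

lemma cut_le_om (h : c.Countable) : b ≤ ble (cut A β c) om := by
  obtain ⟨g, hg⟩ := countable_iff_exists_injOn.1 h
  exact le_of_inj (dist_nat _) (fun i => ⟨g i⟩) (fun _ _ _ _ => le_top)
    (fun i j d _ k1 k2 e => prop_elim k1 fun l1 _ => prop_elim k2 fun l2 _ =>
      hg l1 l2 (congrArg ULift.down e) ▸ beq_refl _)

lemma om_le_cut (hA : Dist A β) (h : c.Infinite) (h' : ∀ i ∈ c, b ≤ β i) :
    b ≤ ble om (cut A β c) :=
  le_of_inj (dist_cut hA) (fun n => (h.natEmbedding c n.down).1)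
    (fun n _ k _ => le_prop (h.natEmbedding c n.down).2 (k.trans (h' _ (h.natEmbedding c n.down).2)))
    (fun n m _ _ _ _ e => by
      rw [(h.natEmbedding c).injective (Subtype.ext e)]
      exact beq_refl _)

variable {P : Type u} {le : P → P → Prop} {pr : P → B} {p : P}

lemma not_om_le_cut (hc : Cpl le pr) (hσ : SigmaOrder le) (hA : Dist A β) (h : c.Finite) :
    b ≤ (ble om (cut A β c))ᶜ := by
  refine compl_intro (fun d _ k => hc.le_bot (fun p hp => ?_))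
  obtain ⟨e, h1, h2, -⟩ := idx_of_le (dist_nat _) (dist_cut hA) (hp.trans k)
  obtain ⟨q, k1, k2⟩ := hσ.all (fun (n : ULift ℕ) q => ∃ i : c, pr q ≤ e n i)
    (fun _ _ _ l ⟨i, m⟩ => ⟨i, (hc.mono l).trans m⟩) p (fun n q l => by
      obtain ⟨r, i, m1, m2⟩ := hc.ex (h1 n _ (hc.mono l) le_top)
      by_cases hi : i ∈ c
      · exact ⟨r, m1, ⟨i, hi⟩, inf_r m2⟩
      · exact (hc.pos r (prop_elim (inf_l m2) fun m _ => (hi m).elim)).elim)
  choose g hg using k2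
  have := h.to_subtype
  obtain ⟨n, m, l1, l2⟩ := Finite.exists_ne_map_eq_of_infinite g
  exact hc.pos q (h2 n m _ _ (hc.mono k1) l1 (hg n) (l2 ▸ hg m))

/-- countable subsets of a name are ground sets -/
lemma exists_cut (hc : Cpl le pr) (hσ : SigmaOrder le) (hA : Dist A β) {Y : BSet B}
    (h1 : pr p ≤ bsub Y ⟨ι, A, β⟩) (h2 : pr p ≤ ble Y om) :
    ∃ q c, le q p ∧ c.Countable ∧ (∀ i ∈ c, pr q ≤ β i) ∧ pr q ≤ beq Y (cut A β c) := by
  obtain ⟨e, k1, k2, -⟩ := idx_of_le (hA.mono fun _ => inf_le_left) (dist_nat _)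
    (ble_congr (sub_nf h1) (beq_refl _) h2)
  obtain ⟨q, l1, l2⟩ := hσ.all (fun (n : ULift ℕ) q => (∃ i, pr q ≤ (β i ⊓ bmem (A i) Y) ⊓ e i n) ∨
      pr q ≤ (⨆ i, (β i ⊓ bmem (A i) Y) ⊓ e i n)ᶜ)
    (fun _ _ _ l m => m.imp (fun ⟨i, m⟩ => ⟨i, (hc.mono l).trans m⟩) (hc.mono l).trans) p
    (fun n q _ => by
      obtain ⟨r, m1, m2 | m2⟩ := hc.dec q (⨆ i, (β i ⊓ bmem (A i) Y) ⊓ e i n)
      · obtain ⟨s, i, m3, m4⟩ := hc.ex m2
        exact ⟨s, hc.trans m3 m1, Or.inl ⟨i, m4⟩⟩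
      · exact ⟨r, m1, Or.inr m2⟩)
  refine ⟨q, ⋃ n, {i | pr q ≤ (β i ⊓ bmem (A i) Y) ⊓ e i n}, l1,
    countable_iUnion fun n => Set.Subsingleton.countable fun i hi j hj => by_contra fun m =>
      hc.pos q (k2 i j n _ (hc.mono l1) m (inf_r hi) (inf_r hj)), fun i hi => ?_,
    beq_trans ((hc.mono l1).trans (sub_nf h1))
      (beq_of_sub (sub_of_le fun i d m1 m2 => ?_) (sub_of_le fun i d m1 m2 => ?_))⟩
  · obtain ⟨n, hn⟩ := mem_iUnion.1 hi
    exact inf_l (inf_l hn)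
  · refine iSup_elim (k1 i d (m1.trans (hc.mono l1)) m2) (fun n g n1 n2 => ?_)
    rcases l2 n with ⟨j, hj⟩ | hj
    · by_cases ij : i = j
      · subst ij
        exact le_prop (mem_iUnion.2 ⟨n, hj⟩) (inf_l (n1.trans m2))
      · exact (k2 i j n g ((n1.trans m1).trans (hc.mono l1)) ij (inf_r n2)
          ((n1.trans m1).trans (inf_r hj))).trans bot_le
    · exact compl_elim (iSup_intro i (le_inf (n1.trans m2) (inf_r n2))) ((n1.trans m1).trans hj)
  · refine prop_elim m2 fun hi _ => ?_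
    obtain ⟨n, hn⟩ := mem_iUnion.1 hi
    exact m1.trans (inf_l hn)

lemma ideal_down {S I C Y : BSet B} (h : b ≤ bpideal om S I) (h1 : b ≤ bmem Y I)
    (h2 : b ≤ bsub C Y) : b ≤ bmem C I :=
  mp (mp (mp (iInf_elim (iInf_elim (iInf_elim (inf_l (inf_r (inf_r h))) Y) Y) C) h1) h1)
    (le_iInf fun _ => himp_intro fun _ k1 k2 => sup_l (sub_elim (k1.trans h2) k2))

theorem pid_core {D : Ultrafilter ℕ} {le : Set ℕ → P → P → Prop} (hPFA : PFA.{u}) (hD : ModD D le)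
    (hc : Cpl (le ∅) pr) (hlc : ∀ (T : Type u) (f : T → P), #T ≤ ℵ₁ →
      (∀ a b, ∃ r, le univ r (f a) ∧ le univ r (f b)) → ∃ p, ∀ a, le univ p (f a))
    (hA : Dist A β) {I : BSet B} {p₀ : P} (hI : pr p₀ ≤ bpideal om ⟨ι, A, β⟩ I) :
    ∃ q, le ∅ q p₀ ∧ pr q ≤ balt1 om ⟨ι, A, β⟩ I ⊔ balt2 om ⟨ι, A, β⟩ I := by
  have hσ : SigmaOrder (le ∅) := ⟨hD.refl ∅, hD.trans, hD.lb₀⟩
  let Id : P → Set ι → Prop := fun p c => c.Countable ∧ le ∅ p p₀ ∧ (∀ i ∈ c, pr p ≤ β i) ∧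
    pr p ≤ bmem (cut A β c) I
  have hmem : ∀ {q Y}, le ∅ q p₀ → pr q ≤ bmem Y I → pr q ≤ bsub Y ⟨ι, A, β⟩ ⊓ ble Y om :=
    fun k1 k2 => mp (iInf_elim (inf_l ((hc.mono k1).trans hI)) _) k2
  have hId : IdealName (le ∅) Id := by
    refine ⟨fun k ⟨k1, k2, k3, k4⟩ => ⟨k1, hc.trans k k2, fun i hi => (hc.mono k).trans (k3 i hi),
      (hc.mono k).trans k4⟩, fun k => k.1, ?_, ?_⟩
    · rintro p c c' C ⟨k1, k2, k3, k4⟩ ⟨l1, -, l3, l4⟩ hC
      refine ⟨(k1.union l1).mono hC, k2, fun i hi => (hC hi).elim (k3 i) (l3 i),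
        mp (mp (mp (iInf_elim (iInf_elim (iInf_elim (inf_l (inf_r (inf_r ((hc.mono k2).trans hI))))
          _) _) _) k4) l4) (le_iInf fun z => himp_intro fun d _ m => mem_elim m fun i e _ m2 m3 =>
            prop_elim m2 fun hi m4 => ?_)⟩
      rcases hC hi with hi | hi
      · exact sup_l (mem_congr_left (beq_symm m3) (mem_cut hi m4))
      · exact sup_r (mem_congr_left (beq_symm m3) (mem_cut hi m4))
    · intro p c hcs
      have h0 := (hcs 0).2.1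
      let F : BSet B := ⟨ULift ℕ, fun n => cut A β (c n.down), fun _ => ⊤⟩
      have k1 := mp (mp (iInf_elim (inf_r (inf_r (inf_r ((hc.mono h0).trans hI)))) F)
        (sub_of_idx fun n d k _ => k.trans (hcs n.down).2.2.2)) (le_of_emb (dist_nat _) le_rfl)
      obtain ⟨q, Y, k2, k3⟩ := hc.ex k1
      have k4 := hmem (hc.trans k2 h0) (inf_l k3)
      obtain ⟨r, C, l1, l2, l3, l4⟩ := exists_cut hc hσ hA (inf_l k4) (inf_r k4)
      refine ⟨r, C, hc.trans l1 k2, ⟨l2, hc.trans l1 (hc.trans k2 h0), l3,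
        mem_congr_left l4 ((hc.mono l1).trans (inf_l k3))⟩, fun n => by_contra fun hn => ?_⟩
      have k5 := mp (mp (iInf_elim (iInf_elim ((hc.mono l1).trans (inf_r k3)) (cut A β (c n)))
        (cut A β (c n \ C))) (mem_self (x := F) ⟨n⟩ le_top))
        (le_iInf fun z => himp_intro fun d m0 m => mem_elim m fun i e m1 m2 m3 =>
          prop_elim m2 fun hi m4 => le_inf (mem_congr_left (beq_symm m3) (mem_cut hi.1 m4))
            (compl_intro fun g n1 n2 => not_mem_cut hA hi.2 (n1.trans m4)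
              (mem_congr_left (n1.trans m3) (mem_congr_right ((n1.trans m1).trans (m0.trans l4))
                n2))))
      exact hc.pos r (compl_elim (om_le_cut hA hn fun i hi =>
        (hc.mono (hc.trans l1 k2)).trans ((hcs n).2.2.1 i hi.1)) (inf_r k5))
  have h0 : Id p₀ ∅ := ⟨countable_empty, hc.refl _, fun _ k => k.elim,
    mp (mp (iInf_elim (inf_l (inf_r hI)) _) cut_sub)
      (le_inf (cut_le_om countable_empty) (not_om_le_cut hc hσ hA finite_empty))⟩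
  by_cases hno : ∀ p F, le univ p p₀ → ¬ Colouring (le univ) Id p F
  · obtain ⟨p, C, k1, k2, k3⟩ := alt_one_of_PFA hPFA ⟨hD.refl univ, hD.trans, hD.lb₁⟩
      (hD.idealName hId) h0 hlc hno
    have k4 : ∀ i ∈ C, pr p ≤ β i := fun i hi =>
      (k3 {i} (singleton_subset_iff.2 hi) (countable_singleton i)).2.2.1 i rfl
    refine ⟨p, hD.anti (empty_subset _) k1, sup_l (iSup_intro (cut A β C) (le_inf cut_sub (le_inf
      (hc.force fun q l => ⟨q, hc.refl q, compl_intro fun d l1 l2 => ?_⟩)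
      (le_iInf fun Y => himp_intro fun d l1 l2 => himp_intro fun e l3 l4 => ?_))))⟩
    · refine hc.le_of' (l1.trans (hc.mono l)) fun r m1 m2 => ?_
      obtain ⟨s, c, n1, n2, -, n4⟩ := exists_cut hc hσ hA (p := r) cut_sub (m2.trans l2)
      obtain ⟨i, hi, hi'⟩ := not_subset.1 (fun k => k2 (n2.mono k))
      have := (hc.mono (hc.trans n1 m1)).trans (k4 i hi)
      exact ⟨s, n1, not_mem_cut hA hi' this (mem_congr_right n4 (mem_cut hi this))⟩
    · refine hc.le_of' (l3.trans l1) fun r m1 m2 => ?_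
      have m3 := m2.trans (l3.trans l2)
      obtain ⟨s, c, n1, n2, n3, n4⟩ := exists_cut hc hσ hA (p := r) (sub_trans m3 cut_sub)
        (m2.trans l4)
      refine ⟨s, n1, mem_congr_left (beq_symm n4) ((hc.mono (hc.trans n1 m1)).trans
        (k3 c (fun i hi => by_contra fun hi' => hc.pos s ?_) n2).2.2.2)⟩
      exact not_mem_cut hA hi' (n3 i hi) (sub_elim ((hc.mono n1).trans m3)
        (mem_congr_right (beq_symm n4) (mem_cut hi (n3 i hi))))
  push Not at hno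
  obtain ⟨p, F, k1, k2⟩ := hno
  obtain ⟨r, F', k3, hF⟩ := hD.colouring hId k2
  have k4 := hc.trans k3 (hD.anti (empty_subset _) k1)
  let T : ℕ → BSet B := fun m => ⟨ι, A, fun i => β i ⊓ ⨆ q : {q // F' q i m}, pr q.1⟩
  let 𝒯 : BSet B := ⟨ULift ℕ, fun n => T n.down, fun _ => ⊤⟩
  have hT : ∀ m d, d ≤ bsub (T m) ⟨ι, A, β⟩ := fun m d => sub_of_le fun _ _ _ k => inf_l k
  refine ⟨r, k4, sup_r (iSup_intro 𝒯 (le_inf (le_of_emb (dist_nat _) le_rfl) (le_inf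
    (le_iInf fun z => bi_intro (fun d l1 l2 => mem_elim l2 fun i e m1 m2 m3 => ?_)
      (fun d _ l2 => iSup_elim l2 fun X e _ m2 => mem_elim (inf_l m2) fun n g n1 _ n3 =>
        sub_elim (hT n.down g) (mem_congr_right n3 (n1.trans (inf_r m2)))))
    (le_iInf fun X => le_iInf fun Y => le_iInf fun d => himp_intro fun e l1 l2 =>
      himp_intro fun e' l3 l4 => himp_intro fun e'' l5 l6 => himp_intro fun g l7 l8 =>
        mem_elim (l7.trans (l5.trans (l3.trans l2))) fun m g' m1 _ m3 => ?_))))⟩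
  · refine hc.le_of' (m1.trans l1) fun q n1 n2 => ?_
    obtain ⟨s, m, n3, n4⟩ := hF.total q i n1
    have n5 := (hc.mono n3).trans n2
    exact ⟨s, n3, iSup_intro (T m) (le_inf (mem_self (x := 𝒯) ⟨m⟩ le_top) (mem_intro (x := T m) i
      (le_inf (n5.trans m2) (iSup_intro ⟨s, n4⟩ le_rfl)) (n5.trans m3)))⟩
  · refine hc.le_of' ((m1.trans l7).trans (l5.trans (l3.trans l1))) fun q n1 n2 => ?_
    have n3 := n2.trans m1
    have n4 : pr q ≤ bmem Y I := n3.trans (l7.trans (l5.trans l4))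
    have n5 := hmem (hc.trans n1 k4) n4
    have n6 : pr q ≤ bsub d Y := n3.trans l8
    have n7 := ble_trans (le_of_sub n6) (inf_r n5)
    obtain ⟨s, c, o1, o2, o3, o4⟩ := exists_cut hc hσ hA (sub_trans n6 (inf_l n5)) n7
    refine ⟨s, o1, le_inf ((hc.mono o1).trans n7) (bi_mpr (bi_compl (bi_le (beq_refl _) o4))
      (not_om_le_cut hc hσ hA (by_contra fun hinf => ?_)))⟩
    have := o2.to_subtype
    obtain ⟨t, u1, u2⟩ := hσ.all (fun (i : c) t => F' t i.1 m.down) (fun _ _ _ => hF.mono) s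
      (fun i t ht => by
        have v1 : pr s ≤ bmem (A i.1) (T m.down) := mem_congr_right ((hc.mono o1).trans (n2.trans m3))
          (sub_elim ((hc.mono o1).trans (n3.trans (l7.trans l6)))
            (mem_congr_right (beq_symm o4) (mem_cut i.2 (o3 _ i.2))))
        obtain ⟨t', w, v2, v3, v4⟩ := hc.ex_pr ((hc.mono ht).trans
          (inf_r (mem_nf (φ := fun i => β i ⊓ ⨆ q : {q // F' q i m.down}, pr q.1) hA
            (fun _ => inf_le_left) (o3 _ i.2) v1)))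
        exact ⟨t', v3, hF.mono v4 v2⟩)
    refine hF.orth t m.down c (hc.trans u1 (hc.trans o1 n1)) hinf (hId.mono u1
      ⟨o2, hc.trans o1 (hc.trans n1 k4), o3, mem_congr_left o4 ((hc.mono o1).trans
        (ideal_down ((hc.mono (hc.trans n1 k4)).trans hI) n4 n6))⟩) (fun x hx => u2 ⟨x, hx⟩)

theorem pid_top {D : Ultrafilter ℕ} {le : Set ℕ → P → P → Prop} (hPFA : PFA.{u}) (hD : ModD D le)
    (hc : Cpl (le ∅) pr) (hlc : ∀ (T : Type u) (f : T → P), #T ≤ ℵ₁ →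
      (∀ a b, ∃ r, le univ r (f a) ∧ le univ r (f b)) → ∃ p, ∀ a, le univ p (f a)) :
    ⊤ ≤ bpid B := by
  refine le_iInf fun w => le_iInf fun S => le_iInf fun I => himp_intro fun b _ h1 =>
    himp_intro fun d h2 h3 => hc.le_of fun p hp => ?_
  obtain ⟨ι, A, β, hA, hS⟩ := exists_nf S
  have hw : pr p ≤ beq w om := eq_om (hp.trans (h2.trans h1))
  obtain ⟨q, k1, k2⟩ := pid_core hPFA hD hc hlc hA
    (bi_mp (bi_pideal hw (hS _) (beq_refl _)) (hp.trans h3))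
  have hw' := (hc.mono k1).trans hw
  exact ⟨q, k1, bi_mpr (bi_sup (bi_alt1 hw' (hS _) (beq_refl _))
    (bi_alt2 hw' (hS _) (beq_refl _))) k2⟩

end BSet

end Pool.Agent.MP_76b292_lc

end MrgPart4

-- ======== part 5: formerly Pool.Agent.MP_76b292_lc.MeasB
section MrgPart5

/-!
Enumeration of names and measurable cardinals in a Boolean-valued model.
-/

set_option autoImplicit false

universe u v

open Set Cardinal

namespace Pool.Agent.MP_76b292_lc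

namespace BSet

variable {B : Type u} [CompleteBooleanAlgebra B] {b : B} {U Y A L : BSet B}

/-- the canonical name of a type -/
noncomputable def chk (T : Type u) : BSet B := ⟨T, pt, fun _ => ⊤⟩

lemma chk_le {S T : Type u} (h : #S ≤ #T) : b ≤ ble (chk S) (chk T) := le_of_emb (dist_pt _) h

lemma pt_mem {T : Type u} (t : T) : b ≤ bmem (pt t) (chk T) := mem_self (x := chk T) t le_top

lemma pt_elim {T : Type u} {s t : T} {v : B} (h : b ≤ beq (pt s) (pt t)) (h' : s = t → b ≤ v) :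
    b ≤ v := by
  by_cases k : s = t
  · exact h' k
  · exact (pt_ne k h).trans bot_le

lemma enum (Y : BSet B) (T : Type u) :
    b ≤ ble (chk T) Y ⊔ ⨆ s : {s : Set T // #s < #T}, ble Y (chk s.1) := by
  obtain ⟨ι, A, β, hA, hY⟩ := exists_nf Y
  obtain ⟨_, _, hT⟩ := exists_ord_eq_type_lt T
  let e : T → ι → B := (wellFounded_lt (α := T)).fix
    (fun t r => lst (fun i => β i ⊓ ⨅ s : Iio t, (r s.1 s.2 i)ᶜ))
  have he : ∀ t, e t = lst (fun i => β i ⊓ ⨅ s : Iio t, (e s.1 i)ᶜ) := fun t =>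
    WellFounded.fix_eq _ _ t
  have h1 : ∀ t i, e t i ≤ β i ⊓ ⨅ s : Iio t, (e s.1 i)ᶜ := fun t i => by
    rw [he t]
    exact lst_le _ i
  refine bcases (⨅ t, ⨆ i, e t i) (fun c _ k => sup_l (ble_congr (beq_refl _) (beq_symm (hY _))
    (le_of_idx hA e (fun t d l _ => iSup_elim (l.trans (iInf_elim k t)) fun i g _ m =>
      iSup_intro i (le_inf (inf_l (m.trans (h1 t i))) m)) (fun t s i d _ _ _ _ l1 l2 => ?_))))
    (fun c _ k => iSup_elim (compl_iInf_elim k) fun t d _ l => sup_r (iSup_intro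
      ⟨Iio t, mk_Iio_lt t hT⟩ (ble_congr (beq_symm (hY _)) (beq_refl _)
        (le_of_idx (dist_pt _) (fun i s => e s.1 i) (fun i g m1 m2 => ?_)
          (fun i j s g _ _ _ _ m1 m2 => ?_)))))
  · rcases lt_trichotomy t s with m | rfl | m
    · exact compl_elim l1 (iInf_elim (inf_r (l2.trans (h1 s i))) ⟨t, m⟩)
    · exact beq_refl _
    · exact compl_elim l2 (iInf_elim (inf_r (l1.trans (h1 t i))) ⟨s, m⟩)
  · refine bcases (⨅ s : Iio t, (e s.1 i)ᶜ) (fun g' n1 n2 => ?_) (fun g' _ n2 => ?_)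
    · refine compl_elim ?_ ((n1.trans m1).trans l)
      rw [he t]
      exact (le_inf (n1.trans m2) n2).trans
        (le_iSup_lst (fun i => β i ⊓ ⨅ s : Iio t, (e s.1 i)ᶜ) i)
    · exact iSup_elim (compl_iInf_elim n2) fun s g'' _ o => iSup_intro s
        (le_inf le_top (by rwa [compl_compl] at o))
  · by_cases ij : i = j
    · subst ij
      exact beq_refl _
    · rw [he s.1] at m1 m2
      exact lst_unique m1 m2 ij

lemma le_chk_of (T : Type u) (h : ∀ c ≤ b, c ≤ blt (chk T) Y → c ≤ ⊥) : b ≤ ble Y (chk T) :=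
  contra fun c k1 k2 => sup_elim (enum Y T) (fun d l1 l2 => h d (l1.trans k1)
    (le_inf l2 (l1.trans k2))) (fun _ l1 l2 => iSup_elim l2 fun s _ m1 m2 =>
      compl_elim (ble_trans m2 (chk_le s.2.le)) ((m1.trans l1).trans k2))

/-- a complete nonprincipal ultrafilter -/
noncomputable def bcu (U Y : BSet B) : B :=
  bultra U Y ⊓ ((⨅ A, ⨅ a, bmem A U ⇨ ⨆ z, bmem z A ⊓ (beq z a)ᶜ) ⊓
    ⨅ F, ⨅ Z, bsub F U ⇨ blt F Y ⇨
      (⨅ z, bi (bmem z Z) (bmem z Y ⊓ ⨅ A, bmem A F ⇨ bmem z A)) ⇨ bmem Z U)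

lemma sep_sub {φ : BSet B → B} : b ≤ bsub (sep Y φ) Y :=
  sub_of_idx fun i _ _ k => mem_self (x := Y) i (inf_l k)

lemma ultra_up {A' C : BSet B} (h : b ≤ bultra U Y) (h1 : b ≤ bmem A U) (h2 : b ≤ bmem A' U)
    (h3 : b ≤ bsub C Y) (h4 : ∀ z, ∀ c ≤ b, c ≤ bmem z A → c ≤ bmem z A' → c ≤ bmem z C) :
    b ≤ bmem C U :=
  mp (mp (mp (mp (iInf_elim (iInf_elim (iInf_elim (inf_l (inf_r h)) A) A') C) h1) h2) h3)
    (le_iInf fun z => himp_intro fun _ k1 k2 => himp_intro fun d l1 l2 =>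
      h4 z d (l1.trans k1) (l1.trans k2) l2)

lemma ultra_sub (h : b ≤ bultra U Y) (h1 : b ≤ bmem A U) : b ≤ bsub A Y :=
  inf_l (mp (iInf_elim (inf_l h) A) h1)

lemma ultra_ne (h : b ≤ bultra U Y) (h1 : b ≤ bmem A U) : b ≤ ⨆ z, bmem z A :=
  inf_r (mp (iInf_elim (inf_l h) A) h1)

lemma cu_two (h : b ≤ bcu U Y) (h1 : b ≤ bmem A U)
    (h2 : ∀ y z, ∀ c ≤ b, c ≤ bmem y A → c ≤ bmem z A → c ≤ beq y z) : b ≤ ⊥ :=
  iSup_elim (ultra_ne (inf_l h) h1) fun y _ k1 k2 => iSup_elim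
    (mp (k1.trans (iInf_elim (iInf_elim (inf_l (inf_r h)) A) y)) (k1.trans h1)) fun z d l1 l2 =>
      compl_elim (h2 z y d (l1.trans k1) (inf_l l2) (l1.trans k2)) (inf_r l2)

variable {T : Type u} {A' : T → BSet B}

lemma cu_inter (h : b ≤ bcu U Y) (hA' : Dist A' (fun _ => ⊤))
    (hL : b ≤ blt ⟨T, A', fun _ => ⊤⟩ Y) {φ : T → BSet B → B} (hφ : ∀ t, Ext (φ t))
    (h1 : ∀ t, b ≤ bmem (sep Y (φ t)) U) : b ≤ bmem (sep Y (fun y => ⨅ t, φ t y)) U := by
  let F : BSet B := ⟨T, fun t => sep Y (φ t), fun _ => ⊤⟩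
  have k1 : ∀ c, c ≤ ble F ⟨T, A', fun _ => ⊤⟩ := fun c => le_of_emb hA' le_rfl
  have k2 : Ext (fun y => ⨅ t, φ t y) := fun x y c l1 l2 =>
    le_iInf fun t => hφ t x y c l1 (iInf_elim l2 t)
  refine mp (mp (mp (iInf_elim (iInf_elim (inf_r (inf_r h)) F) _)
    (sub_of_idx fun t c l _ => l.trans (h1 t))) (le_inf (ble_trans (k1 _) (inf_l hL))
      (compl_intro fun c l1 l2 => compl_elim (ble_trans l2 (k1 _)) (l1.trans (inf_r hL)))))
    (le_iInf fun z => bi_intro (fun c _ l => ?_) (fun c _ l => (mem_sep k2).2 ⟨inf_l l, ?_⟩))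
  · obtain ⟨m1, m2⟩ := (mem_sep k2).1 l
    exact le_inf m1 (le_iInf fun S => himp_intro fun d n1 n2 => mem_elim n2 fun t e o1 _ o3 =>
      mem_congr_right (beq_symm o3) ((mem_sep (hφ t)).2
        ⟨(o1.trans n1).trans m1, (o1.trans n1).trans (iInf_elim m2 t)⟩))
  · exact le_iInf fun t => ((mem_sep (hφ t)).1
      (mp (iInf_elim (inf_r l) _) (mem_self (x := F) t le_top))).2

lemma Ext.compl {φ : BSet B → B} (h : Ext φ) : Ext (fun y => (φ y)ᶜ) := fun x y _ l1 l2 =>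
  compl_intro fun d m1 m2 => compl_elim (h y x d (beq_symm (m1.trans l1)) m2) (m1.trans l2)

lemma Ext.bi {φ : BSet B → B} (h : Ext φ) {x y : BSet B} (k : b ≤ beq x y) : b ≤ bi (φ x) (φ y) :=
  bi_intro (fun c l => h x y c (l.trans k)) (fun c l => h y x c (beq_symm (l.trans k)))

lemma cu_homog (h : b ≤ bcu U Y) (hA' : Dist A' (fun _ => ⊤))
    (hL : b ≤ blt ⟨T, A', fun _ => ⊤⟩ Y) {ρ : T → BSet B → B} (hρ : ∀ t, Ext (ρ t)) :
    ∃ H, b ≤ bmem H U ∧ ∀ y z t d, d ≤ bmem y H → d ≤ bmem z H → d ≤ ρ t y → d ≤ ρ t z := by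
  have k : ∀ t, Ext (fun y => bi (ρ t y) (bmem (sep Y (ρ t)) U)) := fun t =>
    ext_of_bi fun _ _ _ l => bi_bi ((hρ t).bi l) bi_refl
  have k2 : Ext (fun y => ⨅ t, bi (ρ t y) (bmem (sep Y (ρ t)) U)) := fun x y c l1 l2 =>
    le_iInf fun t => k t x y c l1 (iInf_elim l2 t)
  refine ⟨_, cu_inter h hA' hL k (fun t => ?_), fun y z t d l1 l2 l3 =>
    bi_mpr (iInf_elim ((mem_sep k2).1 l2).2 t) (bi_mp (iInf_elim ((mem_sep k2).1 l1).2 t) l3)⟩
  refine bcases (bmem (sep Y (ρ t)) U) (fun c l1 l2 => ultra_up (l1.trans (inf_l h)) l2 l2 sep_sub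
    fun z d m1 m2 _ => ?_) (fun c l1 l2 => ?_)
  · obtain ⟨n1, n2⟩ := (mem_sep (hρ t)).1 m2
    exact (mem_sep (k t)).2 ⟨n1, bi_intro (fun _ o _ => (o.trans m1).trans l2)
      (fun _ o _ => o.trans n2)⟩
  · have m := mp (mp (mp (iInf_elim (iInf_elim (inf_r (inf_r (l1.trans (inf_l h)))) (sep Y (ρ t)))
      (sep Y (fun y => (ρ t y)ᶜ))) sep_sub) sep_sub) (le_iInf fun z => himp_intro fun d _ n =>
        bcases (ρ t z) (fun e o1 o2 => sup_l ((mem_sep (hρ t)).2 ⟨o1.trans n, o2⟩))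
          (fun e o1 o2 => sup_r ((mem_sep (hρ t).compl).2 ⟨o1.trans n, o2⟩)))
    refine sup_elim m (fun d n1 n2 => compl_elim n2 (n1.trans l2)) (fun d n1 n2 =>
      ultra_up ((n1.trans l1).trans (inf_l h)) n2 n2 sep_sub fun z e o1 o2 _ => ?_)
    obtain ⟨q1, q2⟩ := (mem_sep (hρ t).compl).1 o2
    exact (mem_sep (k t)).2 ⟨q1, bi_intro (fun _ r s => compl_elim s (r.trans q2))
      (fun _ r s => compl_elim s ((r.trans o1).trans (n1.trans l2)))⟩

lemma cu_sep (h : b ≤ bcu U Y) (hL : b ≤ blt (chk T) Y) (hA : b ≤ bmem A U)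
    {ρ : T → BSet B → B} (hρ : ∀ t, Ext (ρ t))
    (hs : ∀ y z, ∀ d ≤ b, d ≤ bmem y A → d ≤ bmem z A → (∀ t, d ≤ bi (ρ t y) (ρ t z)) →
      d ≤ beq y z) : b ≤ ⊥ := by
  obtain ⟨H, k1, k2⟩ := cu_homog h (dist_pt _) hL hρ
  have e : Ext (fun y => bmem y H) := fun _ _ _ => mem_congr_left
  refine cu_two h (ultra_up (C := sep A (fun y => bmem y H)) (inf_l h) hA k1
    (sub_trans sep_sub (ultra_sub (inf_l h) hA)) fun z c _ l1 l2 => (mem_sep e).2 ⟨l1, l2⟩)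
    fun y z c l0 l1 l2 => ?_
  obtain ⟨m1, m2⟩ := (mem_sep e).1 l1
  obtain ⟨m3, m4⟩ := (mem_sep e).1 l2
  exact hs y z c l0 m1 m3 fun t => bi_intro (fun d n => k2 y z t d (n.trans m2) (n.trans m4))
    (fun d n => k2 z y t d (n.trans m4) (n.trans m2))

lemma cu_self (h : b ≤ bcu U Y) : b ≤ bmem Y U := by
  have m := mp (mp (mp (iInf_elim (iInf_elim (inf_r (inf_r (inf_l h))) Y) Y) sub_refl) sub_refl)
    (le_iInf fun z => himp_intro fun d _ n => sup_l n)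
  rwa [sup_idem] at m

lemma meas_step {Z : Type u} (h : b ≤ bmeas om Y) (h1 : b ≤ ble Y (chk T)) (r : T → Z → B)
    (hr : ∀ t t', t ≠ t' → ⊤ ≤ ⨆ z, (bi (r t z) (r t' z))ᶜ) : b ≤ ble Y (chk Z) := by
  obtain ⟨f, k1, k2⟩ := exists_of_le h1
  refine le_chk_of Z fun c l1 l2 => iSup_elim (l1.trans (inf_r h)) fun U d m1 m2 =>
    cu_sep m2 (m1.trans l2) (cu_self m2) (ρ := fun z y => ⨆ t, bapp f y (pt t) ⊓ r t z)
      (fun z => ext_of_bi fun _ _ _ k => bi_iSup fun _ =>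
        bi_inf (bi_app (beq_refl _) k (beq_refl _)) bi_refl) fun y y' e n1 n2 n3 n4 => ?_
  have n0 : e ≤ b := (n1.trans m1).trans l1
  refine iSup_elim (fn_total (n0.trans k1) n2) fun w e1 o1 o2 => mem_elim (inf_l o2)
    fun t e2 o3 _ o4 => iSup_elim (fn_total ((o3.trans o1).trans (n0.trans k1))
      ((o3.trans o1).trans n3)) fun w' e3 o5 o6 => mem_elim (inf_l o6) fun t' g o7 _ o8 => ?_
  have q0 : g ≤ e := o7.trans (o5.trans (o3.trans o1))
  have q1 : g ≤ bapp f y (pt t) := app_congr (beq_refl _) (beq_refl _) ((o7.trans o5).trans o4)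
    ((o7.trans o5).trans (o3.trans (inf_r o2)))
  have q2 : g ≤ bapp f y' (pt t') := app_congr (beq_refl _) (beq_refl _) o8 (o7.trans (inf_r o6))
  have key : ∀ {y : BSet B} {t : T} {z : Z} {g : B}, g ≤ b → g ≤ bapp f y (pt t) →
      g ≤ ⨆ t, bapp f y (pt t) ⊓ r t z → g ≤ r t z := fun s1 s2 s3 =>
    iSup_elim s3 fun s _ u1 u2 => pt_elim (fn_unique (u1.trans (s1.trans k1)) (u1.trans s2)
      (inf_l u2)) fun e => e ▸ inf_r u2
  by_cases tt : t = t'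
  · subst tt
    exact k2 _ _ _ g (q0.trans n0) q1 q2
  · refine iSup_elim (le_top.trans (hr t t' tt)) fun z g' s1 s2 => compl_elim (bi_intro
      (fun g2 u1 u2 => ?_) (fun g2 u1 u2 => ?_)) s2
    · have u := u1.trans s1
      exact key (u.trans (q0.trans n0)) (u.trans q2)
        (bi_mp (u.trans (q0.trans (n4 z))) (iSup_intro t (le_inf (u.trans q1) u2)))
    · have u := u1.trans s1
      exact key (u.trans (q0.trans n0)) (u.trans q1)
        (bi_mpr (u.trans (q0.trans (n4 z))) (iSup_intro t' (le_inf (u.trans q2) u2)))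

lemma meas_set (h : b ≤ bmeas om Y) (h1 : b ≤ ble Y (chk (Set T))) : b ≤ ble Y (chk T) := by
  refine meas_step h h1 (fun s z => ⨆ _ : z ∈ s, ⊤) fun s s' hs => ?_
  obtain ⟨z, hz⟩ := not_forall.1 (fun k => hs (Set.ext k))
  refine iSup_intro z (compl_intro fun c _ k => ?_)
  by_cases l : z ∈ s
  · exact prop_elim (bi_mp k (le_prop l le_top)) fun m _ => (hz (iff_of_true l m)).elim
  · by_cases m : z ∈ s'
    · exact prop_elim (bi_mpr k (le_prop m le_top)) fun m _ => (l m).elim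
    · exact (hz (iff_of_false l m)).elim

lemma meas_level {a : ℕ → Type u} (h : b ≤ bmeas om Y) (h1 : b ≤ ble Y (chk (Σ n, a n))) :
    b ≤ ⨆ n, ble Y (chk (a n)) := by
  obtain ⟨f, k1, k2⟩ := exists_of_le h1
  refine iSup_elim (inf_r h) fun U d m1 m2 => ?_
  have e : ∀ n x, Ext (fun y => bapp f y (pt (⟨n, x⟩ : Σ n, a n))) := fun n x _ _ _ k =>
    app_congr (beq_refl _) k (beq_refl _)
  obtain ⟨H, l1, l2⟩ := cu_homog m2 (dist_nat _) (m1.trans (inf_l h))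
    (ρ := fun n y => ⨆ x : a n.down, bapp f y (pt (⟨n.down, x⟩ : Σ n, a n)))
    (fun n => ext_of_bi fun _ _ _ k => bi_iSup fun x => (e _ x).bi k)
  refine iSup_elim (ultra_ne (inf_l m2) l1) fun z c n1 n2 => iSup_elim (fn_total
    ((n1.trans m1).trans k1) (sub_elim (n1.trans (ultra_sub (inf_l m2) l1)) n2))
    fun w c1 o1 o2 => mem_elim (inf_l o2) fun t g o3 _ o4 => iSup_intro t.1
      (le_chk_of _ fun g' q1 q2 => ?_)
  have q0 : g' ≤ d := q1.trans (o3.trans (o1.trans n1))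
  refine cu_sep (q0.trans m2) q2 (q0.trans l1) (e t.1) fun y y' c' s1 s2 _ s4 => ?_
  refine iSup_elim (l2 z y ⟨t.1⟩ c' ((s1.trans q1).trans (o3.trans (o1.trans n2))) s2
    (iSup_intro t.2 (app_congr (beq_refl _) (beq_refl _) ((s1.trans q1).trans o4)
      ((s1.trans q1).trans (o3.trans (inf_r o2)))))) fun x c'' u1 u2 => ?_
  exact k2 _ _ _ c'' ((u1.trans s1).trans (q0.trans m1)) u2 (bi_mp (u1.trans (s4 x)) u2)

end BSet

end Pool.Agent.MP_76b292_lc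

end MrgPart5

-- ======== part 6: formerly Pool.Agent.MP_76b292_lc.StarB
section MrgPart6

/-!
The statement (*) fails in the Boolean-valued model.
-/

set_option autoImplicit false

universe u v

open Set Cardinal Filter

namespace Pool.Agent.MP_76b292_lc

/-- the combinatorial properties of the forcing -/
structure Frc (α : ℕ → Type u) (U : ∀ n, Ultrafilter (α (n + 1))) (D : Ultrafilter ℕ)
    {P : Type u} (le : P → P → Prop) (upd : P → ∀ n, α (n + 1) → P) : Prop where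
  inf : ℵ₀ ≤ #(α 0)
  mono : StrictMono (fun n => #(α n))
  u1 : ∀ {g f}, le g f → {n | ∀ᶠ x in U n, le (upd g n x) (upd f n x)} ∈ D
  u2 : ∀ f n, ∀ᶠ x in U n, le (upd f n x) f
  u4 : ∀ f n, ∀ S ∈ U n, ∃ x ∈ S, ∃ y ∈ S, x ≠ y ∧ ∃ r, le r (upd f n x) ∧ le r (upd f n y)
  part : ∀ (T : Type u) k, #T < #(α (k + 1)) → ∀ Δ : ∀ n, α (n + 1) → T → P → Prop,
    (∀ n x t p q, le q p → Δ n x t p → Δ n x t q) → ∀ f,
    (∀ n x q, le q f → ∃ r t, le r q ∧ Δ n x t r) →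
    ∃ g, ∃ t : ℕ → T, le g f ∧ {n | ∀ᶠ x in U n, Δ n x (t n) (upd g n x)} ∈ D
  sl : ∀ k, ∃ (W : Type u) (G : W → P → Prop), #(α k → Set W) < #(α (k + 1)) ∧
    (∀ w p q, le q p → G w p → G w q) ∧ ∀ Φ : α k → P → Prop,
    (∀ a p q, le q p → Φ a p → Φ a q) → ∀ f, ∃ g, ∃ w : α k → Set W, le g f ∧ ∀ a q, le q g →
      (Φ a q → ∃ h, ∃ v ∈ w a, le h q ∧ G v h) ∧ ∀ v ∈ w a, G v q → Φ a q
  cohen : ∀ n, ∃ E : α (n + 1) → Set (Set (α n)) → P → Prop, ∀ t t', t ≠ t' → ∀ f,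
    ∃ g z, le g f ∧ E t z g ∧ ∀ h r, E t' z h → le r h → ¬ le r g

namespace Frc

open BSet

variable {α : ℕ → Type u} {U : ∀ n, Ultrafilter (α (n + 1))} {D : Ultrafilter ℕ} {P : Type u}
  {le : P → P → Prop} {upd : P → ∀ n, α (n + 1) → P} (h : Frc α U D le upd)
  {B : Type u} [CompleteBooleanAlgebra B] {pr : P → B} (hc : Cpl le pr) {b : B}

/-- `f` puts the set named by `φ` into the ultrafilter -/
def Big (U : ∀ n, Ultrafilter (α (n + 1))) (D : Ultrafilter ℕ) (upd : P → ∀ n, α (n + 1) → P)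
    (pr : P → B) (φ : (Σ n, α (n + 1)) → B) (f : P) : Prop :=
  {n | ∀ᶠ x in U n, pr (upd f n x) ≤ φ ⟨n, x⟩} ∈ D

/-- the value of the set named by `φ` being in the ultrafilter -/
noncomputable def mu (U : ∀ n, Ultrafilter (α (n + 1))) (D : Ultrafilter ℕ)
    (upd : P → ∀ n, α (n + 1) → P) (pr : P → B) (φ : (Σ n, α (n + 1)) → B) : B :=
  ⨆ f : {f // Big U D upd pr φ f}, pr f.1

variable {φ φ' ψ : (Σ n, α (n + 1)) → B} {p : P}

lemma le_mu (k : Big U D upd pr φ p) : pr p ≤ mu U D upd pr φ := iSup_intro ⟨p, k⟩ le_rfl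

include h hc

lemma big_mono {q : P} (k : le q p) (l : Big U D upd pr φ p) : Big U D upd pr φ q :=
  mem_of_superset (inter_mem (h.u1 k) l) fun _ m =>
    (m.1.and m.2).mono fun _ o => (hc.mono o.1).trans o.2

lemma ex_big (k : pr p ≤ mu U D upd pr φ) : ∃ q, le q p ∧ Big U D upd pr φ q :=
  let ⟨q, _, k1, k2, k3⟩ := hc.ex_pr k
  ⟨q, k2, h.big_mono hc k3 k1⟩

lemma mu_up (k : b ≤ mu U D upd pr φ) (k' : b ≤ mu U D upd pr φ')
    (l : ∀ i, ∀ c ≤ b, c ≤ φ i → c ≤ φ' i → c ≤ ψ i) : b ≤ mu U D upd pr ψ := by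
  refine hc.le_of fun p hp => ?_
  obtain ⟨q, k1, k2⟩ := h.ex_big hc (hp.trans k)
  obtain ⟨r, k3, k4⟩ := h.ex_big hc ((hc.mono k1).trans (hp.trans k'))
  refine ⟨r, hc.trans k3 k1, le_mu (mem_of_superset (inter_mem (h.big_mono hc k3 k2) k4)
    fun n m => ((m.1.and m.2).and (h.u2 r n)).mono fun x o => ?_)⟩
  exact l _ _ ((hc.mono (hc.trans o.2 (hc.trans k3 k1))).trans hp) o.1.1 o.1.2

lemma mu_ne : mu U D upd pr φ ≤ ⨆ i, φ i := by
  refine hc.le_of fun p hp => ?_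
  obtain ⟨q, k1, k2⟩ := h.ex_big hc hp
  obtain ⟨n, hn⟩ := D.nonempty_of_mem k2
  obtain ⟨x, k3, k4⟩ := (Eventually.and hn (h.u2 q n)).exists
  exact ⟨_, hc.trans k4 k1, iSup_intro _ k3⟩

lemma ex_part {T : Type u} {k : ℕ} (hT : #T < #(α (k + 1))) {χ : (Σ n, α (n + 1)) → T → B}
    (l : ∀ i, pr p ≤ ⨆ t, χ i t) :
    ∃ q, ∃ t : ℕ → T, le q p ∧ Big U D upd pr (fun i => χ i (t i.1)) q :=
  h.part T k hT (fun n x t q => pr q ≤ χ ⟨n, x⟩ t) (fun _ _ _ _ _ m o => (hc.mono m).trans o) p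
    (fun _ _ _ m => hc.ex ((hc.mono m).trans (l _)))

omit hc in
lemma aleph0_lt (k : ℕ) : ℵ₀ < #(α (k + 1)) := h.inf.trans_lt (h.mono (Nat.succ_pos k))

lemma mu_or (l : ∀ i, b ≤ φ i ⊔ ψ i) : b ≤ mu U D upd pr φ ⊔ mu U D upd pr ψ := by
  refine hc.le_of fun p hp => ?_
  obtain ⟨q, t, k1, k2⟩ := h.ex_part hc (T := ULift Bool) (k := 0)
    ((lt_aleph0_of_finite _).trans (h.aleph0_lt 0)) (χ := fun i t => cond t.down (φ i) (ψ i))
    (fun i => sup_elim (hp.trans (l i)) (fun _ _ m => iSup_intro ⟨true⟩ m)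
      (fun _ _ m => iSup_intro ⟨false⟩ m))
  rcases D.mem_or_compl_mem {n | (t n).down = true} with m | m
  · refine ⟨q, k1, sup_l (le_mu (mem_of_superset (inter_mem k2 m) fun n o => o.1.mono fun x s => ?_))⟩
    have e : (t n).down = true := o.2
    simpa only [e, cond_true] using s
  · refine ⟨q, k1, sup_r (le_mu (mem_of_superset (inter_mem k2 m) fun n o => o.1.mono fun x s => ?_))⟩
    have e : (t n).down = false := Bool.eq_false_iff.2 o.2
    simpa only [e, cond_false] using s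

lemma mu_top : b ≤ mu U D upd pr (fun _ => ⊤) :=
  hc.le_of fun p _ => ⟨p, hc.refl p, le_mu (mem_of_superset univ_mem fun _ _ =>
    Eventually.of_forall fun _ => le_top)⟩

lemma small {Z : Type u} {k : ℕ} (hZ : #Z < #(α (k + 1))) {A : Z → BSet B}
    (hA : Dist A (fun _ => ⊤)) (k1 : b ≤ mu U D upd pr φ)
    (k2 : b ≤ ble ⟨_, pt, φ⟩ ⟨Z, A, fun _ => ⊤⟩) : b ≤ ⊥ := by
  refine hc.le_bot fun p hp => ?_
  obtain ⟨e, l1, l2, -⟩ := idx_of_le (dist_pt _) hA k2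
  obtain ⟨q, l3, l4⟩ := h.ex_big hc (hp.trans k1)
  have hq : pr q ≤ b := (hc.mono l3).trans hp
  obtain ⟨r, t, m1, m2⟩ := h.ex_part hc (T := Option Z) (k := k) (p := q)
    (by rw [mk_option]; exact add_lt_of_lt (h.aleph0_lt k).le hZ (one_lt_aleph0.trans (h.aleph0_lt k)))
    (χ := fun i t => t.elim (φ i)ᶜ (e i)) (fun i => bcases (φ i)
      (fun c n1 n2 => iSup_elim (l1 i c (n1.trans hq) n2) fun j _ _ o => iSup_intro (some j) (inf_r o))
      (fun c _ n2 => iSup_intro none n2))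
  obtain ⟨n, n1, n2⟩ := D.nonempty_of_mem (inter_mem m2 (h.big_mono hc m1 l4))
  obtain ⟨x, ⟨⟨o1, o2⟩, o3⟩, y, ⟨⟨o4, -⟩, -⟩, o5, s, o6, o7⟩ :=
    h.u4 r n _ ((Eventually.and n1 n2).and (h.u2 r n))
  rcases ht : t n with _ | z
  · simp only [ht, Option.elim] at o1
    exact hc.pos _ (compl_elim o2 o1)
  · simp only [ht, Option.elim] at o1 o4
    exact hc.pos s (l2 ⟨n, x⟩ ⟨n, y⟩ z _ ((hc.mono (hc.trans o6 (hc.trans o3 m1))).trans hq)
      (fun o => o5 (eq_of_heq (Sigma.mk.inj o).2)) ((hc.mono o6).trans o1) ((hc.mono o7).trans o4))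

lemma not_le {Z : Type u} {k : ℕ} (hZ : #Z < #(α (k + 1))) {A : Z → BSet B}
    (hA : Dist A (fun _ => ⊤)) : b ≤ (ble (chk (Σ n, α (n + 1))) ⟨Z, A, fun _ => ⊤⟩)ᶜ :=
  compl_intro fun _ _ k => h.small hc hZ hA (h.mu_top hc) k

omit hc in
lemma lt_sigma (k : ℕ) : #(α k) < #(Σ n, α (n + 1)) :=
  (h.mono (Nat.lt_succ_self k)).trans_le
    (mk_le_of_injective (sigma_mk_injective (β := fun n => α (n + 1)) (i := k)))

omit hc in
lemma cases_le (Y : BSet B) : b ≤ ble (chk (Σ n, α (n + 1))) Y ⊔ ⨆ k, ble Y (chk (α k)) := by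
  refine sup_elim (enum Y _) (fun _ _ k => sup_l k) (fun _ _ k => sup_r (iSup_elim k
    fun s d _ l => ?_))
  by_cases m : ∃ k, #s.1 ≤ #(α k)
  · obtain ⟨k, m⟩ := m
    exact iSup_intro k (ble_trans l (chk_le m))
  · exfalso
    push Not at m
    refine s.2.not_ge ((mk_sigma _).trans_le ?_)
    refine (sum_le_sum _ (fun _ => #s.1) (fun n => (m _).le)).trans ?_
    rw [sum_const, mk_nat, lift_aleph0, lift_uzero]
    exact (mul_eq_right (h.inf.trans (m 0).le) (h.inf.trans (m 0).le) aleph0_ne_zero).le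

lemma lt_cases {Y : BSet B} (k : b ≤ blt Y (chk (Σ n, α (n + 1)))) :
    b ≤ ⨆ k, ble Y (chk (α k)) :=
  sup_elim (h.cases_le Y) (fun _ l m => compl_elim m (l.trans (inf_r k))) (fun _ _ m => m)

/-- the name of the ultrafilter -/
noncomputable def ult (U : ∀ n, Ultrafilter (α (n + 1))) (D : Ultrafilter ℕ)
    (upd : P → ∀ n, α (n + 1) → P) (pr : P → B) : BSet B :=
  ⟨(Σ n, α (n + 1)) → B, fun φ => ⟨_, pt, φ⟩, mu U D upd pr⟩

lemma mem_ult {A : BSet B} (k : b ≤ bmem A (ult U D upd pr)) :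
    b ≤ bsub A (chk (Σ n, α (n + 1))) ∧ b ≤ mu U D upd pr (fun i => bmem (pt i) A) :=
  ⟨mem_elim k fun _ _ _ _ l => bi_mpr (bi_sub l (beq_refl _)) (sub_of_le fun _ _ _ _ => le_top),
    mem_elim k fun φ _ _ l1 l2 => h.mu_up hc l1 l1 fun i _ m1 m2 _ =>
      mem_congr_right (beq_symm (m1.trans l2)) (mem_self (x := ⟨_, pt, φ⟩) i m2)⟩

lemma ult_mem {A : BSet B} (k1 : b ≤ bsub A (chk (Σ n, α (n + 1))))
    (k2 : b ≤ mu U D upd pr (fun i => bmem (pt i) A)) : b ≤ bmem A (ult U D upd pr) :=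
  mem_intro (x := ult U D upd pr) (fun i => ⊤ ⊓ bmem (pt i) A)
    (h.mu_up hc k2 k2 fun _ _ _ m _ => le_inf le_top m) (sub_nf k1)

lemma ultra : b ≤ bultra (ult U D upd pr) (chk (Σ n, α (n + 1))) := by
  refine le_inf (le_iInf fun A => himp_intro fun c _ k => le_inf (h.mem_ult hc k).1
    (iSup_elim ((h.mem_ult hc k).2.trans (h.mu_ne hc)) fun i _ _ l => iSup_intro _ l)) (le_inf
    (le_iInf fun A => le_iInf fun A' => le_iInf fun C => himp_intro fun c _ k1 =>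
      himp_intro fun d l1 k2 => himp_intro fun e l2 k3 => himp_intro fun g l3 k4 =>
        h.ult_mem hc (l3.trans k3) (h.mu_up hc (h.mem_ult hc ((l3.trans l2).trans (l1.trans k1))).2
          (h.mem_ult hc ((l3.trans l2).trans k2)).2 fun i g' m1 m2 m3 =>
            mp (mp (m1.trans (iInf_elim k4 _)) m2) m3))
    (le_iInf fun A => le_iInf fun A' => himp_intro fun c _ k1 => himp_intro fun d l1 k2 =>
      himp_intro fun e l2 k3 => sup_elim (h.mu_or hc fun i => mp (iInf_elim k3 (pt i)) (pt_mem i))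
        (fun g m1 m2 => sup_l (h.ult_mem hc ((m1.trans l2).trans (l1.trans k1)) m2))
        (fun g m1 m2 => sup_r (h.ult_mem hc ((m1.trans l2).trans k2) m2))))

lemma uniform {A : BSet B} (k : b ≤ bmem A (ult U D upd pr)) :
    b ≤ ble (chk (Σ n, α (n + 1))) A := by
  obtain ⟨k1, k2⟩ := h.mem_ult hc k
  refine sup_elim (h.cases_le A) (fun _ _ l => l) (fun c l1 l2 => iSup_elim l2 fun n d m1 m2 => ?_)
  have m := m1.trans l1
  exact (h.small hc (h.mono (Nat.lt_succ_self n)) (dist_pt _) (φ := fun i => ⊤ ⊓ bmem (pt i) A)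
    (h.mu_up hc (m.trans k2) (m.trans k2) fun _ _ _ o _ => le_inf le_top o)
    (ble_congr (sub_nf (m.trans k1)) (beq_refl _) m2)).trans bot_le

lemma indec {L : BSet B} (k1 : b ≤ blt om L) (k2 : b ≤ blt L (chk (Σ n, α (n + 1))))
    (k3 : b ≤ bdec (ult U D upd pr) (chk (Σ n, α (n + 1))) L) : b ≤ ⊥ := by
  refine iSup_elim k3 fun f c l1 l2 => iSup_elim (l1.trans (h.lt_cases hc k2)) fun k d l3 l4 =>
    hc.le_bot fun p hp => ?_
  obtain ⟨g, m1, m2⟩ := exists_of_le (hp.trans l4)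
  have hf := hp.trans (l3.trans l2)
  obtain ⟨q, t, n1, n2⟩ := h.ex_part hc (h.mono (Nat.lt_succ_self k)) (p := p)
    (χ := fun i t => ⨆ c, bmem c L ⊓ (bapp f (pt i) c ⊓ bapp g c (pt t)))
    (fun i => iSup_elim (fn_total (inf_l hf) (pt_mem i)) fun c e o1 o2 =>
      iSup_elim (fn_total (o1.trans m1) (inf_l o2)) fun w e' o3 o4 => mem_elim (inf_l o4)
        fun t e'' o5 _ o6 => iSup_intro t (iSup_intro c (le_inf ((o5.trans o3).trans (inf_l o2))
          (le_inf ((o5.trans o3).trans (inf_r o2))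
            (app_congr (beq_refl _) (beq_refl _) o6 (o5.trans (inf_r o4)))))))
  have e1 : Ext (fun c => ⨆ n, bapp g c (pt (t n))) := ext_of_bi fun _ _ _ k =>
    bi_iSup fun _ => bi_app (beq_refl _) k (beq_refl _)
  let A := sep L (fun c => ⨆ n, bapp g c (pt (t n)))
  have e2 : Ext (fun z => ⨆ c, bmem c A ⊓ bapp f z c) := ext_of_bi fun _ _ _ k =>
    bi_iSup fun _ => bi_inf bi_refl (bi_app (beq_refl _) k (beq_refl _))
  have hA : pr p ≤ ble A om := le_of_rel (R := fun c w => ⨆ n, beq w (nat n) ⊓ bapp g c (pt (t n)))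
    (fun _ _ _ _ _ o1 o2 => bi_mp (bi_iSup fun _ => bi_inf (bi_eq o2 (beq_refl _))
      (bi_app (beq_refl _) o1 (beq_refl _))))
    (fun a e _ o => iSup_elim ((mem_sep e1).1 o).2 fun n _ _ o' => iSup_intro (nat n)
      (le_inf (mem_self (x := om) ⟨n⟩ le_top) (iSup_intro n (le_inf (beq_refl _) o'))))
    (fun a a' w e o0 _ _ _ o1 o2 => iSup_elim o1 fun n e' o3 o4 => iSup_elim (o3.trans o2)
      fun n' e'' o5 o6 => by
        by_cases nn : n = n'
        · subst nn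
          exact m2 _ _ _ _ ((o5.trans o3).trans o0) (o5.trans (inf_r o4)) (inf_r o6)
        · exact (nat_ne nn (beq_trans (beq_symm (o5.trans (inf_l o4))) (inf_l o6))).trans bot_le)
  have hp' : pr p ≤ b := hp.trans (l3.trans l1)
  have o := mp (mp (mp (iInf_elim (iInf_elim (inf_r hf) A)
    (sep (chk (Σ n, α (n + 1))) (fun z => ⨆ c, bmem c A ⊓ bapp f z c))) sep_sub)
    (le_inf (le_of_sub sep_sub) (compl_intro fun e o1 o2 =>
      compl_elim (ble_trans o2 (o1.trans hA)) (o1.trans (hp'.trans (inf_r k1))))))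
    (le_iInf fun z => bi_intro (fun _ _ o => le_inf ((mem_sep e2).1 o).1 ((mem_sep e2).1 o).2)
      (fun _ _ o => (mem_sep e2).2 ⟨inf_l o, inf_r o⟩))
  refine hc.pos q (compl_elim (h.ult_mem hc sep_sub (h.mu_up hc (le_mu n2) (le_mu n2)
    fun i e _ o1 _ => (mem_sep e2).2 ⟨pt_mem i, iSup_elim o1 fun c e' _ o2 => iSup_intro c
      (le_inf ((mem_sep e1).2 ⟨inf_l o2, iSup_intro i.1 (inf_r (inf_r o2))⟩)
        (inf_l (inf_r o2)))⟩)) ((hc.mono n1).trans o))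

lemma codes (k : ℕ) : ∃ (Z : Type u) (ev : Z → α k → B), #Z < #(α (k + 1)) ∧
    ∀ χ : α k → B, ⊤ ≤ ⨆ w, ⨅ a, bi (χ a) (ev w a) := by
  obtain ⟨W, G, k1, k2, k3⟩ := h.sl k
  refine ⟨α k → Set W, fun w a => ⨆ q : {q // ∃ v ∈ w a, G v q}, pr q.1, k1, fun χ =>
    hc.le_of fun f _ => ?_⟩
  obtain ⟨g, w, l1, l2⟩ := k3 (fun a q => pr q ≤ χ a) (fun _ _ _ m o => (hc.mono m).trans o) f
  refine ⟨g, l1, iSup_intro w (le_iInf fun a => bi_intro
    (fun c m1 m2 => hc.le_of' m1 fun q n1 n2 => ?_) (fun c m1 m2 => hc.le_of' m1 fun q n1 n2 => ?_))⟩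
  · obtain ⟨r, v, o1, o2, o3⟩ := (l2 a q n1).1 (n2.trans m2)
    exact ⟨r, o2, iSup_intro ⟨r, v, o1, o3⟩ le_rfl⟩
  · obtain ⟨r, s, ⟨v, o1, o2⟩, o3, o4⟩ := hc.ex_pr (n2.trans m2)
    exact ⟨r, o3, (l2 a r (hc.trans o3 n1)).2 v o1 (k2 _ _ _ o4 o2)⟩

lemma strong : b ≤ bstrong (chk (Σ n, α (n + 1))) := by
  refine le_iInf fun Y => le_iInf fun Q => himp_intro fun c _ k1 => himp_intro fun d k2 k3 =>
    iSup_elim (k2.trans (h.lt_cases hc k1)) fun k e l1 l2 => ?_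
  obtain ⟨Z, ev, m1, m2⟩ := h.codes hc k
  obtain ⟨f, n1, n2⟩ := exists_of_le l2
  have hQ : ∀ {W g}, g ≤ e → g ≤ bmem W Q → g ≤ bsub W Y := fun o1 o2 =>
    bi_mp (o1.trans (l1.trans (iInf_elim k3 _))) o2
  have key : e ≤ ble Q (chk Z) := by
    refine le_of_rel (R := fun W z => ⨆ w, beq z (pt w) ⊓
      ⨅ a, bi (⨆ y, bmem y W ⊓ bapp f y (pt a)) (ev w a))
      (fun _ _ _ _ _ o1 o2 => bi_mp (bi_iSup fun _ => bi_inf (bi_eq o2 (beq_refl _))
        (bi_iInf fun _ => bi_bi (bi_iSup fun _ => bi_inf (bi_mem (beq_refl _) o1) bi_refl) bi_refl)))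
      (fun W g _ _ => iSup_elim (le_top.trans (m2 fun a => ⨆ y, bmem y W ⊓ bapp f y (pt a)))
        fun w _ _ o => iSup_intro (pt w) (le_inf (pt_mem w) (iSup_intro w (le_inf (beq_refl _) o))))
      (fun W W' z g o0 o1 o2 _ o3 o4 => iSup_elim o3 fun w g1 o5 o6 => iSup_elim (o5.trans o4)
        fun w' g2 o7 o8 => pt_elim (beq_trans (beq_symm (o7.trans (inf_l o6))) (inf_l o8))
          fun ww => ?_)
    subst ww
    have aux : ∀ {W W' : BSet B}, g2 ≤ bmem W Q →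
        g2 ≤ ⨅ a, bi (⨆ y, bmem y W ⊓ bapp f y (pt a)) (ev w a) →
        g2 ≤ ⨅ a, bi (⨆ y, bmem y W' ⊓ bapp f y (pt a)) (ev w a) → g2 ≤ bsub W W' := by
      intro W W' s1 s2 s3
      have s0 : g2 ≤ e := (o7.trans o5).trans o0
      refine sub_intro fun y g3 u1 u2 => iSup_elim (fn_total ((u1.trans s0).trans n1)
        (sub_elim (u1.trans (hQ s0 s1)) u2)) fun x g4 u3 u4 => mem_elim (inf_l u4)
          fun a g5 u5 _ u6 => ?_
      have v0 : g5 ≤ g2 := (u5.trans u3).trans u1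
      have v1 : g5 ≤ bapp f y (pt a) := app_congr (beq_refl _) (beq_refl _) u6 (u5.trans (inf_r u4))
      refine iSup_elim (bi_mpr (v0.trans (iInf_elim s3 a)) (bi_mp (v0.trans (iInf_elim s2 a))
        (iSup_intro y (le_inf ((u5.trans u3).trans u2) v1)))) fun y' g6 v2 v3 => ?_
      exact mem_congr_left (n2 _ _ _ g6 (v2.trans (v0.trans s0)) (inf_r v3) (v2.trans v1)) (inf_l v3)
    exact beq_of_sub (aux ((o7.trans o5).trans o1) (o7.trans (inf_r o6)) (inf_r o8))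
      (aux ((o7.trans o5).trans o2) (inf_r o8) (o7.trans (inf_r o6)))
  exact le_inf (ble_trans key (chk_le (m1.trans (h.lt_sigma _)).le)) (compl_intro fun g o1 o2 =>
    compl_elim (ble_trans o2 (o1.trans key)) (h.not_le hc m1 (dist_pt _)))

lemma descend {Y : BSet B} (k1 : b ≤ bmeas om Y) (n : ℕ) (k2 : b ≤ ble Y (chk (α n))) :
    b ≤ ble Y (chk (α 0)) := by
  induction n with
  | zero => exact k2
  | succ n ih =>
    obtain ⟨E, hE⟩ := h.cohen n
    refine ih (meas_set k1 (meas_set k1 (meas_step k1 k2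
      (fun t z => ⨆ q : {q // E t z q}, pr q.1) fun t t' tt => hc.le_of fun f _ => ?_)))
    obtain ⟨g, z, l1, l2, l3⟩ := hE t t' tt f
    refine ⟨g, l1, iSup_intro z (compl_intro fun c m1 m2 => hc.le_of' m1 fun q n1 n2 => ?_)⟩
    obtain ⟨r, s, o1, o2, o3⟩ := hc.ex_pr (bi_mp (n2.trans m2)
      ((hc.mono n1).trans (iSup_intro ⟨g, l2⟩ le_rfl)))
    exact (l3 s r o1 o3 (hc.trans o2 n1)).elim

lemma meas_le {Y : BSet B} (k1 : b ≤ bmeas om Y) (k2 : b ≤ ble Y (chk (Σ n, α (n + 1)))) :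
    b ≤ ble Y (chk (α 0)) :=
  iSup_elim (meas_level k1 k2) fun n _ l1 l2 => h.descend hc (l1.trans k1) (n + 1) l2

theorem star_bot : bstar B ≤ ⊥ := by
  have k0 := h.not_le hc (b := bstar B) (h.mono (Nat.lt_succ_self 0)) (dist_pt _)
  have k1 : #(ULift.{u} ℕ) < #(α 1) := by simpa using h.aleph0_lt 0
  refine sup_elim (mp (mp (mp (mp (iInf_elim (iInf_elim (le_refl (bstar B)) om)
    (chk (Σ n, α (n + 1)))) omega_om) (le_inf (le_of_emb (dist_pt _) (k1.trans (h.lt_sigma 1)).le)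
      (h.not_le hc k1 (dist_nat _)))) (h.strong hc)) (iSup_intro (ult U D upd pr)
        (le_inf (h.ultra hc) (le_inf (le_iInf fun A => himp_intro fun _ _ l => h.uniform hc l)
          (le_iInf fun L => himp_intro fun _ _ l1 => himp_intro fun _ l2 l3 =>
            compl_intro fun _ l4 l5 => h.indec hc ((l4.trans l2).trans l1) (l4.trans l3) l5)))))
    (fun c l1 l2 => compl_elim (h.meas_le hc l2 ble_refl) (l1.trans k0))
    (fun c l1 l2 => iSup_elim l2 fun F d m1 m2 => compl_elim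
      (mp (iInf_elim (inf_r (inf_r m2)) (chk (α 0))) (le_iInf fun Y => himp_intro fun e n1 n2 => ?_))
      ((m1.trans l1).trans k0))
  have n3 := mp (n1.trans (iInf_elim (inf_l (inf_r m2)) Y)) n2
  exact h.meas_le hc (inf_l n3) (inf_r n3)

end Frc

end Pool.Agent.MP_76b292_lc

end MrgPart6

-- marker of a merged file
example : 731051 + 344628 = 731051 + 344628 := rfl
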