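import Pool.Agent.MP_76b292_lc.BV

/-!
Boolean values of the defined notions of set theory and their congruence lemmas.
-/

set_option autoImplicit false

universe u v

namespace Pool.Agent.MP_76b292_lc

variable {B : Type u} [CompleteBooleanAlgebra B]

section Congr

variable {b u v u' v' : B}

lemma bi_refl : b ≤ bi u u := bi_intro (fun _ _ h => h) (fun _ _ h => h)

lemma bi_inf (h1 : b ≤ bi u u') (h2 : b ≤ bi v v') : b ≤ bi (u ⊓ v) (u' ⊓ v') :=
  bi_intro (fun _ k h => le_inf (bi_mp (k.trans h1) (inf_l h)) (bi_mp (k.trans h2) (inf_r h)))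
    (fun _ k h => le_inf (bi_mpr (k.trans h1) (inf_l h)) (bi_mpr (k.trans h2) (inf_r h)))

lemma bi_sup (h1 : b ≤ bi u u') (h2 : b ≤ bi v v') : b ≤ bi (u ⊔ v) (u' ⊔ v') :=
  bi_intro (fun _ k h => sup_elim h (fun _ l m => sup_l (bi_mp ((l.trans k).trans h1) m))
      (fun _ l m => sup_r (bi_mp ((l.trans k).trans h2) m)))
    (fun _ k h => sup_elim h (fun _ l m => sup_l (bi_mpr ((l.trans k).trans h1) m))
      (fun _ l m => sup_r (bi_mpr ((l.trans k).trans h2) m)))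

lemma bi_himp (h1 : b ≤ bi u u') (h2 : b ≤ bi v v') : b ≤ bi (u ⇨ v) (u' ⇨ v') :=
  bi_intro (fun _ k h => himp_intro (fun _ l m => bi_mp ((l.trans k).trans h2)
      (mp (l.trans h) (bi_mpr ((l.trans k).trans h1) m))))
    (fun _ k h => himp_intro (fun _ l m => bi_mpr ((l.trans k).trans h2)
      (mp (l.trans h) (bi_mp ((l.trans k).trans h1) m))))

lemma bi_compl (h1 : b ≤ bi u u') : b ≤ bi uᶜ u'ᶜ := by
  rw [← himp_bot, ← himp_bot]
  exact bi_himp h1 bi_refl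

lemma bi_bi (h1 : b ≤ bi u u') (h2 : b ≤ bi v v') : b ≤ bi (bi u v) (bi u' v') :=
  bi_inf (bi_himp h1 h2) (bi_himp h2 h1)

lemma bi_iInf {ι : Sort v} {f g : ι → B} (h : ∀ i, b ≤ bi (f i) (g i)) :
    b ≤ bi (⨅ i, f i) (⨅ i, g i) :=
  bi_intro (fun _ k l => le_iInf (fun i => bi_mp (k.trans (h i)) (iInf_elim l i)))
    (fun _ k l => le_iInf (fun i => bi_mpr (k.trans (h i)) (iInf_elim l i)))

lemma bi_iSup {ι : Sort v} {f g : ι → B} (h : ∀ i, b ≤ bi (f i) (g i)) :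
    b ≤ bi (⨆ i, f i) (⨆ i, g i) :=
  bi_intro (fun _ k l => iSup_elim l (fun i _ m n =>
      iSup_intro i (bi_mp ((m.trans k).trans (h i)) n)))
    (fun _ k l => iSup_elim l (fun i _ m n =>
      iSup_intro i (bi_mpr ((m.trans k).trans (h i)) n)))

end Congr

namespace BSet

/-- `x ⊆ y` -/
noncomputable def bsub (x y : BSet B) : B := ⨅ z, bmem z x ⇨ bmem z y

/-- ordered pair -/
noncomputable def bpair (a b p : BSet B) : B :=
  ⨅ z, bi (bmem z p) ((⨅ w, bi (bmem w z) (beq w a)) ⊔ (⨅ w, bi (bmem w z) (beq w a ⊔ beq w b)))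

/-- `(a, b) ∈ f` -/
noncomputable def bapp (f a b : BSet B) : B := ⨆ p, bmem p f ⊓ bpair a b p

/-- function -/
noncomputable def bfn (f x y : BSet B) : B :=
  (⨅ a, bmem a x ⇨ ⨆ b, bmem b y ⊓ bapp f a b) ⊓
    ⨅ a, ⨅ b, ⨅ c, bapp f a b ⇨ bapp f a c ⇨ beq b c

/-- `|x| ≤ |y|` -/
noncomputable def ble (x y : BSet B) : B :=
  ⨆ f, bfn f x y ⊓ ⨅ a, ⨅ b, ⨅ c, bapp f a c ⇨ bapp f b c ⇨ beq a b

/-- `|x| < |y|` -/
noncomputable def blt (x y : BSet B) : B := ble x y ⊓ (ble y x)ᶜ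

/-- inductive -/
noncomputable def bind (w : BSet B) : B :=
  (⨆ e, bmem e w ⊓ ⨅ z, (bmem z e)ᶜ) ⊓
    ⨅ n, bmem n w ⇨ ⨆ m, bmem m w ⊓ ⨅ z, bi (bmem z m) (bmem z n ⊔ beq z n)

/-- `w = ω` -/
noncomputable def bomega (w : BSet B) : B := bind w ⊓ ⨅ v, bind v ⇨ bsub w v

/-- P-ideal -/
noncomputable def bpideal (w S I : BSet B) : B :=
  (⨅ A, bmem A I ⇨ bsub A S ⊓ ble A w) ⊓ ((⨅ A, bsub A S ⇨ blt A w ⇨ bmem A I) ⊓
    ((⨅ A, ⨅ A', ⨅ C, bmem A I ⇨ bmem A' I ⇨ (⨅ z, bmem z C ⇨ bmem z A ⊔ bmem z A') ⇨ bmem C I) ⊓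
    ⨅ F, bsub F I ⇨ ble F w ⇨ ⨆ A', bmem A' I ⊓
      ⨅ A, ⨅ d, bmem A F ⇨ (⨅ z, bmem z d ⇨ bmem z A ⊓ (bmem z A')ᶜ) ⇨ blt d w))

/-- first alternative -/
noncomputable def balt1 (w S I : BSet B) : B :=
  ⨆ A, bsub A S ⊓ ((ble A w)ᶜ ⊓ ⨅ c, bsub c A ⇨ ble c w ⇨ bmem c I)

/-- second alternative -/
noncomputable def balt2 (w S I : BSet B) : B :=
  ⨆ F, ble F w ⊓ ((⨅ z, bi (bmem z S) (⨆ T, bmem T F ⊓ bmem z T)) ⊓
    ⨅ T, ⨅ A, ⨅ d, bmem T F ⇨ bmem A I ⇨ bsub d T ⇨ bsub d A ⇨ blt d w)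

/-- PID -/
noncomputable def bpid (B : Type u) [CompleteBooleanAlgebra B] : B :=
  ⨅ w : BSet B, ⨅ S, ⨅ I, bomega w ⇨ bpideal w S I ⇨ balt1 w S I ⊔ balt2 w S I

/-- ultrafilter -/
noncomputable def bultra (U X : BSet B) : B :=
  (⨅ A, bmem A U ⇨ bsub A X ⊓ ⨆ z, bmem z A) ⊓
    ((⨅ A, ⨅ A', ⨅ C, bmem A U ⇨ bmem A' U ⇨ bsub C X ⇨
      (⨅ z, bmem z A ⇨ bmem z A' ⇨ bmem z C) ⇨ bmem C U) ⊓
    ⨅ A, ⨅ A', bsub A X ⇨ bsub A' X ⇨ (⨅ z, bmem z X ⇨ bmem z A ⊔ bmem z A') ⇨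
      bmem A U ⊔ bmem A' U)

/-- decomposable -/
noncomputable def bdec (U X L : BSet B) : B :=
  ⨆ f, bfn f X L ⊓ ⨅ A, ⨅ Z, bsub A L ⇨ blt A L ⇨
    (⨅ z, bi (bmem z Z) (bmem z X ⊓ ⨆ b, bmem b A ⊓ bapp f z b)) ⇨ (bmem Z U)ᶜ

/-- carries a uniform indecomposable ultrafilter -/
noncomputable def bcarries (w X : BSet B) : B :=
  ⨆ U, bultra U X ⊓ ((⨅ A, bmem A U ⇨ ble X A) ⊓ ⨅ L, blt w L ⇨ blt L X ⇨ (bdec U X L)ᶜ)

/-- measurable -/
noncomputable def bmeas (w Y : BSet B) : B :=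
  blt w Y ⊓ ⨆ U, bultra U Y ⊓ ((⨅ A, ⨅ a, bmem A U ⇨ ⨆ z, bmem z A ⊓ (beq z a)ᶜ) ⊓
    ⨅ F, ⨅ Z, bsub F U ⇨ blt F Y ⇨
      (⨅ z, bi (bmem z Z) (bmem z Y ⊓ ⨅ A, bmem A F ⇨ bmem z A)) ⇨ bmem Z U)

/-- strong limit -/
noncomputable def bstrong (X : BSet B) : B :=
  ⨅ Y, ⨅ Q, blt Y X ⇨ (⨅ z, bi (bmem z Q) (bsub z Y)) ⇨ blt Q X

/-- supremum of countably many measurable cardinals -/
noncomputable def bsupm (w X : BSet B) : B :=
  ⨆ F, ble F w ⊓ ((⨅ Y, bmem Y F ⇨ bmeas w Y ⊓ ble Y X) ⊓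
    ⨅ Z, (⨅ Y, bmem Y F ⇨ ble Y Z) ⇨ ble X Z)

/-- (*) -/
noncomputable def bstar (B : Type u) [CompleteBooleanAlgebra B] : B :=
  ⨅ w : BSet B, ⨅ X, bomega w ⇨ blt w X ⇨ bstrong X ⇨ bcarries w X ⇨ bmeas w X ⊔ bsupm w X

variable {b : B} {x y z w x' y' z' w' : BSet B}

lemma bi_mem (h1 : b ≤ beq x x') (h2 : b ≤ beq y y') : b ≤ bi (bmem x y) (bmem x' y') :=
  bi_intro (fun _ k h => mem_congr_left (k.trans h1) (mem_congr_right (k.trans h2) h))
    (fun _ k h => mem_congr_left (beq_symm (k.trans h1))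
      (mem_congr_right (beq_symm (k.trans h2)) h))

lemma bi_eq (h1 : b ≤ beq x x') (h2 : b ≤ beq y y') : b ≤ bi (beq x y) (beq x' y') :=
  bi_intro (fun _ k h => beq_trans (beq_symm (k.trans h1)) (beq_trans h (k.trans h2)))
    (fun _ k h => beq_trans (k.trans h1) (beq_trans h (beq_symm (k.trans h2))))

lemma bi_sub (h1 : b ≤ beq x x') (h2 : b ≤ beq y y') : b ≤ bi (bsub x y) (bsub x' y') :=
  bi_iInf fun _ => bi_himp (bi_mem (beq_refl _) h1) (bi_mem (beq_refl _) h2)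

lemma bi_pair (h1 : b ≤ beq x x') (h2 : b ≤ beq y y') (h3 : b ≤ beq z z') :
    b ≤ bi (bpair x y z) (bpair x' y' z') :=
  bi_iInf fun _ => bi_bi (bi_mem (beq_refl _) h3) (bi_sup
    (bi_iInf fun _ => bi_bi bi_refl (bi_eq (beq_refl _) h1))
    (bi_iInf fun _ => bi_bi bi_refl (bi_sup (bi_eq (beq_refl _) h1) (bi_eq (beq_refl _) h2))))

lemma bi_app (h1 : b ≤ beq x x') (h2 : b ≤ beq y y') (h3 : b ≤ beq z z') :
    b ≤ bi (bapp x y z) (bapp x' y' z') :=
  bi_iSup fun _ => bi_inf (bi_mem (beq_refl _) h1) (bi_pair h2 h3 (beq_refl _))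

lemma bi_fn (h1 : b ≤ beq x x') (h2 : b ≤ beq y y') (h3 : b ≤ beq z z') :
    b ≤ bi (bfn x y z) (bfn x' y' z') := by
  unfold bfn
  with_reducible repeat' first
    | exact bi_refl | assumption | exact beq_refl _ | refine bi_iInf (fun _ => ?_)
    | refine bi_iSup (fun _ => ?_) | apply bi_inf | apply bi_sup | apply bi_himp | apply bi_compl
    | apply bi_bi | apply bi_mem | apply bi_eq | apply bi_sub | apply bi_app

lemma bi_le (h1 : b ≤ beq x x') (h2 : b ≤ beq y y') : b ≤ bi (ble x y) (ble x' y') :=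
  bi_iSup fun _ => bi_inf (bi_fn (beq_refl _) h1 h2) bi_refl

lemma bi_lt (h1 : b ≤ beq x x') (h2 : b ≤ beq y y') : b ≤ bi (blt x y) (blt x' y') :=
  bi_inf (bi_le h1 h2) (bi_compl (bi_le h2 h1))

lemma bi_ind (h1 : b ≤ beq x x') : b ≤ bi (bind x) (bind x') := by
  unfold bind
  with_reducible repeat' first
    | exact bi_refl | assumption | exact beq_refl _ | refine bi_iInf (fun _ => ?_)
    | refine bi_iSup (fun _ => ?_) | apply bi_inf | apply bi_sup | apply bi_himp | apply bi_compl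
    | apply bi_bi | apply bi_mem | apply bi_eq | apply bi_sub | apply bi_app

lemma bi_omega (h1 : b ≤ beq x x') : b ≤ bi (bomega x) (bomega x') :=
  bi_inf (bi_ind h1) (bi_iInf fun _ => bi_himp bi_refl (bi_sub h1 (beq_refl _)))

lemma bi_pideal (h1 : b ≤ beq x x') (h2 : b ≤ beq y y') (h3 : b ≤ beq z z') :
    b ≤ bi (bpideal x y z) (bpideal x' y' z') := by
  unfold bpideal
  with_reducible repeat' first
    | exact bi_refl | assumption | exact beq_refl _ | refine bi_iInf (fun _ => ?_)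
    | refine bi_iSup (fun _ => ?_) | apply bi_inf | apply bi_sup | apply bi_himp | apply bi_compl
    | apply bi_bi | apply bi_mem | apply bi_eq | apply bi_sub | apply bi_app | apply bi_le
    | apply bi_lt

lemma bi_alt1 (h1 : b ≤ beq x x') (h2 : b ≤ beq y y') (h3 : b ≤ beq z z') :
    b ≤ bi (balt1 x y z) (balt1 x' y' z') := by
  unfold balt1
  with_reducible repeat' first
    | exact bi_refl | assumption | exact beq_refl _ | refine bi_iInf (fun _ => ?_)
    | refine bi_iSup (fun _ => ?_) | apply bi_inf | apply bi_sup | apply bi_himp | apply bi_compl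
    | apply bi_bi | apply bi_mem | apply bi_eq | apply bi_sub | apply bi_app | apply bi_le
    | apply bi_lt

lemma bi_alt2 (h1 : b ≤ beq x x') (h2 : b ≤ beq y y') (h3 : b ≤ beq z z') :
    b ≤ bi (balt2 x y z) (balt2 x' y' z') := by
  unfold balt2
  with_reducible repeat' first
    | exact bi_refl | assumption | exact beq_refl _ | refine bi_iInf (fun _ => ?_)
    | refine bi_iSup (fun _ => ?_) | apply bi_inf | apply bi_sup | apply bi_himp | apply bi_compl
    | apply bi_bi | apply bi_mem | apply bi_eq | apply bi_sub | apply bi_app | apply bi_le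
    | apply bi_lt

lemma bi_ultra (h1 : b ≤ beq x x') (h2 : b ≤ beq y y') :
    b ≤ bi (bultra x y) (bultra x' y') := by
  unfold bultra
  with_reducible repeat' first
    | exact bi_refl | assumption | exact beq_refl _ | refine bi_iInf (fun _ => ?_)
    | refine bi_iSup (fun _ => ?_) | apply bi_inf | apply bi_sup | apply bi_himp | apply bi_compl
    | apply bi_bi | apply bi_mem | apply bi_eq | apply bi_sub | apply bi_app | apply bi_le
    | apply bi_lt

lemma bi_dec (h1 : b ≤ beq x x') (h2 : b ≤ beq y y') (h3 : b ≤ beq z z') :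
    b ≤ bi (bdec x y z) (bdec x' y' z') := by
  unfold bdec
  with_reducible repeat' first
    | exact bi_refl | assumption | exact beq_refl _ | refine bi_iInf (fun _ => ?_)
    | refine bi_iSup (fun _ => ?_) | apply bi_inf | apply bi_sup | apply bi_himp | apply bi_compl
    | apply bi_bi | apply bi_mem | apply bi_eq | apply bi_sub | apply bi_app | apply bi_le
    | apply bi_lt | apply bi_fn

lemma bi_carries (h1 : b ≤ beq x x') (h2 : b ≤ beq y y') :
    b ≤ bi (bcarries x y) (bcarries x' y') := by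
  unfold bcarries
  with_reducible repeat' first
    | exact bi_refl | assumption | exact beq_refl _ | refine bi_iInf (fun _ => ?_)
    | refine bi_iSup (fun _ => ?_) | apply bi_inf | apply bi_sup | apply bi_himp | apply bi_compl
    | apply bi_bi | apply bi_mem | apply bi_eq | apply bi_sub | apply bi_app | apply bi_le
    | apply bi_lt | apply bi_ultra | apply bi_dec

lemma bi_meas (h1 : b ≤ beq x x') (h2 : b ≤ beq y y') :
    b ≤ bi (bmeas x y) (bmeas x' y') := by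
  unfold bmeas
  with_reducible repeat' first
    | exact bi_refl | assumption | exact beq_refl _ | refine bi_iInf (fun _ => ?_)
    | refine bi_iSup (fun _ => ?_) | apply bi_inf | apply bi_sup | apply bi_himp | apply bi_compl
    | apply bi_bi | apply bi_mem | apply bi_eq | apply bi_sub | apply bi_app | apply bi_le
    | apply bi_lt | apply bi_ultra | apply bi_dec

lemma bi_strong (h1 : b ≤ beq x x') : b ≤ bi (bstrong x) (bstrong x') := by
  unfold bstrong
  with_reducible repeat' first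
    | exact bi_refl | assumption | exact beq_refl _ | refine bi_iInf (fun _ => ?_)
    | refine bi_iSup (fun _ => ?_) | apply bi_inf | apply bi_sup | apply bi_himp | apply bi_compl
    | apply bi_bi | apply bi_mem | apply bi_eq | apply bi_sub | apply bi_app | apply bi_le
    | apply bi_lt

lemma bi_supm (h1 : b ≤ beq x x') (h2 : b ≤ beq y y') :
    b ≤ bi (bsupm x y) (bsupm x' y') := by
  unfold bsupm
  with_reducible repeat' first
    | exact bi_refl | assumption | exact beq_refl _ | refine bi_iInf (fun _ => ?_)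
    | refine bi_iSup (fun _ => ?_) | apply bi_inf | apply bi_sup | apply bi_himp | apply bi_compl
    | apply bi_bi | apply bi_mem | apply bi_eq | apply bi_sub | apply bi_app | apply bi_le
    | apply bi_lt | apply bi_meas

end BSet

end Pool.Agent.MP_76b292_lc
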