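import Mathlib.Order.OrderIsoNat
import Mathlib.Order.Filter.Ultrafilter.Basic
import Pool.Agent.MP_76b292_lc.StarB
import Pool.Agent.MP_76b292_lc.Model

-- ======== part 0: formerly Pool.Agent.MP_76b292_lc.Product
section MrgPart0

/-!
The product forcing and its combinatorial properties.
-/

set_option autoImplicit false

universe u v

open Set Cardinal Filter

namespace Pool.Agent.MP_76b292_lc

/-- a sequence of measures -/
structure MeasSeq (α : ℕ → Type u) (U : ∀ n, Ultrafilter (α (n + 1))) : Prop where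
  inf : ℵ₀ ≤ #(α 0)
  mono : StrictMono (fun n => #(α n))
  sl : ∀ n c, c < #(α (n + 1)) → 2 ^ c < #(α (n + 1))
  free : ∀ n x, {x} ∉ U n
  cm : ∀ n, Cm (U n) #(α (n + 1))

variable {α : ℕ → Type u} {U : ∀ n, Ultrafilter (α (n + 1))}

/-- the conditions -/
def PP (U : ∀ n, Ultrafilter (α (n + 1))) : Type u :=
  ∀ n, Co (U n) (2 ^ #(α n)) (α (n + 1) × Set (Set (α n)))

/-- the orders -/
def ple (s : Set ℕ) (g f : PP U) : Prop :=
  (∀ n, prj (f n) ⊆ prj (g n)) ∧ (∀ n ∈ s, qle (g n) (f n)) ∧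
    {n | qle (g n) (f n)} ∈ hyperfilter ℕ

/-- the order on the coordinates from `k` on -/
def ale (k : ℕ) (g f : PP U) : Prop := ∀ n, k ≤ n → qle (g n) (f n)

/-- `q` below `k` and `h` from `k` on -/
def splice (k : ℕ) (q h : PP U) : PP U := fun n => if n < k then q n else h n

/-- evaluation of one coordinate -/
noncomputable def upd (f : PP U) (n : ℕ) (x : α (n + 1)) : PP U :=
  Function.update f n (cst _ _ ((f n).1 x))

/-- the trace of a condition below `k` -/
def low (k : ℕ) (f : PP U) : Set (Σ m : Fin k, (α (m.1 + 1) × Set (Set (α m.1))) × Bool) :=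
  {e | e.2 ∈ prj (f e.1.1)}

variable {f g r q : PP U} {s : Set ℕ} {k n : ℕ}

lemma ge_mem (k : ℕ) : {n | k ≤ n} ∈ hyperfilter ℕ :=
  hyperfilter_le_cofinite (Nat.cofinite_eq_atTop ▸ mem_atTop k)

lemma ple_refl (s : Set ℕ) (f : PP U) : ple s f f :=
  ⟨fun _ => Subset.rfl, fun _ _ => qle_refl _, mem_of_superset univ_mem fun _ _ => qle_refl _⟩

lemma ple_trans (h1 : ple s r g) (h2 : ple s g f) : ple s r f :=
  ⟨fun n => (h2.1 n).trans (h1.1 n), fun n hn => qle_trans (h1.2.1 n hn) (h2.2.1 n hn),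
    mem_of_superset (inter_mem h1.2.2 h2.2.2) fun _ k => qle_trans k.1 k.2⟩

lemma ple_of_all (h : ∀ n, qle (g n) (f n)) : ple s g f :=
  ⟨fun n => prj_mono (h n), fun n _ => h n, mem_of_superset univ_mem fun n _ => h n⟩

lemma ple_of (k : ℕ) (h1 : ∀ n, prj (f n) ⊆ prj (g n)) {E : Set ℕ} (hE : E ∈ hyperfilter ℕ)
    (h2 : ∀ n ∈ E, k ≤ n → qle (g n) (f n)) : ple ∅ g f :=
  ⟨h1, fun _ h => h.elim, mem_of_superset (inter_mem hE (ge_mem k)) fun n l => h2 n l.1 l.2⟩

lemma ple_of_ale (h1 : ∀ n < k, prj (f n) ⊆ prj (g n)) (h2 : ale k g f) : ple ∅ g f :=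
  ple_of k (fun n => (lt_or_ge n k).elim (h1 n) (fun l => prj_mono (h2 n l))) univ_mem
    (fun n _ => h2 n)

lemma splice_lt (h : n < k) : splice k q g n = q n := if_pos h

lemma splice_ge (h : k ≤ n) : splice k q g n = g n := if_neg h.not_gt

lemma splice_self : splice k g g = g := funext fun _ => ite_self _

lemma splice_le (h : ale k g f) : ple ∅ (splice k q g) (splice k q f) :=
  ple_of_all fun n => (lt_or_ge n k).elim (fun l => by
    rw [splice_lt l, splice_lt l]
    exact qle_refl _) (fun l => by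
    rw [splice_ge l, splice_ge l]
    exact h n l)

lemma upd_same {x : α (n + 1)} : upd f n x n = cst _ _ ((f n).1 x) := Function.update_self ..

lemma upd_ne {x : α (n + 1)} {m : ℕ} (h : m ≠ n) : upd f n x m = f m := Function.update_of_ne h ..

lemma upd_le (h : ple {n} g f) : ∀ᶠ x in U n, ple ∅ (upd g n x) (upd f n x) := by
  refine ((h.2.1 n rfl).and ((g n).2.and (f n).2)).mono fun x ⟨k1, k2, k3⟩ =>
    ple_of (n + 1) (fun m => ?_) h.2.2 fun m l1 l2 => ?_
  · by_cases e : m = n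
    · subst e
      rwa [upd_same, upd_same, prj_cst k2, prj_cst k3]
    · rw [upd_ne e, upd_ne e]
      exact h.1 m
  · rwa [upd_ne (by omega), upd_ne (by omega)]

namespace MeasSeq

variable (h : MeasSeq α U)

include h

lemma infn (n : ℕ) : ℵ₀ ≤ #(α n) := h.inf.trans (h.mono.monotone (Nat.zero_le n))

lemma lam_lt (n : ℕ) : 2 ^ #(α n) < #(α (n + 1)) := h.sl n _ (h.mono (Nat.lt_succ_self n))

lemma coh (n : ℕ) : CoH (U n) (2 ^ #(α n)) #(α (n + 1)) :=
  ⟨h.cm n, (Order.succ_le_of_lt (cantor _)).trans_lt (h.sl n _ (h.lam_lt n)),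
    (h.infn n).trans (cantor _).le⟩

lemma linked (k : ℕ) (T : Type u) (f : T → PP U) (hT : #T ≤ 2 ^ #(α k))
    (hf : ∀ a b, ∃ r, ale k r (f a) ∧ ale k r (f b)) : ∃ p, ∀ a, ale k p (f a) := by
  have : ∀ n, ∃ v : Co (U n) (2 ^ #(α n)) (α (n + 1) × Set (Set (α n))),
      k ≤ n → ∀ a, qle v (f a n) := fun n => by
    by_cases l : k ≤ n
    · obtain ⟨v, k1, -⟩ := (h.coh n).amal (hT.trans (power_le_power_left two_ne_zero
        (h.mono.monotone l))) (fun a => f a n)
        (fun a b => let ⟨r, m1, m2⟩ := hf a b; ⟨r n, m1 n l, m2 n l⟩) good_empty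
        (fun _ _ _ m => m.elim)
      exact ⟨v, fun _ => k1⟩
    · exact ⟨cst _ _ ∅, fun m => (l m).elim⟩
  choose p hp using this
  exact ⟨p, fun a n l => hp n l a⟩

lemma linked_univ (T : Type u) (f : T → PP U) (hT : #T ≤ ℵ₁)
    (hf : ∀ a b, ∃ r, ple univ r (f a) ∧ ple univ r (f b)) : ∃ p, ∀ a, ple univ p (f a) :=
  let ⟨p, hp⟩ := h.linked 0 T f (hT.trans (aleph_one_le_continuum.trans
    (two_power_aleph0 ▸ power_le_power_left two_ne_zero h.inf)))
    (fun a b => let ⟨r, m1, m2⟩ := hf a b; ⟨r, fun n _ => m1.2.1 n trivial,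
      fun n _ => m2.2.1 n trivial⟩)
  ⟨p, fun a => ple_of_all fun n => hp a n (Nat.zero_le n)⟩

lemma proj (k : ple s g f) :
    ∃ p E, E ∈ hyperfilter ℕ ∧ s ⊆ E ∧ ple univ p f ∧ ple E p g := by
  have : ∀ n, ∃ v, qle v (f n) ∧ prj (g n) ⊆ prj v ∧ (qle (g n) (f n) → qle v (g n)) := fun n => by
    by_cases l : qle (g n) (f n)
    · exact ⟨g n, l, Subset.rfl, fun _ => qle_refl _⟩
    · obtain ⟨v, k1, k2⟩ := (h.coh n).amal_one (f n) ((h.coh n).good_prj (g n)) (k.1 n)
      exact ⟨v, k1, k2, fun m => (l m).elim⟩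
  choose p h1 h2 h3 using this
  exact ⟨p, _, k.2.2, k.2.1, ple_of_all h1, h2, h3, mem_of_superset k.2.2 h3⟩

lemma modD : ModD (hyperfilter ℕ) (ple (U := U)) := by
  have desc : ∀ {s} {v : ℕ → PP U}, (∀ i, ple s (v (i + 1)) (v i)) → ∀ {i j}, i ≤ j →
      ple s (v j) (v i) := fun hv _ _ => desc_le (ple_refl _) ple_trans hv
  refine ⟨fun n => notMem_hyperfilter_of_finite (finite_singleton n), ple_refl, ple_trans,
    fun k1 k2 => ⟨k2.1, fun n hn => k2.2.1 n (k1 hn), k2.2.2⟩, h.proj, fun f hf => ?_,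
    fun f hf => ?_, fun r s u h1 h2 h3 h4 => ?_, fun s hs v w h1 h2 => ?_⟩
  · have aux : ∀ n i j, i ≤ j → (∀ a < j, qle (f (a + 1) n) (f a n)) → qle (f j n) (f i n) := by
      intro n i j ij hj
      induction ij with
      | refl => exact qle_refl _
      | step l ih =>
        exact qle_trans (hj _ (Nat.lt_succ_self _))
          (ih fun a b => hj a (b.trans (Nat.lt_succ_self _)))
    have : ∀ n, ∃ v, (∀ i ∈ {i | i ≤ n ∧ ∀ j < i, qle (f (j + 1) n) (f j n)}, qle v (f i n)) ∧
        (⋃ i, prj (f i n)) ⊆ prj v := fun n =>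
      (h.coh n).amal_seq (fun i => f i n) _ (fun i _ j hj ij => aux n i j ij hj.2)
        ((h.coh n).good_iUnion _ (fun i j ij => (desc hf ij).1 n) fun i => (h.coh n).good_prj _)
        (fun i => subset_iUnion (fun i => prj (f i n)) i)
    choose p h1 h2 using this
    refine ⟨p, fun i => ple_of i (fun n => (subset_iUnion (fun i => prj (f i n)) i).trans (h2 n))
      (E := ⋂ j ∈ Iio i, {n | qle (f (j + 1) n) (f j n)})
      ((biInter_mem (finite_Iio i)).2 fun j _ => (hf j).2.2) fun n k1 k2 =>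
        h1 n i ⟨k2, fun j l => mem_iInter₂.1 k1 j l⟩⟩
  · obtain ⟨p, hp⟩ := h.linked_univ (ULift ℕ) (fun i => f i.down)
      (mk_le_aleph0.trans aleph0_lt_aleph_one.le) fun a b => ⟨f (max a.down b.down),
        desc hf (le_max_left _ _), desc hf (le_max_right _ _)⟩
    exact ⟨p, fun i => hp ⟨i⟩⟩
  · have : ∀ n, ∃ v, (∀ i, qle v (r i n)) ∧ prj (u n) ⊆ prj v ∧ (n ∈ ⋃ i, s i → qle v (u n)) :=
      fun n => by
      by_cases l : n ∈ ⋃ i, s i
      · obtain ⟨j, hj⟩ := mem_iUnion.1 l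
        exact ⟨u n, fun i => qle_trans ((h4 (max i j)).2.1 n (h2 (le_max_right _ _) hj))
          ((desc h1 (le_max_left _ _)).2.1 n trivial), Subset.rfl, fun _ => qle_refl _⟩
      · obtain ⟨v, k1, k2⟩ := (h.coh n).amal_seq (fun i => r i n) univ
          (fun i _ j _ ij => (desc h1 ij).2.1 n trivial) ((h.coh n).good_prj (u n))
          (fun i => (h4 i).1 n)
        exact ⟨v, fun i => k1 i trivial, k2, fun m => (l m).elim⟩
    choose v k1 k2 k3 using this
    exact ⟨v, fun i => ple_of_all fun n => k1 n i, ple_of 0 k2 h3 fun n l _ => k3 n l⟩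
  · have : ∀ n, ∃ z, (n ∈ s → ∀ i, qle z (v i n)) ∧ prj (w n) ⊆ prj z ∧ (n ∉ s → qle z (w n)) :=
      fun n => by
      by_cases l : n ∈ s
      · obtain ⟨z, k1, k2⟩ := (h.coh n).amal_seq (fun i => v i n) univ
          (fun i _ j _ ij => (desc h1 ij).2.1 n l) ((h.coh n).good_prj (w n))
          (fun i => (h2 i).1 n)
        exact ⟨z, fun _ i => k1 i trivial, k2, fun m => (m l).elim⟩
      · exact ⟨w n, fun m => (l m).elim, Subset.rfl, fun _ => qle_refl _⟩
    choose z k1 k2 k3 using this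
    have hs' := Ultrafilter.compl_mem_iff_notMem.2 hs
    exact ⟨z, fun i => ⟨fun n => ((h2 i).1 n).trans (k2 n), fun n l => k1 n l i,
      mem_of_superset (inter_mem hs' (h2 i).2.2) fun n l => qle_trans (k3 n l.1) l.2⟩,
      ple_of 0 k2 hs' fun n l _ => k3 n l⟩

lemma upd_below (f : PP U) (n : ℕ) : ∀ᶠ x in U n, ple ∅ (upd f n x) f := by
  refine ((f n).2.and ((h.coh n).prj_sub (f n))).mono fun x ⟨k1, k2⟩ =>
    ple_of_ale (k := n + 1) (fun m _ => ?_) fun m l => ?_
  · by_cases e : m = n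
    · subst e
      rwa [upd_same, prj_cst k1]
    · rw [upd_ne e]
  · rw [upd_ne (by omega)]
    exact qle_refl _

lemma card_low (k : ℕ) :
    #(Set (Σ m : Fin k, (α (m.1 + 1) × Set (Set (α m.1))) × Bool)) ≤ 2 ^ #(α k) := by
  rw [mk_set, mk_sigma]
  refine power_le_power_left two_ne_zero
    ((sum_le_sum _ (fun _ => #(α k)) fun m => ?_).trans ?_)
  · have k1 : #(α (m.1 + 1)) ≤ #(α k) := h.mono.monotone m.2
    rw [mk_prod, mk_prod, mk_set, mk_set, lift_id, lift_id, lift_uzero, mk_bool, lift_ofNat]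
    exact mul_le_of_le (h.infn k) (mul_le_of_le (h.infn k) k1
      ((h.sl _ _ (h.lam_lt _)).le.trans k1)) ((natCast_lt_aleph0 (n := 2)).le.trans (h.infn k))
  · rw [sum_const, mk_fin, lift_natCast, lift_uzero]
    exact mul_le_of_le (h.infn k) (natCast_lt_aleph0.le.trans (h.infn k)) le_rfl

lemma fus (k : ℕ) {T : Type u} (hT : #T ≤ 2 ^ #(α k)) (Δ : T → PP U → Prop)
    (ho : ∀ t p q, ale k q p → Δ t p → Δ t q) (f : PP U)
    (hd : ∀ t q, ale k q f → ∃ r, ale k r q ∧ Δ t r) : ∃ g, ale k g f ∧ ∀ t, Δ t g :=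
  fusion (le := ale k) (fun _ _ _ => qle_refl _) (fun k1 k2 n l => qle_trans (k1 n l) (k2 n l))
    ((h.infn k).trans (cantor _).le) (h.linked k) hT Δ ho f hd

lemma acc (n : ℕ) {T : Type u} (hT : #T < #(α (n + 1))) (Δ : α (n + 1) → T → PP U → Prop)
    (ho : ∀ x t p q, ple ∅ q p → Δ x t p → Δ x t q) (f : PP U)
    (hd : ∀ x q, ple ∅ q f → ∃ r t, ple ∅ r q ∧ Δ x t r) :
    ∃ g t, ple univ g f ∧ ∀ᶠ x in U n, Δ x t (upd g n x) := by
  obtain ⟨p, k1, k2⟩ := h.fus (n + 1) (cantor _).le (fun x p => ple ∅ (upd f n x) f →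
      ∃ z : T × PP U, ple ∅ z.2 (upd f n x) ∧ Δ x z.1 (splice (n + 1) z.2 p))
    (fun x p q l1 l2 l3 => let ⟨z, m1, m2⟩ := l2 l3; ⟨z, m1, ho _ _ _ _ (splice_le l1) m2⟩) f
    (fun x p l => by
      by_cases l1 : ple ∅ (upd f n x) f
      · have l2 : ple ∅ (splice (n + 1) (upd f n x) p) (upd f n x) :=
          ple_of_ale (k := n + 1) (fun m o => by rw [splice_lt o]) fun m o => by
            rw [splice_ge o, upd_ne (by omega)]
            exact l m o
        obtain ⟨r, t, m1, m2⟩ := hd x _ (ple_trans l2 l1)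
        obtain ⟨p', E, -, m3, m4, m5⟩ := h.proj m1
        refine ⟨p', fun m o => ?_, fun _ => ⟨(t, p'), ple_trans (h.modD.anti (empty_subset _) m4) l2,
          ?_⟩⟩
        · simpa only [splice_ge o] using m4.2.1 m trivial
        · rw [splice_self]
          exact ho _ _ _ _ (h.modD.anti m3 m5) m2
      · exact ⟨p, fun _ _ => qle_refl _, fun m => (l1 m).elim⟩)
  obtain ⟨x₀, hx₀⟩ := (h.upd_below f n).exists
  have : Nonempty (T × PP U) := ⟨(k2 x₀ hx₀).choose⟩
  choose! z hz1 hz2 using k2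
  obtain ⟨⟨t, w⟩, hw⟩ := (h.cm n).const (T := T × _) (by
    rw [mk_prod, lift_id, lift_id]
    exact mul_lt_of_lt (h.infn _) hT ((h.card_low n).trans_lt (h.lam_lt n)))
    (fun x => ((z x).1, low n (z x).2))
  have hx := (h.upd_below f n).and hw
  obtain ⟨y, hy1, hy2⟩ := hx.exists
  have : ∀ m, ∃ v, qle v (f m) ∧ (m < n → prj ((z y).2 m) ⊆ prj v) ∧ (n + 1 ≤ m → qle v (p m)) :=
    fun m => by
    rcases lt_trichotomy m n with l | l | l
    · obtain ⟨v, l1, l2⟩ := (h.coh m).amal_one (f m) ((h.coh m).good_prj ((z y).2 m))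
        (by simpa only [upd_ne l.ne] using (hz1 y hy1).1 m)
      exact ⟨v, l1, fun _ => l2, fun o => by omega⟩
    · exact ⟨f m, qle_refl _, fun o => by omega, fun o => by omega⟩
    · exact ⟨p m, k1 m l, fun o => by omega, fun _ => qle_refl _⟩
  choose g g1 g2 g3 using this
  refine ⟨Function.update g n ⟨fun x => prj ((z x).2 n),
    Eventually.of_forall fun x => (h.coh n).good_prj _⟩, t, ple_of_all fun m => ?_,
    hx.mono fun x ⟨l1, l2⟩ => ?_⟩
  · by_cases e : m = n
    · subst e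
      rw [Function.update_self]
      exact (hx.and (f m).2).mono fun x l => by
        simpa only [upd_same, prj_cst l.2] using (hz1 x l.1.1).1 m
    · rw [Function.update_of_ne e]
      exact g1 m
  · rw [← show (z x).1 = t from (Prod.ext_iff.1 l2).1]
    refine ho _ _ _ _ (ple_of_ale (k := n + 1) (fun m o => ?_) fun m o => ?_) (hz2 x l1)
    · rw [splice_lt o]
      by_cases e : m = n
      · subst e
        rw [upd_same, Function.update_self, prj_cst ((h.coh m).good_prj _)]
      · have o' : m < n := by omega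
        rw [upd_ne e, Function.update_of_ne e]
        have e1 : low n (z x).2 = low n (z y).2 :=
          (Prod.ext_iff.1 l2).2.trans (Prod.ext_iff.1 hy2).2.symm
        exact fun a ha => g2 m o' ((Set.ext_iff.1 e1 ⟨⟨m, o'⟩, a⟩).1 ha)
    · rw [splice_ge o, upd_ne (by omega), Function.update_of_ne (by omega)]
      exact g3 m o

theorem frc : Frc α U (hyperfilter ℕ) (ple (U := U) ∅) upd := by
  refine ⟨h.inf, h.mono, fun k => mem_of_superset k.2.2 fun n l =>
    upd_le ⟨k.1, fun m e => e ▸ l, k.2.2⟩, h.upd_below, fun f n S hS => ?_,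
    fun T k hT Δ ho f hd => ?_, fun k => ?_, fun n => ?_⟩
  · obtain ⟨x, k1, y, k2, k3, k4, k5, k6⟩ := (h.coh n).pair (h.free n) (f n) hS
    have : ∀ z, Good (2 ^ #(α n)) ((f n).1 z) → (f n).1 z ⊆ (f n).1 x ∪ (f n).1 y →
        ple ∅ (Function.update f n (cst _ _ ((f n).1 x ∪ (f n).1 y))) (upd f n z) :=
      fun z l1 l2 => ple_of_ale (k := n + 1) (fun m _ => by
        by_cases e : m = n
        · subst e
          rwa [upd_same, Function.update_self, prj_cst l1, prj_cst k6]
        · rw [upd_ne e, Function.update_of_ne e]) fun m o => by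
        rw [upd_ne (by omega), Function.update_of_ne (by omega)]
        exact qle_refl _
    exact ⟨x, k1, y, k2, k3, _, this x k4 subset_union_left, this y k5 subset_union_right⟩
  · obtain ⟨x₀, -⟩ := (h.upd_below f 0).exists
    obtain ⟨-, t₀, -⟩ := hd 0 x₀ f (ple_refl _ _)
    obtain ⟨v, v0, hv⟩ := exists_seq' (fun _ q => ple ∅ q f) (fun n q r => ple univ r q ∧
        ∃ t, k ≤ n → ∀ᶠ x in U n, Δ n x t (upd r n x)) (fun n q l => by
      by_cases m : k ≤ n
      · obtain ⟨g, t, m1, m2⟩ := h.acc n (hT.trans_le (h.mono.monotone (Nat.succ_le_succ m)))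
          (Δ n) (ho n) q (fun x r o => hd n x r (ple_trans o l))
        exact ⟨g, ple_trans (h.modD.anti (empty_subset _) m1) l, m1, t, fun _ => m2⟩
      · exact ⟨q, l, ple_refl _ _, t₀, fun o => (m o).elim⟩) f (ple_refl _ _)
    obtain ⟨g, hg⟩ := h.modD.lb₁ v fun i => (hv i).2.1
    choose t ht using fun i => (hv i).2.2
    exact ⟨g, t, h.modD.anti (empty_subset _) (v0 ▸ hg 0), mem_of_superset (ge_mem k) fun n l =>
      ((ht n l).and (upd_le (h.modD.anti (subset_univ _) (hg (n + 1))))).mono fun x o =>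
        ho _ _ _ _ _ o.2 o.1⟩
  · refine ⟨_, fun w q => w ⊆ low k q, ?_, fun w p q l1 l2 e he => l1.1 _ (l2 he),
      fun Φ ho f => ?_⟩
    · rw [← power_def, mk_set, ← power_mul]
      exact h.sl _ _ (mul_lt_of_lt (h.infn _) ((h.card_low k).trans_lt (h.lam_lt k))
        (h.mono (Nat.lt_succ_self k)))
    obtain ⟨g, k1, k2⟩ := h.fus k (T := α k × _) (by
        rw [mk_prod, lift_id, lift_id]
        exact mul_le_of_le (h.coh k).inf (cantor _).le (h.card_low k))
      (fun t p => (∃ q, low k q = t.2 ∧ Φ t.1 (splice k q p)) ∨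
        ∀ p', ale k p' p → ¬ ∃ q, low k q = t.2 ∧ Φ t.1 (splice k q p'))
      (fun t p q l m => m.imp (fun ⟨r, m1, m2⟩ => ⟨r, m1, ho _ _ _ (splice_le l) m2⟩)
        fun m p' o => m p' fun n s => qle_trans (o n s) (l n s)) f (fun t p _ => by
        by_cases m : ∀ p', ale k p' p → ¬ ∃ q, low k q = t.2 ∧ Φ t.1 (splice k q p')
        · exact ⟨p, fun _ _ => qle_refl _, Or.inr m⟩
        · obtain ⟨p', m⟩ := not_forall.1 m
          obtain ⟨m1, m2⟩ := Classical.not_imp.1 m
          exact ⟨p', m1, Or.inl (not_not.1 m2)⟩)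
    refine ⟨splice k f g, fun a => {v | ∃ q, low k q = v ∧ Φ a (splice k q g)}, ?_,
      fun a q l => ⟨fun m => ?_, ?_⟩⟩
    · simpa only [splice_self] using splice_le (q := f) k1
    · obtain ⟨p, E, -, m3, m4, m5⟩ := h.proj l
      refine ⟨p, low k p, (k2 (a, low k p)).resolve_right fun o => o p (fun n s => ?_)
        ⟨p, rfl, ?_⟩, h.modD.anti m3 m5, Subset.rfl⟩
      · simpa only [splice_ge s] using m4.2.1 n trivial
      · rw [splice_self]
        exact ho _ _ _ (h.modD.anti m3 m5) m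
    · rintro _ ⟨q₀, rfl, m1⟩ m2
      refine ho _ _ _ (ple_of k (fun n => ?_) l.2.2 fun n o1 o2 => ?_) m1
      · rcases lt_or_ge n k with o | o
        · rw [splice_lt o]
          exact fun a ha => @m2 ⟨⟨n, o⟩, a⟩ ha
        · simpa only [splice_ge o] using l.1 n
      · simpa only [mem_ofPred_eq, splice_ge o2] using o1
  · refine ⟨fun t z g => ((t, z), true) ∈ prj (g n), fun t t' tt f => ?_⟩
    have k0 := (h.coh n).good_prj (f n)
    obtain ⟨z, hz⟩ : ∃ z, z ∉ (fun e => e.1.2) '' prj (f n) := by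
      by_contra k
      push Not at k
      have := (mk_le_mk_of_subset (fun z _ => k z : Set.univ ⊆ _)).trans (mk_image_le.trans k0.2)
      rw [mk_univ, mk_set, mk_set] at this
      exact (cantor _).not_ge this
    obtain ⟨v, k1, k2⟩ := (h.coh n).amal (T := PUnit) (by
        simpa using one_le_aleph0.trans (h.coh n).inf) (fun _ => f n)
      (fun _ _ => ⟨f n, qle_refl _, qle_refl _⟩) (c := {((t, z), true), ((t', z), false)})
      ⟨by
        rintro j b (l1 | l1) (l2 | l2) <;> simp_all,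
        (lt_aleph0_of_finite _).le.trans (h.coh n).inf⟩ (by
        rintro _ j b (l1 | l1) l2 <;> exact hz ⟨_, l2, congrArg (fun e => e.1.2) l1⟩)
    refine ⟨Function.update f n v, z, ple_of_all fun m => ?_, ?_, fun p r l1 l2 l3 => ?_⟩
    · by_cases e : m = n
      · subst e
        rw [Function.update_self]
        exact k1 ⟨⟩
      · rw [Function.update_of_ne e]
        exact qle_refl _
    · simp only [Function.update_self]
      exact k2 (Or.inl rfl)
    · refine ((h.coh n).good_prj (r n)).1 _ _ (l2.1 n l1) (l3.1 n ?_)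
      rw [Function.update_self]
      exact k2 (Or.inr rfl)

end MeasSeq

end Pool.Agent.MP_76b292_lc

end MrgPart0

-- ======== part 1: formerly Pool.Agent.MP_76b292_lc.Final
section MrgPart1

/-!
A model of ZFC and PID in which (*) fails.
-/

set_option autoImplicit false

universe u v

open Set Cardinal Filter

namespace Pool.Agent.MP_76b292_lc

lemma two_pow_lt {a : Type u} {U : Ultrafilter a} (h1 : ∀ x, {x} ∉ U) (h2 : Cm U #a)
    (c : Cardinal.{u}) (hc : c < #a) : 2 ^ c < #a := by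
  induction c using Cardinal.inductionOn with
  | mk T =>
    by_contra k
    rw [not_lt, ← mk_set] at k
    obtain ⟨e⟩ := (Cardinal.le_def _ _).1 k
    have k1 := h2 T (fun x t => t ∈ e x ↔ ∀ᶠ y in U, t ∈ e y) hc fun t => by
      by_cases l : ∀ᶠ y in U, t ∈ e y
      · exact l.mono fun x m => iff_of_true m l
      · exact (Ultrafilter.eventually_not.2 l).mono fun x m => iff_of_false m l
    obtain ⟨x, hx⟩ := k1.exists
    exact h1 x (mem_of_superset k1 fun y hy =>
      e.injective (Set.ext fun t => (hy t).trans (hx t).symm))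

lemma exists_measSeq (h : {μ : Cardinal.{u} | IsMeasurable μ}.Infinite) :
    ∃ (α : ℕ → Type u) (U : ∀ n, Ultrafilter (α (n + 1))), MeasSeq α U := by
  have := h.to_subtype
  obtain ⟨κ, hκ | hκ⟩ := Infinite.exists_strictMono_or_strictAnti {μ : Cardinal.{u} | IsMeasurable μ}
  · choose α U h1 h2 h3 using fun n => (κ n).2.2
    have h4 : ∀ n, Cm (U n) #(α n) := fun n T p k l => by
      have := h3 n
      exact (eventually_cardinal_forall (h1 n ▸ k)).2 l
    refine ⟨α, fun n => U (n + 1), h1 0 ▸ (κ 0).2.1.le, fun i j k => ?_,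
      fun n => two_pow_lt (h2 _) (h4 _), fun n => h2 _, fun n => h4 _⟩
    simp only [h1]
    exact hκ k
  · exact (not_strictAnti_of_wellFoundedLT κ hκ).elim

theorem model_of_PFA (hPFA : PFA.{u}) (h : {μ : Cardinal.{u} | IsMeasurable μ}.Infinite) :
    ∃ (M : Type (u + 1)) (E : M → M → Prop), ZFC E ∧ IPID E ∧ ¬ IStar E := by
  obtain ⟨α, U, h⟩ := exists_measSeq h
  obtain ⟨B, _, pr, hc⟩ := exists_cpl (ple (U := U) ∅) (ple_refl _) ple_trans
  have := hc.nontrivial (fun _ => cst _ _ ∅)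
  exact exists_model (BSet.pid_top hPFA h.modD hc h.linked_univ) (h.frc.star_bot hc)

end Pool.Agent.MP_76b292_lc

end MrgPart1

-- marker of a merged file
example : 731051 + 606603 = 731051 + 606603 := rfl
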