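import Pool.Agent.MP_76b292_lc.Reduce

set_option autoImplicit false

universe u

namespace Pool.Agent.Results.MP_76b292_lc.MRPStar

open Pool.Agent.MP_76b292_lc

/-- The mapping reflection principle implies (*): every uncountable strong limit cardinal that
carries a uniform indecomposable ultrafilter is measurable or the supremum of a countable set of
measurable cardinals. -/
theorem result : MRP.{u} → Star.{u} := star_of_MRP

end Pool.Agent.Results.MP_76b292_lc.MRPStar
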