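import Mathlib
import Pool.Agent.MP_76b292_lc.Final

set_option autoImplicit false

universe u

namespace Pool.Agent.Results.MP_76b292_lc.PIDnotStar

open Pool.Agent.MP_76b292_lc

/-- From PFA and infinitely many measurable cardinals, a model of ZFC and the P-ideal dichotomy
in which (*) fails. -/
theorem result : PFA.{u} → {μ : Cardinal.{u} | IsMeasurable μ}.Infinite →
    ∃ (M : Type (u + 1)) (E : M → M → Prop), ZFC E ∧ IPID E ∧ ¬ IStar E := model_of_PFA

end Pool.Agent.Results.MP_76b292_lc.PIDnotStar
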